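import Pool.Agent.LineQ.Unb

/-! The base of route (C): `PP e n s` in the window `100 n ln n ≤ k ^ 2 ≤ 101 n ln n`. -/

namespace LineQ

open Finset DiamEven DiamSqrt

variable {n : ℕ}

/-- almost balanced pairs -/
theorem small_shift (k s : ℕ) (hk : 10 ^ 10 ≤ k) (hW : Win k s n) (hV : Vlog n)
    (F G : Finset (Finset (Fin n)))
    (hF : IsAntichain (· ⊆ ·) (F : Set (Finset (Fin n)))) (hFn : F.Nonempty)
    (hG : IsAntichain (· ⊆ ·) (G : Set (Finset (Fin n)))) (hGn : G.Nonempty)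
    (hd : ∀ A ∈ F, ∀ B ∈ G, (symmDiff A B).card ≤ 2 * s)
    (hsm : ∀ r : ℝ, 0 ≤ r → r ≤ 1 → Lg n (s - r) ≤ Real.log (n.choose s) - r / n)
    (hcF : n.choose s ≤ F.card)
    (hcG : Real.log (n.choose s) - 2 / (n : ℝ) ^ 45 ≤ Real.log G.card) :
    F.card ≤ n.choose s := by
  obtain ⟨h1, h2, h3⟩ := win_fac k s n hk hW
  have hW' := hW
  obtain ⟨hn, h4, h5⟩ := hW'
  have hkR : (10 : ℝ) ^ 10 ≤ k := by exact_mod_cast hk
  have hn10 : (1000 : ℝ) ≤ n := by linarith [show (1000 : ℝ) ≤ 10 ^ 10 by norm_num]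
  have hk10 : (1000 : ℝ) ≤ k := by linarith [show (1000 : ℝ) ≤ 10 ^ 10 by norm_num]
  have hn0 : (0 : ℝ) < n := by linarith
  have hn1 : 1000 ≤ n := by exact_mod_cast hn10
  have hk1 : 1000 ≤ k := by exact_mod_cast hk10
  have hnR : (n : ℝ) = 2 * s + k := by exact_mod_cast hn
  have h16 : 16 * (k : ℝ) ≤ n := by exact_mod_cast h2
  have hs1 : 2 ≤ s := by omega
  have hsR : (2 : ℝ) ≤ s := by exact_mod_cast hs1
  obtain ⟨f, hf⟩ := exists_isDist hFn
  obtain ⟨g, hg⟩ := exists_isDist hGn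
  have hp43 : (0 : ℝ) < n ^ 43 := by positivity
  have e44 : (n : ℝ) ^ 44 = n ^ 43 * n := by ring
  have e45 : (n : ℝ) ^ 45 = n ^ 43 * n * n := by ring
  have e48 : (n : ℝ) ^ 48 = n ^ 43 * n ^ 5 := by ring
  have e50 : (n : ℝ) ^ 50 = n ^ 43 * n ^ 7 := by ring
  have hC0 : (0 : ℝ) < n.choose s := by exact_mod_cast Nat.choose_pos (by omega)
  -- the mean of `g`
  obtain ⟨r, hr⟩ : ∃ r : ℝ, r = 2 / (n : ℝ) ^ 44 := ⟨_, rfl⟩
  have hr0 : 0 ≤ r := by rw [hr]; positivity
  have hr43 : r + 1 / (n : ℝ) ^ 48 ≤ 1 / (n : ℝ) ^ 43 := by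
    have a1 : r ≤ 1 / 2 * (1 / (n : ℝ) ^ 43) := by
      rw [hr, e44, ← div_div, div_le_iff₀ hn0]
      have : 0 < 1 / (n : ℝ) ^ 43 := by positivity
      have e : (2 : ℝ) / n ^ 43 = 2 * (1 / (n : ℝ) ^ 43) := by ring
      rw [e]
      nlinarith
    have a2 : 1 / (n : ℝ) ^ 48 ≤ 1 / 2 * (1 / (n : ℝ) ^ 43) := by
      rw [e48, ← div_div, div_le_iff₀ (by positivity)]
      have : 0 < 1 / (n : ℝ) ^ 43 := by positivity
      have a3 : (2 : ℝ) ≤ n ^ 5 := by
        calc (2 : ℝ) ≤ n := by linarith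
          _ = n ^ 1 := (pow_one _).symm
          _ ≤ n ^ 5 := pow_le_pow_right₀ (by linarith) (by norm_num)
      nlinarith
    linarith
  have h43 : 1 / (n : ℝ) ^ 43 ≤ 1 := by
    rw [div_le_one hp43]
    exact one_le_pow₀ (by linarith)
  have hr1 : r ≤ 1 := by
    have : 0 ≤ 1 / (n : ℝ) ^ 48 := by positivity
    linarith
  have hLr := hsm r hr0 hr1
  have hrn : r / n = 2 / (n : ℝ) ^ 45 := by
    rw [hr, div_div]
    congr 1
  rw [hrn] at hLr
  have hmean : ∑ X ∈ (univ : Finset (Fin n)).powerset, (g X : ℝ) ≤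
      2 ^ n * ((k : ℝ) / 2 + 1 / (n : ℝ) ^ 43) := by
    refine (vlog_level hV G hG hGn g hg (s - r) (k + 2 * r) (by linarith) (by rw [hnR]; ring)
      (by linarith) (by linarith) (hLr.trans hcG)).trans ?_
    apply mul_le_mul_of_nonneg_left _ (by positivity)
    have := TT_full k s n hk hW (k + 2 * r) (by linarith)
    linarith
  -- the size of `G`
  have hGc : (0 : ℝ) < G.card := by exact_mod_cast card_pos.2 hGn
  have hcG' : (n.choose (s - 1) : ℝ) + (1 - 1 / (n : ℝ) ^ 43) * DiamEven.dd n s ≤ G.card := by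
    have b1 : (n.choose s : ℝ) * (1 - 2 / (n : ℝ) ^ 45) ≤ G.card := by
      have b2 : Real.exp (Real.log (n.choose s) - 2 / (n : ℝ) ^ 45) ≤ G.card := by
        rw [← Real.le_log_iff_exp_le hGc]
        exact hcG
      rw [sub_eq_add_neg, Real.exp_add, Real.exp_log hC0] at b2
      have b3 := Real.add_one_le_exp (-(2 / (n : ℝ) ^ 45))
      refine le_trans ?_ b2
      apply mul_le_mul_of_nonneg_left _ hC0.le
      linarith
    have b4 : DiamEven.dd n s = (n.choose s : ℝ) - n.choose (s - 1) := by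
      obtain ⟨a, rfl⟩ : ∃ a, s = a + 1 := ⟨s - 1, by omega⟩
      exact DiamEven.dd_succ n a
    have b5 := dd_mul n s (by omega)
    have b6 : 0 ≤ DiamEven.dd n s := dd_nonneg n s (by omega)
    have b7 : 2 * (n.choose s : ℝ) ≤ DiamEven.dd n s * n := by
      have b8 : DiamEven.dd n s * ((n : ℝ) - s + 1) ≤ DiamEven.dd n s * n := by
        apply mul_le_mul_of_nonneg_left _ b6
        linarith
      have b9 : 2 * (n.choose s : ℝ) ≤ (n.choose s : ℝ) * ((n : ℝ) - 2 * s + 1) := by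
        have : (2 : ℝ) ≤ (n : ℝ) - 2 * s + 1 := by linarith
        nlinarith
      linarith
    have b10 : (n.choose s : ℝ) * (2 / (n : ℝ) ^ 45) ≤ 1 / (n : ℝ) ^ 43 * DiamEven.dd n s := by
      have b11 : (n.choose s : ℝ) * (2 / (n : ℝ) ^ 45) =
          1 / (n : ℝ) ^ 43 * ((2 * (n.choose s : ℝ)) / n / n) := by
        rw [e45]
        field_simp
      rw [b11]
      apply mul_le_mul_of_nonneg_left _ (by positivity)
      rw [div_le_iff₀ hn0, div_le_iff₀ hn0]
      nlinarith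
    have b12 : (n.choose (s - 1) : ℝ) = n.choose s - DiamEven.dd n s := by rw [b4]; ring
    rw [b12]
    nlinarith
  -- the law
  obtain ⟨p, hp⟩ : ∃ p : ℝ, p = Real.exp (-((k : ℝ) ^ 2 / (2 * n))) := ⟨_, rfl⟩
  have hp0 : 0 ≤ p := by rw [hp]; positivity
  have htail : ∑ j ∈ range (s + 1), (n.choose j : ℝ) ≤ p * 2 ^ n := by
    rw [hp]
    exact tailp s k hn (by omega)
  have hp50 : p ≤ 1 / (n : ℝ) ^ 50 := by
    rw [hp, ← log_pow_exp (by omega) 50]
    apply Real.exp_le_exp.2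
    apply neg_le_neg
    rw [le_div_iff₀ (by positivity)]
    push_cast
    nlinarith
  have hpe : p ≤ 1 / (n : ℝ) ^ 43 := by
    refine hp50.trans ?_
    rw [e50]
    apply one_div_le_one_div_of_le hp43
    have : (1 : ℝ) ≤ n ^ 7 := one_le_pow₀ (by linarith)
    nlinarith
  obtain ⟨Z, hZ⟩ := crossLaw s k hn (by omega) (by omega) F G hF hG hd f g hf hg p
    (1 / (n : ℝ) ^ 43) (by positivity) hcF hcG' hmean htail
  have hδ : 100 * (n : ℝ) ^ 4 * (p + 1 / (n : ℝ) ^ 43) ≤ 1 / (n : ℝ) ^ 38 := by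
    have c1 : 100 * (n : ℝ) ^ 4 * (p + 1 / (n : ℝ) ^ 43) ≤
        100 * (n : ℝ) ^ 4 * (2 / (n : ℝ) ^ 43) := by
      apply mul_le_mul_of_nonneg_left _ (by positivity)
      have : 2 / (n : ℝ) ^ 43 = 1 / (n : ℝ) ^ 43 + 1 / (n : ℝ) ^ 43 := by ring
      linarith
    refine c1.trans ?_
    have c2 : (n : ℝ) ^ 43 = n ^ 38 * n ^ 4 * n := by ring
    rw [c2]
    have c3 : 100 * (n : ℝ) ^ 4 * (2 / (n ^ 38 * n ^ 4 * n)) = 200 / n * (1 / (n : ℝ) ^ 38) := by
      field_simp
      norm_num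
    rw [c3]
    have c4 : 200 / (n : ℝ) ≤ 1 := by
      rw [div_le_one hn0]; linarith
    have c5 : 0 < 1 / (n : ℝ) ^ 38 := by positivity
    nlinarith
  refine card_le_of_law s k hn (by omega) hs1 F hF f hf Z _ p (by positivity) hp0 hZ htail ?_ ?_
  · have d1 : (n : ℝ) * (100 * n ^ 4 * (p + 1 / (n : ℝ) ^ 43)) ≤ n * (1 / (n : ℝ) ^ 38) :=
      mul_le_mul_of_nonneg_left hδ hn0.le
    have d2 : 2 * ((s : ℝ) + 1) * p ≤ n * (1 / (n : ℝ) ^ 38) := by
      have d3 : 2 * ((s : ℝ) + 1) ≤ n := by linarith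
      have d4 : p ≤ 1 / (n : ℝ) ^ 38 := by
        refine hpe.trans ?_
        apply one_div_le_one_div_of_le (by positivity)
        exact pow_le_pow_right₀ (by linarith) (by norm_num)
      apply mul_le_mul d3 d4 hp0 hn0.le
    have d5 : 4 * (n : ℝ) ^ 4 * (n * (100 * n ^ 4 * (p + 1 / (n : ℝ) ^ 43)) +
        2 * ((s : ℝ) + 1) * p) ≤ 4 * (n : ℝ) ^ 4 * (2 * (n * (1 / (n : ℝ) ^ 38))) := by
      apply mul_le_mul_of_nonneg_left _ (by positivity)
      linarith
    refine d5.trans ?_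
    have d6 : 4 * (n : ℝ) ^ 4 * (2 * (n * (1 / (n : ℝ) ^ 38))) = 8 / (n : ℝ) ^ 33 := by
      have : (n : ℝ) ^ 38 = n ^ 33 * n ^ 5 := by ring
      rw [this]
      field_simp
      norm_num
    rw [d6, div_le_one (by positivity)]
    calc (8 : ℝ) ≤ n := by linarith
      _ = n ^ 1 := (pow_one _).symm
      _ ≤ n ^ 33 := pow_le_pow_right₀ (by linarith) (by norm_num)
  · have d1 : 12 * (n : ℝ) ^ 2 * (100 * n ^ 4 * (p + 1 / (n : ℝ) ^ 43)) ≤
        12 * (n : ℝ) ^ 2 * (1 / (n : ℝ) ^ 38) :=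
      mul_le_mul_of_nonneg_left hδ (by positivity)
    refine lt_of_le_of_lt d1 ?_
    have d6 : 12 * (n : ℝ) ^ 2 * (1 / (n : ℝ) ^ 38) = 12 / (n : ℝ) ^ 36 := by
      have : (n : ℝ) ^ 38 = n ^ 36 * n ^ 2 := by ring
      rw [this]
      field_simp
    rw [d6, div_lt_one (by positivity)]
    calc (12 : ℝ) < n := by linarith
      _ = n ^ 1 := (pow_one _).symm
      _ ≤ n ^ 36 := pow_le_pow_right₀ (by linarith) (by norm_num)

/-- the base for an ordered pair, with the numerics as hypotheses -/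
theorem base_aux (k s : ℕ) (hk : 10 ^ 10 ≤ k) (hW : Win k s n) (hV : Vlog n) (e : ℝ)
    (hsm1 : ∀ x : ℝ, 0 ≤ x → x ≤ 1 → Lg n (s + x) - Real.log (n.choose s) ≤ x)
    (hsm2 : ∀ r : ℝ, 0 ≤ r → r ≤ 1 → Lg n (s - r) ≤ Real.log (n.choose s) - r / n)
    (hunb : ∀ x δ f g : ℝ, 0 ≤ δ → δ ≤ x → x ≤ 3 * k / 8 →
      f = Lg n (s + x) - Real.log (n.choose s) →
      g ≤ Lg n (s - (x - δ)) - Real.log (n.choose s) →
      e * |f - g| ≤ 1 → 0 < f + g + e / 4 * (f - g) ^ 2 →
      x ≤ 48 * δ * k ∧ x ^ 2 ≤ 48 * δ * k)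
    (hbig : ∀ (m : ℕ) (f g : ℝ), 3 * (k : ℝ) / 8 - 1 ≤ m → (m : ℝ) ≤ 3 * k / 8 →
      0 ≤ f → f ≤ Real.log (n.choose (n / 2)) - Real.log (n.choose s) →
      g ≤ Real.log (n.choose (s + 1 - m)) - Real.log (n.choose s) →
      e * |f - g| ≤ 1 → f + g + e / 4 * (f - g) ^ 2 ≤ 0)
    (F G : Finset (Finset (Fin n)))
    (hF : IsAntichain (· ⊆ ·) (F : Set (Finset (Fin n)))) (hFn : F.Nonempty)
    (hG : IsAntichain (· ⊆ ·) (G : Set (Finset (Fin n)))) (hGn : G.Nonempty)
    (hd : ∀ A ∈ F, ∀ B ∈ G, (symmDiff A B).card ≤ 2 * s)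
    (f g : ℝ) (hf : f = Real.log (F.card / n.choose s)) (hg : g = Real.log (G.card / n.choose s))
    (hgf : g ≤ f) (he : e * |f - g| ≤ 1) :
    f + g + e / 4 * (f - g) ^ 2 ≤ 0 := by
  by_contra hq
  push Not at hq
  obtain ⟨h1, h2, h3⟩ := win_fac k s n hk hW
  have hW' := hW
  obtain ⟨hn, h4, h5⟩ := hW'
  have hkR : (10 : ℝ) ^ 10 ≤ k := by exact_mod_cast hk
  have hn10 : (1000 : ℝ) ≤ n := by linarith [show (1000 : ℝ) ≤ 10 ^ 10 by norm_num]
  have hk10 : (1000 : ℝ) ≤ k := by linarith [show (1000 : ℝ) ≤ 10 ^ 10 by norm_num]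
  have hn0 : (0 : ℝ) < n := by linarith
  have hn1 : 1000 ≤ n := by exact_mod_cast hn10
  have hk1 : 1000 ≤ k := by exact_mod_cast hk10
  have hnR : (n : ℝ) = 2 * s + k := by exact_mod_cast hn
  have h16 : 16 * (k : ℝ) ≤ n := by exact_mod_cast h2
  have hC0 : (0 : ℝ) < n.choose s := by exact_mod_cast Nat.choose_pos (by omega)
  have hFc : (0 : ℝ) < F.card := by exact_mod_cast card_pos.2 hFn
  have hGc : (0 : ℝ) < G.card := by exact_mod_cast card_pos.2 hGn
  have hf' : f = Real.log F.card - Real.log (n.choose s) := by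
    rw [hf, Real.log_div hFc.ne' hC0.ne']
  have hg' : g = Real.log G.card - Real.log (n.choose s) := by
    rw [hg, Real.log_div hGc.ne' hC0.ne']
  have hq1 : e / 4 * (f - g) ^ 2 ≤ (f - g) / 4 := by
    rw [abs_of_nonneg (by linarith)] at he
    nlinarith
  have h53 : 0 < 5 * f + 3 * g := by linarith
  have hf0 : 0 < f := by linarith
  have hcF : n.choose s < F.card := by
    have : Real.log (n.choose s) < Real.log F.card := by linarith
    have := (Real.log_lt_log_iff hC0 hFc).1 this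
    exact_mod_cast this
  obtain ⟨m, hm⟩ : ∃ m : ℕ, m = 3 * k / 8 := ⟨_, rfl⟩
  have hm1 : (m : ℝ) ≤ 3 * k / 8 := by
    have : 8 * m ≤ 3 * k := by omega
    have : 8 * (m : ℝ) ≤ 3 * k := by exact_mod_cast this
    linarith
  have hm2 : 3 * (k : ℝ) / 8 - 1 ≤ m := by
    have : 3 * k ≤ 8 * m + 8 := by omega
    have : 3 * (k : ℝ) ≤ 8 * m + 8 := by exact_mod_cast this
    linarith
  have hm3 : (1 : ℝ) ≤ m := by linarith
  have h2n : 2 / (n : ℝ) ^ 2 ≤ 2 / 1000000 := by
    apply div_le_div_of_nonneg_left (by norm_num) (by norm_num)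
    nlinarith
  by_cases hbigF : n.choose (s + m) ≤ F.card
  · -- far above the level `s`
    have hsp : F.card ≤ n.choose (n / 2) := by
      have := IsAntichain.sperner hF
      simpa using this
    have hf1 : f ≤ Real.log (n.choose (n / 2)) - Real.log (n.choose s) := by
      have : Real.log F.card ≤ Real.log (n.choose (n / 2)) :=
        Real.log_le_log hFc (by exact_mod_cast hsp)
      linarith
    have hG1 := pair_level hn hV F G hF hFn hG hGn hd m (m - 1) (by linarith) (by linarith)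
      (by linarith) (by linarith) (by
        have e1 : (s : ℝ) + m = ((s + m : ℕ) : ℝ) := by push_cast; ring
        rw [e1, Lg_nat]
        apply Real.log_le_log
        · exact_mod_cast Nat.choose_pos (by omega)
        · exact_mod_cast hbigF) (by
        have t1 := TT_quarter k s n hk hW (k - 2 * m) (by linarith)
        have t2 := TT_quarter k s n hk hW (k + 2 * (m - 1)) (by linarith)
        linarith)
    have e2 : (s : ℝ) - (m - 1) = ((s + 1 - m : ℕ) : ℝ) := by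
      rw [Nat.cast_sub (by omega)]
      push_cast
      ring
    rw [e2, Lg_nat] at hG1
    have := hbig m f g hm2 hm1 hf0.le hf1 (by linarith) he
    linarith
  · push Not at hbigF
    obtain ⟨x, hx0, hxm, hx⟩ := Lg_inv m (by omega) F.card hcF.le hbigF.le
    have hfx : f = Lg n (s + x) - Real.log (n.choose s) := by rw [hx, hf']
    have key : ∀ δ : ℝ, 0 ≤ δ → δ ≤ x →
        TT n (k - 2 * x) + TT n (k + 2 * (x - δ)) < δ → x ≤ 48 * δ * k := by
      intro δ hδ0 hδx hT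
      have hG1 := pair_level hn hV F G hF hFn hG hGn hd x (x - δ) hx0 (by linarith)
        (by linarith) (by linarith) hx.le (by linarith)
      exact (hunb x δ f g hδ0 hδx (by linarith) hfx (by linarith) he hq).1
    -- first round
    have hr1 : x ≤ 1 := by
      have e5 : 0 < 5 / (n : ℝ) ^ 2 := by positivity
      rcases le_or_gt x (5 / (n : ℝ) ^ 2) with h | h
      · have : 5 / (n : ℝ) ^ 2 ≤ 5 / 1000000 := by
          apply div_le_div_of_nonneg_left (by norm_num) (by norm_num)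
          nlinarith
        linarith
      · have := key (5 / (n : ℝ) ^ 2) e5.le h.le (by
          have t1 := TT_quarter k s n hk hW (k - 2 * x) (by linarith)
          have t2 := TT_quarter k s n hk hW (k + 2 * (x - 5 / (n : ℝ) ^ 2)) (by linarith)
          have : 5 / (n : ℝ) ^ 2 = 5 / 2 * (2 / (n : ℝ) ^ 2) := by ring
          have : 0 < 2 / (n : ℝ) ^ 2 := by positivity
          linarith)
        refine this.trans ?_
        have e6 : 48 * (5 / (n : ℝ) ^ 2) * k = 240 * k / (n : ℝ) ^ 2 := by ring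
        rw [e6, div_le_one (by positivity)]
        nlinarith
    -- second round
    have hr2 : x ≤ 1 / (n : ℝ) ^ 45 := by
      have e5 : 0 < 1 / (n : ℝ) ^ 47 := by positivity
      rcases le_or_gt x (1 / (n : ℝ) ^ 47) with h | h
      · refine h.trans ?_
        apply one_div_le_one_div_of_le (by positivity)
        exact pow_le_pow_right₀ (by linarith) (by norm_num)
      · have := key (1 / (n : ℝ) ^ 47) e5.le h.le (by
          have t1 := TT_full k s n hk hW (k - 2 * x) (by linarith)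
          have t2 := TT_full k s n hk hW (k + 2 * (x - 1 / (n : ℝ) ^ 47)) (by linarith)
          have e7 : (n : ℝ) ^ 48 = n ^ 47 * n := by ring
          have e8 : 1 / (n : ℝ) ^ 48 ≤ 1 / 1000 * (1 / (n : ℝ) ^ 47) := by
            rw [e7, ← div_div, div_le_iff₀ hn0]
            nlinarith
          linarith)
        refine this.trans ?_
        have e6 : 48 * (1 / (n : ℝ) ^ 47) * k = 48 * k / (n : ℝ) ^ 47 := by ring
        have e7 : (n : ℝ) ^ 47 = n ^ 45 * n * n := by ring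
        rw [e6, e7, div_le_div_iff₀ (by positivity) (by positivity)]
        have e8 : (0 : ℝ) < n ^ 45 := by positivity
        have e9 : 48 * (k : ℝ) ≤ n * n := by nlinarith
        nlinarith
    have hfs : f ≤ 1 / (n : ℝ) ^ 45 := by
      have := hsm1 x hx0 hr1
      linarith
    have hle := small_shift k s hk hW hV F G hF hFn hG hGn hd hsm2 hcF.le (by
      have e10 : 2 / (n : ℝ) ^ 45 = 2 * (1 / (n : ℝ) ^ 45) := by ring
      rw [e10]
      linarith)
    omega

/-- **the base of route (C)** -/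
theorem base : ∃ k0 : ℕ, ∀ k s n : ℕ, k0 ≤ k → Win k s n → Vlog n →
    PP ((k : ℝ) ^ (-(1 / 4) : ℝ)) n s := by
  obtain ⟨k1, h1⟩ := num_small
  obtain ⟨k2, h2⟩ := num_unb
  obtain ⟨k3, h3⟩ := num_big
  refine ⟨max (max k1 k2) (max k3 (10 ^ 10)), ?_⟩
  intro k s n hk hW hV F G hFn hGn hF hG hd f g hf hg he
  have a1 : k1 ≤ k := ((le_max_left _ _).trans (le_max_left _ _)).trans hk
  have a2 : k2 ≤ k := ((le_max_right _ _).trans (le_max_left _ _)).trans hk
  have a3 : k3 ≤ k := ((le_max_left _ _).trans (le_max_right _ _)).trans hk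
  have a4 : 10 ^ 10 ≤ k := ((le_max_right _ _).trans (le_max_right _ _)).trans hk
  obtain ⟨b1, b2⟩ := h1 k s n a1 hW
  have b3 := h2 k s n a2 hW _ rfl
  have b4 := h3 k s n a3 hW _ rfl
  rcases le_total g f with h | h
  · exact base_aux k s a4 hW hV _ b1 b2 b3 b4 F G hF hFn hG hGn hd f g hf hg h he
  · have hd' : ∀ A ∈ G, ∀ B ∈ F, (symmDiff A B).card ≤ 2 * s := by
      intro A hA B hB
      rw [symmDiff_comm]
      exact hd B hB A hA
    have := base_aux k s a4 hW hV _ b1 b2 b3 b4 G F hG hGn hF hFn hd' g f hg hf h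
      (by rw [abs_sub_comm]; exact he)
    have e1 : (f - g) ^ 2 = (g - f) ^ 2 := by ring
    rw [e1]
    linarith

end LineQ
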