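import Pool.Agent.DiamEven.Main
import Pool.Agent.DiamEven.Asym
import Pool.Agent.DiamSqrt.Final

set_option autoImplicit false

/-! Antichains of bounded diameter: the case `n + k` even, `3k ≥ n + 2` or `k² ≥ 20 n log n`, and
bounds sharp up to a factor `1 + ε` for `k` large compared with `√n`. -/

namespace Pool.Agent.LineQ.LinEven

open Finset DiamEven

variable {n : ℕ}

lemma card_symmDiff' (A B : Finset (Fin n)) :
    (symmDiff A B).card = (A \ B).card + (B \ A).card := by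
  rw [symmDiff_def, sup_eq_union, card_union_of_disjoint]
  exact disjoint_sdiff_sdiff

lemma vpair_of_diam {d k : ℕ} (hn : n = d + k) (F G : Finset (Finset (Fin n)))
    (hF : IsAntichain (· ⊆ ·) (F : Set (Finset (Fin n))))
    (hG : IsAntichain (· ⊆ ·) (G : Set (Finset (Fin n))))
    (hd : ∀ A ∈ F, ∀ B ∈ G, (symmDiff A B).card ≤ d) :
    VPair k (univ : Finset (Fin n)) F (G.image compl) := by
  refine ⟨hF, ?_, fun A _ => subset_univ A, fun A _ => subset_univ A, ?_⟩
  · intro X hX Y hY hne hsub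
    simp only [coe_image, Set.mem_image, mem_coe] at hX hY
    obtain ⟨A, hA, rfl⟩ := hX
    obtain ⟨B, hB, rfl⟩ := hY
    have hne' : B ≠ A := fun h => hne (by rw [h])
    exact hG hB hA hne' (compl_subset_compl.1 hsub)
  · intro A hA X hX
    rw [mem_image] at hX
    obtain ⟨B, hB, rfl⟩ := hX
    have h1 := hd A hA B hB
    rw [card_symmDiff'] at h1
    have e1 : A \ Bᶜ = A ∩ B := by ext x; simp
    have e2 : Bᶜ \ A = (A ∪ B)ᶜ := by ext x; simp [and_comm]
    rw [e1, e2, card_compl, Fintype.card_fin]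
    have h3 : (A \ B).card + (A ∩ B).card = A.card := card_sdiff_add_card_inter A B
    have h4 : (B \ A).card + (B ∩ A).card = B.card := card_sdiff_add_card_inter B A
    have h5 := card_union_add_card_inter A B
    rw [inter_comm B A] at h4
    have h6 : (A ∪ B).card ≤ n := by simpa using card_le_univ (A ∪ B)
    omega

lemma card_image_compl (G : Finset (Finset (Fin n))) : (G.image compl).card = G.card :=
  card_image_of_injective _ compl_injective

/-- cross version -/
theorem cross (n a b : ℕ) (h1 : 2 * a + b < n) (h2 : a + 2 * b < n)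
    (F G : Finset (Finset (Fin n)))
    (hF : IsAntichain (· ⊆ ·) (F : Set (Finset (Fin n))))
    (hG : IsAntichain (· ⊆ ·) (G : Set (Finset (Fin n))))
    (hd : ∀ A ∈ F, ∀ B ∈ G, (symmDiff A B).card ≤ a + b)
    (hc : n.choose a ≤ F.card) : G.card ≤ n.choose b := by
  obtain ⟨k, hk⟩ : ∃ k, n = (a + b) + k := ⟨n - (a + b), by omega⟩
  have hV := vpair_of_diam hk F G hF hG hd
  have hall := all_D (α := Fin n) (c := k - 1) (k := k) (by omega) (a + b)
  have := hall.2 a b rfl (by omega) (by omega) univ F (G.image compl)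
    (by rw [card_univ, Fintype.card_fin]; exact hk) hV
    (by rw [card_univ, Fintype.card_fin]; exact hc)
  rwa [card_image_compl, card_univ, Fintype.card_fin] at this

theorem even_case (n k : ℕ) (hkn : k ≤ n) (he : Even (n + k))
    (h3 : n + 2 ≤ 3 * k) (F : Finset (Finset (Fin n)))
    (hF : IsAntichain (· ⊆ ·) (F : Set (Finset (Fin n))))
    (hd : ∀ A ∈ F, ∀ B ∈ F, (symmDiff A B).card ≤ n - k) :
    F.card ≤ n.choose ((n + k) / 2) := by
  obtain ⟨t, ht⟩ := he
  obtain ⟨s, hs⟩ : ∃ s, n = 2 * s + k := ⟨(n - k) / 2, by omega⟩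
  have h4 : (n + k) / 2 = n - s := by omega
  have h5 : n.choose ((n + k) / 2) = n.choose s := by
    rw [h4]; exact Nat.choose_symm (by omega)
  rw [h5]
  rcases le_or_gt F.card (n.choose s) with h | h
  · exact h
  · exact cross n s s (by omega) (by omega) F F hF hF
      (fun A hA B hB => (hd A hA B hB).trans (by omega)) h.le

theorem even_all (n k : ℕ) (hk1 : 1 ≤ k) (hkn : k ≤ n) (he : Even (n + k))
    (h : n + 2 ≤ 3 * k ∨ 20 * (n : ℝ) * Real.log n ≤ (k : ℝ) ^ 2) (F : Finset (Finset (Fin n)))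
    (hF : IsAntichain (· ⊆ ·) (F : Set (Finset (Fin n))))
    (hd : ∀ A ∈ F, ∀ B ∈ F, (symmDiff A B).card ≤ n - k) :
    F.card ≤ n.choose ((n + k) / 2) := by
  rcases Nat.lt_or_ge (3 * k) (n + 2) with h3 | h3
  · rcases h with h | h
    · omega
    · exact DiamSqrt.main n k hk1 hkn he h h3 F hF hd
  · exact even_case n k hkn he h3 F hF hd

theorem all_asym (ε : ℝ) (hε : 0 < ε) : ∃ C : ℝ, 0 < C ∧ ∀ n k : ℕ, 1 ≤ k → k ≤ n →
    C * n ≤ (k : ℝ) ^ 2 → (Even (n + k) ∨ C * k ≤ n) → ∀ F : Finset (Finset (Fin n)),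
      IsAntichain (· ⊆ ·) (F : Set (Finset (Fin n))) →
      (∀ A ∈ F, ∀ B ∈ F, (symmDiff A B).card ≤ n - k) →
      (F.card : ℝ) ≤ (1 + ε) * n.choose ((n + k + 1) / 2) := by
  obtain ⟨C₁, hC₁, h₁⟩ := asym ε hε
  obtain ⟨C₂, hC₂, h₂⟩ := asym_mid ε hε C₁ hC₁
  refine ⟨max C₁ C₂, lt_max_of_lt_left hC₁, ?_⟩
  intro n k hk1 hkn hC hor F hF hd
  have hn0 : (0 : ℝ) ≤ n := Nat.cast_nonneg n
  have hk0 : (0 : ℝ) ≤ k := Nat.cast_nonneg k
  have hm1 : C₁ * n ≤ (k : ℝ) ^ 2 :=
    (mul_le_mul_of_nonneg_right (le_max_left C₁ C₂) hn0).trans hC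
  have hm2 : C₂ * n ≤ (k : ℝ) ^ 2 :=
    (mul_le_mul_of_nonneg_right (le_max_right C₁ C₂) hn0).trans hC
  rcases hor with he | hor
  · have h4 : (n + k + 1) / 2 = (n + k) / 2 := by
      obtain ⟨t, ht⟩ := he
      omega
    rw [h4]
    rcases le_or_gt (n + 2) (3 * k) with h | h
    · have h3 := even_case n k hkn he h F hF hd
      have h4 : (F.card : ℝ) ≤ n.choose ((n + k) / 2) := by exact_mod_cast h3
      have h5 : (0 : ℝ) ≤ n.choose ((n + k) / 2) := Nat.cast_nonneg _
      nlinarith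
    · rcases le_or_gt (C₁ * k) (n : ℝ) with h' | h'
      · have h3 := h₁ n k hk1 hkn hm1 h' F hF hd
        rwa [h4] at h3
      · exact h₂ n k hk1 hkn he h hm2 h' F hF hd
  · exact h₁ n k hk1 hkn hm1
      ((mul_le_mul_of_nonneg_right (le_max_left C₁ C₂) hk0).trans hor) F hF hd

end Pool.Agent.LineQ.LinEven
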