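import Pool.Agent.LineQ.Defs
import Pool.Agent.OddTwo.ChainPairs
import Pool.Agent.LineQ.LinEven

/-!
# Route (C), the assembly (P7)

From the base (`BaseSt`) and the step (`StepSt`) to the even half of Q1 of MP_f155e9_co for all `k ≥ k0`.
-/

set_option autoImplicit false

namespace Pool.Agent.LineQ

open Finset

/-- The base of the induction: `100 n ln n ≤ k² ≤ 101 n ln n`. -/
def BaseSt : Prop := ∃ k0 : ℕ, ∀ n s k : ℕ, k0 ≤ k → n = 2 * s + k →
  100 * ((n : ℝ) * Real.log n) ≤ (k : ℝ) ^ 2 → (k : ℝ) ^ 2 ≤ 101 * ((n : ℝ) * Real.log n) →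
  PP (ek k) n s

/-- The step of the induction: `n ≤ k² ≤ 101 n ln n`. -/
def StepSt : Prop := ∃ k0 : ℕ, ∀ n s k : ℕ, k0 ≤ k → n = 2 * s + k → 1 ≤ s → n ≤ k ^ 2 →
  (k : ℝ) ^ 2 ≤ 101 * ((n : ℝ) * Real.log n) → PP (ek k) (n - 2) (s - 1) → PP (ek k) n s

/-- `n ln n` is increasing. -/
theorem mul_log_mono {m n : ℕ} (hm : 1 ≤ m) (h : m ≤ n) :
    (m : ℝ) * Real.log m ≤ (n : ℝ) * Real.log n := by
  have h1 : (1 : ℝ) ≤ m := by exact_mod_cast hm
  have h2 : (m : ℝ) ≤ n := by exact_mod_cast h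
  exact mul_le_mul h2 (Real.log_le_log (by linarith) h2) (Real.log_nonneg h1) (by linarith)

/-- One step of `n ln n`. -/
theorem mul_log_step {n : ℕ} (hn : 1000 ≤ n) :
    100 * (((n + 2 : ℕ) : ℝ) * Real.log ((n + 2 : ℕ) : ℝ)) ≤ 101 * ((n : ℝ) * Real.log n) := by
  have h1 : (1000 : ℝ) ≤ n := by exact_mod_cast hn
  have h0 : (0 : ℝ) < n := by linarith
  have h2 : Real.log ((n + 2 : ℕ) : ℝ) ≤ Real.log n + 2 / n := by
    have e1 : ((n + 2 : ℕ) : ℝ) = n * (1 + 2 / n) := by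
      push_cast
      field_simp
    rw [e1, Real.log_mul h0.ne' (by positivity)]
    have := Real.log_le_sub_one_of_pos (show (0 : ℝ) < 1 + 2 / n by positivity)
    linarith
  have h3 : (2 : ℝ) ≤ Real.log n := by
    rw [Real.le_log_iff_exp_le h0]
    have h4 : Real.exp 2 = Real.exp 1 * Real.exp 1 := by rw [← Real.exp_add]; norm_num
    rw [h4]
    have h5 := Real.exp_one_lt_d9
    have h6 := Real.exp_pos 1
    nlinarith
  have h4 : ((n + 2 : ℕ) : ℝ) * Real.log ((n + 2 : ℕ) : ℝ) ≤ ((n + 2 : ℕ) : ℝ) * (Real.log n + 2 / n) :=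
    mul_le_mul_of_nonneg_left h2 (by positivity)
  have h5 : ((n + 2 : ℕ) : ℝ) * (Real.log n + 2 / n) = n * Real.log n + 2 * Real.log n + 2 + 4 / n := by
    push_cast
    field_simp
    ring
  have h6 : (4 : ℝ) / n ≤ 1 := by
    rw [div_le_one h0]
    linarith
  nlinarith

theorem hundred_log_le {x : ℝ} (hx : 10000 ≤ x) : 100 * Real.log x ≤ x := by
  set r := Real.sqrt (Real.sqrt x) with hr
  have hr0 : 0 ≤ r := Real.sqrt_nonneg _
  have e1 : r ^ 2 = Real.sqrt x := Real.sq_sqrt (Real.sqrt_nonneg _)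
  have e2 : r ^ 4 = x := by
    have : r ^ 4 = (r ^ 2) ^ 2 := by ring
    rw [this, e1, Real.sq_sqrt (by linarith)]
  have h1 : (10 : ℝ) ≤ r := by
    by_contra hcon
    push Not at hcon
    have : r ^ 4 < 10 ^ 4 := pow_lt_pow_left₀ hcon hr0 (by norm_num)
    rw [e2] at this
    norm_num at this
    linarith
  have h2 : Real.log x = 4 * Real.log r := by
    rw [← e2, Real.log_pow]
    norm_num
  have h3 := Real.log_le_sub_one_of_pos (show (0 : ℝ) < r by linarith)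
  have h4 : 400 * r ≤ r ^ 4 := by
    have : (400 : ℝ) ≤ r ^ 3 := by
      have : (10 : ℝ) ^ 3 ≤ r ^ 3 := pow_le_pow_left₀ (by norm_num) h1 3
      norm_num at this
      linarith
    nlinarith
  rw [h2]
  linarith

theorem exists_base (k : ℕ) (hk : 1000 ≤ k) (hk2 : 100 * Real.log k ≤ k) :
    ∃ s0 : ℕ, 100 * ((((2 * s0 + k : ℕ) : ℝ)) * Real.log ((2 * s0 + k : ℕ) : ℝ)) ≤ (k : ℝ) ^ 2 ∧
      (k : ℝ) ^ 2 ≤ 101 * ((((2 * s0 + k : ℕ) : ℝ)) * Real.log ((2 * s0 + k : ℕ) : ℝ)) ∧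
      ∀ s : ℕ, (k : ℝ) ^ 2 < 100 * ((((2 * s + k : ℕ) : ℝ)) * Real.log ((2 * s + k : ℕ) : ℝ)) → s0 < s := by
  classical
  have hk1 : (1000 : ℝ) ≤ k := by exact_mod_cast hk
  have hex : ∃ s : ℕ, (k : ℝ) ^ 2 < 100 * ((((2 * s + k : ℕ) : ℝ)) * Real.log ((2 * s + k : ℕ) : ℝ)) := by
    refine ⟨k ^ 2, ?_⟩
    have h1 : (1 : ℝ) ≤ Real.log ((2 * k ^ 2 + k : ℕ) : ℝ) := by
      rw [Real.le_log_iff_exp_le (by positivity)]
      have h2 := Real.exp_one_lt_d9
      push_cast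
      nlinarith
    push_cast at h1 ⊢
    nlinarith
  set s1 := Nat.find hex with hs1
  have h1 := Nat.find_spec hex
  rw [← hs1] at h1
  have hpos : 0 < s1 := by
    rcases Nat.eq_zero_or_pos s1 with h | h
    · exfalso
      rw [h] at h1
      simp only [mul_zero, zero_add] at h1
      nlinarith
    · exact h
  have h2 : ¬ ((k : ℝ) ^ 2 < 100 * ((((2 * (s1 - 1) + k : ℕ) : ℝ)) *
      Real.log ((2 * (s1 - 1) + k : ℕ) : ℝ))) := Nat.find_min hex (by omega)
  refine ⟨s1 - 1, not_lt.1 h2, ?_, ?_⟩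
  · have h3 := mul_log_step (n := 2 * (s1 - 1) + k) (by omega)
    have e1 : 2 * (s1 - 1) + k + 2 = 2 * s1 + k := by omega
    rw [e1] at h3
    exact h1.le.trans h3
  · intro s hs
    have := Nat.find_min' hex hs
    omega

/-- The potential bound for all `n` between the base and `k²`. -/
theorem pp_all (hB : BaseSt) (hS : StepSt) : ∃ k0 : ℕ, ∀ n s k : ℕ, k0 ≤ k → n = 2 * s + k →
    n ≤ k ^ 2 → (k : ℝ) ^ 2 < 100 * ((n : ℝ) * Real.log n) → PP (ek k) n s := by
  obtain ⟨k1, hB⟩ := hB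
  obtain ⟨k2, hS⟩ := hS
  refine ⟨max (max k1 k2) 10000, ?_⟩
  intro n s k hk hn hnk hlt
  have hk1 : k1 ≤ k := le_trans (le_trans (le_max_left _ _) (le_max_left _ _)) hk
  have hk2 : k2 ≤ k := le_trans (le_trans (le_max_right _ _) (le_max_left _ _)) hk
  have hk3 : 10000 ≤ k := le_trans (le_max_right _ _) hk
  have hkr : (10000 : ℝ) ≤ k := by exact_mod_cast hk3
  have hlog := hundred_log_le hkr
  obtain ⟨s0, hb1, hb2, hb3⟩ := exists_base k (by omega) hlog
  have hs0 : s0 < s := by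
    apply hb3
    rw [← hn]
    exact hlt
  have main : ∀ t : ℕ, 2 * (s0 + t) + k ≤ k ^ 2 → PP (ek k) (2 * (s0 + t) + k) (s0 + t) := by
    intro t
    induction t with
    | zero =>
      intro _
      exact hB _ _ k hk1 rfl hb1 hb2
    | succ t ih =>
      intro hle
      have h1 : (k : ℝ) ^ 2 ≤ 101 * (((2 * (s0 + (t + 1)) + k : ℕ) : ℝ) *
          Real.log ((2 * (s0 + (t + 1)) + k : ℕ) : ℝ)) :=
        hb2.trans (mul_le_mul_of_nonneg_left (mul_log_mono (by omega) (by omega)) (by norm_num))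
      have h2 := hS (2 * (s0 + (t + 1)) + k) (s0 + (t + 1)) k hk2 rfl (by omega) hle h1
      have e1 : 2 * (s0 + (t + 1)) + k - 2 = 2 * (s0 + t) + k := by omega
      have e2 : s0 + (t + 1) - 1 = s0 + t := by omega
      rw [e1, e2] at h2
      exact h2 (ih (by omega))
  have h4 := main (s - s0) (by omega)
  have e3 : s0 + (s - s0) = s := by omega
  rw [e3, ← hn] at h4
  exact h4

/-- `PP` for `F = G`. -/
theorem PP.self {e : ℝ} (he : 0 < e) {n s : ℕ} (hs : s ≤ n) (h : PP e n s)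
    {F : Finset (Finset (Fin n))} (hF : IsAntichain (· ⊆ ·) (F : Set (Finset (Fin n))))
    (hd : ∀ A ∈ F, ∀ B ∈ F, (symmDiff A B).card ≤ 2 * s) : F.card ≤ n.choose s := by
  rcases F.eq_empty_or_nonempty with rfl | hne
  · simp
  have h1 := h F F hne hne hF hF hd (by rw [sub_self, abs_zero]; positivity)
  have h2 : q e (lv n s F.card) (lv n s F.card) = 2 * lv n s F.card := by
    unfold q
    ring
  rw [h2] at h1
  have h3 : lv n s F.card ≤ 0 := by linarith
  have hC : (0 : ℝ) < (n.choose s : ℝ) := by exact_mod_cast Nat.choose_pos hs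
  have hF0 : (0 : ℝ) < (F.card : ℝ) := by exact_mod_cast hne.card_pos
  unfold lv at h3
  rw [Real.log_nonpos_iff (by positivity)] at h3
  rw [div_le_one hC] at h3
  exact_mod_cast h3

theorem ek_pos {k : ℕ} (hk : 1 ≤ k) : 0 < ek k := by
  unfold ek
  have : (0 : ℝ) < (k : ℝ) := by exact_mod_cast hk
  positivity

/-- **The even half for large `k`**, from the base and the step. -/
theorem even_half (hB : BaseSt) (hS : StepSt) : ∃ k0 : ℕ, ∀ n k : ℕ, k0 ≤ k → k ≤ n →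
    Even (n + k) → ∀ F : Finset (Finset (Fin n)), IsAntichain (· ⊆ ·) (F : Set (Finset (Fin n))) →
      (∀ A ∈ F, ∀ B ∈ F, (symmDiff A B).card ≤ n - k) → F.card ≤ n.choose ((n + k) / 2) := by
  obtain ⟨k0, h⟩ := pp_all hB hS
  refine ⟨max k0 1, ?_⟩
  intro n k hk hkn he F hF hd
  have hk0 : k0 ≤ k := le_trans (le_max_left _ _) hk
  have hk1 : 1 ≤ k := le_trans (le_max_right _ _) hk
  rcases Nat.lt_or_ge (n + 3) (k ^ 2) with h1 | h1
  · rcases le_or_gt (20 * (n : ℝ) * Real.log n) ((k : ℝ) ^ 2) with h2 | h2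
    · exact LinEven.even_all n k hk1 hkn he (Or.inr h2) F hF hd
    · obtain ⟨c, hc⟩ := he
      obtain ⟨s, hs⟩ : ∃ s, n = 2 * s + k := ⟨n - c, by omega⟩
      have hlog : 0 ≤ (n : ℝ) * Real.log n := by
        have : (1 : ℝ) ≤ n := by exact_mod_cast hk1.trans hkn
        have := Real.log_nonneg this
        positivity
      have h3 := h n s k hk0 hs (by omega) (by nlinarith)
      have e1 : (n + k) / 2 = n - s := by omega
      rw [e1, Nat.choose_symm (by omega)]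
      exact h3.self (ek_pos hk1) (by omega) hF fun A hA B hB => (hd A hA B hB).trans (by omega)
  · have h2 := (OddTwo.ChainPairs.result n k hk1 hkn h1).1 he F hF hd
    have e1 : (n + k + 1) / 2 = (n + k) / 2 := by
      obtain ⟨c, hc⟩ := he
      omega
    rwa [e1] at h2

end Pool.Agent.LineQ
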