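import Pool.Agent.LineQ.Vlog
import Pool.Agent.DiamSqrt.LawDef

/-! The bound of `Vlog` in closed form. -/

namespace LineQ

open Finset DiamEven

lemma sum_le_of_sel {n : ℕ} {K : Finset (Finset (Fin n))} {f : Finset (Fin n) → ℕ}
    (hf : DiamSqrt.IsDist K f) {c : ℝ} (h : Sel (univ : Finset (Fin n)) K c) :
    ∑ X ∈ (univ : Finset (Fin n)).powerset, (f X : ℝ) ≤ c := by
  obtain ⟨sel, h1, h2⟩ := h
  refine le_trans (Finset.sum_le_sum fun X _ => ?_) h2
  exact_mod_cast hf.le X (sel X) (h1 X (subset_univ _))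

lemma ee_le (n : ℕ) (hn : 0 < n) (h κ : ℝ) (hκ : (n : ℝ) - 2 * h = κ) :
    ee (κ / n) n h ≤ 2 ^ n * (10 * Real.exp (-(κ ^ 2 / (2 * n)))) := by
  have hnR : (0 : ℝ) < n := by exact_mod_cast hn
  set L : ℝ := κ / n with hL
  unfold ee
  have hc := Real.cosh_le_exp_half_sq L
  rw [Real.cosh_eq] at hc
  have h1 : 1 + Real.exp (-(2 * L)) ≤ 2 * Real.exp (-L + L ^ 2 / 2) := by
    have h2 : 1 + Real.exp (-(2 * L)) = Real.exp (-L) * (Real.exp L + Real.exp (-L)) := by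
      rw [mul_add, ← Real.exp_add, ← Real.exp_add, neg_add_cancel, Real.exp_zero]
      congr 2
      ring
    rw [h2, Real.exp_add]
    have h3 : Real.exp L + Real.exp (-L) ≤ 2 * Real.exp (L ^ 2 / 2) := by linarith
    have h4 := mul_le_mul_of_nonneg_left h3 (Real.exp_pos (-L)).le
    linarith
  have h5 : (1 + Real.exp (-(2 * L))) ^ n ≤ 2 ^ n * Real.exp (n * (-L + L ^ 2 / 2)) := by
    have := pow_le_pow_left₀ (by positivity) h1 n
    rw [mul_pow, ← Real.exp_nat_mul] at this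
    exact this
  have h6 : 10 * (1 + Real.exp (-(2 * L))) ^ n * Real.exp (2 * L * h) ≤
      10 * (2 ^ n * Real.exp (n * (-L + L ^ 2 / 2))) * Real.exp (2 * L * h) := by
    apply mul_le_mul_of_nonneg_right _ (Real.exp_pos _).le
    apply mul_le_mul_of_nonneg_left h5 (by norm_num)
  refine h6.trans (le_of_eq ?_)
  have h7 : Real.exp (n * (-L + L ^ 2 / 2)) * Real.exp (2 * L * h) =
      Real.exp (-(κ ^ 2 / (2 * n))) := by
    rw [← Real.exp_add]
    congr 1
    have h8 : h = ((n : ℝ) - κ) / 2 := by linarith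
    rw [hL, h8]
    field_simp
    ring
  calc 10 * (2 ^ n * Real.exp (n * (-L + L ^ 2 / 2))) * Real.exp (2 * L * h)
      = 10 * 2 ^ n * (Real.exp (n * (-L + L ^ 2 / 2)) * Real.exp (2 * L * h)) := by ring
    _ = _ := by rw [h7]; ring

/-- mean distance to an antichain with logarithmic interpolation of the levels -/
theorem vlog (n a : ℕ) (t κ : ℝ) (h0 : 0 ≤ t) (h1 : t ≤ 1) (h2 : 2 * a + 1 ≤ n)
    (hκ : (n : ℝ) - 2 * (a + t) = κ) (hκ0 : 0 < κ) (hκ1 : κ ≤ n / 4)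
    (K : Finset (Finset (Fin n))) (hK : IsAntichain (· ⊆ ·) (K : Set (Finset (Fin n))))
    (hcard : (n.choose a : ℝ) ^ (1 - t) * (n.choose (a + 1) : ℝ) ^ t ≤ K.card)
    (f : Finset (Fin n) → ℕ) (hf : DiamSqrt.IsDist K f) :
    ∑ X ∈ (univ : Finset (Fin n)).powerset, (f X : ℝ) ≤
      2 ^ n * (κ / 2 + (n / κ + 10) * Real.exp (-(κ ^ 2 / (2 * n)))) := by
  have hn : 0 < n := by omega
  have hnR : (0 : ℝ) < n := by exact_mod_cast hn
  have hL0 : 0 ≤ κ / n := by positivity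
  have hL1 : κ / n ≤ 1 / 4 := by rw [div_le_iff₀ hnR]; linarith
  have hsel := logStat (α := Fin n) hL0 hL1 n univ (by simp) K hK (fun _ _ => subset_univ _) a t
    h0 h1 h2 hcard
  have hs := sum_le_of_sel hf hsel
  refine hs.trans ?_
  have e1 := ee_le n hn ((a : ℝ) + t) κ hκ
  have e2 := gg_tail n hn (κ / 2) (by positivity)
  have e3 : (n : ℝ) / 2 - κ / 2 = (a : ℝ) + t := by linarith
  rw [e3] at e2
  have e4 : (n : ℝ) / (2 * (κ / 2)) * Real.exp (-(2 * (κ / 2) ^ 2 / n)) =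
      n / κ * Real.exp (-(κ ^ 2 / (2 * n))) := by
    congr 1
    · congr 1; ring
    · congr 2
      field_simp
  rw [e4] at e2
  linarith

end LineQ
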