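import Pool.Agent.LineQ.Base
import Pool.Agent.LineQ.VlogFin
import Pool.Agent.LineQ.Final

/-! The base of route (C) in the form used by `Pool.Agent.LineQ.even_half`. -/

set_option autoImplicit false

namespace Pool.Agent.LineQ

open Finset

theorem vlog_all (n : ℕ) : _root_.LineQ.Vlog n := by
  intro K hK a t h0 h1 h2 h3 h4 h5 f hf
  exact _root_.LineQ.vlog n a t _ h0 h1 h2 rfl h3 h4 K hK h5 f hf

/-- **the base** -/
theorem baseSt : BaseSt := by
  obtain ⟨k0, h⟩ := _root_.LineQ.base
  refine ⟨max k0 1, ?_⟩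
  intro n s k hk hn h1 h2 F G hFn hGn hF hG hd he
  have hk1 : 1 ≤ k := (le_max_right _ _).trans hk
  have hkR : (0 : ℝ) < k := by exact_mod_cast hk1
  have he0 : 0 < ek k := Real.rpow_pos_of_pos hkR _
  have hW : _root_.LineQ.Win k s n := ⟨hn, by rw [mul_assoc]; exact h1, by rw [mul_assoc]; exact h2⟩
  have := h k s n ((le_max_left _ _).trans hk) hW (vlog_all n) F G hFn hGn hF hG hd _ _ rfl rfl (by
    have h3 := mul_le_mul_of_nonneg_left he he0.le
    rw [mul_one_div_cancel he0.ne'] at h3
    exact h3)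
  exact this

end Pool.Agent.LineQ
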