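import Mathlib

/-!
# Common definitions of route (C) (even half of Q1 of MP_f155e9_co for large `k`)
-/

set_option autoImplicit false

namespace Pool.Agent.LineQ

open Finset

/-- The level of a family with `N` members, relative to the level `s` of the `n`-cube. -/
noncomputable def lv (n s N : ℕ) : ℝ := Real.log ((N : ℝ) / (n.choose s : ℝ))

/-- The potential with curvature `e`. -/
noncomputable def q (e f g : ℝ) : ℝ := f + g + e / 4 * (f - g) ^ 2

/-- The cross bound with curvature: nonempty antichains `F`, `G` of `2^n` with cross distances at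
most `2 s` and levels at most `1 / e` apart have potential at most zero. -/
def PP (e : ℝ) (n s : ℕ) : Prop :=
  ∀ F G : Finset (Finset (Fin n)), F.Nonempty → G.Nonempty →
    IsAntichain (· ⊆ ·) (F : Set (Finset (Fin n))) →
    IsAntichain (· ⊆ ·) (G : Set (Finset (Fin n))) →
    (∀ A ∈ F, ∀ B ∈ G, (symmDiff A B).card ≤ 2 * s) →
    |lv n s F.card - lv n s G.card| ≤ 1 / e →
      q e (lv n s F.card) (lv n s G.card) ≤ 0

/-- The number of members of `F` that contain `x` and not `y`. -/
def cnt {α : Type} [DecidableEq α] (F : Finset (Finset α)) (x y : α) : ℕ :=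
  (F.filter fun A => x ∈ A ∧ y ∉ A).card

/-! ### The concrete choices of route (C) -/

/-- The slope of the linear majorant of `ln C(n, a)` in `a (n - a)`, `k = n - 2 s`. -/
noncomputable def La (n k : ℕ) : ℝ := Real.log (((n : ℝ) + 1 + k) / ((n : ℝ) + 1 - k)) / k

/-- `La` times `s (n - s)`. -/
noncomputable def Lam (n s : ℕ) : ℝ := La n (n - 2 * s) * ((s : ℝ) * ((n : ℝ) - s))

/-- The level at `n - 2` that belongs to the level `f` at `n`. -/
noncomputable def Uf (L f : ℝ) : ℝ := f + Real.log (1 + f / L)

/-- The one-variable function of the entropy inequality. -/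
noncomputable def HK (K y : ℝ) : ℝ := (K + 1) * (y - 1) - y * Real.log y

/-- The constant of the entropy inequality. -/
noncomputable def Kn (n : ℕ) : ℝ := 1 + (n : ℝ) ^ (-(1 / 5) : ℝ)

/-- The bound for the levels. -/
noncomputable def Vk (n k : ℕ) : ℝ := (k : ℝ) ^ 2 / n

/-- The curvature. -/
noncomputable def ek (k : ℕ) : ℝ := (k : ℝ) ^ (-(1 / 4) : ℝ)

end Pool.Agent.LineQ
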