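import Mathlib
import Pool.Agent.LineQ.Defs

/-!
# Facts on binomial coefficients for route (C) (even half of Q1 of MP_f155e9_co)

* `majorant`: `ln C(n, a)` lies below a linear function of `a (n - a)` that is exact at `a = s`;
* `Lam_lower`, `Lam_upper`, `two_div_le_La`: bounds for the slope;
* `lv_le`, `lv_le_sub`: Sperner's theorem in the form of a bound for the level.
-/

set_option autoImplicit false

namespace Pool.Agent.LineQ

open Finset

/-! ### The function `ln (1 + x) - ln (1 - x)` -/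

/-- The series. -/
theorem hasSum_lr {x : ℝ} (h0 : 0 ≤ x) (h1 : x < 1) :
    HasSum (fun j : ℕ => (2 : ℝ) * (1 / (2 * (j : ℝ) + 1)) * x ^ (2 * j + 1))
      (Real.log (1 + x) - Real.log (1 - x)) :=
  Real.hasSum_log_sub_log_of_abs_lt_one (by rw [abs_of_nonneg h0]; exact h1)

/-- `(ln (1 + x) - ln (1 - x)) / x` is increasing. -/
theorem lr_mono {x y : ℝ} (hx : 0 ≤ x) (hxy : x ≤ y) (hy : y < 1) :
    y * (Real.log (1 + x) - Real.log (1 - x)) ≤ x * (Real.log (1 + y) - Real.log (1 - y)) := by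
  have h1 := (hasSum_lr hx (lt_of_le_of_lt hxy hy)).mul_left y
  have h2 := (hasSum_lr (hx.trans hxy) hy).mul_left x
  refine hasSum_le (fun j => ?_) h1 h2
  have hp : x ^ (2 * j) ≤ y ^ (2 * j) := pow_le_pow_left₀ hx hxy _
  have hc : (0 : ℝ) ≤ 2 * (1 / (2 * (j : ℝ) + 1)) := by positivity
  have hxy0 : 0 ≤ x * y := mul_nonneg hx (hx.trans hxy)
  calc y * ((2 : ℝ) * (1 / (2 * (j : ℝ) + 1)) * x ^ (2 * j + 1))
      = (2 * (1 / (2 * (j : ℝ) + 1))) * (x * y) * x ^ (2 * j) := by ring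
    _ ≤ (2 * (1 / (2 * (j : ℝ) + 1))) * (x * y) * y ^ (2 * j) :=
        mul_le_mul_of_nonneg_left hp (mul_nonneg hc hxy0)
    _ = x * ((2 : ℝ) * (1 / (2 * (j : ℝ) + 1)) * y ^ (2 * j + 1)) := by ring

/-- The first term of the series. -/
theorem lr_lower {x : ℝ} (h0 : 0 ≤ x) (h1 : x < 1) :
    2 * x ≤ Real.log (1 + x) - Real.log (1 - x) := by
  have h := le_hasSum (hasSum_lr h0 h1) 0 (fun j _ => by positivity)
  simpa using h

/-- The geometric bound for the rest of the series. -/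
theorem lr_upper {x : ℝ} (h0 : 0 ≤ x) (h1 : x < 1) :
    Real.log (1 + x) - Real.log (1 - x) ≤ 2 * x + 2 / 3 * x ^ 3 / (1 - x ^ 2) := by
  have hs := hasSum_lr h0 h1
  have hs' := (hasSum_nat_add_iff' (f := fun j : ℕ => (2 : ℝ) * (1 / (2 * (j : ℝ) + 1)) * x ^ (2 * j + 1)) 1).2 hs
  have hx2 : x ^ 2 < 1 := by nlinarith
  have hg := (hasSum_geometric_of_lt_one (sq_nonneg x) hx2).mul_left (2 / 3 * x ^ 3)
  have hle := hasSum_le (fun j => ?_) hs' hg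
  · simp only [Finset.sum_range_one] at hle
    have e : (2 : ℝ) * (1 / (2 * ((0 : ℕ) : ℝ) + 1)) * x ^ (2 * 0 + 1) = 2 * x := by simp
    rw [e] at hle
    have e2 : 2 / 3 * x ^ 3 * (1 - x ^ 2)⁻¹ = 2 / 3 * x ^ 3 / (1 - x ^ 2) := by
      rw [div_eq_mul_inv (2 / 3 * x ^ 3)]
    rw [e2] at hle
    linarith
  · have h3 : (1 : ℝ) / (2 * ((j + 1 : ℕ) : ℝ) + 1) ≤ 1 / 3 := by
      apply one_div_le_one_div_of_le (by norm_num)
      push_cast
      have : (0 : ℝ) ≤ (j : ℝ) := Nat.cast_nonneg j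
      linarith
    have hp : (0 : ℝ) ≤ x ^ (2 * (j + 1) + 1) := pow_nonneg h0 _
    calc (2 : ℝ) * (1 / (2 * ((j + 1 : ℕ) : ℝ) + 1)) * x ^ (2 * (j + 1) + 1)
        ≤ 2 * (1 / 3) * x ^ (2 * (j + 1) + 1) :=
          mul_le_mul_of_nonneg_right (mul_le_mul_of_nonneg_left h3 (by norm_num)) hp
      _ = 2 / 3 * x ^ 3 * (x ^ 2) ^ j := by ring

/-! ### The slope -/

/-- The slope in terms of `x = k / (n + 1)`. -/
theorem La_mul {n k : ℕ} (hk : 1 ≤ k) (hkn : k ≤ n) :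
    La n k * k = Real.log (1 + (k : ℝ) / (n + 1)) - Real.log (1 - (k : ℝ) / (n + 1)) := by
  have hk0 : (0 : ℝ) < k := by exact_mod_cast hk
  have hkn' : (k : ℝ) ≤ n := by exact_mod_cast hkn
  have hN : (0 : ℝ) < (n : ℝ) + 1 := by positivity
  have h1 : (0 : ℝ) < 1 + (k : ℝ) / (n + 1) := by positivity
  have h2 : (0 : ℝ) < 1 - (k : ℝ) / (n + 1) := by
    rw [sub_pos, div_lt_one hN]; linarith
  unfold La
  rw [div_mul_cancel₀ _ hk0.ne', ← Real.log_div h1.ne' h2.ne']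
  congr 1
  have h3 : (n : ℝ) + 1 - k ≠ 0 := by
    have : (0 : ℝ) < (n : ℝ) + 1 - k := by linarith
    exact this.ne'
  rw [div_eq_div_iff h3 h2.ne']
  field_simp

/-- The slope is at least `2 / (n + 1)`. -/
theorem two_div_le_La {n k : ℕ} (hk : 1 ≤ k) (hkn : k ≤ n) : 2 / ((n : ℝ) + 1) ≤ La n k := by
  have hk0 : (0 : ℝ) < k := by exact_mod_cast hk
  have hkn' : (k : ℝ) ≤ n := by exact_mod_cast hkn
  have hN : (0 : ℝ) < (n : ℝ) + 1 := by positivity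
  have h := La_mul hk hkn
  have hx0 : (0 : ℝ) ≤ (k : ℝ) / (n + 1) := by positivity
  have hx1 : (k : ℝ) / (n + 1) < 1 := by rw [div_lt_one hN]; linarith
  have hl := lr_lower hx0 hx1
  rw [← h] at hl
  have e : 2 * ((k : ℝ) / (n + 1)) = 2 / ((n : ℝ) + 1) * k := by ring
  rw [e] at hl
  exact le_of_mul_le_mul_right hl hk0

/-- The upper bound for the slope. -/
theorem La_upper {n k : ℕ} (hk : 1 ≤ k) (hkn : k ≤ n) :
    La n k ≤ 2 / ((n : ℝ) + 1) * (1 + (k : ℝ) ^ 2 / (3 * (((n : ℝ) + 1) ^ 2 - (k : ℝ) ^ 2))) := by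
  have hk0 : (0 : ℝ) < k := by exact_mod_cast hk
  have hkn' : (k : ℝ) ≤ n := by exact_mod_cast hkn
  have hN : (0 : ℝ) < (n : ℝ) + 1 := by positivity
  have h := La_mul hk hkn
  have hx0 : (0 : ℝ) ≤ (k : ℝ) / (n + 1) := by positivity
  have hx1 : (k : ℝ) / (n + 1) < 1 := by rw [div_lt_one hN]; linarith
  have hu := lr_upper hx0 hx1
  rw [← h] at hu
  have hD : (0 : ℝ) < ((n : ℝ) + 1) ^ 2 - (k : ℝ) ^ 2 := by nlinarith
  have hD1 : (0 : ℝ) < 1 - ((k : ℝ) / (n + 1)) ^ 2 := by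
    have : ((k : ℝ) / (n + 1)) ^ 2 < 1 := by
      have := mul_lt_one_of_nonneg_of_lt_one_left hx0 hx1 hx1.le
      nlinarith
    linarith
  have e : 2 * ((k : ℝ) / (n + 1)) + 2 / 3 * ((k : ℝ) / (n + 1)) ^ 3 / (1 - ((k : ℝ) / (n + 1)) ^ 2) =
      2 / ((n : ℝ) + 1) * (1 + (k : ℝ) ^ 2 / (3 * (((n : ℝ) + 1) ^ 2 - (k : ℝ) ^ 2))) * k := by
    have e1 : 1 - ((k : ℝ) / (n + 1)) ^ 2 = (((n : ℝ) + 1) ^ 2 - (k : ℝ) ^ 2) / ((n : ℝ) + 1) ^ 2 := by
      field_simp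
    rw [e1]
    field_simp
  rw [e] at hu
  exact le_of_mul_le_mul_right hu hk0

/-! ### The majorant -/

/-- The ratio of consecutive binomial coefficients. -/
theorem log_choose_succ {n a : ℕ} (ha : a + 1 ≤ n) :
    Real.log (n.choose (a + 1)) = Real.log (n.choose a) +
      (Real.log ((n : ℝ) - a) - Real.log ((a : ℝ) + 1)) := by
  have h := Nat.choose_succ_right_eq n a
  have h1 : (0 : ℝ) < (n.choose a : ℝ) := by exact_mod_cast Nat.choose_pos (by omega)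
  have h2 : (0 : ℝ) < (n.choose (a + 1) : ℝ) := by exact_mod_cast Nat.choose_pos ha
  have h3 : (0 : ℝ) < (n : ℝ) - a := by
    have : ((a : ℕ) : ℝ) + 1 ≤ n := by exact_mod_cast ha
    linarith
  have h4 : (0 : ℝ) < (a : ℝ) + 1 := by positivity
  have h5 : (n.choose (a + 1) : ℝ) * ((a : ℝ) + 1) = (n.choose a : ℝ) * ((n : ℝ) - a) := by
    have := congrArg (fun t : ℕ => (t : ℝ)) h
    push_cast [Nat.cast_sub (by omega : a ≤ n)] at this
    exact this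
  have h6 := congrArg Real.log h5
  rw [Real.log_mul h2.ne' h4.ne', Real.log_mul h1.ne' h3.ne'] at h6
  linarith

/-- The ratio in terms of `m = n - 2 a - 1`. -/
theorem log_ratio_eq {n a : ℕ} (ha : 2 * a + 1 ≤ n) :
    Real.log ((n : ℝ) - a) - Real.log ((a : ℝ) + 1) =
      Real.log (1 + ((n : ℝ) - 2 * a - 1) / (n + 1)) -
        Real.log (1 - ((n : ℝ) - 2 * a - 1) / (n + 1)) := by
  have hN : (0 : ℝ) < (n : ℝ) + 1 := by positivity
  have ha' : 2 * (a : ℝ) + 1 ≤ n := by exact_mod_cast ha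
  have ha0 : (0 : ℝ) ≤ a := Nat.cast_nonneg a
  have e1 : 1 + ((n : ℝ) - 2 * a - 1) / (n + 1) = ((n : ℝ) - a) * (2 / (n + 1)) := by
    field_simp; ring
  have e2 : 1 - ((n : ℝ) - 2 * a - 1) / (n + 1) = ((a : ℝ) + 1) * (2 / (n + 1)) := by
    field_simp; ring
  have h1 : (n : ℝ) - a ≠ 0 := by
    have : (0 : ℝ) < (n : ℝ) - a := by linarith
    exact this.ne'
  have h2 : (a : ℝ) + 1 ≠ 0 := by positivity
  have h3 : (2 : ℝ) / ((n : ℝ) + 1) ≠ 0 := by positivity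
  rw [e1, e2, Real.log_mul h1 h3, Real.log_mul h2 h3]
  ring

/-- The defect of the majorant. -/
noncomputable def cf (n k a : ℕ) : ℝ :=
  Real.log (n.choose a) - La n k * ((a : ℝ) * ((n : ℝ) - a))

theorem cf_succ {n k a : ℕ} (ha : 2 * a + 1 ≤ n) :
    cf n k (a + 1) - cf n k a =
      (Real.log (1 + ((n : ℝ) - 2 * a - 1) / (n + 1)) -
        Real.log (1 - ((n : ℝ) - 2 * a - 1) / (n + 1))) - La n k * ((n : ℝ) - 2 * a - 1) := by
  unfold cf
  rw [log_choose_succ (by omega : a + 1 ≤ n), log_ratio_eq ha]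
  push_cast
  ring

theorem cf_down {n k a : ℕ} (hk : 1 ≤ k) (hkn : k ≤ n) (ha : 2 * a + 1 ≤ n)
    (hm : n ≤ 2 * a + 1 + k) : cf n k (a + 1) ≤ cf n k a := by
  have hN : (0 : ℝ) < (n : ℝ) + 1 := by positivity
  have hk0 : (0 : ℝ) < k := by exact_mod_cast hk
  have ha' : 2 * (a : ℝ) + 1 ≤ n := by exact_mod_cast ha
  have hm' : (n : ℝ) ≤ 2 * a + 1 + k := by exact_mod_cast hm
  have hkn' : (k : ℝ) ≤ n := by exact_mod_cast hkn
  have h := cf_succ (k := k) ha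
  have hx0 : 0 ≤ ((n : ℝ) - 2 * a - 1) / (n + 1) := div_nonneg (by linarith) hN.le
  have hxy : ((n : ℝ) - 2 * a - 1) / (n + 1) ≤ (k : ℝ) / (n + 1) := by
    apply div_le_div_of_nonneg_right _ hN.le
    linarith
  have hy : (k : ℝ) / (n + 1) < 1 := by rw [div_lt_one hN]; linarith
  have hmono := lr_mono hx0 hxy hy
  rw [← La_mul hk hkn] at hmono
  have e1 : ((n : ℝ) - 2 * a - 1) / (n + 1) * (La n k * k) =
      (k : ℝ) / (n + 1) * (La n k * ((n : ℝ) - 2 * a - 1)) := by ring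
  rw [e1] at hmono
  have hpos : (0 : ℝ) < (k : ℝ) / (n + 1) := by positivity
  have := le_of_mul_le_mul_left hmono hpos
  linarith

theorem cf_up {n k a : ℕ} (hk : 1 ≤ k) (hkn : k ≤ n) (hm : 2 * a + 1 + k ≤ n) :
    cf n k a ≤ cf n k (a + 1) := by
  have hN : (0 : ℝ) < (n : ℝ) + 1 := by positivity
  have hk0 : (0 : ℝ) < k := by exact_mod_cast hk
  have ha0 : (0 : ℝ) ≤ a := Nat.cast_nonneg a
  have hm' : 2 * (a : ℝ) + 1 + k ≤ n := by exact_mod_cast hm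
  have h := cf_succ (k := k) (by omega : 2 * a + 1 ≤ n)
  have hx0 : 0 ≤ (k : ℝ) / (n + 1) := by positivity
  have hxy : (k : ℝ) / (n + 1) ≤ ((n : ℝ) - 2 * a - 1) / (n + 1) := by
    apply div_le_div_of_nonneg_right _ hN.le
    linarith
  have hy : ((n : ℝ) - 2 * a - 1) / (n + 1) < 1 := by rw [div_lt_one hN]; linarith
  have hmono := lr_mono hx0 hxy hy
  rw [← La_mul hk hkn] at hmono
  have e1 : ((n : ℝ) - 2 * a - 1) / (n + 1) * (La n k * k) =
      (k : ℝ) / (n + 1) * (La n k * ((n : ℝ) - 2 * a - 1)) := by ring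
  rw [e1] at hmono
  have hpos : (0 : ℝ) < (k : ℝ) / (n + 1) := by positivity
  have := le_of_mul_le_mul_left hmono hpos
  linarith

theorem cf_below {n s k : ℕ} (hn : n = 2 * s + k) (hk : 1 ≤ k) :
    ∀ j, j ≤ s → cf n k (s - j) ≤ cf n k s := by
  intro j
  induction j with
  | zero => intro _; simp
  | succ j ih =>
    intro hj
    have h1 := ih (by omega)
    have h2 := cf_up (n := n) (k := k) (a := s - (j + 1)) hk (by omega) (by omega)
    have e : s - (j + 1) + 1 = s - j := by omega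
    rw [e] at h2
    exact h2.trans h1

theorem cf_above {n s k : ℕ} (hn : n = 2 * s + k) (hk : 1 ≤ k) :
    ∀ j, 2 * (s + j) ≤ n → cf n k (s + j) ≤ cf n k s := by
  intro j
  induction j with
  | zero => intro _; simp
  | succ j ih =>
    intro hj
    have h1 := ih (by omega)
    have h2 := cf_down (n := n) (k := k) (a := s + j) hk (by omega) (by omega) (by omega)
    have e : s + (j + 1) = s + j + 1 := by omega
    rw [e]
    exact h2.trans h1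

theorem cf_le {n s k a : ℕ} (hn : n = 2 * s + k) (hk : 1 ≤ k) (ha : 2 * a ≤ n) :
    cf n k a ≤ cf n k s := by
  rcases le_total a s with h | h
  · have := cf_below hn hk (s - a) (by omega)
    have e : s - (s - a) = a := by omega
    rwa [e] at this
  · have := cf_above hn hk (a - s) (by omega)
    have e : s + (a - s) = a := by omega
    rwa [e] at this

/-- (B1) The linear majorant. -/
theorem majorant {n s k a : ℕ} (hn : n = 2 * s + k) (hk : 1 ≤ k) (ha : a ≤ n) :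
    Real.log (n.choose a) ≤ Real.log (n.choose s) +
      La n k * ((a : ℝ) * ((n : ℝ) - a) - (s : ℝ) * ((n : ℝ) - s)) := by
  rcases le_or_gt (2 * a) n with h | h
  · have := cf_le (a := a) hn hk h
    unfold cf at this
    linarith
  · have h1 := cf_le (a := n - a) hn hk (by omega)
    unfold cf at h1
    rw [Nat.choose_symm ha, Nat.cast_sub ha] at h1
    have e : ((n : ℝ) - a) * ((n : ℝ) - ((n : ℝ) - a)) = (a : ℝ) * ((n : ℝ) - a) := by ring
    rw [e] at h1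
    linarith

/-! ### (B2) -/

theorem s_mul {n s k : ℕ} (hn : n = 2 * s + k) :
    (s : ℝ) * ((n : ℝ) - s) = ((n : ℝ) ^ 2 - (k : ℝ) ^ 2) / 4 := by
  have : (n : ℝ) = 2 * s + k := by exact_mod_cast hn
  rw [this]; ring

theorem Lam_eq {n s k : ℕ} (hn : n = 2 * s + k) :
    Lam n s = La n k * (((n : ℝ) ^ 2 - (k : ℝ) ^ 2) / 4) := by
  unfold Lam
  rw [s_mul hn]
  have : n - 2 * s = k := by omega
  rw [this]

/-- (B2) The lower bound. -/
theorem Lam_lower {n s k : ℕ} (hn : n = 2 * s + k) (hk : 1 ≤ k) :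
    ((n : ℝ) ^ 2 - (k : ℝ) ^ 2) / (2 * ((n : ℝ) + 1)) ≤ Lam n s := by
  have hkn : k ≤ n := by omega
  have hkn' : (k : ℝ) ≤ n := by exact_mod_cast hkn
  have hk0 : (0 : ℝ) ≤ k := Nat.cast_nonneg k
  have h := two_div_le_La hk hkn
  have hN : (0 : ℝ) < (n : ℝ) + 1 := by positivity
  rw [Lam_eq hn]
  have hD : (0 : ℝ) ≤ ((n : ℝ) ^ 2 - (k : ℝ) ^ 2) / 4 := by nlinarith
  have h2 := mul_le_mul_of_nonneg_right h hD
  have e : 2 / ((n : ℝ) + 1) * (((n : ℝ) ^ 2 - (k : ℝ) ^ 2) / 4) =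
      ((n : ℝ) ^ 2 - (k : ℝ) ^ 2) / (2 * ((n : ℝ) + 1)) := by
    field_simp; ring
  linarith

/-- (B2) The upper bound. -/
theorem Lam_upper {n s k : ℕ} (hn : n = 2 * s + k) (hk : 1 ≤ k) :
    Lam n s ≤ ((n : ℝ) + 1) / 2 := by
  have hkn : k ≤ n := by omega
  have hkn' : (k : ℝ) ≤ n := by exact_mod_cast hkn
  have hk0 : (0 : ℝ) ≤ k := Nat.cast_nonneg k
  have hN : (0 : ℝ) < (n : ℝ) + 1 := by positivity
  have h := La_upper hk hkn
  rw [Lam_eq hn]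
  have hD : (0 : ℝ) ≤ ((n : ℝ) ^ 2 - (k : ℝ) ^ 2) / 4 := by nlinarith
  have hM : (0 : ℝ) < ((n : ℝ) + 1) ^ 2 - (k : ℝ) ^ 2 := by nlinarith
  refine (mul_le_mul_of_nonneg_right h hD).trans ?_
  have h1 : (1 : ℝ) + (k : ℝ) ^ 2 / (3 * (((n : ℝ) + 1) ^ 2 - (k : ℝ) ^ 2)) ≤
      ((n : ℝ) + 1) ^ 2 / (((n : ℝ) + 1) ^ 2 - (k : ℝ) ^ 2) := by
    rw [le_div_iff₀ hM]
    have e : (1 + (k : ℝ) ^ 2 / (3 * (((n : ℝ) + 1) ^ 2 - (k : ℝ) ^ 2))) *
        (((n : ℝ) + 1) ^ 2 - (k : ℝ) ^ 2) =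
        (((n : ℝ) + 1) ^ 2 - (k : ℝ) ^ 2) + (k : ℝ) ^ 2 / 3 := by
      field_simp
    rw [e]
    nlinarith [sq_nonneg (k : ℝ)]
  have h2 : ((n : ℝ) ^ 2 - (k : ℝ) ^ 2) / 4 ≤ (((n : ℝ) + 1) ^ 2 - (k : ℝ) ^ 2) / 4 := by
    have : (0 : ℝ) ≤ n := Nat.cast_nonneg n
    nlinarith
  have h3 : (0 : ℝ) ≤ 2 / ((n : ℝ) + 1) := by positivity
  calc 2 / ((n : ℝ) + 1) * (1 + (k : ℝ) ^ 2 / (3 * (((n : ℝ) + 1) ^ 2 - (k : ℝ) ^ 2))) *
        (((n : ℝ) ^ 2 - (k : ℝ) ^ 2) / 4)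
      ≤ 2 / ((n : ℝ) + 1) * (((n : ℝ) + 1) ^ 2 / (((n : ℝ) + 1) ^ 2 - (k : ℝ) ^ 2)) *
        ((((n : ℝ) + 1) ^ 2 - (k : ℝ) ^ 2) / 4) := by
          apply mul_le_mul (mul_le_mul_of_nonneg_left h1 h3) h2 hD
          positivity
    _ = ((n : ℝ) + 1) / 2 := by field_simp; ring

/-! ### (B3) -/

/-- Sperner's theorem and the majorant. -/
theorem lv_bound {n s k : ℕ} (hn : n = 2 * s + k) (hk : 1 ≤ k) (h3 : 3 * k ≤ 2 * (n + 1))
    {F : Finset (Finset (Fin n))} (hF : IsAntichain (· ⊆ ·) (F : Set (Finset (Fin n)))) :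
    lv n s F.card ≤ 19 / 30 * (k : ℝ) ^ 2 / ((n : ℝ) + 1) := by
  have hkn : k ≤ n := by omega
  have hkn' : (k : ℝ) ≤ n := by exact_mod_cast hkn
  have hk0 : (0 : ℝ) ≤ k := Nat.cast_nonneg k
  have h3' : 3 * (k : ℝ) ≤ 2 * ((n : ℝ) + 1) := by exact_mod_cast h3
  have hN : (0 : ℝ) < (n : ℝ) + 1 := by positivity
  have hR : 0 ≤ 19 / 30 * (k : ℝ) ^ 2 / ((n : ℝ) + 1) := by positivity
  have hCs : (0 : ℝ) < (n.choose s : ℝ) := by exact_mod_cast Nat.choose_pos (by omega)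
  rcases Nat.eq_zero_or_pos F.card with h0 | hpos
  · unfold lv
    rw [h0]
    simpa using hR
  have hFc : (0 : ℝ) < (F.card : ℝ) := by exact_mod_cast hpos
  have hsp : F.card ≤ n.choose (n / 2) := by
    have := hF.sperner
    simpa using this
  have hsp' : (F.card : ℝ) ≤ (n.choose (n / 2) : ℝ) := by exact_mod_cast hsp
  have hlog : Real.log (F.card : ℝ) ≤ Real.log (n.choose (n / 2)) := Real.log_le_log hFc hsp'
  have hmaj := majorant (a := n / 2) hn hk (Nat.div_le_self n 2)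
  unfold lv
  rw [Real.log_div hFc.ne' hCs.ne']
  have hLa0 : 0 ≤ La n k := le_trans (by positivity) (two_div_le_La hk hkn)
  have hq : ((n / 2 : ℕ) : ℝ) * ((n : ℝ) - ((n / 2 : ℕ) : ℝ)) - (s : ℝ) * ((n : ℝ) - s) ≤
      (k : ℝ) ^ 2 / 4 := by
    rw [s_mul hn]
    nlinarith [sq_nonneg ((n : ℝ) - 2 * ((n / 2 : ℕ) : ℝ))]
  have h4 := mul_le_mul_of_nonneg_left hq hLa0
  have hM : (0 : ℝ) < ((n : ℝ) + 1) ^ 2 - (k : ℝ) ^ 2 := by nlinarith
  have h5 : (k : ℝ) ^ 2 / (3 * (((n : ℝ) + 1) ^ 2 - (k : ℝ) ^ 2)) ≤ 4 / 15 := by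
    rw [div_le_iff₀ (by positivity)]
    nlinarith
  have h6 := La_upper hk hkn
  have h7 : La n k ≤ 2 / ((n : ℝ) + 1) * (19 / 15) := by
    refine h6.trans (mul_le_mul_of_nonneg_left ?_ (by positivity))
    linarith
  have h8 : La n k * ((k : ℝ) ^ 2 / 4) ≤ 2 / ((n : ℝ) + 1) * (19 / 15) * ((k : ℝ) ^ 2 / 4) :=
    mul_le_mul_of_nonneg_right h7 (by positivity)
  have e : 2 / ((n : ℝ) + 1) * (19 / 15) * ((k : ℝ) ^ 2 / 4) =
      19 / 30 * (k : ℝ) ^ 2 / ((n : ℝ) + 1) := by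
    field_simp; ring
  linarith

/-- (B3) The bound for the level. -/
theorem lv_le {n s k : ℕ} (hn : n = 2 * s + k) (hk : 1 ≤ k) (h2 : 2 * k ≤ n)
    {F : Finset (Finset (Fin n))} (hF : IsAntichain (· ⊆ ·) (F : Set (Finset (Fin n)))) :
    lv n s F.card ≤ (k : ℝ) ^ 2 / n := by
  have hn0 : (0 : ℝ) < n := by
    have : 0 < n := by omega
    exact_mod_cast this
  refine (lv_bound hn hk (by omega) hF).trans ?_
  rw [div_le_div_iff₀ (by positivity) hn0]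
  nlinarith [mul_nonneg (sq_nonneg (k : ℝ)) hn0.le, sq_nonneg (k : ℝ)]

/-- (B3) The bound for the level on `n - 2` points. -/
theorem lv_le_sub {n s k : ℕ} (hn : n = 2 * s + k) (hk : 1 ≤ k) (hs : 1 ≤ s) (h3 : 3 ≤ n)
    (h2 : 2 * k ≤ n) {F : Finset (Finset (Fin (n - 2)))}
    (hF : IsAntichain (· ⊆ ·) (F : Set (Finset (Fin (n - 2))))) :
    lv (n - 2) (s - 1) F.card ≤ (k : ℝ) ^ 2 / n := by
  have hn0 : (0 : ℝ) < n := by
    have : 0 < n := by omega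
    exact_mod_cast this
  have h3' : (3 : ℝ) ≤ n := by exact_mod_cast h3
  refine (lv_bound (n := n - 2) (s := s - 1) (k := k) (by omega) hk (by omega) hF).trans ?_
  have e : ((n - 2 : ℕ) : ℝ) + 1 = (n : ℝ) - 1 := by
    rw [Nat.cast_sub (by omega)]; push_cast; ring
  rw [e, div_le_div_iff₀ (by linarith) hn0]
  nlinarith [mul_nonneg (sq_nonneg (k : ℝ)) (by linarith : (0 : ℝ) ≤ (n : ℝ) - 3), sq_nonneg (k : ℝ)]

end Pool.Agent.LineQ
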