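import Mathlib

/-!
# Two bounds for binomial coefficients (route (C))
-/

set_option autoImplicit false

namespace Pool.Agent.LineQ

open Finset

/-- Chernoff's bound for a binomial coefficient. -/
theorem choose_gauss {n a : ℕ} (hn : 1 ≤ n) (ha : a ≤ n) :
    (n.choose a : ℝ) ≤ 2 ^ n * Real.exp (-((n : ℝ) - 2 * a) ^ 2 / (2 * n)) := by
  have hn0 : (0 : ℝ) < n := by exact_mod_cast hn
  set t : ℝ := ((n : ℝ) - 2 * a) / n with ht
  have h1 : (n.choose a : ℝ) * Real.exp (t * ((n : ℝ) - 2 * a)) ≤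
      (Real.exp (-t) + Real.exp t) ^ n := by
    rw [add_pow]
    have h2 : (n.choose a : ℝ) * Real.exp (t * ((n : ℝ) - 2 * a)) =
        Real.exp (-t) ^ a * Real.exp t ^ (n - a) * (n.choose a : ℝ) := by
      rw [← Real.exp_nat_mul, ← Real.exp_nat_mul, ← Real.exp_add, mul_comm]
      congr 2
      rw [Nat.cast_sub ha]
      ring
    rw [h2]
    exact Finset.single_le_sum (f := fun m => Real.exp (-t) ^ m * Real.exp t ^ (n - m) *
      (n.choose m : ℝ)) (fun i _ => by positivity) (Finset.mem_range.mpr (by omega))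
  have h3 : Real.exp (-t) + Real.exp t = 2 * Real.cosh t := by
    rw [Real.cosh_eq]; ring
  have h4 : (Real.exp (-t) + Real.exp t) ^ n ≤ 2 ^ n * Real.exp (n * (t ^ 2 / 2)) := by
    rw [h3, mul_pow, Real.exp_nat_mul]
    exact mul_le_mul_of_nonneg_left
      (pow_le_pow_left₀ (Real.cosh_pos t).le (Real.cosh_le_exp_half_sq t) n) (by positivity)
  have h5 := h1.trans h4
  rw [← le_div_iff₀ (Real.exp_pos _)] at h5
  refine h5.trans (le_of_eq ?_)
  rw [mul_div_assoc, ← Real.exp_sub]
  congr 2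
  rw [ht]
  field_simp
  ring

theorem choose_mid (n : ℕ) : 2 ^ n ≤ (n + 1) * n.choose (n / 2) := by
  rw [← Nat.sum_range_choose]
  calc ∑ m ∈ Finset.range (n + 1), n.choose m ≤ ∑ _m ∈ Finset.range (n + 1), n.choose (n / 2) :=
        Finset.sum_le_sum (fun i _ => Nat.choose_le_middle i n)
    _ = (n + 1) * n.choose (n / 2) := by simp

end Pool.Agent.LineQ
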