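import Pool.Agent.DiamSqrt.Linear

/-!
# The law of the distance function for a pair of families

`F` and `G` are antichains of `2^[n]`, `n = 2 s + k`, all cross distances are at most `2 s`,
`C(n,s) ≤ |F|` and `|G|` is at least `C(n,s)` up to a relative error; `f` and `g` are the distance
functions. If the mean of `g` is at most `k / 2 + ε` then `f X + s = |X ∆ Z|` for a set `Z` and all
`X` off a small set.

PROOF. As `DiamSqrt/Mean.lean`, `DiamSqrt/Var.lean`, `DiamSqrt/Linear.lean`. There the condition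
`k ≤ f X + f Xᶜ` is used at three places: the second moment (here `(f X - k/2)_+ ≥ (k/2 - g Xᶜ)_+`
and the isoperimetric inequality for `G`), the lower bound of the mean (here `f X + g Xᶜ ≥ k` and
the bound of the mean of `g`) and the sign of `f X + s - |X ∆ Z|` (here this function is constant
off a small set, and its mean is small).
-/

namespace LineQ

open Finset DiamEven DiamSqrt

private lemma cl_sum_card_add {α : Type*} [DecidableEq α] (S : Finset α) :
    ∀ c : ℝ, ∑ X ∈ S.powerset, ((X.card : ℝ) + c) = 2 ^ S.card * ((S.card : ℝ) / 2 + c) := by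
  induction S using Finset.induction_on with
  | empty => intro c; simp
  | insert a S ha ih =>
    intro c
    rw [Finset.sum_powerset_insert ha, ih c]
    have h1 : ∑ X ∈ S.powerset, (((insert a X).card : ℝ) + c) =
        ∑ X ∈ S.powerset, ((X.card : ℝ) + (c + 1)) := by
      apply Finset.sum_congr rfl
      intro X hX
      rw [mem_powerset] at hX
      rw [card_insert_of_notMem (fun h => ha (hX h))]
      push_cast
      ring
    rw [h1, ih (c + 1), card_insert_of_notMem ha]
    push_cast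
    ring

private lemma cl_sum_card_add_sq {α : Type*} [DecidableEq α] (S : Finset α) :
    ∀ c : ℝ, ∑ X ∈ S.powerset, ((X.card : ℝ) + c) ^ 2 =
      2 ^ S.card * (((S.card : ℝ) / 2 + c) ^ 2 + (S.card : ℝ) / 4) := by
  induction S using Finset.induction_on with
  | empty => intro c; simp
  | insert a S ha ih =>
    intro c
    rw [Finset.sum_powerset_insert ha, ih c]
    have h1 : ∑ X ∈ S.powerset, (((insert a X).card : ℝ) + c) ^ 2 =
        ∑ X ∈ S.powerset, ((X.card : ℝ) + (c + 1)) ^ 2 := by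
      apply Finset.sum_congr rfl
      intro X hX
      rw [mem_powerset] at hX
      rw [card_insert_of_notMem (fun h => ha (hX h))]
      push_cast
      ring
    rw [h1, ih (c + 1), card_insert_of_notMem ha]
    push_cast
    ring

/-- telescoping -/
private lemma cl_tele (φ : ℕ → ℝ) (N v : ℕ) (hv : v ≤ N) :
    φ v = φ N + ∑ t ∈ range N, (φ t - φ (t + 1)) * (if v ≤ t then 1 else 0) := by
  induction N with
  | zero =>
    have : v = 0 := by omega
    subst this
    simp
  | succ N ih =>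
    rcases Nat.lt_or_ge v (N + 1) with h | h
    · rw [Finset.sum_range_succ, if_pos (by omega : v ≤ N), ih (by omega)]
      ring
    · have : v = N + 1 := by omega
      subst this
      rw [Finset.sum_eq_zero]
      · ring
      · intro t ht
        rw [mem_range] at ht
        rw [if_neg (by omega), mul_zero]

/-- the distance from the level `s` -/
private def cl_dst (s a : ℕ) : ℕ := (a - s) + (s - a)

private lemma cl_sum_dst_le {n : ℕ} (s t : ℕ) :
    ∑ X ∈ (univ : Finset (Fin n)).powerset, (if cl_dst s X.card ≤ t then (1 : ℝ) else 0) =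
      WW t n s := by
  rw [Finset.sum_powerset_apply_card (fun j => if cl_dst s j ≤ t then (1 : ℝ) else 0)]
  unfold WW
  rw [Finset.card_univ, Fintype.card_fin]
  apply Finset.sum_congr rfl
  intro j _
  rw [nsmul_eq_mul]
  congr 1
  unfold cl_dst
  by_cases h : s ≤ j + t ∧ j ≤ s + t
  · rw [if_pos h, if_pos (by omega)]
  · rw [if_neg h, if_neg (by omega)]

variable {n : ℕ}

/-- comparison with the level `s`, with an error -/
private lemma cl_dom {s k : ℕ} (hn : n = 2 * s + k) {f : Finset (Fin n) → ℕ}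
    (hle : ∀ X, f X ≤ n) (e : ℕ → ℝ)
    (he : ∀ t, WW t n s - e t ≤
      ∑ X ∈ (univ : Finset (Fin n)).powerset, (if f X ≤ t then (1 : ℝ) else 0))
    (φ : ℕ → ℝ) (hφ : ∀ t, φ (t + 1) ≤ φ t) :
    ∑ X ∈ (univ : Finset (Fin n)).powerset, φ (cl_dst s X.card) ≤
      ∑ X ∈ (univ : Finset (Fin n)).powerset, φ (f X) +
        ∑ t ∈ range (n + 1), (φ t - φ (t + 1)) * e t := by
  have h1 : ∀ X : Finset (Fin n), φ (cl_dst s X.card) = φ (n + 1) +
      ∑ t ∈ range (n + 1), (φ t - φ (t + 1)) * (if cl_dst s X.card ≤ t then 1 else 0) := by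
    intro X
    apply cl_tele
    have hX : X.card ≤ n := by simpa using Finset.card_le_univ X
    unfold cl_dst
    omega
  have h2 : ∀ X : Finset (Fin n), φ (f X) =
      φ (n + 1) + ∑ t ∈ range (n + 1), (φ t - φ (t + 1)) * (if f X ≤ t then 1 else 0) := by
    intro X
    apply cl_tele
    have := hle X
    omega
  rw [Finset.sum_congr rfl (fun X _ => h1 X), Finset.sum_congr rfl (fun X _ => h2 X),
    Finset.sum_add_distrib, Finset.sum_add_distrib, Finset.sum_comm,
    Finset.sum_comm (s := (univ : Finset (Fin n)).powerset) (t := range (n + 1))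
      (f := fun X t => (φ t - φ (t + 1)) * (if f X ≤ t then 1 else 0)), add_assoc,
    ← Finset.sum_add_distrib]
  apply add_le_add le_rfl
  apply Finset.sum_le_sum
  intro t _
  rw [← Finset.mul_sum, ← Finset.mul_sum, cl_sum_dst_le, ← mul_add]
  apply mul_le_mul_of_nonneg_left _ (by have := hφ t; linarith)
  have := he t
  linarith

private lemma cl_sum_small (s : ℕ) (p : ℝ)
    (hp : ∑ j ∈ range (s + 1), (n.choose j : ℝ) ≤ p * 2 ^ n) :
    ∑ X ∈ (univ : Finset (Fin n)).powerset, (if X.card < s then (1 : ℝ) else 0) ≤ p * 2 ^ n := by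
  rw [Finset.sum_powerset_apply_card (fun j => if j < s then (1 : ℝ) else 0),
    Finset.card_univ, Fintype.card_fin]
  refine le_trans ?_ hp
  rw [← Finset.sum_filter_add_sum_filter_not (range (n + 1)) (fun j => j < s)]
  rw [Finset.sum_eq_zero (s := (range (n + 1)).filter (fun j => ¬ j < s)), add_zero]
  · have h1 : ∑ j ∈ (range (n + 1)).filter (fun j => j < s),
        n.choose j • (if j < s then (1 : ℝ) else 0) =
        ∑ j ∈ (range (n + 1)).filter (fun j => j < s), (n.choose j : ℝ) := by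
      apply Finset.sum_congr rfl
      intro j hj
      rw [mem_filter] at hj
      rw [if_pos hj.2, nsmul_eq_mul, mul_one]
    rw [h1]
    apply Finset.sum_le_sum_of_subset_of_nonneg
    · intro j hj
      rw [mem_filter] at hj
      rw [mem_range]
      omega
    · intro j _ _
      positivity
  · intro j hj
    rw [mem_filter] at hj
    rw [if_neg hj.2, smul_zero]

private lemma cl_sum_compl (g : Finset (Fin n) → ℝ) :
    ∑ X ∈ (univ : Finset (Fin n)).powerset, g Xᶜ = ∑ X ∈ (univ : Finset (Fin n)).powerset, g X := by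
  apply Finset.sum_nbij' (fun X => Xᶜ) (fun X => Xᶜ)
  · intro X _; simp
  · intro X _; simp
  · intro X _; simp
  · intro X _; simp
  · intro X _; rfl

/-- isoperimetry for the distance function -/
private lemma cl_iso (K : Finset (Finset (Fin n)))
    (hK : IsAntichain (· ⊆ ·) (K : Set (Finset (Fin n)))) (a : ℕ) (τ : ℝ) (h0 : 0 ≤ τ)
    (h1 : τ ≤ 1) (ha : 2 * a + 1 ≤ n) (hc : (n.choose a : ℝ) + τ * dd n (a + 1) ≤ K.card)
    (f : Finset (Fin n) → ℕ) (hf : IsDist K f) (t : ℕ) :
    WW t n a + τ * vv t n (a + 1) ≤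
      ∑ X ∈ (univ : Finset (Fin n)).powerset, (if f X ≤ t then (1 : ℝ) else 0) := by
  have h := covStat (α := Fin n) t n univ (by simp) K hK (fun _ _ => subset_univ _) a τ h0 h1 ha hc
  refine h.trans (le_of_eq ?_)
  unfold cov
  apply Finset.sum_congr rfl
  intro X _
  have : (∃ B ∈ K, (symmDiff X B).card ≤ t) ↔ f X ≤ t := by
    constructor
    · rintro ⟨B, hB, h1⟩
      exact (hf.le X B hB).trans h1
    · intro h1
      obtain ⟨B, hB, h2⟩ := hf.ex X
      exact ⟨B, hB, by omega⟩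
  simp only [this]

private lemma cl_vv_le (t m : ℕ) (a : ℕ) : vv t m a ≤ 2 ^ m := by
  unfold vv
  have h1 : ((m.choose (a + t) : ℕ) : ℝ) ≤ 2 ^ m := by exact_mod_cast Nat.choose_le_two_pow m _
  split_ifs
  · have h2 : (0 : ℝ) ≤ ((m.choose (a - 1 - t) : ℕ) : ℝ) := Nat.cast_nonneg _
    linarith
  · linarith

/-- the mean, upper bound -/
private lemma cl_mean {s k : ℕ} (hn : n = 2 * s + k) {f : Finset (Fin n) → ℕ}
    (hle : ∀ X, f X ≤ n)
    (iso : ∀ t : ℕ, WW t n s ≤
      ∑ X ∈ (univ : Finset (Fin n)).powerset, (if f X ≤ t then (1 : ℝ) else 0)) (p : ℝ)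
    (hp : ∑ j ∈ range (s + 1), (n.choose j : ℝ) ≤ p * 2 ^ n) :
    ∑ X ∈ (univ : Finset (Fin n)).powerset, (f X : ℝ) ≤ 2 ^ n * ((k : ℝ) / 2 + n * p) := by
  have hnR : (n : ℝ) = 2 * s + k := by exact_mod_cast hn
  have h1 := cl_dom hn hle (fun _ => 0) (fun t => by rw [sub_zero]; exact iso t)
    (fun v => -(v : ℝ)) (by intro t; push_cast; linarith)
  simp only [mul_zero, Finset.sum_const_zero, add_zero] at h1
  rw [Finset.sum_neg_distrib, Finset.sum_neg_distrib, neg_le_neg_iff] at h1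
  refine h1.trans ?_
  have h2 : ∑ X ∈ (univ : Finset (Fin n)).powerset, (cl_dst s X.card : ℝ) ≤
      ∑ X ∈ (univ : Finset (Fin n)).powerset,
        (((X.card : ℝ) + (-(s : ℝ))) + 2 * s * (if X.card < s then (1 : ℝ) else 0)) := by
    apply Finset.sum_le_sum
    intro X _
    unfold cl_dst
    split_ifs with hX
    · rw [Nat.sub_eq_zero_of_le hX.le, zero_add, Nat.cast_sub hX.le]
      have : (0 : ℝ) ≤ X.card := Nat.cast_nonneg _
      linarith
    · push Not at hX
      rw [Nat.sub_eq_zero_of_le hX, add_zero, Nat.cast_sub hX]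
      linarith
  refine h2.trans ?_
  rw [Finset.sum_add_distrib, cl_sum_card_add, ← Finset.mul_sum, Finset.card_univ,
    Fintype.card_fin]
  have h3 := mul_le_mul_of_nonneg_left (cl_sum_small s p hp) (by positivity : (0 : ℝ) ≤ 2 * s)
  have hp0 : 0 ≤ p * 2 ^ n := le_trans (Finset.sum_nonneg (fun _ _ => by positivity)) hp
  have hk0 : (0 : ℝ) ≤ k := Nat.cast_nonneg _
  have h4 : (2 : ℝ) * s * (p * 2 ^ n) ≤ n * (p * 2 ^ n) := by
    apply mul_le_mul_of_nonneg_right _ hp0
    linarith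
  have h5 : (2 : ℝ) ^ n * ((n : ℝ) / 2 + -(s : ℝ)) = 2 ^ n * ((k : ℝ) / 2) := by
    rw [hnR]; ring
  rw [h5]
  linarith

private lemma cl_sq_split (a : ℝ) : a ^ 2 = (max (-a) 0) ^ 2 + (max a 0) ^ 2 := by
  rcases le_total a 0 with h | h
  · rw [max_eq_left (by linarith), max_eq_right h]; ring
  · rw [max_eq_right (by linarith), max_eq_left h]; ring

/-- the second moment -/
private lemma cl_second {s k : ℕ} (hn : n = 2 * s + k) {f g : Finset (Fin n) → ℕ}
    (hle : ∀ X, f X ≤ n) (hle' : ∀ X, g X ≤ n)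
    (iso : ∀ t : ℕ, WW t n s ≤
      ∑ X ∈ (univ : Finset (Fin n)).powerset, (if f X ≤ t then (1 : ℝ) else 0)) (ε : ℝ)
    (hε : 0 ≤ ε)
    (iso' : ∀ t : ℕ, WW t n s - ε * 2 ^ n ≤
      ∑ X ∈ (univ : Finset (Fin n)).powerset, (if g X ≤ t then (1 : ℝ) else 0))
    (disj : ∀ X, k ≤ f X + g Xᶜ) (p : ℝ)
    (hp : ∑ j ∈ range (s + 1), (n.choose j : ℝ) ≤ p * 2 ^ n) :
    2 ^ n * ((n : ℝ) / 4 - n ^ 2 * (p + ε)) ≤
      ∑ X ∈ (univ : Finset (Fin n)).powerset, ((f X : ℝ) - (k : ℝ) / 2) ^ 2 := by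
  have hnR : (n : ℝ) = 2 * s + k := by exact_mod_cast hn
  have hp0 : 0 ≤ p * 2 ^ n := le_trans (Finset.sum_nonneg (fun _ _ => by positivity)) hp
  -- the function
  have hmax : ∀ a b : ℝ, a ≤ b → (max a 0) ^ 2 ≤ (max b 0) ^ 2 := by
    intro a b hab
    exact pow_le_pow_left₀ (le_max_right _ _) (max_le_max hab le_rfl) 2
  have hφ : ∀ t : ℕ, (max ((k : ℝ) / 2 - ((t + 1 : ℕ) : ℝ)) 0) ^ 2 ≤
      (max ((k : ℝ) / 2 - (t : ℝ)) 0) ^ 2 := by
    intro t
    apply hmax
    push_cast
    linarith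
  have h1 := cl_dom hn hle (fun _ => 0) (fun t => by rw [sub_zero]; exact iso t)
    (fun v => (max ((k : ℝ) / 2 - v) 0) ^ 2) hφ
  simp only [mul_zero, Finset.sum_const_zero, add_zero] at h1
  have h1' := cl_dom hn hle' (fun _ => ε * 2 ^ n) iso'
    (fun v => (max ((k : ℝ) / 2 - v) 0) ^ 2) hφ
  have herr : ∑ t ∈ range (n + 1), ((max ((k : ℝ) / 2 - ((t : ℕ) : ℝ)) 0) ^ 2 -
      (max ((k : ℝ) / 2 - ((t + 1 : ℕ) : ℝ)) 0) ^ 2) * (ε * 2 ^ n) ≤ n ^ 2 / 4 * (ε * 2 ^ n) := by
    rw [← Finset.sum_mul]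
    apply mul_le_mul_of_nonneg_right _ (by positivity)
    rw [Finset.sum_range_sub' (fun t : ℕ => (max ((k : ℝ) / 2 - (t : ℝ)) 0) ^ 2)]
    have h2 : (max ((k : ℝ) / 2 - ((0 : ℕ) : ℝ)) 0) ^ 2 ≤ ((n : ℝ) / 2) ^ 2 := by
      apply pow_le_pow_left₀ (le_max_right _ _)
      apply max_le
      · have : (0 : ℝ) ≤ s := Nat.cast_nonneg _
        push_cast
        linarith
      · positivity
    have h3 : 0 ≤ (max ((k : ℝ) / 2 - ((n + 1 : ℕ) : ℝ)) 0) ^ 2 := sq_nonneg _
    have h4 : ((n : ℝ) / 2) ^ 2 = n ^ 2 / 4 := by ring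
    linarith
  have h2 : ∑ X ∈ (univ : Finset (Fin n)).powerset, ((f X : ℝ) - (k : ℝ) / 2) ^ 2 =
      ∑ X ∈ (univ : Finset (Fin n)).powerset, (max ((k : ℝ) / 2 - f X) 0) ^ 2 +
        ∑ X ∈ (univ : Finset (Fin n)).powerset, (max ((f X : ℝ) - (k : ℝ) / 2) 0) ^ 2 := by
    rw [← Finset.sum_add_distrib]
    apply Finset.sum_congr rfl
    intro X _
    have := cl_sq_split ((f X : ℝ) - (k : ℝ) / 2)
    rw [neg_sub] at this
    exact this
  have h3 : ∑ X ∈ (univ : Finset (Fin n)).powerset, (max ((k : ℝ) / 2 - g X) 0) ^ 2 ≤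
      ∑ X ∈ (univ : Finset (Fin n)).powerset, (max ((f X : ℝ) - (k : ℝ) / 2) 0) ^ 2 := by
    rw [← cl_sum_compl (fun X => (max ((k : ℝ) / 2 - g X) 0) ^ 2)]
    apply Finset.sum_le_sum
    intro X _
    apply hmax
    have h4 : (k : ℝ) ≤ f X + g Xᶜ := by exact_mod_cast disj X
    linarith
  have h5 : ∑ X ∈ (univ : Finset (Fin n)).powerset, ((X.card : ℝ) + (-((n : ℝ) / 2))) ^ 2 =
      2 ^ n * ((n : ℝ) / 4) := by
    rw [cl_sum_card_add_sq, Finset.card_univ, Fintype.card_fin]
    ring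
  have h6 : ∑ X ∈ (univ : Finset (Fin n)).powerset, ((X.card : ℝ) + (-((n : ℝ) / 2))) ^ 2 =
      ∑ X ∈ (univ : Finset (Fin n)).powerset, (max ((n : ℝ) / 2 - X.card) 0) ^ 2 +
        ∑ X ∈ (univ : Finset (Fin n)).powerset, (max ((X.card : ℝ) - (n : ℝ) / 2) 0) ^ 2 := by
    rw [← Finset.sum_add_distrib]
    apply Finset.sum_congr rfl
    intro X _
    have := cl_sq_split ((X.card : ℝ) + (-((n : ℝ) / 2)))
    rw [this]
    have e : -((X.card : ℝ) + -((n : ℝ) / 2)) = (n : ℝ) / 2 - X.card := by ring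
    rw [e, ← sub_eq_add_neg]
  have h7 : ∑ X ∈ (univ : Finset (Fin n)).powerset, (max ((X.card : ℝ) - (n : ℝ) / 2) 0) ^ 2 =
      ∑ X ∈ (univ : Finset (Fin n)).powerset, (max ((n : ℝ) / 2 - X.card) 0) ^ 2 := by
    rw [← cl_sum_compl (fun X => (max ((X.card : ℝ) - (n : ℝ) / 2) 0) ^ 2)]
    apply Finset.sum_congr rfl
    intro X _
    have hX : (Xᶜ.card : ℝ) = n - X.card := by
      have h8 : X.card ≤ n := by simpa using Finset.card_le_univ X
      rw [Finset.card_compl, Fintype.card_fin, Nat.cast_sub h8]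
    rw [hX]
    congr 2
    ring
  have h8 : ∑ X ∈ (univ : Finset (Fin n)).powerset, (max ((n : ℝ) / 2 - X.card) 0) ^ 2 ≤
      ∑ X ∈ (univ : Finset (Fin n)).powerset,
        ((max ((k : ℝ) / 2 - (cl_dst s X.card : ℕ)) 0) ^ 2 +
        ((n : ℝ) / 2) ^ 2 * (if X.card < s then (1 : ℝ) else 0)) := by
    apply Finset.sum_le_sum
    intro X _
    split_ifs with hX
    · have h9 : (max ((n : ℝ) / 2 - X.card) 0) ^ 2 ≤ ((n : ℝ) / 2) ^ 2 := by
        apply pow_le_pow_left₀ (le_max_right _ _)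
        apply max_le
        · have : (0 : ℝ) ≤ X.card := Nat.cast_nonneg _
          linarith
        · positivity
      have h10 : 0 ≤ (max ((k : ℝ) / 2 - (cl_dst s X.card : ℕ)) 0) ^ 2 := sq_nonneg _
      linarith
    · push Not at hX
      rw [mul_zero, add_zero]
      apply le_of_eq
      congr 2
      unfold cl_dst
      rw [Nat.sub_eq_zero_of_le hX, add_zero, Nat.cast_sub hX, hnR]
      ring
  rw [Finset.sum_add_distrib, ← Finset.mul_sum] at h8
  have h9 := mul_le_mul_of_nonneg_left (cl_sum_small s p hp)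
    (by positivity : (0 : ℝ) ≤ ((n : ℝ) / 2) ^ 2)
  have h10 : 2 * (((n : ℝ) / 2) ^ 2 * (p * 2 ^ n)) ≤ 2 ^ n * (n ^ 2 * p) := by
    have : 0 ≤ (n : ℝ) ^ 2 * (p * 2 ^ n) := by positivity
    nlinarith
  have h11 : (n : ℝ) ^ 2 / 4 * (ε * 2 ^ n) ≤ 2 ^ n * (n ^ 2 * ε) := by
    have : 0 ≤ (n : ℝ) ^ 2 * (ε * 2 ^ n) := by positivity
    nlinarith
  have h12 := h1'.trans (add_le_add h3 herr)
  linarith

private lemma cl_sum_erase_eq (z : Fin n) (G : Finset (Fin n) → Finset (Fin n) → ℝ) :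
    ∑ X ∈ (univ : Finset (Fin n)).powerset, G (insert z X) (X.erase z) =
      2 * ∑ Y ∈ ((univ : Finset (Fin n)).erase z).powerset, G (insert z Y) Y := by
  have h1 : (univ : Finset (Fin n)) = insert z (univ.erase z) :=
    (insert_erase (mem_univ z)).symm
  conv_lhs => rw [h1]
  rw [Finset.sum_powerset_insert (notMem_erase z univ), two_mul]
  congr 1
  · refine Finset.sum_congr rfl fun Y hY => ?_
    have hz : z ∉ Y := fun h => notMem_erase z univ (mem_powerset.1 hY h)
    rw [erase_eq_of_notMem hz]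
  · refine Finset.sum_congr rfl fun Y hY => ?_
    have hz : z ∉ Y := fun h => notMem_erase z univ (mem_powerset.1 hY h)
    rw [insert_idem, erase_insert hz]

private lemma cl_sign {k : ℕ} {f : Finset (Fin n) → ℕ}
    (lip : ∀ x X, x ∉ X → f (insert x X) ≤ f X + 1 ∧ f X ≤ f (insert x X) + 1) (p : ℝ)
    (hp1 : p ≤ 1) (hp0 : 0 ≤ p)
    (hlow : 2 ^ n * ((k : ℝ) / 2 - n * p) ≤
      ∑ X ∈ (univ : Finset (Fin n)).powerset, (f X : ℝ))
    (hmean : ∑ X ∈ (univ : Finset (Fin n)).powerset, (f X : ℝ) ≤ 2 ^ n * ((k : ℝ) / 2 + n * p))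
    (hsec : 2 ^ n * ((n : ℝ) / 4 - n ^ 2 * p) ≤
      ∑ X ∈ (univ : Finset (Fin n)).powerset, ((f X : ℝ) - (k : ℝ) / 2) ^ 2) (z : Fin n) :
    ∃ σ : ℤ, (σ = 1 ∨ σ = -1) ∧
      ∑ X ∈ (univ : Finset (Fin n)).powerset,
        (if (f (insert z X) : ℤ) - f (X.erase z) = σ then (0 : ℝ) else 1) ≤
          2 ^ n * (8 * n ^ 2 * p) := by
  set N : ℝ := 2 ^ n with hN
  have hN0 : 0 < N := by positivity
  have hcard : ∑ _X ∈ (univ : Finset (Fin n)).powerset, (1 : ℝ) = N := by simp [hN]
  have hint : ∀ X : Finset (Fin n), ∀ x : Fin n, x ∉ X →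
      (f (insert x X) : ℤ) - f X ≤ 1 ∧ -1 ≤ (f (insert x X) : ℤ) - f X := by
    intro X x hx
    have := lip x X hx
    omega
  -- the sum of `f - k / 2`
  have hMe : ∑ X ∈ (univ : Finset (Fin n)).powerset, ((f X : ℝ) - (k : ℝ) / 2) =
      ∑ X ∈ (univ : Finset (Fin n)).powerset, (f X : ℝ) - N * ((k : ℝ) / 2) := by
    rw [Finset.sum_sub_distrib]
    have h1 : ∑ _X ∈ (univ : Finset (Fin n)).powerset, (k : ℝ) / 2 = N * ((k : ℝ) / 2) := by
      rw [← hcard, Finset.sum_mul]
      simp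
    rw [h1]
  have hM0 : -(N * (n * p)) ≤
      ∑ X ∈ (univ : Finset (Fin n)).powerset, ((f X : ℝ) - (k : ℝ) / 2) := by
    rw [hMe]
    linarith
  have hM1 : ∑ X ∈ (univ : Finset (Fin n)).powerset, ((f X : ℝ) - (k : ℝ) / 2) ≤ N * (n * p) := by
    rw [hMe]
    linarith
  have hvar := varCoord (univ : Finset (Fin n)) (fun X => (f X : ℝ) - (k : ℝ) / 2) (by
    intro x _ X _ hx
    have h1 := hint X x hx
    have h2 : (f (insert x X) : ℝ) - (k : ℝ) / 2 - ((f X : ℝ) - (k : ℝ) / 2) =
        (((f (insert x X) : ℤ) - f X : ℤ) : ℝ) := by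
      push_cast
      ring
    rw [h2, abs_le]
    exact ⟨by exact_mod_cast h1.2, by exact_mod_cast h1.1⟩) z (mem_univ z)
  rw [card_univ, Fintype.card_fin, ← hN] at hvar
  have hd : ∀ X : Finset (Fin n), (f (insert z X) : ℝ) - (k : ℝ) / 2 -
      ((f X : ℝ) - (k : ℝ) / 2) = (((f (insert z X) : ℤ) - f X : ℤ) : ℝ) := by
    intro X
    push_cast
    ring
  simp only [hd] at hvar
  set T : ℝ := ∑ X ∈ ((univ : Finset (Fin n)).erase z).powerset,
    (((f (insert z X) : ℤ) - f X : ℤ) : ℝ) with hT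
  set M : ℝ := ∑ X ∈ (univ : Finset (Fin n)).powerset, ((f X : ℝ) - (k : ℝ) / 2)
  set V : ℝ := ∑ X ∈ (univ : Finset (Fin n)).powerset, ((f X : ℝ) - (k : ℝ) / 2) ^ 2
  have h4 : (4 : ℝ) ^ n = N ^ 2 := by
    rw [hN, ← pow_mul, mul_comm, pow_mul]
    norm_num
  rw [h4] at hvar
  have hMsq : M ^ 2 ≤ N ^ 2 * (n ^ 2 * p) := by
    have h5 : M ^ 2 ≤ (N * (n * p)) ^ 2 := sq_le_sq' hM0 hM1
    have h6 : p ^ 2 ≤ p := by nlinarith
    calc M ^ 2 ≤ (N * (n * p)) ^ 2 := h5
      _ = N ^ 2 * (n ^ 2 * p ^ 2) := by ring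
      _ ≤ N ^ 2 * (n ^ 2 * p) := by gcongr
  have hTsq : (N / 2) ^ 2 * (1 - 8 * n ^ 2 * p) ≤ T ^ 2 := by
    have h7 : N * (N * ((n : ℝ) / 4 - n ^ 2 * p)) ≤ N * V := by gcongr
    nlinarith
  -- the sum over the sets without `z`
  have hhalf : ((univ : Finset (Fin n)).erase z).powerset.card = 2 ^ (n - 1) := by
    rw [card_powerset, card_erase_of_mem (mem_univ z), card_univ, Fintype.card_fin]
  have hn1 : 1 ≤ n := by have := z.pos; omega
  have hN2 : (2 : ℝ) ^ (n - 1) = N / 2 := by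
    rw [hN]
    obtain ⟨m, rfl⟩ := Nat.exists_eq_add_of_le hn1
    rw [Nat.add_sub_cancel_left, pow_add]
    ring
  have hTabs : N / 2 * (1 - 8 * n ^ 2 * p) ≤ |T| := by
    rcases le_or_gt (1 - 8 * (n : ℝ) ^ 2 * p) 0 with h8 | h8
    · have : N / 2 * (1 - 8 * n ^ 2 * p) ≤ 0 := mul_nonpos_of_nonneg_of_nonpos (by positivity) h8
      exact this.trans (abs_nonneg T)
    · have h9 : 1 - 8 * (n : ℝ) ^ 2 * p ≤ 1 := by
        have : 0 ≤ 8 * (n : ℝ) ^ 2 * p := by positivity
        linarith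
      have h10 : (N / 2 * (1 - 8 * n ^ 2 * p)) ^ 2 ≤ |T| ^ 2 := by
        rw [sq_abs]
        refine le_trans ?_ hTsq
        rw [mul_pow, sq (1 - 8 * (n : ℝ) ^ 2 * p)]
        refine mul_le_mul_of_nonneg_left ?_ (by positivity)
        exact mul_le_of_le_one_left h8.le h9
      exact (sq_le_sq₀ (by positivity) (abs_nonneg T)).1 h10
  have hfin : ∀ σ : ℤ, (σ = 1 ∨ σ = -1) → (σ : ℝ) * T = |T| →
      ∑ X ∈ (univ : Finset (Fin n)).powerset,
        (if (f (insert z X) : ℤ) - f (X.erase z) = σ then (0 : ℝ) else 1) ≤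
          N * (8 * n ^ 2 * p) := by
    intro σ hσ hσT
    rw [cl_sum_erase_eq z fun A B => if (f A : ℤ) - f B = σ then (0 : ℝ) else 1]
    have h9 : ∑ Y ∈ ((univ : Finset (Fin n)).erase z).powerset,
        (if (f (insert z Y) : ℤ) - f Y = σ then (0 : ℝ) else 1) ≤
        ∑ Y ∈ ((univ : Finset (Fin n)).erase z).powerset,
          (1 - (σ : ℝ) * (((f (insert z Y) : ℤ) - f Y : ℤ) : ℝ)) := by
      refine Finset.sum_le_sum fun Y hY => ?_
      have hz : z ∉ Y := fun h => notMem_erase z univ (mem_powerset.1 hY h)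
      have h10 := hint Y z hz
      obtain ⟨d, hd'⟩ : ∃ d : ℤ, (f (insert z Y) : ℤ) - f Y = d := ⟨_, rfl⟩
      rw [hd'] at h10 ⊢
      have h11 : d = -1 ∨ d = 0 ∨ d = 1 := by omega
      rcases hσ with rfl | rfl <;> rcases h11 with rfl | rfl | rfl <;> norm_num
    rw [Finset.sum_sub_distrib, ← Finset.mul_sum, ← hT, hσT, Finset.sum_const, hhalf,
      nsmul_eq_mul, mul_one] at h9
    push_cast at h9
    rw [hN2] at h9
    linarith
  rcases le_total 0 T with h0 | h0
  · exact ⟨1, Or.inl rfl, hfin 1 (Or.inl rfl) (by rw [abs_of_nonneg h0]; simp)⟩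
  · exact ⟨-1, Or.inr rfl, hfin (-1) (Or.inr rfl) (by rw [abs_of_nonpos h0]; simp)⟩

private lemma cl_card_insert (X Z : Finset (Fin n)) (z : Fin n) :
    ((symmDiff (insert z X) Z).card : ℤ) - (symmDiff (X.erase z) Z).card =
      if z ∈ Z then -1 else 1 := by
  classical
  by_cases hz : z ∈ Z
  · rw [if_pos hz]
    have h1 : symmDiff (X.erase z) Z = insert z (symmDiff (insert z X) Z) := by
      ext y
      simp only [mem_symmDiff, mem_insert, mem_erase]
      by_cases hy : y = z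
      · subst hy
        simp [hz]
      · simp [hy]
    have h2 : z ∉ symmDiff (insert z X) Z := by
      simp [mem_symmDiff, hz]
    rw [h1, card_insert_of_notMem h2]
    push_cast
    ring
  · rw [if_neg hz]
    have h1 : symmDiff (insert z X) Z = insert z (symmDiff (X.erase z) Z) := by
      ext y
      simp only [mem_symmDiff, mem_insert, mem_erase]
      by_cases hy : y = z
      · subst hy
        simp [hz]
      · simp [hy]
    have h2 : z ∉ symmDiff (X.erase z) Z := by
      simp [mem_symmDiff, hz]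
    rw [h1, card_insert_of_notMem h2]
    push_cast
    ring

private lemma cl_sum_symmDiff (T : Finset (Fin n)) (φ : Finset (Fin n) → ℝ) :
    ∑ X ∈ (univ : Finset (Fin n)).powerset, φ (symmDiff X T) =
      ∑ X ∈ (univ : Finset (Fin n)).powerset, φ X := by
  apply Finset.sum_nbij' (fun X => symmDiff X T) (fun X => symmDiff X T)
  · intro X _; simp
  · intro X _; simp
  · intro X _; simp
  · intro X _; simp
  · intro X _; rfl

/-- the number of changes along a path -/
private lemma cl_path (g : Finset (Fin n) → ℤ) (c : ℝ)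
    (hc : ∀ z : Fin n, ∑ X ∈ (univ : Finset (Fin n)).powerset,
      (if g X = g (symmDiff X {z}) then (0 : ℝ) else 1) ≤ c) (T : Finset (Fin n)) :
    ∑ X ∈ (univ : Finset (Fin n)).powerset,
      (if g X = g (symmDiff X T) then (0 : ℝ) else 1) ≤ T.card * c := by
  classical
  induction T using Finset.induction_on with
  | empty =>
    have e : ∀ X : Finset (Fin n), symmDiff X ∅ = X := fun X => symmDiff_bot X
    simp [e]
  | insert z T hz ih =>
    have h1 : ∀ X : Finset (Fin n), symmDiff X (insert z T) = symmDiff (symmDiff X T) {z} := by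
      intro X
      rw [symmDiff_assoc]
      congr 1
      ext y
      simp only [mem_insert, mem_symmDiff, mem_singleton]
      by_cases hy : y = z
      · subst hy
        simp [hz]
      · simp [hy]
    have h2 : ∀ X : Finset (Fin n), (if g X = g (symmDiff X (insert z T)) then (0 : ℝ) else 1) ≤
        (if g X = g (symmDiff X T) then (0 : ℝ) else 1) +
        (fun Y => if g Y = g (symmDiff Y {z}) then (0 : ℝ) else 1) (symmDiff X T) := by
      intro X
      rw [h1 X]
      dsimp only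
      by_cases h4 : g X = g (symmDiff X T)
      · by_cases h5 : g (symmDiff X T) = g (symmDiff (symmDiff X T) {z})
        · rw [if_pos (h4.trans h5), if_pos h4, if_pos h5]
          norm_num
        · rw [if_pos h4, if_neg h5]
          split_ifs <;> norm_num
      · rw [if_neg h4]
        split_ifs <;> norm_num
    calc ∑ X ∈ (univ : Finset (Fin n)).powerset,
        (if g X = g (symmDiff X (insert z T)) then (0 : ℝ) else 1)
        ≤ ∑ X ∈ (univ : Finset (Fin n)).powerset,
          ((if g X = g (symmDiff X T) then (0 : ℝ) else 1) +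
          (fun Y => if g Y = g (symmDiff Y {z}) then (0 : ℝ) else 1) (symmDiff X T)) :=
          Finset.sum_le_sum fun X _ => h2 X
      _ = ∑ X ∈ (univ : Finset (Fin n)).powerset,
          (if g X = g (symmDiff X T) then (0 : ℝ) else 1) +
          ∑ X ∈ (univ : Finset (Fin n)).powerset,
          (if g X = g (symmDiff X {z}) then (0 : ℝ) else 1) := by
          rw [Finset.sum_add_distrib, cl_sum_symmDiff T
            (fun Y => if g Y = g (symmDiff Y {z}) then (0 : ℝ) else 1)]
      _ ≤ T.card * c + c := add_le_add ih (hc z)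
      _ = (insert z T).card * c := by
          rw [card_insert_of_notMem hz]
          push_cast
          ring

/-- a function which changes rarely is constant off a small set -/
private lemma cl_const (g : Finset (Fin n) → ℤ) (c : ℝ) (hc0 : 0 ≤ c)
    (hc : ∀ z : Fin n, ∑ X ∈ (univ : Finset (Fin n)).powerset,
      (if g X = g (symmDiff X {z}) then (0 : ℝ) else 1) ≤ 2 ^ n * c) :
    ∃ v : ℤ, ∑ X ∈ (univ : Finset (Fin n)).powerset,
      (if g X = v then (0 : ℝ) else 1) ≤ 2 ^ n * (n * c) := by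
  have hcard : ∑ _X ∈ (univ : Finset (Fin n)).powerset, (1 : ℝ) = 2 ^ n := by simp
  have hT : ∀ T : Finset (Fin n), ∑ X ∈ (univ : Finset (Fin n)).powerset,
      (if g X = g (symmDiff X T) then (0 : ℝ) else 1) ≤ n * (2 ^ n * c) := by
    intro T
    refine (cl_path g _ hc T).trans ?_
    apply mul_le_mul_of_nonneg_right _ (by positivity)
    have : T.card ≤ n := by simpa using card_le_univ T
    exact_mod_cast this
  have hdouble : ∑ X ∈ (univ : Finset (Fin n)).powerset,
      ∑ T ∈ (univ : Finset (Fin n)).powerset,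
      (if g X = g (symmDiff X T) then (0 : ℝ) else 1) ≤ 2 ^ n * (n * (2 ^ n * c)) := by
    rw [Finset.sum_comm]
    calc ∑ T ∈ (univ : Finset (Fin n)).powerset, ∑ X ∈ (univ : Finset (Fin n)).powerset,
        (if g X = g (symmDiff X T) then (0 : ℝ) else 1)
        ≤ ∑ _T ∈ (univ : Finset (Fin n)).powerset, (n * (2 ^ n * c)) :=
          Finset.sum_le_sum fun T _ => hT T
      _ = 2 ^ n * (n * (2 ^ n * c)) := by
          rw [Finset.sum_const, card_powerset]
          simp
  have hex : ∃ X ∈ (univ : Finset (Fin n)).powerset, ∑ T ∈ (univ : Finset (Fin n)).powerset,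
      (if g X = g (symmDiff X T) then (0 : ℝ) else 1) ≤ n * (2 ^ n * c) := by
    apply Finset.exists_le_of_sum_le ⟨∅, by simp⟩
    refine hdouble.trans (le_of_eq ?_)
    rw [Finset.sum_const, card_powerset]
    simp
  obtain ⟨X, -, hX⟩ := hex
  refine ⟨g X, ?_⟩
  have h1 := cl_sum_symmDiff X (fun Y => if g Y = g X then (0 : ℝ) else 1)
  rw [← h1]
  refine le_trans (le_of_eq ?_) (hX.trans (le_of_eq (by ring)))
  refine Finset.sum_congr rfl fun T _ => ?_
  rw [symmDiff_comm T X]
  by_cases h2 : g (symmDiff X T) = g X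
  · rw [if_pos h2, if_pos h2.symm]
  · rw [if_neg h2, if_neg (fun h => h2 h.symm)]

/-- **the law of the distance function for a pair of families** -/
theorem crossLaw (s k : ℕ) (hn : n = 2 * s + k) (hk : 1 ≤ k) (hs : 1 ≤ s)
    (F G : Finset (Finset (Fin n)))
    (hF : IsAntichain (· ⊆ ·) (F : Set (Finset (Fin n))))
    (hG : IsAntichain (· ⊆ ·) (G : Set (Finset (Fin n))))
    (hd : ∀ A ∈ F, ∀ B ∈ G, (symmDiff A B).card ≤ 2 * s)
    (f g : Finset (Fin n) → ℕ) (hf : IsDist F f) (hg : IsDist G g)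
    (p ε : ℝ) (hε : 0 ≤ ε) (hcF : n.choose s ≤ F.card)
    (hcG : (n.choose (s - 1) : ℝ) + (1 - ε) * dd n s ≤ G.card)
    (hmean : ∑ X ∈ (univ : Finset (Fin n)).powerset, (g X : ℝ) ≤ 2 ^ n * ((k : ℝ) / 2 + ε))
    (hp : ∑ j ∈ range (s + 1), (n.choose j : ℝ) ≤ p * 2 ^ n) :
    ∃ Z : Finset (Fin n), ∑ X ∈ (univ : Finset (Fin n)).powerset,
      (if f X + s = (symmDiff X Z).card then (0 : ℝ) else 1) ≤
        2 ^ n * (100 * n ^ 4 * (p + ε)) := by
  classical
  have hn1 : 1 ≤ n := by omega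
  have hn1' : (1 : ℝ) ≤ n := by exact_mod_cast hn1
  have hnR : (n : ℝ) = 2 * s + k := by exact_mod_cast hn
  have hp0 : 0 ≤ p := by
    have h1 : (0 : ℝ) ≤ ∑ j ∈ range (s + 1), (n.choose j : ℝ) :=
      Finset.sum_nonneg fun j _ => Nat.cast_nonneg _
    have h2 : 0 ≤ p * 2 ^ n := h1.trans hp
    exact nonneg_of_mul_nonneg_left h2 (by positivity)
  obtain ⟨P, hP⟩ : ∃ P : ℝ, P = p + ε := ⟨_, rfl⟩
  rw [← hP]
  have hP0 : 0 ≤ P := by rw [hP]; linarith
  have hn4 : (1 : ℝ) ≤ n ^ 4 := one_le_pow₀ hn1'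
  have hcard : ∑ _X ∈ (univ : Finset (Fin n)).powerset, (1 : ℝ) = 2 ^ n := by simp
  -- the trivial case
  rcases le_or_gt 1 (25 * (n : ℝ) ^ 4 * P) with hbig | hsmall
  · refine ⟨∅, ?_⟩
    calc ∑ X ∈ (univ : Finset (Fin n)).powerset,
        (if f X + s = (symmDiff X ∅).card then (0 : ℝ) else 1)
        ≤ ∑ _X ∈ (univ : Finset (Fin n)).powerset, (1 : ℝ) := by
          refine Finset.sum_le_sum fun X _ => ?_
          split_ifs <;> norm_num
      _ = 2 ^ n * 1 := by rw [hcard, mul_one]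
      _ ≤ 2 ^ n * (100 * n ^ 4 * P) := by
          apply mul_le_mul_of_nonneg_left _ (by positivity)
          nlinarith
  have hP1 : P ≤ 1 / 25 := by nlinarith
  have hε1 : ε ≤ 1 := by linarith
  -- the condition on the pair
  have disj : ∀ X, k ≤ f X + g Xᶜ := by
    intro X
    obtain ⟨A, hA, hA2⟩ := hf.ex X
    obtain ⟨B, hB, hB2⟩ := hg.ex Xᶜ
    have h1 := hd A hA B hB
    have h2 := card_symmDiff_compl X B
    have h3 := tri X A B
    omega
  have isoF : ∀ t : ℕ, WW t n s ≤
      ∑ X ∈ (univ : Finset (Fin n)).powerset, (if f X ≤ t then (1 : ℝ) else 0) := by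
    intro t
    have h := cl_iso F hF s 0 le_rfl zero_le_one (by omega)
      (by rw [zero_mul, add_zero]; exact_mod_cast hcF) f hf t
    rwa [zero_mul, add_zero] at h
  have isoG : ∀ t : ℕ, WW t n s - ε * 2 ^ n ≤
      ∑ X ∈ (univ : Finset (Fin n)).powerset, (if g X ≤ t then (1 : ℝ) else 0) := by
    intro t
    obtain ⟨a, rfl⟩ : ∃ a, s = a + 1 := ⟨s - 1, by omega⟩
    have e1 : a + 1 - 1 = a := rfl
    rw [e1] at hcG
    have h := cl_iso G hG a (1 - ε) (by linarith) (by linarith) (by omega) hcG g hg t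
    refine le_trans ?_ h
    rw [WW_succ]
    have h1 := mul_le_mul_of_nonneg_left (cl_vv_le t n (a + 1)) hε
    linarith
  -- the moments
  have hm1 := cl_mean hn hf.le_n isoF p hp
  have hsec := cl_second hn hf.le_n hg.le_n isoF ε hε isoG disj p hp
  rw [← hP] at hsec
  have hup : ∑ X ∈ (univ : Finset (Fin n)).powerset, (f X : ℝ) ≤
      2 ^ n * ((k : ℝ) / 2 + n * P) := by
    refine hm1.trans ?_
    apply mul_le_mul_of_nonneg_left _ (by positivity)
    have : (n : ℝ) * p ≤ n * P := by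
      apply mul_le_mul_of_nonneg_left _ (by positivity)
      rw [hP]
      linarith
    linarith
  have hlow : 2 ^ n * ((k : ℝ) / 2 - n * P) ≤
      ∑ X ∈ (univ : Finset (Fin n)).powerset, (f X : ℝ) := by
    have h1 : (2 : ℝ) ^ n * k ≤ ∑ X ∈ (univ : Finset (Fin n)).powerset, ((f X : ℝ) + g Xᶜ) := by
      rw [← hcard, Finset.sum_mul]
      refine Finset.sum_le_sum fun X _ => ?_
      rw [one_mul]
      exact_mod_cast disj X
    rw [Finset.sum_add_distrib, cl_sum_compl (fun X => (g X : ℝ))] at h1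
    have h2 : (2 : ℝ) ^ n * ε ≤ 2 ^ n * (n * P) := by
      apply mul_le_mul_of_nonneg_left _ (by positivity)
      have h3 : ε ≤ P := by rw [hP]; linarith
      nlinarith
    linarith
  have hlip := hf.lip
  choose σ hσ1 hσ2 using fun z => cl_sign (k := k) hlip P (by linarith) hP0 hlow hup hsec z
  obtain ⟨Z, hZ⟩ : ∃ Z : Finset (Fin n), Z = univ.filter fun z => σ z = -1 := ⟨_, rfl⟩
  have hmem : ∀ z, z ∈ Z ↔ σ z = -1 := by
    intro z
    rw [hZ]
    simp
  obtain ⟨w, hw⟩ : ∃ w : Finset (Fin n) → ℤ,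
      w = fun X => (f X : ℤ) + s - (symmDiff X Z).card := ⟨_, rfl⟩
  have hwX : ∀ X, w X = (f X : ℤ) + s - (symmDiff X Z).card := by
    intro X
    rw [hw]
  -- one step
  have hstep : ∀ z : Fin n, ∑ X ∈ (univ : Finset (Fin n)).powerset,
      (if w X = w (symmDiff X {z}) then (0 : ℝ) else 1) ≤ 2 ^ n * (8 * n ^ 2 * P) := by
    intro z
    refine le_trans (Finset.sum_le_sum fun X _ => ?_) (hσ2 z)
    by_cases h1 : (f (insert z X) : ℤ) - f (X.erase z) = σ z
    · rw [if_pos h1]
      have h2 := cl_card_insert X Z z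
      have h3 : w (insert z X) = w (X.erase z) := by
        rw [hwX, hwX]
        by_cases hz : z ∈ Z
        · rw [if_pos hz] at h2
          rw [(hmem z).1 hz] at h1
          linarith
        · rw [if_neg hz] at h2
          have h4 : σ z = 1 := by
            rcases hσ1 z with h5 | h5
            · exact h5
            · exact absurd ((hmem z).2 h5) hz
          rw [h4] at h1
          linarith
      have h5 : w X = w (symmDiff X {z}) := by
        by_cases hz : z ∈ X
        · have e1 : insert z X = X := insert_eq_of_mem hz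
          have e2 : symmDiff X {z} = X.erase z := by
            ext y
            simp only [mem_symmDiff, mem_singleton, mem_erase]
            by_cases hy : y = z
            · subst hy
              simp [hz]
            · simp [hy]
          rw [e2, ← h3, e1]
        · have e1 : X.erase z = X := erase_eq_of_notMem hz
          have e2 : symmDiff X {z} = insert z X := by
            ext y
            simp only [mem_symmDiff, mem_singleton, mem_insert]
            by_cases hy : y = z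
            · subst hy
              simp [hz]
            · simp [hy]
          rw [e2, h3, e1]
      rw [if_pos h5]
    · rw [if_neg h1]
      split_ifs <;> norm_num
  obtain ⟨v, hv⟩ := cl_const w (8 * n ^ 2 * P) (by positivity) hstep
  -- the mean of `w`
  have hsumw : ∑ X ∈ (univ : Finset (Fin n)).powerset, (w X : ℝ) =
      ∑ X ∈ (univ : Finset (Fin n)).powerset, (f X : ℝ) - 2 ^ n * (k / 2) := by
    have h2 : ∑ X ∈ (univ : Finset (Fin n)).powerset, ((symmDiff X Z).card : ℝ) =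
        2 ^ n * (n / 2) := by
      have h3 := cl_sum_compl (fun X => ((symmDiff X Z).card : ℝ))
      have h4 : ∑ X ∈ (univ : Finset (Fin n)).powerset, (((symmDiff Xᶜ Z).card : ℝ) +
          ((symmDiff X Z).card : ℝ)) = 2 ^ n * n := by
        rw [Finset.sum_congr rfl (g := fun _ => (n : ℝ))]
        · rw [Finset.sum_const, card_powerset]
          simp
        · intro X _
          have := card_symmDiff_compl X Z
          exact_mod_cast this
      rw [Finset.sum_add_distrib] at h4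
      linarith
    have h6 : ∀ X, (w X : ℝ) = (f X : ℝ) + s - (symmDiff X Z).card := by
      intro X
      rw [hwX]
      push_cast
      ring
    rw [Finset.sum_congr rfl (fun X _ => h6 X), Finset.sum_sub_distrib,
      Finset.sum_add_distrib, Finset.sum_const, card_powerset, h2]
    have h8 : (2 : ℝ) ^ n * (n / 2) = 2 ^ n * s + 2 ^ n * (k / 2) := by
      rw [hnR]
      ring
    rw [h8]
    simp
    ring
  have hwlow : -(2 ^ n * (n * P)) ≤ ∑ X ∈ (univ : Finset (Fin n)).powerset, (w X : ℝ) := by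
    rw [hsumw]
    linarith
  have hwup : ∑ X ∈ (univ : Finset (Fin n)).powerset, (w X : ℝ) ≤ 2 ^ n * (n * P) := by
    rw [hsumw]
    linarith
  have hbd : ∀ X, -(n : ℤ) ≤ w X ∧ w X ≤ 2 * n := by
    intro X
    rw [hwX]
    have h1 : (symmDiff X Z).card ≤ n := by simpa using card_le_univ (symmDiff X Z)
    have h2 := hf.le_n X
    omega
  -- the value is bounded
  have hvb : -(n : ℤ) ≤ v ∧ v ≤ 2 * n := by
    by_contra hcon
    have h1 : ∀ X, w X ≠ v := fun X h => hcon (h ▸ hbd X)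
    have h2 : ∑ X ∈ (univ : Finset (Fin n)).powerset, (if w X = v then (0 : ℝ) else 1) =
        2 ^ n := by
      rw [← hcard]
      refine Finset.sum_congr rfl fun X _ => ?_
      rw [if_neg (h1 X)]
    rw [h2] at hv
    have h3 : (n : ℝ) * (8 * n ^ 2 * P) < 1 := by
      have h4 : (n : ℝ) ^ 3 ≤ n ^ 4 := pow_le_pow_right₀ hn1' (by norm_num)
      have h5 : (n : ℝ) ^ 3 * P ≤ n ^ 4 * P := mul_le_mul_of_nonneg_right h4 hP0
      have h6 : (n : ℝ) * (8 * n ^ 2 * P) = 8 * (n ^ 3 * P) := by ring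
      rw [h6]
      have : 0 ≤ (n : ℝ) ^ 4 * P := by positivity
      linarith
    have h4 : (2 : ℝ) ^ n * (n * (8 * n ^ 2 * P)) < 2 ^ n * 1 :=
      mul_lt_mul_of_pos_left h3 (by positivity)
    linarith
  have hdiff : ∀ X, |(w X : ℝ) - v| ≤ 3 * n * (if w X = v then (0 : ℝ) else 1) := by
    intro X
    by_cases h1 : w X = v
    · rw [if_pos h1, h1]
      simp
    · rw [if_neg h1, mul_one, abs_le]
      have h2 := hbd X
      have h3 : -(3 * (n : ℤ)) ≤ w X - v ∧ w X - v ≤ 3 * n := by omega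
      constructor
      · exact_mod_cast h3.1
      · exact_mod_cast h3.2
  have hvabs : |(v : ℝ)| < 1 := by
    have h1 : |∑ X ∈ (univ : Finset (Fin n)).powerset, (w X : ℝ) - 2 ^ n * v| ≤
        3 * n * (2 ^ n * (n * (8 * n ^ 2 * P))) := by
      have h2 : ∑ X ∈ (univ : Finset (Fin n)).powerset, (w X : ℝ) - 2 ^ n * v =
          ∑ X ∈ (univ : Finset (Fin n)).powerset, ((w X : ℝ) - v) := by
        rw [Finset.sum_sub_distrib, ← hcard, Finset.sum_mul]
        simp
      rw [h2]
      refine (Finset.abs_sum_le_sum_abs _ _).trans ?_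
      refine (Finset.sum_le_sum fun X _ => hdiff X).trans ?_
      rw [← Finset.mul_sum]
      exact mul_le_mul_of_nonneg_left hv (by positivity)
    have h3 : |2 ^ n * (v : ℝ)| ≤ 2 ^ n * (25 * n ^ 4 * P) := by
      have h4 : |∑ X ∈ (univ : Finset (Fin n)).powerset, (w X : ℝ)| ≤ 2 ^ n * (n * P) :=
        abs_le.2 ⟨hwlow, hwup⟩
      have h5 : |2 ^ n * (v : ℝ)| ≤ |∑ X ∈ (univ : Finset (Fin n)).powerset, (w X : ℝ)| +
          |∑ X ∈ (univ : Finset (Fin n)).powerset, (w X : ℝ) - 2 ^ n * v| := by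
        have h6 := abs_sub_abs_le_abs_sub (2 ^ n * (v : ℝ))
          (∑ X ∈ (univ : Finset (Fin n)).powerset, (w X : ℝ))
        rw [abs_sub_comm] at h6
        linarith
      have h6 : (n : ℝ) * P ≤ n ^ 4 * P := by
        apply mul_le_mul_of_nonneg_right _ hP0
        calc (n : ℝ) = n ^ 1 := (pow_one _).symm
          _ ≤ n ^ 4 := pow_le_pow_right₀ hn1' (by norm_num)
      have h7 : (2 : ℝ) ^ n * (n * P) ≤ 2 ^ n * (n ^ 4 * P) :=
        mul_le_mul_of_nonneg_left h6 (by positivity)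
      have h8 : 3 * (n : ℝ) * (2 ^ n * (n * (8 * n ^ 2 * P))) = 24 * (2 ^ n * (n ^ 4 * P)) := by
        ring
      rw [h8] at h1
      have h9 : (2 : ℝ) ^ n * (25 * n ^ 4 * P) = 25 * (2 ^ n * (n ^ 4 * P)) := by ring
      rw [h9]
      linarith
    rw [abs_mul, abs_of_pos (by positivity : (0 : ℝ) < 2 ^ n)] at h3
    have h10 : |(v : ℝ)| ≤ 25 * n ^ 4 * P := le_of_mul_le_mul_left h3 (by positivity)
    linarith
  have hv0 : v = 0 := by
    have h1 : |v| < 1 := by
      have : ((|v| : ℤ) : ℝ) < ((1 : ℤ) : ℝ) := by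
        push_cast
        exact hvabs
      exact_mod_cast this
    exact Int.abs_lt_one_iff.1 h1
  subst hv0
  refine ⟨Z, ?_⟩
  refine le_trans (le_trans (Finset.sum_le_sum fun X _ => ?_) hv) ?_
  · by_cases h1 : w X = 0
    · have h2 : f X + s = (symmDiff X Z).card := by
        rw [hwX] at h1
        have h3 : ((f X + s : ℕ) : ℤ) = ((symmDiff X Z).card : ℕ) := by
          push_cast
          linarith
        exact_mod_cast h3
      rw [if_pos h1, if_pos h2]
    · rw [if_neg h1]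
      split_ifs <;> norm_num
  · apply mul_le_mul_of_nonneg_left _ (by positivity)
    have h4 : (n : ℝ) ^ 3 ≤ n ^ 4 := pow_le_pow_right₀ hn1' (by norm_num)
    have h5 : (n : ℝ) ^ 3 * P ≤ n ^ 4 * P := mul_le_mul_of_nonneg_right h4 hP0
    have h6 : (n : ℝ) * (8 * n ^ 2 * P) = 8 * (n ^ 3 * P) := by ring
    rw [h6]
    have : 0 ≤ (n : ℝ) ^ 4 * P := by positivity
    linarith

end LineQ
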