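import Pool.Agent.DiamSqrt.Final

/-! From the law of the distance function to the bound of the size of the family. -/

namespace LineQ

open Finset DiamEven DiamSqrt

variable {n : ℕ}

/-- the tail of the proof of `DiamSqrt.main_p`, with the law as a hypothesis -/
theorem card_le_of_law (s k : ℕ) (hn : n = 2 * s + k) (hk : 2 ≤ k) (hs : 2 ≤ s)
    (F : Finset (Finset (Fin n)))
    (hF : IsAntichain (· ⊆ ·) (F : Set (Finset (Fin n))))
    (f : Finset (Fin n) → ℕ) (hf : IsDist F f) (Z : Finset (Fin n)) (δ p : ℝ)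
    (hδ0 : 0 ≤ δ) (hp0 : 0 ≤ p)
    (hZ : ∑ X ∈ (univ : Finset (Fin n)).powerset,
      (if f X + s = (symmDiff X Z).card then (0 : ℝ) else 1) ≤ 2 ^ n * δ)
    (hp : ∑ j ∈ range (s + 1), (n.choose j : ℝ) ≤ p * 2 ^ n)
    (h1 : 4 * (n : ℝ) ^ 4 * (n * δ + 2 * (s + 1) * p) ≤ 1)
    (h2 : 12 * (n : ℝ) ^ 2 * δ < 1) :
    F.card ≤ n.choose s := by
  by_contra hcon
  push Not at hcon
  have hnR : (4 : ℝ) ≤ n := by exact_mod_cast (by omega : 4 ≤ n)
  have hsR : (2 : ℝ) ≤ s := by exact_mod_cast hs
  have hsn : (s : ℝ) ≤ n / 2 := by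
    have : 2 * s ≤ n := by omega
    have : (2 : ℝ) * s ≤ n := by exact_mod_cast this
    linarith
  set t : ℝ := 4 * (n * δ + 2 * (s + 1) * p) with ht
  have ht0 : 0 ≤ t := by positivity
  have hn4 : (1 : ℝ) < (n : ℝ) ^ 4 := one_lt_pow₀ (by linarith) (by norm_num)
  have ht2 : n ^ 4 * t ≤ 1 := by
    rw [ht]
    linarith
  have ht3 : t < 1 := by
    rcases ht0.lt_or_eq with h | h
    · nlinarith
    · rw [← h]; norm_num
  have hpat : ∀ I O : Finset (Fin n), Disjoint I O → I.card ≤ 2 → O.card ≤ 1 →
      I.card + O.card ≤ 2 →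
      ((F.filter (fun B => I ⊆ symmDiff B Z ∧ Disjoint O (symmDiff B Z))).card : ℝ) ≤
      (n - I.card - O.card).choose (s - I.card) +
        t * (n - I.card - O.card).choose (s - I.card + 1) := by
    intro I O h1 h2 h3 h4
    exact pattern s k hn hk F hF f hf Z δ p hZ hp I O h1 (by omega) h4 h3 ht3
  have h2m := secondMoment s k hn hk hs F Z t ht0 hcon.le (by
    intro z
    have := hpat ∅ {z} (by simp) (by simp) (by simp) (by simp)
    simpa using this) (by
    intro y z hyz
    have := hpat {y, z} ∅ (by simp) (by rw [card_pair hyz]) (by simp) (by rw [card_pair hyz]; simp)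
    rw [card_pair hyz] at this
    have e : s - 2 + 1 = s - 1 := by omega
    rw [e] at this
    simpa [insert_subset_iff] using this)
  have hM : (0 : ℝ) < n.choose s := by exact_mod_cast Nat.choose_pos (by omega)
  have hZt := Ztriv s (by omega) (by omega) F hF hcon Z (by
    have h1 := mul_le_mul_of_nonneg_right h2m (by positivity : (0 : ℝ) ≤ (n : ℝ))
    refine h1.trans ?_
    have h2 := mul_le_mul_of_nonneg_right ht2 hM.le
    nlinarith)
  -- the constant of the lower bound
  set β : ℝ := 1 / (8 * (1 + 2 * (n * Real.log 2))) with hβ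
  have hlog : 0 < Real.log 2 := Real.log_pos (by norm_num)
  have hlog2 : Real.log 2 < 0.6931471808 := Real.log_two_lt_d9
  have hβ0 : 0 ≤ β := by positivity
  have hβ1 : β * (1 + 2 * (n * Real.log 2)) ≤ 1 / 8 := by
    rw [hβ]
    apply le_of_eq
    field_simp
  have hδβ : δ < β / s := by
    rw [hβ, div_div, lt_div_iff₀ (by positivity)]
    have h3 : 8 * (1 + 2 * ((n : ℝ) * Real.log 2)) * s ≤ 12 * n * (n / 2) * 2 := by
      have e1 : 8 * (1 + 2 * ((n : ℝ) * Real.log 2)) ≤ 14 * n := by nlinarith
      have e2 : 8 * (1 + 2 * ((n : ℝ) * Real.log 2)) * s ≤ 14 * n * s := by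
        apply mul_le_mul_of_nonneg_right e1 (by positivity)
      nlinarith
    have h4 := mul_le_mul_of_nonneg_left h3 hδ0
    nlinarith
  rcases hZt with hZ0 | hZ1
  · subst hZ0
    have := zeroCase s (by omega) (by omega) F hF f hf δ β hβ0 hβ1 hδβ (by
      have e : ∀ X : Finset (Fin n), symmDiff X ∅ = X := fun X => symmDiff_bot X
      simpa only [e] using hZ)
    omega
  · subst hZ1
    set F' : Finset (Finset (Fin n)) := F.image compl with hF'
    have hinj : Function.Injective (compl : Finset (Fin n) → Finset (Fin n)) := compl_injective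
    have hcard : F'.card = F.card := card_image_of_injective _ hinj
    have hf' : IsDist F' (fun X => f Xᶜ) := by
      constructor
      · intro X
        obtain ⟨B, hB, h1⟩ := hf.ex Xᶜ
        refine ⟨Bᶜ, mem_image_of_mem _ hB, ?_⟩
        rw [← h1, ← card_symmDiff_compl_compl X Bᶜ, compl_compl]
      · intro X B hB
        rw [hF', mem_image] at hB
        obtain ⟨A, hA, rfl⟩ := hB
        have := hf.le Xᶜ A hA
        rw [← card_symmDiff_compl_compl X Aᶜ, compl_compl]
        exact this
    have hanti' : IsAntichain (· ⊆ ·) (F' : Set (Finset (Fin n))) := by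
      intro A hA B hB hne' hsub
      simp only [hF', coe_image, Set.mem_image, mem_coe] at hA hB
      obtain ⟨A', hA', rfl⟩ := hA
      obtain ⟨B', hB', rfl⟩ := hB
      have h1 : B' ⊆ A' := compl_subset_compl.1 hsub
      exact hF hB' hA' (fun h => hne' (by rw [h])) h1
    have := zeroCase s (by omega) (by omega) F' hanti' _ hf' δ β hβ0 hβ1 hδβ (by
      refine le_trans (le_of_eq ?_) hZ
      apply Finset.sum_nbij' (fun X => Xᶜ) (fun X => Xᶜ)
      · intro X _; simp
      · intro X _; simp
      · intro X _; simp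
      · intro X _; simp
      · intro X _
        have : (symmDiff Xᶜ univ).card = X.card := by
          congr 1
          ext x
          simp [mem_symmDiff]
        rw [this])
    omega

end LineQ
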