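import Pool.Agent.LineQ.Final
import Pool.Agent.LineQ.BaseFin
import Pool.Agent.LineQ.BinFacts

/-!
# Route (C), the final statements, from the step (`StepSt`)

* `even_all_large`: for all `n ≥ N` and all `1 ≤ k ≤ n` with `n + k` even;
* `prod_large`: the cross product bound for `k ≥ k0` and `k² < 100 n ln n`.
-/

set_option autoImplicit false

namespace Pool.Agent.LineQ

open Finset

/-- The even half of Q1 for all large `n` and all `k`, and for all large `k` and all `n`. -/
theorem even_all_large (hS : StepSt) : ∃ N : ℕ, ∀ n k : ℕ, N ≤ n → 1 ≤ k → k ≤ n →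
    Even (n + k) → ∀ F : Finset (Finset (Fin n)), IsAntichain (· ⊆ ·) (F : Set (Finset (Fin n))) →
      (∀ A ∈ F, ∀ B ∈ F, (symmDiff A B).card ≤ n - k) → F.card ≤ n.choose ((n + k) / 2) := by
  obtain ⟨k0, h⟩ := even_half baseSt hS
  refine ⟨k0 ^ 2, ?_⟩
  intro n k hN hk1 hkn he F hF hd
  rcases le_or_gt k0 k with h1 | h1
  · exact h n k h1 hkn he F hF hd
  · have h2 : k ^ 2 ≤ n + 3 := by
      have : k ^ 2 ≤ k0 ^ 2 := Nat.pow_le_pow_left h1.le 2
      omega
    have h3 := (OddTwo.ChainPairs.result n k hk1 hkn h2).1 he F hF hd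
    have e1 : (n + k + 1) / 2 = (n + k) / 2 := by
      obtain ⟨c, hc⟩ := he
      omega
    rwa [e1] at h3

/-- From the levels to the product. -/
theorem prod_of_lv {n s : ℕ} (hs : s ≤ n) {a b : ℕ} (ha : 0 < a) (hb : 0 < b)
    (h : lv n s a + lv n s b ≤ 0) : a * b ≤ (n.choose s) ^ 2 := by
  have hC : (0 : ℝ) < (n.choose s : ℝ) := by exact_mod_cast Nat.choose_pos hs
  have ha' : (0 : ℝ) < (a : ℝ) := by exact_mod_cast ha
  have hb' : (0 : ℝ) < (b : ℝ) := by exact_mod_cast hb
  unfold lv at h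
  rw [← Real.log_mul (by positivity) (by positivity), Real.log_nonpos_iff (by positivity)] at h
  have h2 : (a : ℝ) / (n.choose s : ℝ) * ((b : ℝ) / (n.choose s : ℝ)) =
      ((a : ℝ) * b) / (n.choose s : ℝ) ^ 2 := by
    field_simp
  rw [h2, div_le_one (by positivity)] at h
  exact_mod_cast h

/-- `C (ln x)` is smaller than `x^(1/4)` for large `x`. -/
theorem eventually_log_small (C : ℝ) : ∃ k0 : ℕ, ∀ k : ℕ, k0 ≤ k →
    C * Real.log k ≤ (k : ℝ) ^ ((1 / 4 : ℝ)) := by
  have h1 := (isLittleO_log_rpow_atTop (show (0 : ℝ) < 1 / 4 by norm_num))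
  have h2 := h1.def (show (0 : ℝ) < 1 / (|C| + 1) by positivity)
  have h3 := (tendsto_natCast_atTop_atTop (R := ℝ)).eventually h2
  obtain ⟨k0, hk0⟩ := Filter.eventually_atTop.1 h3
  refine ⟨max k0 1, ?_⟩
  intro k hk
  have h4 := hk0 k ((le_max_left _ _).trans hk)
  have hk1 : (1 : ℝ) ≤ k := by exact_mod_cast (le_max_right _ _).trans hk
  have h5 : 0 ≤ Real.log (k : ℝ) := Real.log_nonneg hk1
  have h6 : (0 : ℝ) ≤ (k : ℝ) ^ ((1 / 4 : ℝ)) := by positivity
  rw [Real.norm_of_nonneg h5, Real.norm_of_nonneg h6] at h4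
  have h7 : C ≤ |C| + 1 := by
    have := le_abs_self C
    linarith
  calc C * Real.log k ≤ (|C| + 1) * Real.log k := mul_le_mul_of_nonneg_right h7 h5
    _ ≤ (|C| + 1) * (1 / (|C| + 1) * (k : ℝ) ^ ((1 / 4 : ℝ))) :=
        mul_le_mul_of_nonneg_left h4 (by positivity)
    _ = (k : ℝ) ^ ((1 / 4 : ℝ)) := by
        field_simp

/-- The cross product bound for large `k` with `k² < 100 n ln n`. -/
theorem prod_large (hS : StepSt) : ∃ k0 : ℕ, ∀ n s k : ℕ, k0 ≤ k → n = 2 * s + k →
    (k : ℝ) ^ 2 < 100 * ((n : ℝ) * Real.log n) → ∀ F G : Finset (Finset (Fin n)),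
      IsAntichain (· ⊆ ·) (F : Set (Finset (Fin n))) →
      IsAntichain (· ⊆ ·) (G : Set (Finset (Fin n))) →
      (∀ A ∈ F, ∀ B ∈ G, (symmDiff A B).card ≤ 2 * s) → F.card * G.card ≤ (n.choose s) ^ 2 := by
  obtain ⟨k1, h⟩ := pp_all baseSt hS
  obtain ⟨k2, h2⟩ := eventually_log_small 1000
  refine ⟨max (max k1 k2) 10000, ?_⟩
  intro n s k hk hn hlt F G hF hG hd
  have hk1 : k1 ≤ k := le_trans (le_trans (le_max_left _ _) (le_max_left _ _)) hk
  have hk2 : k2 ≤ k := le_trans (le_trans (le_max_right _ _) (le_max_left _ _)) hk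
  have hk3 : 10000 ≤ k := le_trans (le_max_right _ _) hk
  rcases F.eq_empty_or_nonempty with rfl | hF0
  · simp
  rcases G.eq_empty_or_nonempty with rfl | hG0
  · simp
  have hsn : s ≤ n := by omega
  rcases Nat.lt_or_ge (n + 3) (k ^ 2) with h1 | h1
  · -- the potential
    have hPP := h n s k hk1 hn (by omega) hlt
    have hkr : (10000 : ℝ) ≤ k := by exact_mod_cast hk3
    have hnk : k ≤ n := by omega
    have hnr : (k : ℝ) ≤ n := by exact_mod_cast hnk
    have hn0 : (0 : ℝ) < n := by linarith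
    have hnk2 : (n : ℝ) ≤ (k : ℝ) ^ 2 := by
      have : n ≤ k ^ 2 := by omega
      exact_mod_cast this
    have hlogn : Real.log n ≤ 2 * Real.log k := by
      have := Real.log_le_log hn0 hnk2
      rwa [Real.log_pow, Nat.cast_ofNat] at this
    have hlogk : 0 ≤ Real.log (k : ℝ) := Real.log_nonneg (by linarith)
    have hV : (k : ℝ) ^ 2 / n ≤ 200 * Real.log k := by
      rw [div_le_iff₀ hn0]
      nlinarith
    have hek : 1 / ek k = (k : ℝ) ^ ((1 / 4 : ℝ)) := by
      unfold ek
      rw [Real.rpow_neg (by linarith), one_div, inv_inv]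
    have hbig := h2 k hk2
    have h2k : 2 * k ≤ n := by
      have e1 : 404 * Real.log k ≤ k := by
        have e2 : (k : ℝ) ^ ((1 / 4 : ℝ)) ≤ (k : ℝ) ^ (1 : ℝ) :=
          Real.rpow_le_rpow_of_exponent_le (by linarith) (by norm_num)
        rw [Real.rpow_one] at e2
        nlinarith
      have e3 : (k : ℝ) ^ 2 ≤ 200 * Real.log k * n := by
        rw [div_le_iff₀ hn0] at hV
        exact hV
      have e4 : 2 * (k : ℝ) ≤ n := by
        by_contra hcon
        push Not at hcon
        nlinarith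
      exact_mod_cast e4
    have cF := lv_le hn (by omega) h2k hF
    have cG := lv_le hn (by omega) h2k hG
    refine prod_of_lv hsn hF0.card_pos hG0.card_pos ?_
    rcases le_or_gt (|lv n s F.card - lv n s G.card|) (1 / ek k) with h3 | h3
    · have h4 := hPP F G hF0 hG0 hF hG hd h3
      unfold q at h4
      have h5 : 0 ≤ ek k / 4 * (lv n s F.card - lv n s G.card) ^ 2 := by
        have := ek_pos (k := k) (by omega)
        positivity
      linarith
    · rw [hek] at h3
      rcases abs_cases (lv n s F.card - lv n s G.card) with ⟨h4, _⟩ | ⟨h4, _⟩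
      · rw [h4] at h3
        linarith
      · rw [h4] at h3
        linarith
  · -- small `k²`
    have h3 := (OddTwo.ChainPairs.result n k (by omega) (by omega) h1).2.2.1 F G hF hG
      fun A hA B hB => (hd A hA B hB).trans (by omega)
    have e1 : (n + k + 1) / 2 = n - s := by omega
    have e2 : (n + k) / 2 = n - s := by omega
    rw [e1, e2, Nat.choose_symm hsn] at h3
    nlinarith [sq_nonneg ((F.card : ℤ) - G.card), sq_nonneg (F.card + G.card)]

end Pool.Agent.LineQ
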