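import Mathlib

/-! Numerics of real levels for the base window `100 n ln n ≤ k ^ 2 ≤ 101 n ln n`. -/

namespace LineQ

/-- level function: piecewise linear interpolation of `ln C(n, .)` at the real level `y` -/
noncomputable def Lg (n : ℕ) (y : ℝ) : ℝ :=
  (1 - (y - ⌊y⌋₊)) * Real.log (n.choose ⌊y⌋₊) + (y - ⌊y⌋₊) * Real.log (n.choose (⌊y⌋₊ + 1))

/-- the base window -/
def Win (k s n : ℕ) : Prop :=
  n = 2 * s + k ∧ 100 * (n : ℝ) * Real.log n ≤ (k : ℝ) ^ 2 ∧
    (k : ℝ) ^ 2 ≤ 101 * (n : ℝ) * Real.log n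

/-! ### Piecewise linear interpolation of a sequence -/

/-- piecewise linear interpolation -/
noncomputable def PL (u : ℕ → ℝ) (y : ℝ) : ℝ :=
  (1 - (y - ⌊y⌋₊)) * u ⌊y⌋₊ + (y - ⌊y⌋₊) * u (⌊y⌋₊ + 1)

theorem PL_nat (u : ℕ → ℝ) (a : ℕ) : PL u a = u a := by
  simp [PL]

theorem PL_add (u : ℕ → ℝ) (a : ℕ) {t : ℝ} (h0 : 0 ≤ t) (h1 : t ≤ 1) :
    PL u (a + t) = (1 - t) * u a + t * u (a + 1) := by
  rcases h1.lt_or_eq with h | h
  · have hf : ⌊(a : ℝ) + t⌋₊ = a := by
      rw [Nat.floor_eq_iff (by positivity)]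
      constructor <;> linarith
    unfold PL
    rw [hf]
    have : (a : ℝ) + t - a = t := by ring
    rw [this]
  · subst h
    have := PL_nat u (a + 1)
    push_cast at this
    rw [this]
    ring

theorem disc_lip {u : ℕ → ℝ} {a b : ℕ} {B : ℝ}
    (hu : ∀ j, a ≤ j → j < b → u (j + 1) - u j ≤ B) {p : ℕ} (hp : a ≤ p) (d : ℕ)
    (hd : p + d ≤ b) : u (p + d) - u p ≤ B * d := by
  induction d with
  | zero => simp
  | succ d ih =>
    have h1 := ih (by omega)
    have h2 := hu (p + d) (by omega) (by omega)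
    have h3 : p + (d + 1) = p + d + 1 := by ring
    rw [h3]
    push_cast
    linarith

theorem PL_lip {u : ℕ → ℝ} {a b : ℕ} {B : ℝ}
    (hu : ∀ j, a ≤ j → j < b → u (j + 1) - u j ≤ B) {y1 y2 : ℝ} (ha : (a : ℝ) ≤ y1)
    (h12 : y1 ≤ y2) (hb : y2 ≤ b) : PL u y2 - PL u y1 ≤ B * (y2 - y1) := by
  have hy1 : 0 ≤ y1 := le_trans (Nat.cast_nonneg a) ha
  have hy2 : 0 ≤ y2 := le_trans hy1 h12
  obtain ⟨m1, hm1⟩ : ∃ m, m = ⌊y1⌋₊ := ⟨_, rfl⟩
  obtain ⟨m2, hm2⟩ : ∃ m, m = ⌊y2⌋₊ := ⟨_, rfl⟩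
  have ham1 : a ≤ m1 := by rw [hm1]; exact Nat.le_floor ha
  have hm12 : m1 ≤ m2 := by rw [hm1, hm2]; exact Nat.floor_mono h12
  have l1 : (m1 : ℝ) ≤ y1 := by rw [hm1]; exact Nat.floor_le hy1
  have l2 : (m2 : ℝ) ≤ y2 := by rw [hm2]; exact Nat.floor_le hy2
  have u1 : y1 < m1 + 1 := by rw [hm1]; exact Nat.lt_floor_add_one y1
  have u2 : y2 < m2 + 1 := by rw [hm2]; exact Nat.lt_floor_add_one y2
  have hmb : m2 ≤ b := by
    have : (m2 : ℝ) ≤ b := le_trans l2 hb
    exact_mod_cast this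
  have e1 : PL u y1 = (1 - (y1 - m1)) * u m1 + (y1 - m1) * u (m1 + 1) := by
    unfold PL; rw [hm1]
  have e2 : PL u y2 = (1 - (y2 - m2)) * u m2 + (y2 - m2) * u (m2 + 1) := by
    unfold PL; rw [hm2]
  -- last piece
  have last : (y2 - m2) * (u (m2 + 1) - u m2) ≤ (y2 - m2) * B := by
    rcases hmb.lt_or_eq with h | h
    · exact mul_le_mul_of_nonneg_left (hu m2 (by omega) h) (by linarith)
    · have : y2 - m2 = 0 := by
        rw [h] at l2 ⊢
        linarith
      rw [this]; simp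
  rcases hm12.lt_or_eq with h | h
  · have first : (1 - (y1 - m1)) * (u (m1 + 1) - u m1) ≤ (1 - (y1 - m1)) * B :=
      mul_le_mul_of_nonneg_left (hu m1 ham1 (by omega)) (by linarith)
    have mid := disc_lip hu (p := m1 + 1) (by omega) (m2 - (m1 + 1)) (by omega)
    have e3 : m1 + 1 + (m2 - (m1 + 1)) = m2 := by omega
    rw [e3] at mid
    have e4 : ((m2 - (m1 + 1) : ℕ) : ℝ) = (m2 : ℝ) - (m1 + 1) := by
      rw [Nat.cast_sub (by omega)]; push_cast; ring
    rw [e4] at mid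
    rw [e1, e2]
    nlinarith
  · subst h
    rw [e1, e2]
    rcases hmb.lt_or_eq with h | h
    · have := mul_le_mul_of_nonneg_left (hu m1 ham1 h) (show 0 ≤ y2 - y1 by linarith)
      nlinarith
    · have h5 : y2 = y1 := by
        rw [h] at l1
        linarith
      rw [h5]; simp

theorem PL_neg (u : ℕ → ℝ) (y : ℝ) : PL (fun j => - u j) y = - PL u y := by
  unfold PL; ring

theorem PL_mono {u : ℕ → ℝ} {a b : ℕ}
    (hu : ∀ j, a ≤ j → j < b → u j ≤ u (j + 1)) {y1 y2 : ℝ} (ha : (a : ℝ) ≤ y1)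
    (h12 : y1 ≤ y2) (hb : y2 ≤ b) : PL u y1 ≤ PL u y2 := by
  have := PL_lip (u := fun j => - u j) (a := a) (b := b) (B := 0)
    (fun j h1 h2 => by have := hu j h1 h2; show - u (j + 1) - - u j ≤ 0; linarith) ha h12 hb
  rw [PL_neg, PL_neg] at this
  linarith

theorem Lg_eq (n : ℕ) (y : ℝ) : Lg n y = PL (fun j => Real.log (n.choose j)) y := rfl

/-- (N0) -/
theorem Lg_nat (n a : ℕ) : Lg n a = Real.log (n.choose a) := by
  rw [Lg_eq, PL_nat]

theorem Lg_add (n a : ℕ) {t : ℝ} (h0 : 0 ≤ t) (h1 : t ≤ 1) :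
    Lg n (a + t) = (1 - t) * Real.log (n.choose a) + t * Real.log (n.choose (a + 1)) := by
  rw [Lg_eq, PL_add _ _ h0 h1]

/-! ### Ratios of binomial coefficients -/

/-- logarithm of the ratio of consecutive binomials -/
theorem la_eq {n j : ℕ} (h : j < n) :
    Real.log (n.choose (j + 1)) - Real.log (n.choose j) = Real.log (((n : ℝ) - j) / (j + 1)) := by
  have h1 : (0 : ℝ) < n.choose j := by exact_mod_cast Nat.choose_pos h.le
  have h2 : (0 : ℝ) < n.choose (j + 1) := by exact_mod_cast Nat.choose_pos (by omega)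
  have h3 : (n.choose (j + 1) : ℝ) * (j + 1) = n.choose j * ((n : ℝ) - j) := by
    have := Nat.choose_succ_right_eq n j
    have h4 : ((n - j : ℕ) : ℝ) = (n : ℝ) - j := by rw [Nat.cast_sub h.le]
    rw [← h4]
    exact_mod_cast this
  rw [← Real.log_div h2.ne' h1.ne']
  congr 1
  rw [div_eq_div_iff h1.ne' (by positivity)]
  linarith

theorem la_up {n j : ℕ} (h : j < n) :
    Real.log (n.choose (j + 1)) - Real.log (n.choose j) ≤ ((n : ℝ) - 2 * j - 1) / (j + 1) := by
  rw [la_eq h]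
  have h1 : (0 : ℝ) < (n : ℝ) - j := by
    have : (j : ℝ) < n := by exact_mod_cast h
    linarith
  have h2 : (0 : ℝ) < (j : ℝ) + 1 := by positivity
  have := Real.log_le_sub_one_of_pos (show 0 < ((n : ℝ) - j) / (j + 1) by positivity)
  refine this.trans (le_of_eq ?_)
  field_simp
  ring

theorem la_lo {n j : ℕ} (h : j < n) :
    ((n : ℝ) - 2 * j - 1) / ((n : ℝ) - j) ≤
      Real.log (n.choose (j + 1)) - Real.log (n.choose j) := by
  rw [la_eq h]
  have h1 : (0 : ℝ) < (n : ℝ) - j := by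
    have : (j : ℝ) < n := by exact_mod_cast h
    linarith
  have h2 : (0 : ℝ) < (j : ℝ) + 1 := by positivity
  have := Real.one_sub_inv_le_log_of_pos (show 0 < ((n : ℝ) - j) / (j + 1) by positivity)
  refine le_trans (le_of_eq ?_) this
  field_simp
  ring

theorem la_pos {n j : ℕ} (h : 2 * j + 1 ≤ n) :
    Real.log (n.choose j) ≤ Real.log (n.choose (j + 1)) := by
  have h1 := la_lo (show j < n by omega)
  have h2 : (0 : ℝ) ≤ ((n : ℝ) - 2 * j - 1) / ((n : ℝ) - j) := by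
    have h3 : (2 * j + 1 : ℝ) ≤ n := by exact_mod_cast h
    have h4 : (0 : ℝ) ≤ j := by positivity
    apply div_nonneg <;> linarith
  linarith

/-- the difference of two opposite ratios -/
theorem la_diff {n s i : ℕ} (hi : i < s) (hs : 2 * s ≤ n) (h6 : 6 * (i + 1) ≤ n) :
    3 * (2 * (i : ℝ) + 1) / n ≤
      (Real.log (n.choose (s - 1 - i + 1)) - Real.log (n.choose (s - 1 - i))) -
      (Real.log (n.choose (s + i + 1)) - Real.log (n.choose (s + i))) := by
  have hin : s + i < n := by omega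
  rw [la_eq (show s - 1 - i < n by omega), la_eq hin]
  have e1 : ((s - 1 - i : ℕ) : ℝ) = (s : ℝ) - 1 - i := by
    rw [Nat.cast_sub (by omega), Nat.cast_sub (by omega)]; push_cast; ring
  rw [e1]
  push_cast
  have c1 : (i : ℝ) + 1 ≤ s := by exact_mod_cast hi
  have c2 : 2 * (s : ℝ) ≤ n := by exact_mod_cast hs
  have c3 : 6 * ((i : ℝ) + 1) ≤ n := by exact_mod_cast h6
  have c4 : (0 : ℝ) ≤ i := by positivity
  have c5 : (s : ℝ) + i + 1 ≤ n := by exact_mod_cast hin
  have p1 : (0 : ℝ) < (n : ℝ) - (s - 1 - i) := by linarith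
  have p2 : (0 : ℝ) < (s : ℝ) - 1 - i + 1 := by linarith
  have p3 : (0 : ℝ) < (n : ℝ) - (s + i) := by linarith
  have p4 : (0 : ℝ) < (s : ℝ) + i + 1 := by linarith
  have hn : (0 : ℝ) < n := by linarith
  rw [← Real.log_div (by positivity) (by positivity)]
  have e2 : ((n : ℝ) - (s - 1 - i)) / ((s : ℝ) - 1 - i + 1) / (((n : ℝ) - (s + i)) / (s + i + 1)) =
      (((n : ℝ) - (s - 1 - i)) / ((n : ℝ) - (s + i))) * (((s : ℝ) + i + 1) / ((s : ℝ) - 1 - i + 1)) := by
    field_simp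
  rw [e2, Real.log_mul (by positivity) (by positivity)]
  have b1 := Real.one_sub_inv_le_log_of_pos (show 0 < ((n : ℝ) - (s - 1 - i)) / ((n : ℝ) - (s + i)) by positivity)
  have b2 := Real.one_sub_inv_le_log_of_pos (show 0 < ((s : ℝ) + i + 1) / ((s : ℝ) - 1 - i + 1) by positivity)
  have b3 : 3 * (2 * (i : ℝ) + 1) / n ≤ (2 * (i : ℝ) + 1) / ((n : ℝ) - (s - 1 - i)) +
      (2 * (i : ℝ) + 1) / ((s : ℝ) + i + 1) := by
    rw [div_add_div _ _ p1.ne' p4.ne', div_le_div_iff₀ hn (by positivity)]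
    have q1 : 4 * (((n : ℝ) - (s - 1 - i)) * ((s : ℝ) + i + 1)) ≤ ((n : ℝ) + 2 * i + 2) ^ 2 := by
      nlinarith [sq_nonneg ((n : ℝ) - (s - 1 - i) - ((s : ℝ) + i + 1))]
    have q2 : 3 * ((n : ℝ) + 2 * i + 2) ≤ 4 * n := by linarith
    have q3 : (0 : ℝ) < (n : ℝ) + 2 * i + 2 := by linarith
    have q4 : 3 * (((n : ℝ) - (s - 1 - i)) * ((s : ℝ) + i + 1)) ≤ ((n : ℝ) + 2 * i + 2) * n := by
      nlinarith
    have q5 : (0 : ℝ) ≤ 2 * i + 1 := by linarith
    nlinarith [mul_le_mul_of_nonneg_left q4 q5]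
  have b4 : 1 - (((n : ℝ) - (s - 1 - i)) / ((n : ℝ) - (s + i)))⁻¹ =
      (2 * (i : ℝ) + 1) / ((n : ℝ) - (s - 1 - i)) := by
    field_simp
    ring
  have b5 : 1 - (((s : ℝ) + i + 1) / ((s : ℝ) - 1 - i + 1))⁻¹ =
      (2 * (i : ℝ) + 1) / ((s : ℝ) + i + 1) := by
    field_simp
    ring
  linarith

/-- the second difference -/
theorem dd {n s : ℕ} (hs : 2 * s ≤ n) (m : ℕ) (hm : m ≤ s) (h6 : 6 * m ≤ n) :
    3 * (m : ℝ) ^ 2 / n ≤
      2 * Real.log (n.choose s) - Real.log (n.choose (s - m)) - Real.log (n.choose (s + m)) := by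
  induction m with
  | zero => simp; linarith
  | succ i ih =>
    have h1 := ih (by omega) (by omega)
    have h2 := la_diff (n := n) (s := s) (i := i) (by omega) hs h6
    have e1 : s - 1 - i + 1 = s - i := by omega
    have e2 : s - (i + 1) = s - 1 - i := by omega
    have e3 : s + (i + 1) = s + i + 1 := by ring
    rw [e1] at h2
    rw [e2, e3]
    push_cast
    have e4 : 3 * ((i : ℝ) + 1) ^ 2 / n = 3 * (i : ℝ) ^ 2 / n + 3 * (2 * (i : ℝ) + 1) / n := by
      ring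
    rw [e4]
    linarith

/-! ### The window -/

theorem win_facts : ∃ k0 : ℕ, ∀ k s n : ℕ, k0 ≤ k → Win k s n →
    1000 ≤ k ∧ 100 * (k : ℝ) ≤ n ∧ (k : ℝ) ^ (-(1 / 4) : ℝ) * Real.log n ≤ 1 / 10000 := by
  have h1 : ∀ᶠ x : ℝ in Filter.atTop, 10100 * Real.log (100 * x) < x := by
    have := Real.isLittleO_log_id_atTop.bound (show (0 : ℝ) < 1 / 10100 / 200 by norm_num)
    have h2 : Filter.Tendsto (fun x : ℝ => 100 * x) Filter.atTop Filter.atTop :=
      Filter.tendsto_id.const_mul_atTop (by norm_num)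
    filter_upwards [h2.eventually this, Filter.eventually_ge_atTop (1 : ℝ)] with x hx hx1
    simp only [id, Real.norm_eq_abs] at hx
    rw [abs_of_nonneg (Real.log_nonneg (by linarith)), abs_of_nonneg (by linarith)] at hx
    linarith
  have h2 : ∀ᶠ x : ℝ in Filter.atTop, x ^ (-(1 / 4) : ℝ) * (2 * Real.log x) ≤ 1 / 10000 := by
    have := (isLittleO_log_rpow_atTop (show (0 : ℝ) < 1 / 4 by norm_num)).bound
      (show (0 : ℝ) < 1 / 20000 by norm_num)
    filter_upwards [this, Filter.eventually_ge_atTop (1 : ℝ)] with x hx hx1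
    have hx0 : 0 < x := by linarith
    have hp : 0 < x ^ (1 / 4 : ℝ) := Real.rpow_pos_of_pos hx0 _
    rw [Real.norm_eq_abs, Real.norm_eq_abs, abs_of_nonneg (Real.log_nonneg hx1),
      abs_of_nonneg hp.le] at hx
    have e1 : x ^ (-(1 / 4) : ℝ) = (x ^ (1 / 4 : ℝ))⁻¹ := Real.rpow_neg hx0.le _
    rw [e1, inv_mul_le_iff₀ hp]
    linarith
  have h3 : ∀ᶠ k : ℕ in Filter.atTop, 10100 * Real.log (100 * (k : ℝ)) < k ∧
      (k : ℝ) ^ (-(1 / 4) : ℝ) * (2 * Real.log k) ≤ 1 / 10000 :=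
    tendsto_natCast_atTop_atTop.eventually (h1.and h2)
  obtain ⟨k1, hk1⟩ := Filter.eventually_atTop.1 h3
  refine ⟨max k1 1000, fun k s n hk hW => ?_⟩
  obtain ⟨hn, hl, hu⟩ := hW
  have hk1000 : 1000 ≤ k := le_trans (le_max_right _ _) hk
  have hkR : (1000 : ℝ) ≤ k := by exact_mod_cast hk1000
  obtain ⟨c1, c2⟩ := hk1 k (le_trans (le_max_left _ _) hk)
  have hkn : (k : ℝ) ≤ n := by
    have : k ≤ n := by omega
    exact_mod_cast this
  have hn0 : (0 : ℝ) < n := by linarith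
  have hlog1 : 1 ≤ Real.log n := by
    rw [Real.le_log_iff_exp_le hn0]
    have := Real.exp_one_lt_d9
    linarith
  refine ⟨hk1000, ?_, ?_⟩
  · by_contra hcon
    push Not at hcon
    have d1 : Real.log n ≤ Real.log (100 * (k : ℝ)) := Real.log_le_log hn0 hcon.le
    have d2 : (k : ℝ) ^ 2 ≤ 101 * (100 * k) * Real.log (100 * (k : ℝ)) := by
      refine hu.trans ?_
      apply mul_le_mul _ d1 (by linarith) (by positivity)
      linarith
    nlinarith
  · have d1 : (n : ℝ) ≤ (k : ℝ) ^ 2 := by nlinarith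
    have d2 : Real.log n ≤ 2 * Real.log k := by
      have := Real.log_le_log hn0 d1
      rwa [Real.log_pow, Nat.cast_ofNat] at this
    refine le_trans ?_ c2
    exact mul_le_mul_of_nonneg_left d2 (Real.rpow_nonneg (by linarith) _)

/-- (N1) the inverse -/
theorem Lg_inv {n s : ℕ} (m : ℕ) (hm : 2 * (s + m) ≤ n) (N : ℕ) (h1 : n.choose s ≤ N)
    (h2 : N ≤ n.choose (s + m)) :
    ∃ x : ℝ, 0 ≤ x ∧ x ≤ m ∧ Lg n (s + x) = Real.log N := by
  induction m with
  | zero =>
    refine ⟨0, le_rfl, by simp, ?_⟩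
    have : N = n.choose s := le_antisymm (by simpa using h2) h1
    rw [this, add_zero, Lg_nat]
  | succ m ih =>
    rcases le_or_gt N (n.choose (s + m)) with h | h
    · obtain ⟨x, h3, h4, h5⟩ := ih (by omega) h
      exact ⟨x, h3, by push_cast; linarith, h5⟩
    · have p1 : (0 : ℝ) < n.choose (s + m) := by
        exact_mod_cast Nat.choose_pos (by omega)
      have p2 : (n.choose (s + m) : ℝ) < N := by exact_mod_cast h
      have h2' : N ≤ n.choose (s + m + 1) := by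
        have : s + (m + 1) = s + m + 1 := by ring
        rwa [this] at h2
      have p3 : (N : ℝ) ≤ n.choose (s + m + 1) := by exact_mod_cast h2'
      have q1 : Real.log (n.choose (s + m)) < Real.log N := Real.log_lt_log p1 p2
      have q2 : Real.log N ≤ Real.log (n.choose (s + m + 1)) :=
        Real.log_le_log (by linarith) p3
      have q3 : 0 < Real.log (n.choose (s + m + 1)) - Real.log (n.choose (s + m)) := by linarith
      refine ⟨m + (Real.log N - Real.log (n.choose (s + m))) /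
        (Real.log (n.choose (s + m + 1)) - Real.log (n.choose (s + m))), ?_, ?_, ?_⟩
      · have : 0 ≤ (Real.log N - Real.log (n.choose (s + m))) /
          (Real.log (n.choose (s + m + 1)) - Real.log (n.choose (s + m))) :=
          div_nonneg (by linarith) q3.le
        have h3 : (0 : ℝ) ≤ m := by positivity
        linarith
      · have : (Real.log N - Real.log (n.choose (s + m))) /
          (Real.log (n.choose (s + m + 1)) - Real.log (n.choose (s + m))) ≤ 1 := by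
          rw [div_le_one q3]; linarith
        push_cast
        linarith
      · have e1 : (s : ℝ) + (m + (Real.log N - Real.log (n.choose (s + m))) /
          (Real.log (n.choose (s + m + 1)) - Real.log (n.choose (s + m)))) =
          ((s + m : ℕ) : ℝ) + (Real.log N - Real.log (n.choose (s + m))) /
          (Real.log (n.choose (s + m + 1)) - Real.log (n.choose (s + m))) := by
          push_cast; ring
        rw [e1, Lg_add n (s + m)]
        · have q4 : (Real.log N - Real.log (n.choose (s + m))) /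
            (Real.log (n.choose (s + m + 1)) - Real.log (n.choose (s + m))) *
            (Real.log (n.choose (s + m + 1)) - Real.log (n.choose (s + m))) =
            Real.log N - Real.log (n.choose (s + m)) := div_mul_cancel₀ _ q3.ne'
          linear_combination q4
        · exact div_nonneg (by linarith) q3.le
        · rw [div_le_one q3]; linarith

/-- (N3) small shifts -/
theorem num_small : ∃ k0 : ℕ, ∀ k s n : ℕ, k0 ≤ k → Win k s n →
    (∀ x : ℝ, 0 ≤ x → x ≤ 1 → Lg n (s + x) - Real.log (n.choose s) ≤ x) ∧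
    (∀ r : ℝ, 0 ≤ r → r ≤ 1 → Lg n (s - r) ≤ Real.log (n.choose s) - r / n) := by
  obtain ⟨k0, hk0⟩ := win_facts
  refine ⟨k0, fun k s n hk hW => ?_⟩
  obtain ⟨c1, c2, -⟩ := hk0 k s n hk hW
  have hn := hW.1
  have hkR : (1000 : ℝ) ≤ k := by exact_mod_cast c1
  have hnR : (n : ℝ) = 2 * s + k := by rw [hn]; push_cast; ring
  have hs1 : 1 ≤ s := by
    have : (1 : ℝ) ≤ s := by linarith
    exact_mod_cast this
  constructor
  · intro x hx0 hx1
    rw [Lg_add n s hx0 hx1]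
    have h1 := la_up (show s < n by omega)
    have h2 : ((n : ℝ) - 2 * s - 1) / (s + 1) ≤ 1 := by
      rw [div_le_one (by positivity)]
      linarith
    nlinarith
  · intro r hr0 hr1
    have e1 : (s : ℝ) - r = ((s - 1 : ℕ) : ℝ) + (1 - r) := by
      rw [Nat.cast_sub hs1]; push_cast; ring
    rw [e1, Lg_add n (s - 1) (by linarith) (by linarith)]
    have h1 := la_lo (show s - 1 < n by omega)
    have e2 : s - 1 + 1 = s := by omega
    rw [e2] at h1 ⊢
    have e3 : ((s - 1 : ℕ) : ℝ) = (s : ℝ) - 1 := by rw [Nat.cast_sub hs1]; push_cast; ring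
    rw [e3] at h1
    have h2 : 1 / (n : ℝ) ≤ ((n : ℝ) - 2 * (s - 1) - 1) / ((n : ℝ) - (s - 1)) := by
      have hs1R : (1 : ℝ) ≤ s := by exact_mod_cast hs1
      rw [div_le_div_iff₀ (by linarith) (by linarith)]
      nlinarith
    have h3 : r / (n : ℝ) = r * (1 / n) := by ring
    rw [h3]
    nlinarith


/-- monotonicity of the potential in the second coordinate -/
theorem pot_mono {e f g g' : ℝ} (he : 0 ≤ e) (hf : 0 ≤ f) (hg : g' ≤ 0) (hgg : g ≤ g')
    (h1 : e * |f - g| ≤ 1) (h2 : 0 < f + g + e / 4 * (f - g) ^ 2) :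
    0 < f + g' + e / 4 * (f - g') ^ 2 := by
  rw [abs_of_nonneg (by linarith)] at h1
  have h3 : e * (f - g') ≤ 1 :=
    le_trans (mul_le_mul_of_nonneg_left (by linarith) he) h1
  have h4 : 0 ≤ (g' - g) * (2 - e * (f - g) - e * (f - g')) :=
    mul_nonneg (by linarith) (by linarith)
  nlinarith

/-- (N4) levels up to `3 k / 8` -/
theorem num_unb : ∃ k0 : ℕ, ∀ k s n : ℕ, k0 ≤ k → Win k s n →
    ∀ e : ℝ, e = (k : ℝ) ^ (-(1 / 4) : ℝ) →
    ∀ x δ f g : ℝ, 0 ≤ δ → δ ≤ x → x ≤ 3 * k / 8 →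
      f = Lg n (s + x) - Real.log (n.choose s) →
      g ≤ Lg n (s - (x - δ)) - Real.log (n.choose s) →
      e * |f - g| ≤ 1 → 0 < f + g + e / 4 * (f - g) ^ 2 →
      x ≤ 48 * δ * k ∧ x ^ 2 ≤ 48 * δ * k := by
  obtain ⟨k0, hk0⟩ := win_facts
  refine ⟨k0, fun k s n hk hW e he x δ f g hδ0 hδx hx hf hg hfg hpot => ?_⟩
  obtain ⟨c1, c2, c3⟩ := hk0 k s n hk hW
  rw [← he] at c3
  obtain ⟨hn, -, hup⟩ := hW
  have hkR : (1000 : ℝ) ≤ k := by exact_mod_cast c1
  have hnR : (n : ℝ) = 2 * s + k := by rw [hn]; push_cast; ring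
  have hn0 : (0 : ℝ) < n := by linarith
  have he0 : 0 ≤ e := by rw [he]; exact Real.rpow_nonneg (by linarith) _
  have hx0 : 0 ≤ x := le_trans hδ0 hδx
  have hks : k / 2 ≤ s := by
    have : (k : ℝ) ≤ s := by linarith
    have : k ≤ s := by exact_mod_cast this
    omega
  have hkd : (k : ℝ) / 2 - 1 / 2 ≤ ((k / 2 : ℕ) : ℝ) := by
    have : k ≤ 2 * (k / 2) + 1 := by omega
    have : (k : ℝ) ≤ 2 * ((k / 2 : ℕ) : ℝ) + 1 := by exact_mod_cast this
    linarith
  have hkd2 : ((k / 2 : ℕ) : ℝ) ≤ (k : ℝ) / 2 := by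
    have : 2 * (k / 2) ≤ k := by omega
    have : 2 * ((k / 2 : ℕ) : ℝ) ≤ k := by exact_mod_cast this
    linarith
  have hA : ((s - k / 2 : ℕ) : ℝ) = (s : ℝ) - ((k / 2 : ℕ) : ℝ) := Nat.cast_sub hks
  have hB : ((s + k / 2 : ℕ) : ℝ) = (s : ℝ) + ((k / 2 : ℕ) : ℝ) := by push_cast; ring
  have hu : ∀ j, s - k / 2 ≤ j → j < s + k / 2 →
      (fun j => Real.log (n.choose j)) (j + 1) - (fun j => Real.log (n.choose j)) j ≤ 6 * k / n := by
    intro j h1 h2
    refine (la_up (show j < n by omega)).trans ?_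
    have h3 : ((s - k / 2 : ℕ) : ℝ) ≤ j := by exact_mod_cast h1
    have h4 : (0 : ℝ) ≤ j := by positivity
    rw [div_le_div_iff₀ (by positivity) hn0]
    have h5 : (n : ℝ) - 2 * j - 1 ≤ 2 * k := by linarith
    have h6 : (n : ℝ) / 3 ≤ j + 1 := by linarith
    nlinarith
  have hpos : ∀ j, s - k / 2 ≤ j → j < s + k / 2 →
      (fun j => Real.log (n.choose j)) j ≤ (fun j => Real.log (n.choose j)) (j + 1) := by
    intro j h1 h2
    exact la_pos (by omega)
  have hLs : Real.log (n.choose s) = PL (fun j => Real.log (n.choose j)) s := by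
    rw [← Lg_eq, Lg_nat]
  -- bounds
  have F1 := PL_lip (u := fun j => Real.log (n.choose j)) hu (y1 := s) (y2 := s + x) (by rw [hA]; linarith) (by linarith)
    (by rw [hB]; linarith)
  have F0 := PL_mono (u := fun j => Real.log (n.choose j)) hpos (y1 := s) (y2 := s + x) (by rw [hA]; linarith) (by linarith)
    (by rw [hB]; linarith)
  have G1 := PL_lip (u := fun j => Real.log (n.choose j)) hu (y1 := s - (x - δ)) (y2 := s) (by rw [hA]; linarith) (by linarith)
    (by rw [hB]; linarith)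
  have G0 := PL_mono (u := fun j => Real.log (n.choose j)) hpos (y1 := s - (x - δ)) (y2 := s) (by rw [hA]; linarith) (by linarith)
    (by rw [hB]; linarith)
  have G2 := PL_lip (u := fun j => Real.log (n.choose j)) hu (y1 := s - x) (y2 := s - (x - δ)) (by rw [hA]; linarith) (by linarith)
    (by rw [hB]; linarith)
  simp only [← Lg_eq, Lg_nat] at F1 F0 G1 G0 G2
  have hB0 : (0 : ℝ) ≤ 6 * k / n := by positivity
  -- second difference
  obtain ⟨m, hm⟩ : ∃ m, m = ⌊x⌋₊ := ⟨_, rfl⟩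
  have l1 : (m : ℝ) ≤ x := by rw [hm]; exact Nat.floor_le hx0
  have u1 : x < m + 1 := by rw [hm]; exact Nat.lt_floor_add_one x
  have hms : m + 1 ≤ s := by
    have : (m : ℝ) + 1 ≤ s := by linarith
    exact_mod_cast this
  have h6m : 6 * (m + 1) ≤ n := by
    have : 6 * ((m : ℝ) + 1) ≤ n := by linarith
    exact_mod_cast this
  obtain ⟨t, ht⟩ : ∃ t, t = x - m := ⟨_, rfl⟩
  have ht0 : 0 ≤ t := by linarith
  have ht1 : t ≤ 1 := by linarith
  have E1 : Lg n (s + x) = (1 - t) * Real.log (n.choose (s + m)) +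
      t * Real.log (n.choose (s + m + 1)) := by
    rw [← Lg_add n (s + m) ht0 ht1]
    congr 1
    push_cast
    linarith
  have E2 : Lg n (s - x) = (1 - (1 - t)) * Real.log (n.choose (s - (m + 1))) +
      (1 - t) * Real.log (n.choose (s - (m + 1) + 1)) := by
    rw [← Lg_add n (s - (m + 1)) (by linarith) (by linarith)]
    congr 1
    rw [Nat.cast_sub hms]
    push_cast
    linarith
  have e2 : s - (m + 1) + 1 = s - m := by omega
  rw [e2] at E2
  have D1 := dd (n := n) (s := s) (by omega) m (by omega) (by omega)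
  have D2 := dd (n := n) (s := s) (by omega) (m + 1) hms h6m
  rw [← add_assoc] at D2
  obtain ⟨Q, hQ⟩ : ∃ Q, Q = (m : ℝ) ^ 2 + t * (2 * m + 1) := ⟨_, rfl⟩
  have D3 : 3 * Q / n ≤ 2 * Real.log (n.choose s) - Lg n (s - x) - Lg n (s + x) := by
    have d1 := mul_le_mul_of_nonneg_left D1 (show 0 ≤ 1 - t by linarith)
    have d2 := mul_le_mul_of_nonneg_left D2 ht0
    have d3 : 3 * Q / n = (1 - t) * (3 * (m : ℝ) ^ 2 / n) + t * (3 * ((m + 1 : ℕ) : ℝ) ^ 2 / n) := by
      rw [hQ]; push_cast; field_simp; ring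
    rw [E1, E2, d3]
    linarith
  have hm0 : (0 : ℝ) ≤ m := by positivity
  have hxm : x = m + t := by linarith
  have Qx2 : x ^ 2 ≤ Q := by
    have h1 : t * t ≤ t * 1 := mul_le_mul_of_nonneg_left ht1 ht0
    have h2 : Q - x ^ 2 = t * 1 - t * t := by rw [hQ, hxm]; ring
    linarith
  have Qx : x ≤ Q := by
    rcases Nat.eq_zero_or_pos m with h | h
    · rw [hQ, hxm, h]; simp
    · have h1 : (1 : ℝ) ≤ m := by exact_mod_cast h
      have h2 : (m : ℝ) * 1 ≤ m * m := mul_le_mul_of_nonneg_left h1 hm0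
      have h3 : 0 ≤ t * m := mul_nonneg ht0 hm0
      have h4 : Q - x = (m * m - m * 1) + 2 * (t * m) := by rw [hQ, hxm]; ring
      linarith
  have Q0 : 0 ≤ Q := le_trans hx0 Qx
  -- the potential
  obtain ⟨g', hg'⟩ : ∃ g', g' = Lg n (s - (x - δ)) - Real.log (n.choose s) := ⟨_, rfl⟩
  rw [← hg'] at hg
  have P := pot_mono he0 (show 0 ≤ f by linarith) (show g' ≤ 0 by linarith) hg hfg hpot
  have C0 : 0 ≤ f - g' := by linarith
  have C1 : f - g' ≤ 2 * (6 * k / n * x) := by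
    have : 6 * (k : ℝ) / n * (s - (s - (x - δ))) ≤ 6 * k / n * x :=
      mul_le_mul_of_nonneg_left (by linarith) hB0
    have : 6 * (k : ℝ) / n * (s + x - s) = 6 * k / n * x := by ring
    linarith
  have C2 : (f - g') ^ 2 ≤ (2 * (6 * k / n * x)) ^ 2 := by
    apply pow_le_pow_left₀ C0 C1
  have C3 : e / 4 * (f - g') ^ 2 ≤ Q / n := by
    have s1 : e / 4 * (f - g') ^ 2 ≤ e / 4 * (2 * (6 * k / n * x)) ^ 2 :=
      mul_le_mul_of_nonneg_left C2 (by linarith)
    have s2 : e / 4 * (2 * (6 * k / n * x)) ^ 2 = 36 * e * (k : ℝ) ^ 2 * x ^ 2 / (n : ℝ) ^ 2 := by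
      field_simp; ring
    have s3 : e * (k : ℝ) ^ 2 ≤ 101 * n / 10000 := by
      calc e * (k : ℝ) ^ 2 ≤ e * (101 * n * Real.log n) := mul_le_mul_of_nonneg_left hup he0
        _ = 101 * n * (e * Real.log n) := by ring
        _ ≤ 101 * n * (1 / 10000) := mul_le_mul_of_nonneg_left c3 (by positivity)
        _ = 101 * n / 10000 := by ring
    have s4 : 36 * e * (k : ℝ) ^ 2 * x ^ 2 ≤ Q * n := by
      have : e * (k : ℝ) ^ 2 * x ^ 2 ≤ 101 * n / 10000 * Q :=
        mul_le_mul s3 Qx2 (sq_nonneg _) (by positivity)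
      have h7 : 0 ≤ Q * n := mul_nonneg Q0 hn0.le
      linarith
    rw [s2] at s1
    refine s1.trans ?_
    rw [div_le_div_iff₀ (by positivity) hn0]
    have h8 := mul_le_mul_of_nonneg_right s4 hn0.le
    linarith
  have G3 : 6 * (k : ℝ) / n * (s - (x - δ) - (s - x)) = 6 * k * δ / n := by ring
  rw [G3] at G2
  have key : 3 * Q / n < 6 * k * δ / n + Q / n := by linarith
  have key2 : Q ≤ 3 * k * δ := by
    have : 3 * Q / n < (6 * k * δ + Q) / n := by
      have : (6 * k * δ + Q) / n = 6 * k * δ / n + Q / n := by ring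
      rw [this]; exact key
    rw [div_lt_div_iff_of_pos_right hn0] at this
    linarith
  have key3 : 0 ≤ δ * k := by positivity
  constructor <;> linarith

/-- upper bound of the increase above `s` -/
theorem sum_up {n s k : ℕ} (hn : n = 2 * s + k) (i : ℕ) (hi : 2 * i ≤ k) :
    Real.log (n.choose (s + i)) - Real.log (n.choose s) ≤ (i : ℝ) * (k - i) / (s + 1) := by
  induction i with
  | zero => simp
  | succ i ih =>
    have h1 := ih (by omega)
    have h2 := la_up (show s + i < n by omega)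
    have e3 : s + (i + 1) = s + i + 1 := by ring
    rw [e3]
    push_cast at h2 ⊢
    have hk : 2 * ((i : ℝ) + 1) ≤ k := by exact_mod_cast hi
    have hnR : (n : ℝ) = 2 * s + k := by rw [hn]; push_cast; ring
    have h3 : ((n : ℝ) - 2 * (s + i) - 1) / ((s : ℝ) + i + 1) ≤ ((k : ℝ) - 2 * i - 1) / (s + 1) := by
      have : (n : ℝ) - 2 * (s + i) - 1 = k - 2 * i - 1 := by linarith
      rw [this]
      apply div_le_div_of_nonneg_left (by linarith) (by positivity)
      have : (0 : ℝ) ≤ i := by positivity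
      linarith
    have h4 : ((i : ℝ) + 1) * (k - (i + 1)) / (s + 1) =
        (i : ℝ) * (k - i) / (s + 1) + ((k : ℝ) - 2 * i - 1) / (s + 1) := by ring
    rw [h4]
    linarith

/-- lower bound of the decrease below `s` -/
theorem sum_lo {n s k : ℕ} (hn : n = 2 * s + k) (p i : ℕ) (hp : p ≤ s) (hi : i ≤ p) :
    (i : ℝ) * (k + i) / (s + k + p) ≤ Real.log (n.choose s) - Real.log (n.choose (s - i)) := by
  induction i with
  | zero => simp
  | succ i ih =>
    have h1 := ih (by omega)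
    have h2 := la_lo (show s - (i + 1) < n by omega)
    have e1 : s - (i + 1) + 1 = s - i := by omega
    have e2 : ((s - (i + 1) : ℕ) : ℝ) = (s : ℝ) - (i + 1) := by
      rw [Nat.cast_sub (by omega)]; push_cast; ring
    rw [e1, e2] at h2
    have hnR : (n : ℝ) = 2 * s + k := by rw [hn]; push_cast; ring
    have hsi : (i : ℝ) + 1 ≤ s := by
      have : i + 1 ≤ s := by omega
      exact_mod_cast this
    have hpi : (i : ℝ) + 1 ≤ p := by exact_mod_cast hi
    have hk0 : (0 : ℝ) ≤ k := by positivity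
    have hi0 : (0 : ℝ) ≤ i := by positivity
    have h3 : ((k : ℝ) + 2 * i + 1) / (s + k + p) ≤
        ((n : ℝ) - 2 * (s - (i + 1)) - 1) / ((n : ℝ) - (s - (i + 1))) := by
      have : (n : ℝ) - 2 * (s - (i + 1)) - 1 = k + 2 * i + 1 := by linarith
      rw [this]
      apply div_le_div_of_nonneg_left (by linarith) (by linarith) (by linarith)
    have h4 : ((i + 1 : ℕ) : ℝ) * (k + ((i + 1 : ℕ) : ℝ)) / (s + k + p) =
        (i : ℝ) * (k + i) / (s + k + p) + ((k : ℝ) + 2 * i + 1) / (s + k + p) := by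
      push_cast; ring
    rw [h4]
    linarith

/-- (N5) levels above `3 k / 8` -/
theorem num_big : ∃ k0 : ℕ, ∀ k s n : ℕ, k0 ≤ k → Win k s n →
    ∀ e : ℝ, e = (k : ℝ) ^ (-(1 / 4) : ℝ) →
    ∀ (m : ℕ) (f g : ℝ), 3 * (k : ℝ) / 8 - 1 ≤ m → (m : ℝ) ≤ 3 * k / 8 →
      0 ≤ f → f ≤ Real.log (n.choose (n / 2)) - Real.log (n.choose s) →
      g ≤ Real.log (n.choose (s + 1 - m)) - Real.log (n.choose s) →
      e * |f - g| ≤ 1 → f + g + e / 4 * (f - g) ^ 2 ≤ 0 := by
  obtain ⟨k0, hk0⟩ := win_facts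
  refine ⟨k0, fun k s n hk hW e he m f g hm1 hm2 hf0 hf hg hfg => ?_⟩
  obtain ⟨c1, c2, c3⟩ := hk0 k s n hk hW
  obtain ⟨hn, -, -⟩ := hW
  have hkR : (1000 : ℝ) ≤ k := by exact_mod_cast c1
  have hnR : (n : ℝ) = 2 * s + k := by rw [hn]; push_cast; ring
  have hn0 : (0 : ℝ) < n := by linarith
  have he0 : 0 ≤ e := by rw [he]; exact Real.rpow_nonneg (by linarith) _
  have hm0 : 1 ≤ m := by
    have : (1 : ℝ) ≤ m := by linarith
    exact_mod_cast this
  have hms : m ≤ s := by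
    have : (m : ℝ) ≤ s := by linarith
    exact_mod_cast this
  -- upper bound of f
  have e1 : n / 2 = s + k / 2 := by omega
  have U := sum_up hn (k / 2) (by omega)
  rw [← e1] at U
  have U2 : ((k / 2 : ℕ) : ℝ) * (k - ((k / 2 : ℕ) : ℝ)) / (s + 1) ≤ (51 / 100) * (k : ℝ) ^ 2 / n := by
    rw [div_le_div_iff₀ (by positivity) hn0]
    have h1 : ((k / 2 : ℕ) : ℝ) * (k - ((k / 2 : ℕ) : ℝ)) ≤ (k : ℝ) ^ 2 / 4 := by
      nlinarith [sq_nonneg ((k : ℝ) / 2 - ((k / 2 : ℕ) : ℝ))]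
    have h2 : (n : ℝ) / 4 ≤ (51 / 100) * ((s : ℝ) + 1) := by linarith
    calc ((k / 2 : ℕ) : ℝ) * (k - ((k / 2 : ℕ) : ℝ)) * n ≤ (k : ℝ) ^ 2 / 4 * n :=
          mul_le_mul_of_nonneg_right h1 hn0.le
      _ = (k : ℝ) ^ 2 * (n / 4) := by ring
      _ ≤ (k : ℝ) ^ 2 * ((51 / 100) * ((s : ℝ) + 1)) := mul_le_mul_of_nonneg_left h2 (by positivity)
      _ = (51 / 100) * (k : ℝ) ^ 2 * (s + 1) := by ring
  -- upper bound of g
  have W := sum_lo hn (m - 1) (m - 1) (by omega) le_rfl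
  have e2 : s - (m - 1) = s + 1 - m := by omega
  have e3 : ((m - 1 : ℕ) : ℝ) = (m : ℝ) - 1 := by rw [Nat.cast_sub hm0]; push_cast; ring
  rw [e2, e3] at W
  have W2 : (k : ℝ) ^ 2 / n ≤ ((m : ℝ) - 1) * (k + ((m : ℝ) - 1)) / (s + k + ((m : ℝ) - 1)) := by
    rw [div_le_div_iff₀ hn0 (by linarith)]
    have h1 : (51 / 100) * (k : ℝ) ^ 2 ≤ ((m : ℝ) - 1) * (k + ((m : ℝ) - 1)) := by
      have : (3 * (k : ℝ) / 8 - 2) * (k + (3 * (k : ℝ) / 8 - 2)) ≤
          ((m : ℝ) - 1) * (k + ((m : ℝ) - 1)) := by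
        apply mul_le_mul <;> linarith
      nlinarith
    have h2 : (s : ℝ) + k + ((m : ℝ) - 1) ≤ (51 / 100) * n := by linarith
    calc (k : ℝ) ^ 2 * (s + k + ((m : ℝ) - 1)) ≤ (k : ℝ) ^ 2 * ((51 / 100) * n) :=
          mul_le_mul_of_nonneg_left h2 (by positivity)
      _ = (51 / 100) * (k : ℝ) ^ 2 * n := by ring
      _ ≤ _ := mul_le_mul_of_nonneg_right h1 hn0.le
  have K0 : 0 ≤ (k : ℝ) ^ 2 / n := by positivity
  have e4 : (51 / 100) * (k : ℝ) ^ 2 / n = (51 / 100) * ((k : ℝ) ^ 2 / n) := by ring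
  rw [e4] at U2
  have hf2 : f ≤ (51 / 100) * ((k : ℝ) ^ 2 / n) := by linarith
  have hg2 : g ≤ - ((k : ℝ) ^ 2 / n) := by linarith
  rw [abs_of_nonneg (by linarith)] at hfg
  have h5 : e / 4 * (f - g) ^ 2 ≤ (f - g) / 4 := by
    have : e * (f - g) * (f - g) ≤ 1 * (f - g) :=
      mul_le_mul_of_nonneg_right hfg (by linarith)
    nlinarith
  linarith

end LineQ
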