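import Pool.Agent.LineQ.Step

/-!
# Odd parity from the product bound at one point, by entropy
-/

set_option autoImplicit false

namespace Pool.Agent.LineQ

open Finset

/-- the product bound for antichains with cross distances at most `2 s` -/
def PB (n s : ℕ) : Prop :=
  ∀ (α : Type) [Fintype α] [DecidableEq α], Fintype.card α = n → ∀ F G : Finset (Finset α),
    IsAntichain (· ⊆ ·) (F : Set (Finset α)) → IsAntichain (· ⊆ ·) (G : Set (Finset α)) →
    (∀ A ∈ F, ∀ B ∈ G, (symmDiff A B).card ≤ 2 * s) →
      (F.card : ℝ) * G.card ≤ (n.choose s : ℝ) ^ 2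

/-- The binary entropy is at most `log 2 - 2 (p - 1/2)^2`. -/
theorem binEntropy_le_quad {p : ℝ} (h0 : 0 < p) (h1 : p < 1) :
    Real.binEntropy p ≤ Real.log 2 - 2 * (p - 1 / 2) ^ 2 := by
  -- `g(p) = log 2 - 2 (p-1/2)^2 - h(p)`, `g(1/2) = 0`, `g' = -4(p-1/2) - log(1-p) + log p`
  have key : ∀ t : ℝ, 0 ≤ t → t < 1 → 2 * t ≤ Real.log ((1 + t) / (1 - t)) := by
    intro t ht0 ht1
    have hmono : MonotoneOn (fun x : ℝ => Real.log (1 + x) - Real.log (1 - x) - 2 * x)
        (Set.Ico 0 1) := by
      apply monotoneOn_of_deriv_nonneg (convex_Ico 0 1)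
      · apply ContinuousOn.sub
        · apply ContinuousOn.sub
          · apply ContinuousOn.log (by fun_prop)
            intro x hx
            have := hx.1
            linarith
          · apply ContinuousOn.log (by fun_prop)
            intro x hx
            have := hx.2
            linarith
        · fun_prop
      · intro x hx
        rw [interior_Ico] at hx
        apply DifferentiableAt.differentiableWithinAt
        have h3 : (1 : ℝ) + x ≠ 0 := by linarith [hx.1]
        have h4 : (1 : ℝ) - x ≠ 0 := by linarith [hx.2]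
        fun_prop (disch := assumption)
      · intro x hx
        rw [interior_Ico] at hx
        have h3 : (1 : ℝ) + x ≠ 0 := by linarith [hx.1]
        have h4 : (1 : ℝ) - x ≠ 0 := by linarith [hx.2]
        have hd : HasDerivAt (fun x : ℝ => Real.log (1 + x) - Real.log (1 - x) - 2 * x)
            (1 / (1 + x) - (-1) / (1 - x) - 2 * 1) x := by
          apply HasDerivAt.sub
          · apply HasDerivAt.sub
            · exact HasDerivAt.log ((hasDerivAt_id x).const_add 1) h3
            · exact HasDerivAt.log ((hasDerivAt_id x).const_sub 1) h4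
          · exact (hasDerivAt_id x).const_mul 2
        rw [hd.deriv]
        have h5 : 1 / (1 + x) - (-1) / (1 - x) - 2 * 1 = 2 * x ^ 2 / ((1 + x) * (1 - x)) := by
          field_simp
          ring
        rw [h5]
        have h6 : 0 < (1 + x) * (1 - x) := by
          have := hx.1
          have := hx.2
          apply mul_pos <;> linarith
        positivity
    have h2 := hmono (Set.left_mem_Ico.2 one_pos) ⟨ht0, ht1⟩ ht0
    simp only [add_zero, sub_zero, mul_zero, Real.log_one] at h2
    rw [Real.log_div (by linarith) (by linarith)]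
    linarith
  -- one half
  have half : ∀ t : ℝ, 0 ≤ t → t < 1 → Real.binEntropy ((1 - t) / 2) ≤
      Real.log 2 - 2 * ((1 - t) / 2 - 1 / 2) ^ 2 := by
    intro t ht0 ht1
    have hanti : AntitoneOn (fun x : ℝ => Real.binEntropy ((1 - x) / 2) + x ^ 2 / 2)
        (Set.Ico 0 1) := by
      apply antitoneOn_of_deriv_nonpos (convex_Ico 0 1)
      · apply Continuous.continuousOn
        have := Real.binEntropy_continuous
        fun_prop
      · intro x hx
        rw [interior_Ico] at hx
        apply DifferentiableAt.differentiableWithinAt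
        have h3 : (1 - x) / 2 ≠ 0 := by
          have := hx.2
          intro h
          linarith
        have h4 : (1 - x) / 2 ≠ 1 := by
          have := hx.1
          intro h
          linarith
        have h5 := (Real.hasDerivAt_binEntropy h3 h4).comp x
          (((hasDerivAt_id x).const_sub 1).div_const 2)
        have h6 : DifferentiableAt ℝ (fun x : ℝ => x ^ 2 / 2) x := by fun_prop
        exact h5.differentiableAt.add h6
      · intro x hx
        rw [interior_Ico] at hx
        have h3 : (1 - x) / 2 ≠ 0 := by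
          have := hx.2
          intro h
          linarith
        have h4 : (1 - x) / 2 ≠ 1 := by
          have := hx.1
          intro h
          linarith
        have h5 := (Real.hasDerivAt_binEntropy h3 h4).comp x
          (((hasDerivAt_id x).const_sub 1).div_const 2)
        have h6 : HasDerivAt (fun x : ℝ => x ^ 2 / 2) x x := by
          have h := (hasDerivAt_pow 2 x).div_const 2
          have h2 : ((2 : ℕ) : ℝ) * x ^ (2 - 1) / 2 = x := by norm_num
          rwa [h2] at h
        have h7 := h5.add h6
        have h8 : deriv (fun x : ℝ => Real.binEntropy ((1 - x) / 2) + x ^ 2 / 2) x =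
            (Real.log (1 - (1 - x) / 2) - Real.log ((1 - x) / 2)) * (-1 / 2) + x := by
          exact h7.deriv
        rw [h8]
        have h9 := key x hx.1.le hx.2
        rw [Real.log_div (by linarith [hx.1]) (by linarith [hx.2])] at h9
        have h10 : Real.log (1 - (1 - x) / 2) = Real.log (1 + x) - Real.log 2 := by
          rw [← Real.log_div (by linarith [hx.1]) two_ne_zero]
          congr 1
          ring
        have h11 : Real.log ((1 - x) / 2) = Real.log (1 - x) - Real.log 2 := by
          rw [← Real.log_div (by linarith [hx.2]) two_ne_zero]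
        rw [h10, h11]
        linarith
    have h2 := hanti (Set.left_mem_Ico.2 one_pos) ⟨ht0, ht1⟩ ht0
    simp only [sub_zero] at h2
    have h3 : Real.binEntropy (1 / 2) = Real.log 2 := by
      rw [one_div]
      exact Real.binEntropy_two_inv
    rw [h3] at h2
    nlinarith [h2]
  rcases le_total p (1 / 2) with h | h
  · have h2 := half (1 - 2 * p) (by linarith) (by linarith)
    have h3 : (1 - (1 - 2 * p)) / 2 = p := by ring
    rwa [h3] at h2
  · have h2 := half (2 * p - 1) (by linarith) (by linarith)
    have h3 : (1 - (2 * p - 1)) / 2 = 1 - p := by ring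
    rw [h3, Real.binEntropy_one_sub] at h2
    nlinarith [h2]

theorem binEntropy_le_quad' {p : ℝ} (h0 : 0 ≤ p) (h1 : p ≤ 1) :
    Real.binEntropy p ≤ Real.log 2 - 2 * (p - 1 / 2) ^ 2 := by
  have hl : (1 : ℝ) / 2 ≤ Real.log 2 := by
    have := Real.log_two_gt_d9
    linarith
  rcases eq_or_lt_of_le h0 with h | h
  · rw [← h, Real.binEntropy_zero]
    linarith
  rcases eq_or_lt_of_le h1 with h' | h'
  · rw [h', Real.binEntropy_one]
    linarith
  exact binEntropy_le_quad h h'

/-- the degree of a point -/
def deg {α : Type} [DecidableEq α] (F : Finset (Finset α)) (x : α) : ℕ := (F.filter (x ∈ ·)).card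

/-- Subadditivity of the entropy for the uniform law on a family. -/
theorem log_card_le {α : Type} [Fintype α] [DecidableEq α] (F : Finset (Finset α))
    (hF : F.Nonempty) :
    Real.log F.card ≤ ∑ x, Real.binEntropy ((deg F x : ℝ) / F.card) := by
  classical
  have hN : (0 : ℝ) < F.card := by exact_mod_cast hF.card_pos
  set N : ℝ := (F.card : ℝ) with hNd
  set p : α → ℝ := fun x => (deg F x : ℝ) / N with hp
  have hdeg : ∀ x, deg F x ≤ F.card := fun x => card_le_card (filter_subset _ _)
  have hp0 : ∀ x, 0 ≤ p x := fun x => by positivity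
  have hp1 : ∀ x, p x ≤ 1 := fun x => by
    rw [hp]
    dsimp only
    rw [div_le_one hN, hNd]
    exact_mod_cast hdeg x
  set μ : Finset α → ℝ := fun A => ∏ x, if x ∈ A then p x else 1 - p x with hμ
  have hμ0 : ∀ A, 0 ≤ μ A := fun A => prod_nonneg fun x _ => by
    split_ifs
    · exact hp0 x
    · linarith [hp1 x]
  have hfac : ∀ A ∈ F, ∀ x, 0 < (if x ∈ A then p x else 1 - p x) := by
    intro A hA x
    split_ifs with h
    · have : 0 < deg F x := card_pos.2 ⟨A, mem_filter.2 ⟨hA, h⟩⟩
      have : (0 : ℝ) < deg F x := by exact_mod_cast this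
      rw [hp]
      dsimp only
      positivity
    · have : deg F x < F.card := card_lt_card (filter_ssubset.2 ⟨A, hA, h⟩)
      have h2 : (deg F x : ℝ) < N := by rw [hNd]; exact_mod_cast this
      have h3 : p x < 1 := by
        rw [hp]
        dsimp only
        rwa [div_lt_one hN]
      linarith
  have hsum : ∑ A ∈ F, μ A ≤ 1 := by
    have h1 : ∑ A : Finset α, μ A = 1 := by
      have h2 := Finset.prod_add (fun x => p x) (fun x => 1 - p x) (univ : Finset α)
      have h3 : ∏ x : α, (p x + (1 - p x)) = 1 := prod_eq_one fun x _ => by ring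
      rw [h3, powerset_univ] at h2
      rw [h2]
      refine sum_congr rfl fun A _ => ?_
      rw [hμ]
      dsimp only
      rw [prod_ite]
      congr 1
      · refine prod_congr ?_ fun _ _ => rfl
        ext x
        simp
      · refine prod_congr ?_ fun _ _ => rfl
        ext x
        simp
    rw [← h1]
    exact sum_le_sum_of_subset_of_nonneg (subset_univ F) fun A _ _ => hμ0 A
  have hμpos : ∀ A ∈ F, 0 < μ A := fun A hA => prod_pos fun x _ => hfac A hA x
  -- Gibbs
  have hG : ∑ A ∈ F, Real.log (N * μ A) ≤ 0 := by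
    calc ∑ A ∈ F, Real.log (N * μ A) ≤ ∑ A ∈ F, (N * μ A - 1) :=
          sum_le_sum fun A hA => Real.log_le_sub_one_of_pos (mul_pos hN (hμpos A hA))
      _ = N * ∑ A ∈ F, μ A - N := by
          rw [sum_sub_distrib, ← mul_sum, sum_const, nsmul_eq_mul, mul_one]
      _ ≤ 0 := by nlinarith
  have hlog : ∀ A ∈ F, Real.log (N * μ A) = Real.log N +
      ∑ x, (if x ∈ A then Real.log (p x) else Real.log (1 - p x)) := by
    intro A hA
    rw [Real.log_mul hN.ne' (hμpos A hA).ne', hμ]
    dsimp only
    rw [Real.log_prod (fun x _ => (hfac A hA x).ne')]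
    congr 1
    refine sum_congr rfl fun x _ => ?_
    split_ifs <;> rfl
  rw [sum_congr rfl hlog, sum_add_distrib, sum_const, nsmul_eq_mul, ← hNd, sum_comm] at hG
  have hx : ∀ x, ∑ A ∈ F, (if x ∈ A then Real.log (p x) else Real.log (1 - p x)) =
      -(N * Real.binEntropy (p x)) := by
    intro x
    rw [sum_ite, sum_const, sum_const, nsmul_eq_mul, nsmul_eq_mul]
    have h1 : ((F.filter (x ∈ ·)).card : ℝ) = N * p x := by
      rw [hp]
      dsimp only
      unfold deg
      field_simp
    have h2 : ((F.filter fun A => ¬ x ∈ A).card : ℝ) = N * (1 - p x) := by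
      have h3 := card_filter_add_card_filter_not (s := F) (fun A => x ∈ A)
      have h4 : ((F.filter (x ∈ ·)).card : ℝ) + ((F.filter fun A => ¬ x ∈ A).card : ℝ) = N := by
        rw [hNd]
        exact_mod_cast h3
      linarith
    rw [h1, h2, Real.binEntropy, Real.log_inv, Real.log_inv]
    ring
  rw [sum_congr rfl fun x _ => hx x, sum_neg_distrib, ← mul_sum] at hG
  have : Real.log N ≤ ∑ x, Real.binEntropy (p x) := by
    have h5 : N * Real.log N ≤ N * ∑ x, Real.binEntropy (p x) := by linarith
    exact le_of_mul_le_mul_left h5 hN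
  exact this

/-! ### sections at one point -/

section One

variable {α : Type} [DecidableEq α]

/-- members that do not contain `x`, as sets of the other points -/
def out (F : Finset (Finset α)) (x : α) : Finset (Finset {y : α // y ≠ x}) :=
  (F.filter fun A => x ∉ A).image fun A => A.subtype (· ≠ x)

/-- members that contain `x`, without `x` -/
def inn (F : Finset (Finset α)) (x : α) : Finset (Finset {y : α // y ≠ x}) :=
  (F.filter fun A => x ∈ A).image fun A => A.subtype (· ≠ x)

theorem subtype_subset_iff {x : α} {A B : Finset α} (h : x ∈ A ↔ x ∈ B) :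
    A.subtype (· ≠ x) ⊆ B.subtype (· ≠ x) ↔ A ⊆ B := by
  constructor
  · intro h2 y hy
    rcases eq_or_ne y x with rfl | hne
    · exact h.1 hy
    · have h3 : (⟨y, hne⟩ : {y : α // y ≠ x}) ∈ A.subtype (· ≠ x) := by
        rw [mem_subtype]
        exact hy
      have h4 := h2 h3
      rwa [mem_subtype] at h4
  · intro h2 y hy
    rw [mem_subtype] at hy ⊢
    exact h2 hy

theorem card_inn (F : Finset (Finset α)) (x : α) :
    (inn F x).card = (F.filter fun A => x ∈ A).card := by
  unfold inn
  apply card_image_of_injOn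
  intro A hA B hB h
  rw [mem_coe, mem_filter] at hA hB
  dsimp only at h
  exact Subset.antisymm ((subtype_subset_iff (iff_of_true hA.2 hB.2)).1 h.le)
    ((subtype_subset_iff (iff_of_true hB.2 hA.2)).1 h.ge)

theorem card_out (F : Finset (Finset α)) (x : α) :
    (out F x).card = (F.filter fun A => x ∉ A).card := by
  unfold out
  apply card_image_of_injOn
  intro A hA B hB h
  rw [mem_coe, mem_filter] at hA hB
  dsimp only at h
  exact Subset.antisymm ((subtype_subset_iff (iff_of_false hA.2 hB.2)).1 h.le)
    ((subtype_subset_iff (iff_of_false hB.2 hA.2)).1 h.ge)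

theorem antichain_inn {F : Finset (Finset α)} (hF : IsAntichain (· ⊆ ·) (F : Set (Finset α)))
    (x : α) : IsAntichain (· ⊆ ·) (inn F x : Set (Finset {y : α // y ≠ x})) := by
  intro A' hA' B' hB' hne hsub
  unfold inn at hA' hB'
  rw [mem_coe, mem_image] at hA' hB'
  obtain ⟨A, hA, rfl⟩ := hA'
  obtain ⟨B, hB, rfl⟩ := hB'
  rw [mem_filter] at hA hB
  exact hF hA.1 hB.1 (fun h => hne (by rw [h]))
    ((subtype_subset_iff (iff_of_true hA.2 hB.2)).1 hsub)

theorem antichain_out {F : Finset (Finset α)} (hF : IsAntichain (· ⊆ ·) (F : Set (Finset α)))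
    (x : α) : IsAntichain (· ⊆ ·) (out F x : Set (Finset {y : α // y ≠ x})) := by
  intro A' hA' B' hB' hne hsub
  unfold out at hA' hB'
  rw [mem_coe, mem_image] at hA' hB'
  obtain ⟨A, hA, rfl⟩ := hA'
  obtain ⟨B, hB, rfl⟩ := hB'
  rw [mem_filter] at hA hB
  exact hF hA.1 hB.1 (fun h => hne (by rw [h]))
    ((subtype_subset_iff (iff_of_false hA.2 hB.2)).1 hsub)

theorem card_symmDiff_one {x : α} {A B : Finset α} (hA : x ∈ A) (hB : x ∉ B) :
    (symmDiff (A.subtype (· ≠ x)) (B.subtype (· ≠ x))).card + 1 = (symmDiff A B).card := by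
  have h1 : symmDiff (A.subtype (· ≠ x)) (B.subtype (· ≠ x)) =
      (symmDiff A B).subtype (· ≠ x) := by
    ext y
    simp only [mem_symmDiff, mem_subtype]
  rw [h1, card_subtype]
  have h2 : (symmDiff A B).filter (· ≠ x) = (symmDiff A B).erase x := by
    ext y
    simp only [mem_filter, mem_erase]
    tauto
  rw [h2]
  exact card_erase_add_one (mem_symmDiff.2 (Or.inl ⟨hA, hB⟩))

end One

/-- **Odd diameter from the product bound.** -/
theorem odd_of_PB {n s : ℕ} (h : PB n s) (F : Finset (Finset (Fin (n + 1)))) (hF0 : F.Nonempty)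
    (hF : IsAntichain (· ⊆ ·) (F : Set (Finset (Fin (n + 1)))))
    (hd : ∀ A ∈ F, ∀ B ∈ F, (symmDiff A B).card ≤ 2 * s + 1) :
    (F.card : ℝ) ^ 2 * (1 - 2 * Real.log (2 ^ (n + 1) / F.card) / (n + 1)) ≤
      (2 * (n.choose s : ℝ)) ^ 2 := by
  classical
  have hN : (0 : ℝ) < F.card := by exact_mod_cast hF0.card_pos
  set N : ℝ := (F.card : ℝ) with hNd
  set p : Fin (n + 1) → ℝ := fun x => (deg F x : ℝ) / N with hp
  have hdeg : ∀ x, deg F x ≤ F.card := fun x => card_le_card (filter_subset _ _)
  have hp0 : ∀ x, 0 ≤ p x := fun x => by positivity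
  have hp1 : ∀ x, p x ≤ 1 := fun x => by
    rw [hp]
    dsimp only
    rw [div_le_one hN, hNd]
    exact_mod_cast hdeg x
  -- one point
  have hx : ∀ x, N ^ 2 * (4 * (p x * (1 - p x))) ≤ (2 * (n.choose s : ℝ)) ^ 2 := by
    intro x
    have h1 := h {y : Fin (n + 1) // y ≠ x} (by
      rw [Fintype.card_subtype_compl, Fintype.card_fin, Fintype.card_subtype_eq]
      rfl) (inn F x) (out F x) (antichain_inn hF x) (antichain_out hF x) (by
      intro A' hA' B' hB'
      unfold inn at hA'
      unfold out at hB'
      rw [mem_image] at hA' hB'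
      obtain ⟨A, hA, rfl⟩ := hA'
      obtain ⟨B, hB, rfl⟩ := hB'
      rw [mem_filter] at hA hB
      have h2 := card_symmDiff_one hA.2 hB.2
      have h3 := hd A hA.1 B hB.1
      omega)
    rw [card_inn, card_out] at h1
    have h2 : ((F.filter fun A => x ∈ A).card : ℝ) = N * p x := by
      rw [hp]
      dsimp only
      unfold deg
      field_simp
    have h3 : ((F.filter fun A => x ∉ A).card : ℝ) = N * (1 - p x) := by
      have h4 := card_filter_add_card_filter_not (s := F) (fun A => x ∈ A)
      have h5 : ((F.filter (x ∈ ·)).card : ℝ) + ((F.filter fun A => x ∉ A).card : ℝ) = N := by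
        rw [hNd]
        exact_mod_cast h4
      linarith
    rw [h2, h3] at h1
    nlinarith [h1]
  -- average
  have hent := log_card_le F hF0
  rw [← hNd] at hent
  have h4 : ∑ x, Real.binEntropy (p x) ≤ ∑ x, (Real.log 2 - 2 * (p x - 1 / 2) ^ 2) :=
    sum_le_sum fun x _ => binEntropy_le_quad' (hp0 x) (hp1 x)
  have h5 : ∑ x, (Real.log 2 - 2 * (p x - 1 / 2) ^ 2) =
      (n + 1) * Real.log 2 - (n + 1) / 2 + (1 / 2) * ∑ x, (4 * (p x * (1 - p x))) := by
    have h6 : ∀ x, Real.log 2 - 2 * (p x - 1 / 2) ^ 2 =
        (Real.log 2 - 1 / 2) + (1 / 2) * (4 * (p x * (1 - p x))) := fun x => by ring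
    rw [sum_congr rfl fun x _ => h6 x, sum_add_distrib, ← mul_sum, sum_const, card_univ,
      Fintype.card_fin, nsmul_eq_mul]
    push_cast
    ring
  have h7 : N ^ 2 * ∑ x, (4 * (p x * (1 - p x))) ≤ (n + 1) * (2 * (n.choose s : ℝ)) ^ 2 := by
    rw [mul_sum]
    calc ∑ x, N ^ 2 * (4 * (p x * (1 - p x))) ≤ ∑ _x : Fin (n + 1), (2 * (n.choose s : ℝ)) ^ 2 :=
          sum_le_sum fun x _ => hx x
      _ = (n + 1) * (2 * (n.choose s : ℝ)) ^ 2 := by
          rw [sum_const, card_univ, Fintype.card_fin, nsmul_eq_mul]
          push_cast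
          ring
  have h8 : Real.log (2 ^ (n + 1) / N) = (n + 1) * Real.log 2 - Real.log N := by
    rw [Real.log_div (by positivity) hN.ne', Real.log_pow]
    push_cast
    ring
  have hn : (0 : ℝ) < (n : ℝ) + 1 := by positivity
  have h9 : (n + 1) * (1 - 2 * Real.log (2 ^ (n + 1) / N) / (n + 1)) ≤
      ∑ x, (4 * (p x * (1 - p x))) := by
    rw [h8]
    have h10 : (n + 1 : ℝ) * (1 - 2 * ((n + 1) * Real.log 2 - Real.log N) / (n + 1)) =
        (n + 1) - 2 * ((n + 1) * Real.log 2 - Real.log N) := by
      field_simp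
    rw [h10]
    linarith
  have h10 : (n + 1) * (N ^ 2 * (1 - 2 * Real.log (2 ^ (n + 1) / N) / (n + 1))) ≤
      (n + 1) * (2 * (n.choose s : ℝ)) ^ 2 := by
    calc (n + 1) * (N ^ 2 * (1 - 2 * Real.log (2 ^ (n + 1) / N) / (n + 1)))
        = N ^ 2 * ((n + 1) * (1 - 2 * Real.log (2 ^ (n + 1) / N) / (n + 1))) := by ring
      _ ≤ N ^ 2 * ∑ x, (4 * (p x * (1 - p x))) :=
          mul_le_mul_of_nonneg_left h9 (by positivity)
      _ ≤ _ := h7
  exact le_of_mul_le_mul_left h10 hn

/-- The product bound follows from the bound with curvature. -/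
theorem PB_of_PP {n s : ℕ} (hs : s ≤ n) {e V : ℝ} (h : PP e n s) (he : 0 < e)
    (hcap : lv n s (n.choose (n / 2)) ≤ V) (hV : 2 * V ≤ 1 / e) : PB n s := by
  intro α _ _ hα F G hF hG hd
  rcases F.eq_empty_or_nonempty with rfl | hF0
  · simp only [card_empty, Nat.cast_zero, zero_mul]
    positivity
  rcases G.eq_empty_or_nonempty with rfl | hG0
  · simp only [card_empty, Nat.cast_zero, mul_zero]
    positivity
  by_contra hcon
  push Not at hcon
  have hCs : (0 : ℝ) < (n.choose s : ℝ) := by exact_mod_cast Nat.choose_pos hs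
  have cap : ∀ K : Finset (Finset α), K.Nonempty → IsAntichain (· ⊆ ·) (K : Set (Finset α)) →
      lv n s K.card ≤ V := by
    intro K hK0 hK
    refine le_trans ?_ hcap
    have h1 := hK.sperner
    rw [hα] at h1
    unfold lv
    refine Real.log_le_log ?_ ?_
    · have : (0 : ℝ) < (K.card : ℝ) := by exact_mod_cast hK0.card_pos
      positivity
    · refine div_le_div_of_nonneg_right ?_ hCs.le
      exact_mod_cast h1
  have hf := cap F hF0 hF
  have hg := cap G hG0 hG
  have hFp : (0 : ℝ) < F.card := by exact_mod_cast hF0.card_pos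
  have hGp : (0 : ℝ) < G.card := by exact_mod_cast hG0.card_pos
  have hpos : 0 < lv n s F.card + lv n s G.card := by
    unfold lv
    rw [← Real.log_mul (by positivity) (by positivity)]
    apply Real.log_pos
    rw [div_mul_div_comm, lt_div_iff₀ (by positivity)]
    nlinarith [hcon]
  have h1 := h.gen α hα F G hF0 hG0 hF hG hd (by
    rw [abs_le]
    constructor <;> linarith)
  unfold q at h1
  nlinarith [sq_nonneg (lv n s F.card - lv n s G.card)]

end Pool.Agent.LineQ
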