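import Pool.Agent.LineQ.StepFin

/-!
# Route (C): the product bound for all large `n`
-/

set_option autoImplicit false

namespace Pool.Agent.LineQ

open Finset

/-- **The cross product bound for all large `n`**, `k² < 100 n ln n`, `n + k` even. -/
theorem prod_large_n : ∃ N : ℕ, ∀ n k : ℕ, N ≤ n → 1 ≤ k → k ≤ n → Even (n + k) →
    (k : ℝ) ^ 2 < 100 * ((n : ℝ) * Real.log n) → ∀ F G : Finset (Finset (Fin n)),
      IsAntichain (· ⊆ ·) (F : Set (Finset (Fin n))) →
      IsAntichain (· ⊆ ·) (G : Set (Finset (Fin n))) →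
      (∀ A ∈ F, ∀ B ∈ G, (symmDiff A B).card ≤ n - k) →
        F.card * G.card ≤ (n.choose ((n + k) / 2)) ^ 2 := by
  obtain ⟨k0, h⟩ := prod_all
  refine ⟨k0 ^ 2, ?_⟩
  intro n k hN hk1 hkn he hlt F G hF hG hd
  obtain ⟨c, hc⟩ := he
  obtain ⟨s, hs⟩ : ∃ s, n = 2 * s + k := ⟨n - c, by omega⟩
  have e1 : (n + k) / 2 = n - s := by omega
  rcases le_or_gt k0 k with h1 | h1
  · rw [e1, Nat.choose_symm (by omega)]
    exact h n s k h1 hs hlt F G hF hG fun A hA B hB => (hd A hA B hB).trans (by omega)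
  · have h2 : k ^ 2 ≤ n + 3 := by
      have : k ^ 2 ≤ k0 ^ 2 := Nat.pow_le_pow_left h1.le 2
      omega
    have h3 := (OddTwo.ChainPairs.result n k hk1 hkn h2).2.2.1 F G hF hG hd
    have e2 : (n + k + 1) / 2 = (n + k) / 2 := by omega
    rw [e2] at h3
    nlinarith [sq_nonneg ((F.card : ℤ) - G.card), sq_nonneg (F.card + G.card)]

end Pool.Agent.LineQ
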