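import Pool.Agent.LineQ.StepFin
import Pool.Agent.LineQ.Odd
import Pool.Agent.LineQ.BinGauss

/-!
# Odd parity: the bound up to the factor `1 + (k + 1000 ln n) / n`
-/

set_option autoImplicit false

namespace Pool.Agent.LineQ

open Finset

/-- Transport of the product bound. -/
theorem PB_of_fin {n s : ℕ} (h : ∀ F G : Finset (Finset (Fin n)),
      IsAntichain (· ⊆ ·) (F : Set (Finset (Fin n))) →
      IsAntichain (· ⊆ ·) (G : Set (Finset (Fin n))) →
      (∀ A ∈ F, ∀ B ∈ G, (symmDiff A B).card ≤ 2 * s) → F.card * G.card ≤ (n.choose s) ^ 2) :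
    PB n s := by
  intro α _ _ hα F G hF hG hd
  classical
  let φ : α ≃ Fin n := Fintype.equivFinOfCardEq hα
  let T : Finset (Finset α) → Finset (Finset (Fin n)) :=
    fun H => H.image fun A => A.map φ.toEmbedding
  have hcard : ∀ H : Finset (Finset α), (T H).card = H.card := by
    intro H
    refine card_image_of_injective _ ?_
    exact map_injective _
  have hanti : ∀ H : Finset (Finset α), IsAntichain (· ⊆ ·) (H : Set (Finset α)) →
      IsAntichain (· ⊆ ·) (T H : Set (Finset (Fin n))) := by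
    intro H hH A' hA' B' hB' hne hsub
    rw [mem_coe, mem_image] at hA' hB'
    obtain ⟨A, hA, rfl⟩ := hA'
    obtain ⟨B, hB, rfl⟩ := hB'
    exact hH hA hB (fun h => hne (by rw [h])) (map_subset_map.1 hsub)
  have h1 := h (T F) (T G) (hanti F hF) (hanti G hG) (by
    intro A' hA' B' hB'
    rw [mem_image] at hA' hB'
    obtain ⟨A, hA, rfl⟩ := hA'
    obtain ⟨B, hB, rfl⟩ := hB'
    have h2 : symmDiff (A.map φ.toEmbedding) (B.map φ.toEmbedding) =
        (symmDiff A B).map φ.toEmbedding := by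
      ext z
      simp only [mem_symmDiff, mem_map_equiv]
    rw [h2, card_map]
    exact hd A hA B hB)
  rw [hcard, hcard] at h1
  exact_mod_cast h1

/-- `2^n / C(n,s)` for `n = 2 s + k`. -/
theorem log_two_pow_div_le {n s k : ℕ} (hn : n = 2 * s + k) (hk : 1 ≤ k) (h2 : 2 * k ≤ n) :
    Real.log (2 ^ n / (n.choose s : ℝ)) ≤ Real.log (n + 1) + (k : ℝ) ^ 2 / n := by
  have hC : (0 : ℝ) < (n.choose s : ℝ) := by exact_mod_cast Nat.choose_pos (by omega)
  have hM : (0 : ℝ) < (n.choose (n / 2) : ℝ) := by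
    exact_mod_cast Nat.choose_pos (Nat.div_le_self n 2)
  have hanti : IsAntichain (· ⊆ ·) ((powersetCard (n / 2) (univ : Finset (Fin n)) :
      Finset (Finset (Fin n))) : Set (Finset (Fin n))) := by
    have := (Set.sized_powersetCard (univ : Finset (Fin n)) (n / 2)).isAntichain
    exact this
  have h3 := lv_le hn hk h2 hanti
  rw [card_powersetCard, card_univ, Fintype.card_fin] at h3
  unfold lv at h3
  have h4 : (2 : ℝ) ^ n ≤ ((n : ℝ) + 1) * (n.choose (n / 2) : ℝ) := by
    have := choose_mid n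
    exact_mod_cast this
  calc Real.log (2 ^ n / (n.choose s : ℝ))
      ≤ Real.log (((n : ℝ) + 1) * ((n.choose (n / 2) : ℝ) / (n.choose s : ℝ))) := by
        refine Real.log_le_log (by positivity) ?_
        rw [← mul_div_assoc]
        exact div_le_div_of_nonneg_right h4 hC.le
    _ = Real.log (n + 1) + Real.log ((n.choose (n / 2) : ℝ) / (n.choose s : ℝ)) :=
        Real.log_mul (by positivity) (by positivity)
    _ ≤ _ := by linarith

/-- The numerical end of the argument. -/
theorem sqrt_end {N B y : ℝ} (hB : 0 ≤ B) (hy0 : 0 ≤ y) (hy : y ≤ 1 / 2)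
    (h : N ^ 2 * (1 - y) ≤ B ^ 2) : N ≤ B * (1 + y) := by
  have h1 : N ^ 2 ≤ (B * (1 + y)) ^ 2 := by
    have h2 : 1 ≤ (1 - y) * (1 + y) ^ 2 := by nlinarith [mul_nonneg hy0 (sub_nonneg.2 hy)]
    calc N ^ 2 = N ^ 2 * 1 := (mul_one _).symm
      _ ≤ N ^ 2 * ((1 - y) * (1 + y) ^ 2) := mul_le_mul_of_nonneg_left h2 (sq_nonneg N)
      _ = (N ^ 2 * (1 - y)) * (1 + y) ^ 2 := by ring
      _ ≤ B ^ 2 * (1 + y) ^ 2 := mul_le_mul_of_nonneg_right h (sq_nonneg _)
      _ = (B * (1 + y)) ^ 2 := by ring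
  exact le_of_sq_le_sq h1 (by positivity)

/-- **Odd parity with a rate.** -/
theorem odd_rate : ∃ N : ℕ, ∀ n k : ℕ, N ≤ n → 1 ≤ k → k ≤ n → Odd (n + k) →
    (k : ℝ) ^ 2 ≤ 99 * ((n : ℝ) * Real.log n) →
    ∀ F : Finset (Finset (Fin n)), IsAntichain (· ⊆ ·) (F : Set (Finset (Fin n))) →
      (∀ A ∈ F, ∀ B ∈ F, (symmDiff A B).card ≤ n - k) →
      (n : ℝ) * F.card ≤ (n + k + 1000 * Real.log n) * (n.choose ((n + k + 1) / 2) : ℝ) := by
  obtain ⟨k0, hprod⟩ := prod_all
  refine ⟨max (k0 ^ 2) 100000000, ?_⟩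
  intro n k hN hk1 hkn hodd hk F hF hd
  have hN1 : k0 ^ 2 ≤ n := (le_max_left _ _).trans hN
  have hN2 : 100000000 ≤ n := (le_max_right _ _).trans hN
  have hnr : (100000000 : ℝ) ≤ n := by exact_mod_cast hN2
  have hn0 : (0 : ℝ) < n := by linarith
  set L : ℝ := Real.log n with hL
  have hL1 : 1 ≤ L := by
    rw [hL, Real.le_log_iff_exp_le hn0]
    have := Real.exp_one_lt_d9
    linarith
  have hLn : 5000 * L ≤ n := by
    have h1 : (10000 : ℝ) ≤ Real.sqrt n := by
      apply Real.le_sqrt_of_sq_le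
      linarith
    have h2 : Real.sqrt n ^ 2 = n := Real.sq_sqrt hn0.le
    have h3 : L = 2 * Real.log (Real.sqrt n) := by
      rw [hL, Real.log_sqrt hn0.le]
      ring
    have h4 := Real.log_le_sub_one_of_pos (show 0 < Real.sqrt n by linarith)
    nlinarith
  have hk0 : (0 : ℝ) < k := by exact_mod_cast hk1
  have hk7 : 7 * (k : ℝ) ≤ n := by
    by_contra hcon
    push Not at hcon
    nlinarith
  have hk7' : 7 * k ≤ n := by exact_mod_cast hk7
  clear hN hN2
  obtain ⟨c, hc⟩ := hodd
  obtain ⟨s, hs⟩ : ∃ s, n = 2 * s + 1 + k := ⟨n - c - 1, by omega⟩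
  set t := (n + k + 1) / 2 with ht
  have ht2 : 2 * t = n + k + 1 := by omega
  have htn : t ≤ n := by omega
  have hCt : (0 : ℝ) < (n.choose t : ℝ) := by exact_mod_cast Nat.choose_pos htn
  rcases Nat.lt_or_ge (n + 3) (k ^ 2) with h1 | h1
  · -- the product bound on `n - 1` points
    obtain ⟨m, rfl⟩ : ∃ m, n = m + 1 := ⟨n - 1, by omega⟩
    have hms : m = 2 * s + k := by omega
    have hkk : k0 ≤ k := by
      by_contra hcon
      push Not at hcon
      have : k ^ 2 ≤ k0 ^ 2 := Nat.pow_le_pow_left hcon.le 2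
      omega
    have hm0 : (0 : ℝ) < m := by
      have : 0 < m := by omega
      exact_mod_cast this
    have hcast : ((m + 1 : ℕ) : ℝ) = (m : ℝ) + 1 := by push_cast; ring
    have hwin : (k : ℝ) ^ 2 < 100 * ((m : ℝ) * Real.log m) := by
      have h2 : L - 1 / m ≤ Real.log m := by
        have h3 : L = Real.log m + Real.log (1 + 1 / m) := by
          rw [hL, ← Real.log_mul hm0.ne' (by positivity)]
          congr 1
          rw [hcast]
          field_simp
        have h4 := Real.log_le_sub_one_of_pos (show (0 : ℝ) < 1 + 1 / m by positivity)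
        linarith
      have h3 : (m : ℝ) * L - 1 ≤ m * Real.log m := by
        have := mul_le_mul_of_nonneg_left h2 hm0.le
        have h4 : (m : ℝ) * (L - 1 / m) = m * L - 1 := by
          field_simp
        linarith
      rw [hcast] at hk hnr
      nlinarith
    have hPB : PB m s := PB_of_fin fun F G hF hG h => hprod m s k hkk hms hwin F G hF hG h
    rcases F.eq_empty_or_nonempty with rfl | hF0
    · rw [card_empty, Nat.cast_zero, mul_zero]
      positivity
    have hFp : (0 : ℝ) < F.card := by exact_mod_cast hF0.card_pos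
    have hst : (m + 1).choose s = (m + 1).choose t := by
      have : s = m + 1 - t := by omega
      rw [this]
      exact Nat.choose_symm htn
    rcases le_or_gt (F.card : ℝ) ((m + 1).choose t : ℝ) with h5 | h5
    · have h6 : ((m + 1 : ℕ) : ℝ) * F.card ≤ ((m + 1 : ℕ) : ℝ) * ((m + 1).choose t : ℝ) :=
        mul_le_mul_of_nonneg_left h5 hn0.le
      refine h6.trans (mul_le_mul_of_nonneg_right ?_ hCt.le)
      linarith
    -- the main case
    have h7 := odd_of_PB hPB F hF0 hF fun A hA B hB => (hd A hA B hB).trans (by omega)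
    have h8 : Real.log (2 ^ (m + 1) / F.card) ≤ 200 * L := by
      have h9 : Real.log (2 ^ (m + 1) / F.card) ≤
          Real.log (2 ^ (m + 1) / ((m + 1).choose s : ℝ)) := by
        rw [hst]
        refine Real.log_le_log (by positivity) ?_
        exact div_le_div_of_nonneg_left (by positivity) hCt h5.le
      have h10 := log_two_pow_div_le (n := m + 1) (s := s) (k := k + 1) (by omega) (by omega)
        (by omega)
      have h11 : Real.log (((m + 1 : ℕ) : ℝ) + 1) ≤ L + 1 := by
        have h12 : Real.log (((m + 1 : ℕ) : ℝ) + 1) ≤ Real.log (((m + 1 : ℕ) : ℝ) * Real.exp 1) := by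
          refine Real.log_le_log (by positivity) ?_
          have := Real.exp_one_gt_d9
          nlinarith
        rw [Real.log_mul hn0.ne' (Real.exp_pos 1).ne', Real.log_exp] at h12
        exact h12
      have h13 : ((k + 1 : ℕ) : ℝ) ^ 2 / ((m + 1 : ℕ) : ℝ) ≤ 198 * L + 1 := by
        rw [div_le_iff₀ hn0]
        have : ((k + 1 : ℕ) : ℝ) ^ 2 ≤ 2 * (k : ℝ) ^ 2 + 2 := by
          push_cast
          nlinarith [sq_nonneg ((k : ℝ) - 1)]
        nlinarith
      have h14 : (1 : ℝ) + 1 ≤ L := by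
        rw [hL, Real.le_log_iff_exp_le hn0]
        have e1 : Real.exp (1 + 1) = Real.exp 1 * Real.exp 1 := Real.exp_add 1 1
        rw [e1]
        have e2 := Real.exp_one_lt_d9
        have e3 := Real.exp_pos 1
        nlinarith
      linarith
    set y : ℝ := 400 * L / ((m + 1 : ℕ) : ℝ) with hy
    have hy0 : 0 ≤ y := by positivity
    have hy2 : y ≤ 1 / 2 := by
      rw [hy, div_le_iff₀ hn0]
      linarith
    have h15 : (F.card : ℝ) ^ 2 * (1 - y) ≤ (2 * (m.choose s : ℝ)) ^ 2 := by
      refine le_trans (mul_le_mul_of_nonneg_left ?_ (sq_nonneg _)) h7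
      have h16 : 2 * Real.log (2 ^ (m + 1) / F.card) / ((m : ℝ) + 1) ≤ y := by
        rw [hy, hcast]
        refine div_le_div_of_nonneg_right ?_ (by positivity)
        linarith
      linarith
    have h17 := sqrt_end (by positivity) hy0 hy2 h15
    have h18 : (m.choose s : ℝ) * ((m : ℝ) + 1) = ((m + 1).choose t : ℝ) * ((m : ℝ) + 1 - s) := by
      have e1 := Nat.choose_mul_succ_eq m s
      rw [hst] at e1
      have e2 : ((m.choose s * (m + 1) : ℕ) : ℝ) = (((m + 1).choose t * (m + 1 - s) : ℕ) : ℝ) := by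
        exact_mod_cast e1
      push_cast [Nat.cast_sub (show s ≤ m + 1 by omega)] at e2
      exact e2
    have hsr : (m : ℝ) + 1 - s = ((m : ℝ) + 1 + k + 1) / 2 := by
      have : (m : ℝ) = 2 * s + k := by exact_mod_cast hms
      linarith
    rw [hsr] at h18
    have h19 : ((m + 1 : ℕ) : ℝ) * (2 * (m.choose s : ℝ) * (1 + y)) =
        ((m + 1).choose t : ℝ) * (((m : ℝ) + 1 + k + 1) * (1 + y)) := by
      rw [hcast]
      linear_combination (2 * (1 + y)) * h18
    have h20 : ((m : ℝ) + 1 + k + 1) * (1 + y) ≤ (m : ℝ) + 1 + k + 1000 * L := by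
      have h21 : y * ((m + 1 : ℕ) : ℝ) = 400 * L := by
        rw [hy]
        field_simp
      rw [hcast] at h21 hk7 hnr
      have h22 : ((m : ℝ) + 1 + k + 1) * y ≤ 800 * L := by
        have h23 : (m : ℝ) + 1 + k + 1 ≤ 2 * ((m : ℝ) + 1) := by linarith
        nlinarith [mul_le_mul_of_nonneg_right h23 hy0]
      nlinarith
    calc ((m + 1 : ℕ) : ℝ) * F.card ≤ ((m + 1 : ℕ) : ℝ) * (2 * (m.choose s : ℝ) * (1 + y)) :=
          mul_le_mul_of_nonneg_left h17 hn0.le
      _ = ((m + 1).choose t : ℝ) * (((m : ℝ) + 1 + k + 1) * (1 + y)) := h19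
      _ ≤ ((m + 1).choose t : ℝ) * ((m : ℝ) + 1 + k + 1000 * L) :=
          mul_le_mul_of_nonneg_left h20 hCt.le
      _ = _ := by
          rw [hcast]
          ring
  · -- chain pairs
    have h2 := (OddTwo.ChainPairs.result n k hk1 hkn h1).2.1 F hF hd
    have e1 : (n + k) / 2 = t - 1 := by omega
    rw [← ht, e1] at h2
    have h3 := Nat.choose_succ_right_eq n (t - 1)
    have e2 : t - 1 + 1 = t := by omega
    rw [e2] at h3
    have h4 : (n.choose t : ℝ) * t = (n.choose (t - 1) : ℝ) * ((n : ℝ) - t + 1) := by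
      have e3 : ((n.choose t * t : ℕ) : ℝ) = ((n.choose (t - 1) * (n - (t - 1)) : ℕ) : ℝ) := by
        exact_mod_cast h3
      have e4 : n - (t - 1) = n - t + 1 := by omega
      rw [e4] at e3
      push_cast [Nat.cast_sub htn] at e3
      exact e3
    have htr : (t : ℝ) = ((n : ℝ) + k + 1) / 2 := by
      have : (2 : ℝ) * t = n + k + 1 := by exact_mod_cast ht2
      linarith
    have h5 : (2 : ℝ) * F.card ≤ n.choose t + n.choose (t - 1) := by exact_mod_cast h2
    have hp : (0 : ℝ) < (n : ℝ) - k + 1 := by linarith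
    have h6 : (F.card : ℝ) * ((n : ℝ) - k + 1) ≤ ((n : ℝ) + 1) * n.choose t := by
      rw [htr] at h4
      nlinarith
    have h7 : (n : ℝ) * (n + 1) ≤ (n + k + 1000 * L) * ((n : ℝ) - k + 1) := by
      have h8 : (k : ℝ) ^ 2 ≤ n + 3 := by exact_mod_cast h1
      have h9 : (0 : ℝ) ≤ (L - 1) * ((n : ℝ) - k + 1) :=
        mul_nonneg (by linarith) hp.le
      nlinarith
    have h8 : ((n : ℝ) * F.card) * ((n : ℝ) - k + 1) ≤
        ((n + k + 1000 * L) * (n.choose t : ℝ)) * ((n : ℝ) - k + 1) := by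
      calc ((n : ℝ) * F.card) * ((n : ℝ) - k + 1)
          = n * ((F.card : ℝ) * ((n : ℝ) - k + 1)) := by ring
        _ ≤ n * (((n : ℝ) + 1) * n.choose t) := mul_le_mul_of_nonneg_left h6 hn0.le
        _ = (n * (n + 1)) * n.choose t := by ring
        _ ≤ ((n + k + 1000 * L) * ((n : ℝ) - k + 1)) * n.choose t :=
            mul_le_mul_of_nonneg_right h7 hCt.le
        _ = _ := by ring
    exact le_of_mul_le_mul_right h8 hp

end Pool.Agent.LineQ
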