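import Pool.Agent.LineQ.Defs

/-!
# Route (C), comparison of the potentials at `n` and `n - 2` (P3)

`Uf L f = f + ln (1 + f / L)`. If `q e f g > 0` then `q e (Uf L f) (Uf L g) > 0`, for `e ≥ 4 / L`,
`|f|, |g| ≤ L / 20` and `e (f - g)^2 ≤ 1 / 10`. With `a = f / L`, `b = g / L`, `S = f + g`,
`T = f - g`: `ln (1 + a) ≥ a - (20/19) a^2`, `T (ln (1 + a) - ln (1 + b)) ≥ (20/21) T^2 / L`, so the
potential grows by at least `S / L - (10/19) (S^2 + T^2) / L^2 + (10/21) e T^2 / L ≥ 0`.
-/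

set_option autoImplicit false

namespace Pool.Agent.LineQ

theorem log_sub_ge {a b : ℝ} (ha : |a| ≤ 1 / 20) (hb : |b| ≤ 1 / 20) (hab : b ≤ a) :
    20 / 21 * (a - b) ≤ Real.log (1 + a) - Real.log (1 + b) := by
  have h1 := abs_le.1 ha
  have h2 := abs_le.1 hb
  have pa : 0 < 1 + a := by linarith [h1.1]
  have pb : 0 < 1 + b := by linarith [h2.1]
  have h3 := Real.log_le_sub_one_of_pos (div_pos pb pa)
  rw [Real.log_div pb.ne' pa.ne'] at h3
  have h4 : (1 + b) / (1 + a) - 1 = -((a - b) / (1 + a)) := by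
    field_simp
    ring
  have h5 : 20 / 21 * (a - b) ≤ (a - b) / (1 + a) := by
    rw [le_div_iff₀ pa]
    nlinarith [h1.2]
  linarith

theorem log_sub_le {a b : ℝ} (ha : |a| ≤ 1 / 20) (hb : |b| ≤ 1 / 20) (hab : b ≤ a) :
    Real.log (1 + a) - Real.log (1 + b) ≤ 20 / 19 * (a - b) := by
  have h1 := abs_le.1 ha
  have h2 := abs_le.1 hb
  have pa : 0 < 1 + a := by linarith [h1.1]
  have pb : 0 < 1 + b := by linarith [h2.1]
  have h3 := Real.log_le_sub_one_of_pos (div_pos pa pb)
  rw [Real.log_div pa.ne' pb.ne'] at h3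
  have h4 : (1 + a) / (1 + b) - 1 = (a - b) / (1 + b) := by
    field_simp
    ring
  have h5 : (a - b) / (1 + b) ≤ 20 / 19 * (a - b) := by
    rw [div_le_iff₀ pb]
    nlinarith [h2.1]
  linarith

theorem log_one_add_ge {a : ℝ} (ha : |a| ≤ 1 / 20) : a - 20 / 19 * a ^ 2 ≤ Real.log (1 + a) := by
  have h1 := abs_le.1 ha
  have pa : 0 < 1 + a := by linarith [h1.1]
  have h3 := Real.one_sub_inv_le_log_of_pos pa
  have h4 : a - 20 / 19 * a ^ 2 ≤ 1 - (1 + a)⁻¹ := by
    have h5 : 1 - (1 + a)⁻¹ = a / (1 + a) := by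
      field_simp
      ring
    rw [h5, le_div_iff₀ pa]
    nlinarith [sq_nonneg a, h1.1]
  linarith

variable {L f g e : ℝ}

theorem abs_div_le (hL : 2 ≤ L) (hf : |f| ≤ L / 20) : |f / L| ≤ 1 / 20 := by
  rw [abs_div, abs_of_pos (by linarith : (0 : ℝ) < L), div_le_iff₀ (by linarith)]
  linarith

theorem abs_Uf_sub_le (hL : 2 ≤ L) (hf : |f| ≤ L / 20) (hg : |g| ≤ L / 20) :
    |Uf L f - Uf L g| ≤ 2 * |f - g| := by
  have pL : 0 < L := by linarith
  have ha := abs_div_le hL hf
  have hb := abs_div_le hL hg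
  have hi : ∀ f g : ℝ, |f / L| ≤ 1 / 20 → |g / L| ≤ 1 / 20 → g ≤ f →
      |Uf L f - Uf L g| ≤ 2 * |f - g| := by
    intro f g ha hb hgf
    have hab : g / L ≤ f / L := div_le_div_of_nonneg_right hgf pL.le
    have h1 := log_sub_ge ha hb hab
    have h2 := log_sub_le ha hb hab
    have h3 : f / L - g / L = (f - g) / L := by ring
    have h4 : (f - g) / L ≤ (f - g) / 2 := div_le_div_of_nonneg_left (by linarith) (by norm_num) hL
    have h5 : 0 ≤ f / L - g / L := by linarith
    unfold Uf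
    rw [abs_of_nonneg (by linarith : 0 ≤ f - g), abs_of_nonneg (by linarith)]
    linarith
  rcases le_total g f with h | h
  · exact hi f g ha hb h
  · rw [abs_sub_comm (Uf L f), abs_sub_comm f]
    exact hi g f hb ha h

theorem abs_Uf_le (hL : 2 ≤ L) (hf : |f| ≤ L / 20) : |Uf L f| ≤ 2 * |f| := by
  have h0 : |(0 : ℝ)| ≤ L / 20 := by
    rw [abs_zero]
    linarith
  have h1 := abs_Uf_sub_le hL hf h0
  have h2 : Uf L 0 = 0 := by
    unfold Uf
    rw [zero_div, add_zero, Real.log_one, add_zero]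
  rwa [h2, sub_zero, sub_zero] at h1

theorem q_Uf_pos (hL : 2 ≤ L) (hf : |f| ≤ L / 20) (hg : |g| ≤ L / 20) (he : 4 / L ≤ e)
    (hT : e * (f - g) ^ 2 ≤ 1 / 10) (hq : 0 < q e f g) : 0 < q e (Uf L f) (Uf L g) := by
  have pL : 0 < L := by linarith
  have pe : 0 < e := lt_of_lt_of_le (by positivity) he
  have ha := abs_div_le hL hf
  have hb := abs_div_le hL hg
  set a := f / L with had
  set b := g / L with hbd
  have hfa : f = L * a := by
    rw [had]
    field_simp
  have hgb : g = L * b := by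
    rw [hbd]
    field_simp
  set D := Real.log (1 + a) - Real.log (1 + b) with hD
  have h1 := log_one_add_ge ha
  have h2 := log_one_add_ge hb
  -- the difference grows
  have h3 : 20 / 21 * (L * (a - b) ^ 2) ≤ (f - g) * D := by
    have e1 : f - g = L * (a - b) := by
      rw [hfa, hgb]
      ring
    rcases le_total b a with h | h
    · have h4 := log_sub_ge ha hb h
      have h5 : 0 ≤ L * (a - b) := mul_nonneg pL.le (by linarith)
      rw [e1]
      nlinarith [mul_le_mul_of_nonneg_left h4 h5]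
    · have h4 := log_sub_ge hb ha h
      have h5 : 0 ≤ L * (b - a) := mul_nonneg pL.le (by linarith)
      rw [e1]
      nlinarith [mul_le_mul_of_nonneg_left h4 h5]
  have hU : q e (Uf L f) (Uf L g) = q e f g + (Real.log (1 + a) + Real.log (1 + b)) +
      e / 4 * (2 * ((f - g) * D) + D ^ 2) := by
    unfold q Uf
    rw [← had, ← hbd, hD]
    ring
  have h6 : e / 4 * (2 * (20 / 21 * (L * (a - b) ^ 2))) ≤ e / 4 * (2 * ((f - g) * D) + D ^ 2) := by
    refine mul_le_mul_of_nonneg_left ?_ (by linarith)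
    nlinarith [sq_nonneg D]
  -- in terms of `a` and `b`
  have heL : 4 ≤ e * L := by
    rw [div_le_iff₀ pL] at he
    exact he
  have hT' : (e * L) * (L * (a - b) ^ 2) ≤ 1 / 10 := by
    have e1 : f - g = L * (a - b) := by
      rw [hfa, hgb]
      ring
    rw [e1] at hT
    nlinarith
  have hq' : 0 < (a + b) + e * L / 4 * (a - b) ^ 2 := by
    unfold q at hq
    have e1 : f + g + e / 4 * (f - g) ^ 2 = L * ((a + b) + e * L / 4 * (a - b) ^ 2) := by
      rw [hfa, hgb]
      ring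
    rw [e1] at hq
    exact (mul_pos_iff_of_pos_left pL).1 hq
  have hab : a + b ≤ 1 / 10 := by
    have h7 := (abs_le.1 ha).2
    have h8 := (abs_le.1 hb).2
    linarith
  have hsq : 20 / 19 * a ^ 2 + 20 / 19 * b ^ 2 = 10 / 19 * ((a + b) ^ 2 + (a - b) ^ 2) := by ring
  have hk : 0 ≤ (a + b) - 10 / 19 * ((a + b) ^ 2 + (a - b) ^ 2) +
      10 / 21 * (e * L) * (a - b) ^ 2 := by
    set E := e * L with hE
    set t := (a - b) ^ 2 with ht
    have t0 : 0 ≤ t := sq_nonneg _
    have hEt : E * t ≤ 1 / 20 := by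
      have h9 : E * (2 * t) ≤ E * (L * t) :=
        mul_le_mul_of_nonneg_left (mul_le_mul_of_nonneg_right hL t0) (by linarith)
      linarith
    have h4t : 4 * t ≤ E * t := mul_le_mul_of_nonneg_right heL t0
    rcases le_total 0 (a + b) with h | h
    · nlinarith [mul_nonneg h (by linarith : 0 ≤ 1 / 10 - (a + b))]
    · have h10 : -(E * t / 4) ≤ a + b := by
        have : E / 4 * t = E * t / 4 := by ring
        linarith
      have h11 : (a + b) ^ 2 ≤ (E * t / 4) ^ 2 := by
        rw [sq_le_sq, abs_of_nonpos h, abs_of_nonneg (by nlinarith)]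
        linarith
      have h12 : (E * t / 4) ^ 2 ≤ E * t / 320 := by nlinarith
      linarith
  rw [hU]
  have h13 : e / 4 * (2 * (20 / 21 * (L * (a - b) ^ 2))) = 10 / 21 * (e * L) * (a - b) ^ 2 := by
    ring
  rw [h13] at h6
  linarith

end Pool.Agent.LineQ
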