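import Pool.Agent.LineQ.Step
import Pool.Agent.LineQ.Final
import Pool.Agent.LineQ.Ref
import Pool.Agent.Hyb.Conv

/-!
# Route (C), the parameters (P4): the step statement `StepSt` from its three inputs

`VEnSt` (entropy inequality for one antichain), `T2St` (pointwise inequality in two real variables),
`RefSt` (comparison of the potentials at `n` and `n - 2`) are the inputs; the Sperner caps come from
`Hyb.cap`. With `u = k ^ (1/8)` everything is a power of `u`: `k = u^8`, the curvature is `1 / u^2`, the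
levels are at most `k^2 / n ≤ u / 19`, and `n ≥ 19 u^15`.
-/

set_option autoImplicit false

namespace Pool.Agent.LineQ

open Finset

/-- The entropy inequality for one antichain. -/
def VEnSt : Prop := ∃ n0 : ℕ, ∀ n s k : ℕ, n0 ≤ n → n = 2 * s + k → 1 ≤ s → 1 ≤ k →
  (k : ℝ) ^ 2 ≤ 101 * ((n : ℝ) * Real.log n) →
  ∀ F : Finset (Finset (Fin n)), F.Nonempty → IsAntichain (· ⊆ ·) (F : Set (Finset (Fin n))) →
    |lv n s F.card| ≤ 200 * Real.log n →
    ∃ F' : Finset (Finset (Fin n)), F' ⊆ F ∧ 0 ≤ ∑ p ∈ (univ : Finset (Fin n)).offDiag,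
      HK (Kn n) ((cnt F' p.1 p.2 : ℝ) /
        (((n - 2).choose (s - 1) : ℝ) * Real.exp (Uf (Lam n s) (lv n s F.card))))

/-- The pointwise inequality in two real variables. -/
def T2St : Prop := ∀ e K d y x : ℝ, 0 < e → e ≤ 1 / 20 → 1 ≤ K → K ≤ 1 + e / 16 → d ^ 2 ≤ e / 16 →
  0 ≤ y → 0 ≤ x → (y ≤ Real.exp (-1) ∨ x ≤ Real.exp (-1) ∨
    (1 + d) * Real.log y + (1 - d) * Real.log x + e / 4 * (Real.log y - Real.log x) ^ 2 < 0) →
  (1 + d) * HK K y + (1 - d) * HK K x < 0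

/-- The comparison of the potentials at `n` and `n - 2`. -/
def RefSt : Prop := ∀ e L f g : ℝ, 2 ≤ L → |f| ≤ L / 20 → |g| ≤ L / 20 → 4 / L ≤ e →
  e * (f - g) ^ 2 ≤ 1 / 10 → 0 < q e f g →
  0 < q e (Uf L f) (Uf L g) ∧ |Uf L f| ≤ 2 * |f| ∧ |Uf L g| ≤ 2 * |g| ∧
    |Uf L f - Uf L g| ≤ 2 * |f - g|

/-- The logarithm against the eighth root. -/
theorem exists_log_le : ∃ k1 : ℕ, ∀ k : ℕ, k1 ≤ k →
    Real.log k ≤ (k : ℝ) ^ ((1 : ℝ) / 8) / 4000 := by
  have h1 := (isLittleO_log_rpow_atTop (show (0 : ℝ) < 1 / 8 by norm_num)).def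
    (show (0 : ℝ) < 1 / 4000 by norm_num)
  have h2 := tendsto_natCast_atTop_atTop (R := ℝ) |>.eventually h1
  obtain ⟨k1, hk1⟩ := Filter.eventually_atTop.1 h2
  refine ⟨k1, fun k hk => ?_⟩
  have h3 := hk1 k hk
  have h4 : (0 : ℝ) ≤ (k : ℝ) ^ ((1 : ℝ) / 8) := by positivity
  rw [Real.norm_eq_abs, Real.norm_eq_abs, abs_of_nonneg h4] at h3
  have h5 := le_abs_self (Real.log k)
  linarith

/-- The Sperner caps. -/
theorem cap_lv {n s k : ℕ} {W : ℝ} (hn : n = 2 * s + k) (hk : 1 ≤ k)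
    (h : Hyb.La n k * (k : ℝ) ^ 2 / 4 ≤ W) : lv n s (n.choose (n / 2)) ≤ W := by
  have h1 := Hyb.cap hn hk (Nat.div_le_self n 2)
  have hC : (0 : ℝ) < (n.choose s : ℝ) := by exact_mod_cast Nat.choose_pos (by omega)
  have hM : (0 : ℝ) < (n.choose (n / 2) : ℝ) := by exact_mod_cast Nat.choose_pos (by omega)
  refine le_trans ?_ h
  unfold lv
  rw [Real.log_le_iff_le_exp (by positivity), div_le_iff₀ hC]
  linarith

theorem refSt : RefSt := fun _ _ _ _ hL hf hg he hT hq =>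
  ⟨q_Uf_pos hL hf hg he hT hq, abs_Uf_le hL hf, abs_Uf_le hL hg, abs_Uf_sub_le hL hf hg⟩

/-- **The step statement** from the inputs. -/
theorem stepSt (hVE : VEnSt) (hT2 : T2St) : StepSt := by
  have hRef := refSt
  obtain ⟨n0, hVE⟩ := hVE
  obtain ⟨k1, hk1⟩ := exists_log_le
  refine ⟨max (max k1 n0) (2 ^ 40), ?_⟩
  intro n s k hk hn hs hnk hlog hPP
  have hkk1 : k1 ≤ k := le_trans (le_trans (le_max_left _ _) (le_max_left _ _)) hk
  have hkn0 : n0 ≤ k := le_trans (le_trans (le_max_right _ _) (le_max_left _ _)) hk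
  have hk40 : 2 ^ 40 ≤ k := le_trans (le_max_right _ _) hk
  have hkr : (2 : ℝ) ^ 40 ≤ k := by exact_mod_cast hk40
  have hk0 : (0 : ℝ) < k := lt_of_lt_of_le (by positivity) hkr
  have hkn : k ≤ n := by omega
  have hknr : (k : ℝ) ≤ n := by exact_mod_cast hkn
  have hn0 : (0 : ℝ) < n := by linarith
  set u : ℝ := (k : ℝ) ^ ((1 : ℝ) / 8) with hu
  have hu0 : 0 < u := by positivity
  have hu8 : u ^ 8 = k := by
    rw [hu, ← Real.rpow_natCast, ← Real.rpow_mul hk0.le]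
    norm_num
  have hu32 : 32 ≤ u := by
    by_contra hcon
    push Not at hcon
    have h1 : u ^ 8 < 32 ^ 8 := pow_lt_pow_left₀ hcon hu0.le (by norm_num)
    rw [hu8] at h1
    norm_num at h1 hkr
    linarith
  have he : ek k = 1 / u ^ 2 := by
    unfold ek
    rw [Real.rpow_neg hk0.le, inv_eq_one_div, hu, ← Real.rpow_natCast, ← Real.rpow_mul hk0.le]
    norm_num
  have hu2 : 0 < u ^ 2 := by positivity
  have hu2' : 1024 ≤ u ^ 2 := by nlinarith
  have he0 : 0 < ek k := by rw [he]; positivity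
  -- the logarithms
  have hl1 := hk1 k hkk1
  rw [← hu] at hl1
  have hl2 : Real.log n ≤ 2 * Real.log k := by
    have h1 : (n : ℝ) ≤ (k : ℝ) ^ 2 := by exact_mod_cast hnk
    have h2 := Real.log_le_log hn0 h1
    rw [Real.log_pow] at h2
    push_cast at h2
    exact h2
  -- the levels
  set V : ℝ := Vk n k with hV
  have hVn : V * n = (k : ℝ) ^ 2 := by
    rw [hV]; unfold Vk
    field_simp
  have hV0 : 0 < V := by rw [hV]; unfold Vk; positivity
  have hVlog : V ≤ 101 * Real.log n := by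
    rw [hV]; unfold Vk
    rw [div_le_iff₀ hn0]
    linarith
  have hVu : V ≤ 51 / 1000 * u := by linarith
  have hnu : 19 * u ^ 15 ≤ n := by
    have h1 : u ^ 16 ≤ 51 / 1000 * u * n := by
      have h2 : u ^ 16 = V * n := by rw [hVn, ← hu8]; ring
      rw [h2]
      exact mul_le_mul_of_nonneg_right hVu hn0.le
    have h3 : u * (19 * u ^ 15) ≤ u * n := by nlinarith
    exact le_of_mul_le_mul_left h3 hu0
  have hu7 : 32 ^ 7 ≤ u ^ 7 := pow_le_pow_left₀ (by norm_num) hu32 7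
  have hu5 : 32 ^ 5 ≤ u ^ 5 := pow_le_pow_left₀ (by norm_num) hu32 5
  have h2k : 2 * (k : ℝ) ≤ n := by
    have h1 : 2 * u ^ 8 ≤ 19 * u ^ 15 := by
      have : u ^ 15 = u ^ 8 * u ^ 7 := by ring
      rw [this]
      have h8 : 0 < u ^ 8 := by positivity
      norm_num at hu7
      nlinarith
    rw [hu8] at h1
    linarith
  have hn16 : (1000 : ℝ) * u ≤ n := by
    have h1 : 1000 * u ≤ 19 * u ^ 15 := by
      have : u ^ 15 = u * (u ^ 7 * u ^ 7) := by ring
      rw [this]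
      norm_num at hu7
      have : (1000 : ℝ) ≤ u ^ 7 * u ^ 7 := by nlinarith
      nlinarith
    linarith
  -- the constant of the entropy inequality
  have hK1 : 1 ≤ Kn n := by
    unfold Kn
    have : 0 < (n : ℝ) ^ (-(1 / 5) : ℝ) := Real.rpow_pos_of_pos hn0 _
    linarith
  have hK2 : Kn n ≤ 1 + ek k / 16 := by
    have h1 : (16 * u ^ 2) ^ 5 ≤ (n : ℝ) := by
      have h2 : (16 * u ^ 2) ^ 5 ≤ 19 * u ^ 15 := by
        have e1 : (16 * u ^ 2) ^ 5 = 1048576 * u ^ 10 := by ring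
        have e2 : u ^ 15 = u ^ 10 * u ^ 5 := by ring
        rw [e1, e2]
        have h10 : 0 < u ^ 10 := by positivity
        norm_num at hu5
        nlinarith
      linarith
    have h2 : 16 * u ^ 2 ≤ (n : ℝ) ^ ((1 : ℝ) / 5) := by
      have h3 : ((16 * u ^ 2) ^ 5) ^ ((1 : ℝ) / 5) ≤ (n : ℝ) ^ ((1 : ℝ) / 5) :=
        Real.rpow_le_rpow (by positivity) h1 (by norm_num)
      rw [← Real.rpow_natCast, ← Real.rpow_mul (by positivity)] at h3
      norm_num at h3
      exact h3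
    have h3 : (n : ℝ) ^ (-(1 / 5) : ℝ) = 1 / (n : ℝ) ^ ((1 : ℝ) / 5) := by
      rw [Real.rpow_neg hn0.le, inv_eq_one_div]
    unfold Kn
    rw [h3, he]
    have h4 : 1 / (n : ℝ) ^ ((1 : ℝ) / 5) ≤ 1 / (16 * u ^ 2) :=
      one_div_le_one_div_of_le (by positivity) h2
    have h5 : 1 / (16 * u ^ 2) = 1 / u ^ 2 / 16 := by
      field_simp
    linarith
  -- `Lam`
  have hk1' : 1 ≤ k := by omega
  have hLam : (n : ℝ) / 3 ≤ Lam n s := by
    have h1 := Hyb.le_Lam hn hk1'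
    have h2 : Lam n s = Hyb.Lam n s k := by
      unfold Lam Hyb.Lam
      have : n - 2 * s = k := by omega
      rw [this]
      rfl
    rw [h2]
    refine le_trans ?_ h1
    rw [div_le_div_iff₀ (by norm_num) (by positivity)]
    have h3 : (k : ℝ) ^ 2 ≤ (n : ℝ) ^ 2 / 4 := by nlinarith
    have h4 : (8 : ℝ) ≤ n := by linarith
    nlinarith
  set L := Lam n s with hL
  have hL0 : 0 < L := by linarith
  -- the caps
  have hcap : lv n s (n.choose (n / 2)) ≤ V := by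
    refine cap_lv hn hk1' ?_
    have h1 := Hyb.La_le hk1' hkn
    have h2 : (0 : ℝ) < ((n : ℝ) + 1) ^ 2 - (k : ℝ) ^ 2 := by nlinarith
    have h3 : Hyb.La n k * (k : ℝ) ^ 2 / 4 ≤
        2 * ((n : ℝ) + 1) / (((n : ℝ) + 1) ^ 2 - (k : ℝ) ^ 2) * (k : ℝ) ^ 2 / 4 := by
      have := mul_le_mul_of_nonneg_right h1 (show (0 : ℝ) ≤ (k : ℝ) ^ 2 by positivity)
      linarith
    refine h3.trans ?_
    rw [← hVn]
    have h4 : 2 * ((n : ℝ) + 1) / (((n : ℝ) + 1) ^ 2 - V * n) * (V * n) / 4 =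
        V * (((n : ℝ) + 1) * n / (2 * (((n : ℝ) + 1) ^ 2 - V * n))) := by
      field_simp
      ring
    rw [h4]
    have h5 : ((n : ℝ) + 1) * n / (2 * (((n : ℝ) + 1) ^ 2 - V * n)) ≤ 1 := by
      rw [hVn, div_le_one (by linarith)]
      nlinarith
    nlinarith
  have hcap2 : lv (n - 2) (s - 1) ((n - 2).choose ((n - 2) / 2)) ≤ V := by
    have hn2 : ((n - 2 : ℕ) : ℝ) = (n : ℝ) - 2 := by
      rw [Nat.cast_sub (by omega)]
      norm_num
    refine cap_lv (k := k) (by omega) hk1' ?_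
    have h1 := Hyb.La_le (n := n - 2) hk1' (by omega)
    rw [hn2] at h1
    have e1 : (n : ℝ) - 2 + 1 = n - 1 := by ring
    rw [e1] at h1
    have h2 : (0 : ℝ) < ((n : ℝ) - 1) ^ 2 - (k : ℝ) ^ 2 := by nlinarith
    have h3 : Hyb.La (n - 2) k * (k : ℝ) ^ 2 / 4 ≤
        2 * ((n : ℝ) - 1) / (((n : ℝ) - 1) ^ 2 - (k : ℝ) ^ 2) * (k : ℝ) ^ 2 / 4 := by
      have := mul_le_mul_of_nonneg_right h1 (show (0 : ℝ) ≤ (k : ℝ) ^ 2 by positivity)
      linarith
    refine h3.trans ?_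
    rw [← hVn]
    rw [← hVn] at h2
    have h4 : 2 * ((n : ℝ) - 1) / (((n : ℝ) - 1) ^ 2 - V * n) * (V * n) / 4 =
        V * (((n : ℝ) - 1) * n / (2 * (((n : ℝ) - 1) ^ 2 - V * n))) := by
      field_simp
      ring
    rw [h4]
    have h5 : ((n : ℝ) - 1) * n / (2 * (((n : ℝ) - 1) ^ 2 - V * n)) ≤ 1 := by
      rw [div_le_one (by linarith), hVn]
      nlinarith
    nlinarith
  -- the comparison of the potentials
  have hpot : ∀ f g : ℝ, |f| ≤ 5 / 3 * V → |g| ≤ 5 / 3 * V → 0 < q (ek k) f g →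
      0 < q (ek k) (Uf L f) (Uf L g) ∧ |Uf L f| ≤ 10 / 3 * V ∧ |Uf L g| ≤ 10 / 3 * V ∧
        (ek k * (Uf L f - Uf L g) / 2) ^ 2 ≤ ek k / 16 := by
    intro f g hf hg hq
    have hfg : |f - g| ≤ 10 / 3 * V := by
      have := abs_sub f g
      linarith
    have hV17 : 10 / 3 * V ≤ 17 / 100 * u := by linarith
    have hfg2 : (f - g) ^ 2 ≤ (17 / 100 * u) ^ 2 := by
      rw [← sq_abs]
      exact pow_le_pow_left₀ (abs_nonneg _) (hfg.trans hV17) 2
    have h1 : ek k * (f - g) ^ 2 ≤ 1 / 34 := by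
      rw [he]
      have h2 : 1 / u ^ 2 * (f - g) ^ 2 ≤ 1 / u ^ 2 * (17 / 100 * u) ^ 2 :=
        mul_le_mul_of_nonneg_left hfg2 (by positivity)
      have h3 : 1 / u ^ 2 * (17 / 100 * u) ^ 2 = 289 / 10000 := by
        field_simp
        norm_num
      rw [h3] at h2
      linarith
    have h4 : 4 / L ≤ ek k := by
      rw [he, div_le_div_iff₀ hL0 hu2]
      have h5 : 12 * u ^ 2 ≤ n := by
        have h6 : 12 * u ^ 2 ≤ 19 * u ^ 15 := by
          have e1 : u ^ 15 = u ^ 2 * (u ^ 7 * u ^ 6) := by ring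
          rw [e1]
          have h7 : (1 : ℝ) ≤ u ^ 6 := one_le_pow₀ (by linarith)
          norm_num at hu7
          have h8 : (1 : ℝ) ≤ u ^ 7 * u ^ 6 := by nlinarith
          nlinarith
        linarith
      linarith
    have hVL : 5 / 3 * V ≤ L / 20 := by linarith
    obtain ⟨r1, r2, r3, r4⟩ := hRef (ek k) L f g (by linarith) (hf.trans hVL) (hg.trans hVL) h4
      (by linarith) hq
    refine ⟨r1, by linarith, by linarith, ?_⟩
    have h5 : |ek k * (Uf L f - Uf L g) / 2| ≤ ek k * |f - g| := by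
      rw [abs_div, abs_mul, abs_of_pos he0, abs_two]
      nlinarith
    have h6 : (ek k * (Uf L f - Uf L g) / 2) ^ 2 ≤ (ek k * |f - g|) ^ 2 := by
      rw [← sq_abs]
      exact pow_le_pow_left₀ (abs_nonneg _) h5 2
    rw [mul_pow, sq_abs] at h6
    have h7 : ek k ^ 2 * (f - g) ^ 2 = ek k * (ek k * (f - g) ^ 2) := by ring
    rw [h7] at h6
    nlinarith
  have he20 : ek k ≤ 1 / 20 := by
    rw [he]
    exact one_div_le_one_div_of_le (by norm_num) (by linarith)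
  refine step hs (by omega) (e := ek k) (V := V) (R := 10 / 3 * V) (c0 := Real.exp (-1)) (HK (Kn n))
    (Uf L) he0 (Real.exp_pos _) hPP ?_ ?_ ?_ hcap hcap2 ?_
  · intro F hF0 hF hFl
    have h1 : 5 / 3 * V ≤ 200 * Real.log n := by linarith
    exact hVE n s k (by omega) hn hs hk1' hlog F hF0 hF (hFl.trans h1)
  · intro f g hf hg _ hq
    obtain ⟨r1, r2, r3, r4⟩ := hpot f g hf hg hq
    refine ⟨r1, r2, r3, ?_⟩
    have h1 : (ek k * (Uf L f - Uf L g) / 2) ^ 2 ≤ 1 := by linarith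
    exact abs_le_one_iff_mul_self_le_one.2 (by rw [← sq]; exact h1)
  · intro f g hf hg _ hq y x hy hx hor
    obtain ⟨r1, r2, r3, r4⟩ := hpot f g hf hg hq
    exact hT2 (ek k) (Kn n) _ y x he0 he20 hK1 hK2 r4 hy hx hor
  · rw [Real.log_exp, he, one_div_one_div]
    nlinarith

end Pool.Agent.LineQ
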