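import Pool.Agent.LineQ.Defs
import Pool.Agent.MidF.StepTwo

/-!
# Route (C), the step `n - 2 → n` in abstract form (P4)

The two-coordinate step for the potential `q e`: the inputs are an inequality for one antichain (`hVE`, the
entropy inequality), the comparison of the potentials at `n` and `n - 2` (`hPot`), a pointwise
inequality in two real variables (`hPt`) and Sperner caps.
-/

set_option autoImplicit false

namespace Pool.Agent.LineQ

open Finset Pool.Agent.MidF.S2

/-! ### Transport to an arbitrary type -/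

theorem PP.gen {e : ℝ} {n s : ℕ} (h : PP e n s) (α : Type) [Fintype α] [DecidableEq α]
    (hα : Fintype.card α = n) (F G : Finset (Finset α)) (hF0 : F.Nonempty) (hG0 : G.Nonempty)
    (hF : IsAntichain (· ⊆ ·) (F : Set (Finset α))) (hG : IsAntichain (· ⊆ ·) (G : Set (Finset α)))
    (hd : ∀ A ∈ F, ∀ B ∈ G, (symmDiff A B).card ≤ 2 * s)
    (hl : |lv n s F.card - lv n s G.card| ≤ 1 / e) :
    q e (lv n s F.card) (lv n s G.card) ≤ 0 := by
  classical
  let φ : α ≃ Fin n := Fintype.equivFinOfCardEq hα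
  let T : Finset (Finset α) → Finset (Finset (Fin n)) := fun H => H.image fun A => A.map φ.toEmbedding
  have hcard : ∀ H : Finset (Finset α), (T H).card = H.card := by
    intro H
    refine card_image_of_injective _ ?_
    exact map_injective _
  have hanti : ∀ H : Finset (Finset α), IsAntichain (· ⊆ ·) (H : Set (Finset α)) →
      IsAntichain (· ⊆ ·) (T H : Set (Finset (Fin n))) := by
    intro H hH A' hA' B' hB' hne hsub
    rw [mem_coe, mem_image] at hA' hB'
    obtain ⟨A, hA, rfl⟩ := hA'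
    obtain ⟨B, hB, rfl⟩ := hB'
    exact hH hA hB (fun h => hne (by rw [h])) (map_subset_map.1 hsub)
  have h1 := h (T F) (T G) (hF0.image _) (hG0.image _) (hanti F hF) (hanti G hG) (by
    intro A' hA' B' hB'
    rw [mem_image] at hA' hB'
    obtain ⟨A, hA, rfl⟩ := hA'
    obtain ⟨B, hB, rfl⟩ := hB'
    have h2 : symmDiff (A.map φ.toEmbedding) (B.map φ.toEmbedding) = (symmDiff A B).map φ.toEmbedding := by
      ext z
      simp only [mem_symmDiff, mem_map_equiv]
    rw [h2, card_map]
    exact hd A hA B hB)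
  rw [hcard, hcard] at h1
  exact h1 hl

/-! ### Pair counts as patterns -/

theorem cnt_eq_pat {α : Type} [DecidableEq α] (F : Finset (Finset α)) (x y : α) :
    cnt F x y = (pat F x y true false).card := by
  unfold cnt pat
  congr 1
  ext A
  simp

theorem cnt_eq_pat' {α : Type} [DecidableEq α] (F : Finset (Finset α)) (x y : α) :
    cnt F y x = (pat F x y false true).card := by
  unfold cnt pat
  congr 1
  ext A
  simp [and_comm]

theorem exp_mul_log_aux {C U : ℝ} {N : ℕ} (hC : 0 < C) (hN : 0 < N) :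
    Real.log ((N : ℝ) / C) = U + Real.log ((N : ℝ) / (C * Real.exp U)) := by
  have hN' : (0 : ℝ) < N := by exact_mod_cast hN
  rw [Real.log_div hN'.ne' hC.ne', Real.log_div hN'.ne' (by positivity),
    Real.log_mul hC.ne' (Real.exp_pos U).ne', Real.log_exp]
  ring

theorem q_add (e f g h j : ℝ) :
    q e (f + h) (g + j) = q e f g + ((1 + e * (f - g) / 2) * h + (1 - e * (f - g) / 2) * j +
      e / 4 * (h - j) ^ 2) := by
  unfold q
  ring

/-- Levels of a pair with positive potential. -/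
theorem levels_of_pos {e V f g : ℝ} (he : 0 < e) (hf : f ≤ V) (hg : g ≤ V) (hfg : |f - g| ≤ 1 / e)
    (hq : 0 < q e f g) : |f| ≤ 5 / 3 * V ∧ |g| ≤ 5 / 3 * V := by
  unfold q at hq
  have h1 : e / 4 * (f - g) ^ 2 ≤ |f - g| / 4 := by
    have h2 : e * |f - g| ≤ 1 := by
      have h3 := mul_le_mul_of_nonneg_left hfg he.le
      rwa [mul_one_div, div_self he.ne'] at h3
    have h3 : (f - g) ^ 2 = |f - g| * |f - g| := by rw [← sq, sq_abs]
    rw [h3]
    nlinarith [abs_nonneg (f - g)]
  rcases le_total 0 (f - g) with h | h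
  · rw [abs_of_nonneg h] at h1
    constructor
    · rw [abs_le]; constructor <;> linarith
    · rw [abs_le]; constructor <;> linarith
  · rw [abs_of_nonpos h] at h1
    constructor
    · rw [abs_le]; constructor <;> linarith
    · rw [abs_le]; constructor <;> linarith

/-- **The step in abstract form.** -/
theorem step {n s : ℕ} (hs : 1 ≤ s) (hn : 2 * s < n) {e V R c0 : ℝ} (H U : ℝ → ℝ) (he : 0 < e)
    (hc0 : 0 < c0) (hPP : PP e (n - 2) (s - 1))
    (hVE : ∀ F : Finset (Finset (Fin n)), F.Nonempty →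
      IsAntichain (· ⊆ ·) (F : Set (Finset (Fin n))) → |lv n s F.card| ≤ 5 / 3 * V →
      ∃ F' : Finset (Finset (Fin n)), F' ⊆ F ∧ 0 ≤ ∑ p ∈ (univ : Finset (Fin n)).offDiag,
        H ((cnt F' p.1 p.2 : ℝ) / (((n - 2).choose (s - 1) : ℝ) * Real.exp (U (lv n s F.card)))))
    (hPot : ∀ f g : ℝ, |f| ≤ 5 / 3 * V → |g| ≤ 5 / 3 * V → |f - g| ≤ 1 / e → 0 < q e f g →
      0 < q e (U f) (U g) ∧ |U f| ≤ R ∧ |U g| ≤ R ∧ |e * (U f - U g) / 2| ≤ 1)
    (hPt : ∀ f g : ℝ, |f| ≤ 5 / 3 * V → |g| ≤ 5 / 3 * V → |f - g| ≤ 1 / e → 0 < q e f g →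
      ∀ y x : ℝ, 0 ≤ y → 0 ≤ x →
        (y ≤ c0 ∨ x ≤ c0 ∨ (1 + e * (U f - U g) / 2) * Real.log y +
          (1 - e * (U f - U g) / 2) * Real.log x + e / 4 * (Real.log y - Real.log x) ^ 2 < 0) →
        (1 + e * (U f - U g) / 2) * H y + (1 - e * (U f - U g) / 2) * H x < 0)
    (hcap : lv n s (n.choose (n / 2)) ≤ V)
    (hcap2 : lv (n - 2) (s - 1) ((n - 2).choose ((n - 2) / 2)) ≤ V)
    (hR : V + R - Real.log c0 ≤ 1 / e) : PP e n s := by
  intro F G hF0 hG0 hF hG hd hl
  by_contra hcon
  push Not at hcon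
  set f := lv n s F.card with hf
  set g := lv n s G.card with hg
  have hCs : (0 : ℝ) < (n.choose s : ℝ) := by exact_mod_cast Nat.choose_pos (by omega)
  have hC2 : (0 : ℝ) < ((n - 2).choose (s - 1) : ℝ) := by exact_mod_cast Nat.choose_pos (by omega)
  -- caps
  have capn : ∀ K : Finset (Finset (Fin n)), K.Nonempty →
      IsAntichain (· ⊆ ·) (K : Set (Finset (Fin n))) → lv n s K.card ≤ V := by
    intro K hK0 hK
    refine le_trans ?_ hcap
    have h1 := hK.sperner
    rw [Fintype.card_fin] at h1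
    unfold lv
    refine Real.log_le_log ?_ ?_
    · have : (0 : ℝ) < (K.card : ℝ) := by exact_mod_cast hK0.card_pos
      positivity
    · refine div_le_div_of_nonneg_right ?_ hCs.le
      exact_mod_cast h1
  have hfV := capn F hF0 hF
  have hgV := capn G hG0 hG
  obtain ⟨hfR, hgR⟩ := levels_of_pos he hfV hgV hl hcon
  obtain ⟨F', hF'F, hFsum⟩ := hVE F hF0 hF hfR
  obtain ⟨G', hG'G, hGsum⟩ := hVE G hG0 hG hgR
  obtain ⟨hqU, hUf, hUg, hdU⟩ := hPot f g hfR hgR hl hcon
  have hPt' := hPt f g hfR hgR hl hcon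
  have hF' : IsAntichain (· ⊆ ·) (F' : Set (Finset (Fin n))) := hF.subset (coe_subset.2 hF'F)
  have hG' : IsAntichain (· ⊆ ·) (G' : Set (Finset (Fin n))) := hG.subset (coe_subset.2 hG'G)
  set d := e * (U f - U g) / 2 with hdd
  set C : ℝ := ((n - 2).choose (s - 1) : ℝ) with hC
  rw [← hf] at hFsum
  rw [← hg] at hGsum
  -- every ordered pair
  have key : ∀ p ∈ (univ : Finset (Fin n)).offDiag,
      (1 + d) * H ((cnt F' p.1 p.2 : ℝ) / (C * Real.exp (U f))) +
        (1 - d) * H ((cnt G' p.2 p.1 : ℝ) / (C * Real.exp (U g))) < 0 := by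
    rintro ⟨x, y⟩ hp
    rw [mem_offDiag] at hp
    have hxy : x ≠ y := hp.2.2
    dsimp only
    set Y := cnt F' x y with hY
    set X := cnt G' y x with hX
    set u : ℝ := (Y : ℝ) / (C * Real.exp (U f)) with hu
    set v : ℝ := (X : ℝ) / (C * Real.exp (U g)) with hv
    have hu0 : 0 ≤ u := by positivity
    have hv0 : 0 ≤ v := by positivity
    rcases le_or_gt u c0 with h1 | h1
    · exact hPt' u v hu0 hv0 (Or.inl h1)
    rcases le_or_gt v c0 with h2 | h2
    · exact hPt' u v hu0 hv0 (Or.inr (Or.inl h2))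
    refine hPt' u v hu0 hv0 (Or.inr (Or.inr ?_))
    have hYpos : 0 < Y := by
      rcases Nat.eq_zero_or_pos Y with h | h
      · rw [hu, h, Nat.cast_zero, zero_div] at h1
        linarith
      · exact h
    have hXpos : 0 < X := by
      rcases Nat.eq_zero_or_pos X with h | h
      · rw [hv, h, Nat.cast_zero, zero_div] at h2
        linarith
      · exact h
    set S1 := sec F' x y true false with hS1
    set S2 := sec G' x y false true with hS2
    have hS1c : S1.card = Y := by rw [hS1, card_sec, hY, cnt_eq_pat]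
    have hS2c : S2.card = X := by rw [hS2, card_sec, hX, cnt_eq_pat']
    have hα : Fintype.card {z : Fin n // z ≠ x ∧ z ≠ y} = n - 2 := by
      rw [card_subtype x y hxy, Fintype.card_fin]
    have hS1a := antichain_sec hF' x y true false
    have hS2a := antichain_sec hG' x y false true
    have cap2 : ∀ K : Finset (Finset {z : Fin n // z ≠ x ∧ z ≠ y}), 0 < K.card →
        IsAntichain (· ⊆ ·) (K : Set (Finset {z : Fin n // z ≠ x ∧ z ≠ y})) →
        lv (n - 2) (s - 1) K.card ≤ V := by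
      intro K hK0 hK
      refine le_trans ?_ hcap2
      have h3 := hK.sperner
      rw [hα] at h3
      unfold lv
      refine Real.log_le_log ?_ ?_
      · have : (0 : ℝ) < (K.card : ℝ) := by exact_mod_cast hK0
        positivity
      · refine div_le_div_of_nonneg_right ?_ hC2.le
        exact_mod_cast h3
    have e1 : lv (n - 2) (s - 1) Y = U f + Real.log u := by
      rw [hu]
      exact exp_mul_log_aux hC2 hYpos
    have e2 : lv (n - 2) (s - 1) X = U g + Real.log v := by
      rw [hv]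
      exact exp_mul_log_aux hC2 hXpos
    have c1 : U f + Real.log u ≤ V := by
      rw [← e1, ← hS1c]
      exact cap2 S1 (by omega) hS1a
    have c2 : U g + Real.log v ≤ V := by
      rw [← e2, ← hS2c]
      exact cap2 S2 (by omega) hS2a
    have l1 : Real.log c0 ≤ Real.log u := Real.log_le_log hc0 h1.le
    have l2 : Real.log c0 ≤ Real.log v := Real.log_le_log hc0 h2.le
    have b1 := abs_le.1 hUf
    have b2 := abs_le.1 hUg
    have h3 := hPP.gen {z : Fin n // z ≠ x ∧ z ≠ y} hα S1 S2 (card_pos.1 (by omega))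
      (card_pos.1 (by omega)) hS1a hS2a (by
        intro A' hA' B' hB'
        rw [hS1, sec, mem_image] at hA'
        rw [hS2, sec, mem_image] at hB'
        obtain ⟨A, hA, rfl⟩ := hA'
        obtain ⟨B, hB, rfl⟩ := hB'
        rw [mem_pat] at hA hB
        have h2 := card_symmDiff_subtype hxy (A := A) (B := B) (by rw [hA.2.1, hB.2.1]; rfl)
          (by rw [hA.2.2, hB.2.2]; rfl)
        have h3 := hd A (hF'F hA.1) B (hG'G hB.1)
        omega) (by
        rw [hS1c, hS2c, e1, e2, abs_le]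
        constructor <;> linarith [b1.1, b1.2, b2.1, b2.2])
    rw [hS1c, hS2c, e1, e2, q_add, ← hdd] at h3
    linarith
  -- summation
  have hne : (univ : Finset (Fin n)).offDiag.Nonempty := by
    refine ⟨(⟨0, by omega⟩, ⟨1, by omega⟩), ?_⟩
    rw [mem_offDiag]
    refine ⟨mem_univ _, mem_univ _, ?_⟩
    intro h
    have := congrArg Fin.val h
    simp at this
  have hsum := sum_lt_sum_of_nonempty hne key
  rw [sum_const_zero, sum_add_distrib, ← mul_sum, ← mul_sum] at hsum
  have hswap : ∑ p ∈ (univ : Finset (Fin n)).offDiag,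
      H ((cnt G' p.2 p.1 : ℝ) / (C * Real.exp (U g))) =
      ∑ p ∈ (univ : Finset (Fin n)).offDiag, H ((cnt G' p.1 p.2 : ℝ) / (C * Real.exp (U g))) := by
    refine sum_bij (fun p _ => (p.2, p.1)) ?_ ?_ ?_ ?_
    · rintro ⟨x, y⟩ hp
      rw [mem_offDiag] at hp ⊢
      exact ⟨mem_univ _, mem_univ _, hp.2.2.symm⟩
    · rintro ⟨x, y⟩ _ ⟨x', y'⟩ _ h
      simp only [Prod.mk.injEq] at h
      rw [h.1, h.2]
    · rintro ⟨x, y⟩ hp
      rw [mem_offDiag] at hp
      exact ⟨(y, x), mem_offDiag.2 ⟨mem_univ _, mem_univ _, hp.2.2.symm⟩, rfl⟩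
    · rintro ⟨x, y⟩ _
      rfl
  rw [hswap] at hsum
  have hd' := abs_le.1 hdU
  have h5 : 0 ≤ (1 + d) * ∑ p ∈ (univ : Finset (Fin n)).offDiag,
      H ((cnt F' p.1 p.2 : ℝ) / (C * Real.exp (U f))) := mul_nonneg (by linarith [hd'.1]) hFsum
  have h6 : 0 ≤ (1 - d) * ∑ p ∈ (univ : Finset (Fin n)).offDiag,
      H ((cnt G' p.1 p.2 : ℝ) / (C * Real.exp (U g))) := mul_nonneg (by linarith [hd'.2]) hGsum
  linarith

end Pool.Agent.LineQ
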