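import Pool.Agent.LineQ.Params

/-!
# Route (C): the pointwise inequality in two real variables (`T2St`)
-/

set_option autoImplicit false

namespace Pool.Agent.LineQ

namespace T2h2

theorem nonneg_of_deriv {f f' : ℝ → ℝ} (hf : ∀ x, HasDerivAt f (f' x) x) (h0 : f 0 = 0)
    (h : ∀ x, 0 ≤ x → 0 ≤ f' x) : ∀ x, 0 ≤ x → 0 ≤ f x := by
  intro x hx
  have hmono : MonotoneOn f (Set.Ici 0) := by
    refine monotoneOn_of_deriv_nonneg (convex_Ici 0)
      (fun y _ => (hf y).continuousAt.continuousWithinAt)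
      (fun y _ => (hf y).differentiableAt.differentiableWithinAt) ?_
    intro y hy
    rw [interior_Ici] at hy
    rw [(hf y).deriv]
    exact h y (le_of_lt hy)
  have := hmono (Set.mem_Ici.2 le_rfl) (Set.mem_Ici.2 hx) hx
  rwa [h0] at this

theorem dpow (n : ℕ) (c x : ℝ) : HasDerivAt (fun t : ℝ => c * t ^ (n + 1)) (c * ((n + 1) * x ^ n)) x := by
  have h := (hasDerivAt_pow (n + 1) x).const_mul c
  simpa using h

theorem dexpn (x : ℝ) : HasDerivAt (fun t : ℝ => Real.exp (-t)) (-Real.exp (-x)) x := by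
  have h := (hasDerivAt_neg x).exp
  simpa using h

/-- `exp t (1 - t) ≤ 1 - t²/2 - t³/3`. -/
theorem aux1 : ∀ t : ℝ, 0 ≤ t →
    0 ≤ 1 + (-(1 / 2)) * t ^ (1 + 1) + (-(1 / 3)) * t ^ (2 + 1) + Real.exp t * (t - 1) := by
  refine nonneg_of_deriv (f := fun t => 1 + (-(1 / 2)) * t ^ (1 + 1) + (-(1 / 3)) * t ^ (2 + 1) +
      Real.exp t * (t - 1))
    (f' := fun t => t * (Real.exp t - 1 - t)) ?_ (by simp) ?_
  · intro x
    have h3 : HasDerivAt (fun t : ℝ => Real.exp t * (t - 1)) (Real.exp x * (x - 1) + Real.exp x * 1) x :=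
      (Real.hasDerivAt_exp x).fun_mul ((hasDerivAt_id' x).sub_const 1)
    have h := (((hasDerivAt_const x (1 : ℝ)).fun_add (dpow 1 (-(1 / 2)) x)).fun_add
      (dpow 2 (-(1 / 3)) x)).fun_add h3
    refine h.congr_deriv ?_
    push_cast
    ring
  · intro x hx
    have := Real.add_one_le_exp x
    exact mul_nonneg hx (by linarith)

/-- The upper bound on the positive side. -/
theorem up (t : ℝ) (ht : 0 ≤ t) :
    2 * (Real.exp t - 1) - t * Real.exp t ≤ t - t ^ 3 / 6 - t ^ 4 / 12 := by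
  have h := nonneg_of_deriv (f := fun t => t + (-(1 / 6)) * t ^ (2 + 1) + (-(1 / 12)) * t ^ (3 + 1) +
      (Real.exp t * (t - 2) + 2))
    (f' := fun t => 1 + (-(1 / 2)) * t ^ (1 + 1) + (-(1 / 3)) * t ^ (2 + 1) + Real.exp t * (t - 1))
    ?_ (by simp) aux1 t ht
  · norm_num at h
    nlinarith
  · intro x
    have h3 : HasDerivAt (fun t : ℝ => Real.exp t * (t - 2) + 2)
        (Real.exp x * (x - 2) + Real.exp x * 1) x :=
      ((Real.hasDerivAt_exp x).fun_mul ((hasDerivAt_id' x).sub_const 2)).add_const 2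
    have h := (((hasDerivAt_id' x).fun_add (dpow 2 (-(1 / 6)) x)).fun_add
      (dpow 3 (-(1 / 12)) x)).fun_add h3
    refine h.congr_deriv ?_
    push_cast
    ring

theorem aux2 : ∀ r : ℝ, 0 ≤ r → 0 ≤ 1 - r + (1 / 2) * r ^ (1 + 1) + (-Real.exp (-r)) := by
  refine nonneg_of_deriv (f := fun r => 1 - r + (1 / 2) * r ^ (1 + 1) + (-Real.exp (-r)))
    (f' := fun r => -1 + r + Real.exp (-r)) ?_ (by simp) ?_
  · intro x
    have h := (((hasDerivAt_id' x).const_sub 1).fun_add (dpow 1 (1 / 2) x)).fun_add (dexpn x).fun_neg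
    refine h.congr_deriv ?_
    push_cast
    ring
  · intro x _
    have := Real.add_one_le_exp (-x)
    linarith

theorem aux3 : ∀ r : ℝ, 0 ≤ r → 0 ≤ -1 + (1 / 2) * r ^ (1 + 1) + (-(1 / 3)) * r ^ (2 + 1) +
    (1 / 8) * r ^ (3 + 1) + Real.exp (-r) * (r + 1) := by
  refine nonneg_of_deriv
    (f := fun r => -1 + (1 / 2) * r ^ (1 + 1) + (-(1 / 3)) * r ^ (2 + 1) +
      (1 / 8) * r ^ (3 + 1) + Real.exp (-r) * (r + 1))
    (f' := fun r => r * (1 - r + (1 / 2) * r ^ (1 + 1) + (-Real.exp (-r)))) ?_ (by simp) ?_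
  · intro x
    have h5 : HasDerivAt (fun t : ℝ => Real.exp (-t) * (t + 1))
        (-Real.exp (-x) * (x + 1) + Real.exp (-x) * 1) x :=
      (dexpn x).fun_mul ((hasDerivAt_id' x).add_const 1)
    have h := ((((hasDerivAt_const x (-1 : ℝ)).fun_add (dpow 1 (1 / 2) x)).fun_add
      (dpow 2 (-(1 / 3)) x)).fun_add (dpow 3 (1 / 8) x)).fun_add h5
    refine h.congr_deriv ?_
    push_cast
    ring
  · intro x hx
    exact mul_nonneg hx (aux2 x hx)

/-- The upper bound on the negative side. -/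
theorem down (r : ℝ) (hr : 0 ≤ r) : 2 * (Real.exp (-r) - 1) + r * Real.exp (-r) ≤
    -r + r ^ 3 / 6 - r ^ 4 / 12 + r ^ 5 / 40 := by
  have h := nonneg_of_deriv (f := fun r => -r + (1 / 6) * r ^ (2 + 1) + (-(1 / 12)) * r ^ (3 + 1) +
      (1 / 40) * r ^ (4 + 1) + (-(Real.exp (-r) * (r + 2)) + 2))
    (f' := fun r => -1 + (1 / 2) * r ^ (1 + 1) + (-(1 / 3)) * r ^ (2 + 1) +
      (1 / 8) * r ^ (3 + 1) + Real.exp (-r) * (r + 1)) ?_ (by simp)
    aux3 r hr
  · norm_num at h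
    nlinarith
  · intro x
    have h5 : HasDerivAt (fun t : ℝ => -(Real.exp (-t) * (t + 2)) + 2)
        (-(-Real.exp (-x) * (x + 2) + Real.exp (-x) * 1)) x :=
      (((dexpn x).fun_mul ((hasDerivAt_id' x).add_const 2)).fun_neg).add_const 2
    have h := ((((hasDerivAt_neg x).fun_add (dpow 2 (1 / 6) x)).fun_add
      (dpow 3 (-(1 / 12)) x)).fun_add (dpow 4 (1 / 40) x)).fun_add h5
    refine h.congr_deriv ?_
    push_cast
    ring

/-- The polynomial inequality. -/
theorem core {e κ d t r : ℝ} (he0 : 0 < e) (he : e ≤ 1 / 20) (hκ0 : 0 ≤ κ) (hκ : κ ≤ e / 16)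
    (hd : d ^ 2 ≤ e / 16) (ht : 0 < t) (hr : 0 < r) (hr1 : r < 1)
    (hc : (1 + d) * t - (1 - d) * r + e / 4 * (t + r) ^ 2 < 0) :
    (1 + κ) * ((1 + d) * t - (1 - d) * r) + κ * (6 / 5 * (1 + d) * t ^ 2 + (1 - d) * r ^ 2 / 2) +
      (1 + d) * (-t ^ 3 / 6 - t ^ 4 / 12) + (1 - d) * (r ^ 3 / 6 - r ^ 4 / 12 + r ^ 5 / 40) < 0 := by
  have hd1 : |d| ≤ 56 / 1000 := by
    refine abs_le_of_sq_le_sq ?_ (by norm_num)
    nlinarith
  obtain ⟨hd2, hd3⟩ := abs_le.1 hd1
  have hσ : 0 < t + r := by linarith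
  set δ := (1 - d) * r - (1 + d) * t with hδ
  have hδ1 : e / 4 * (t + r) ^ 2 < δ := by linarith
  have hσ2 : 0 < (t + r) ^ 2 := by positivity
  have hδ0 : 0 < δ := lt_of_le_of_lt (by positivity) hδ1
  -- `t` against `r`
  have htr : t ≤ 112 / 100 * r := by nlinarith
  have ht12 : (1 + d) * t ≤ (1 - d) * r := by linarith
  -- the cubic terms
  have hcub : (1 - d) * r ^ 3 - (1 + d) * t ^ 3 =
      (1 + d) * t * (r + t) ^ 2 * d + δ * ((1 + d) * t * (r + t) + r ^ 2) := by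
    rw [hδ]; ring
  have hb : (1 + d) * t * (r + t) + r ^ 2 ≤ 324 / 100 := by
    have h1 : (1 + d) * t ≤ 1056 / 1000 * r := by nlinarith
    have h2 : (1 + d) * t * (r + t) ≤ 1056 / 1000 * r * (212 / 100 * r) :=
      mul_le_mul h1 (by linarith) (by linarith) (by positivity)
    nlinarith
  have hb' : δ * ((1 + d) * t * (r + t) + r ^ 2) ≤ δ * (324 / 100) :=
    mul_le_mul_of_nonneg_left hb hδ0.le
  have hcd : (1 + d) * t * (r + t) ^ 2 * d ≤ 528 / 1000 * |d| * (t + r) ^ 3 := by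
    have h1 : (1 + d) * t ≤ 528 / 1000 * (t + r) := by nlinarith
    have h2 : (1 + d) * t * (r + t) ^ 2 * d ≤ (1 + d) * t * (r + t) ^ 2 * |d| :=
      mul_le_mul_of_nonneg_left (le_abs_self d)
        (mul_nonneg (mul_nonneg (by linarith) ht.le) (by positivity))
    have h3 : (1 + d) * t * ((r + t) ^ 2 * |d|) ≤ 528 / 1000 * (t + r) * ((r + t) ^ 2 * |d|) :=
      mul_le_mul_of_nonneg_right h1 (by positivity)
    have e1 : (1 + d) * t * (r + t) ^ 2 * |d| = (1 + d) * t * ((r + t) ^ 2 * |d|) := by ring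
    have e2 : 528 / 1000 * (t + r) * ((r + t) ^ 2 * |d|) = 528 / 1000 * |d| * (t + r) ^ 3 := by ring
    rw [e1] at h2
    rw [e2] at h3
    linarith
  -- the quartic terms
  have hq : 688 / 100000 * (t + r) ^ 4 ≤
      (1 + d) * (t ^ 4 / 12) + (1 - d) * (r ^ 4 / 12 - r ^ 5 / 40) := by
    have h1 : r ^ 5 ≤ r ^ 4 := by
      have : r ^ 5 = r ^ 4 * r := by ring
      rw [this]
      nlinarith [pow_pos hr 4]
    have h2 : 944 / 1000 * (7 / 120 * r ^ 4) ≤ (1 - d) * (r ^ 4 / 12 - r ^ 5 / 40) := by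
      have h3 : 7 / 120 * r ^ 4 ≤ r ^ 4 / 12 - r ^ 5 / 40 := by linarith
      have h4 : (0 : ℝ) ≤ 7 / 120 * r ^ 4 := by positivity
      have h5 : 944 / 1000 * (7 / 120 * r ^ 4) ≤ (1 - d) * (7 / 120 * r ^ 4) :=
        mul_le_mul_of_nonneg_right (by linarith) h4
      have h6 : (1 - d) * (7 / 120 * r ^ 4) ≤ (1 - d) * (r ^ 4 / 12 - r ^ 5 / 40) :=
        mul_le_mul_of_nonneg_left h3 (by linarith)
      linarith
    have h3 : 944 / 1000 * (7 / 120 * t ^ 4) ≤ (1 + d) * (t ^ 4 / 12) := by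
      have h4 : (0 : ℝ) ≤ t ^ 4 := by positivity
      nlinarith
    have h4 : (t + r) ^ 4 ≤ 8 * (t ^ 4 + r ^ 4) := by
      nlinarith [sq_nonneg (t - r), sq_nonneg (t + r), sq_nonneg (t ^ 2 - r ^ 2),
        mul_nonneg (sq_nonneg (t - r)) (sq_nonneg (t + r)), mul_nonneg (sq_nonneg (t - r))
          (sq_nonneg (t - r))]
    have h5 : 0 < t ^ 4 := by positivity
    have h6 : 0 < r ^ 4 := by positivity
    linarith
  -- the `κ` terms
  have hk : κ * (6 / 5 * (1 + d) * t ^ 2 + (1 - d) * r ^ 2 / 2) ≤ 33 / 1000 * e * (t + r) ^ 2 := by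
    have h1 : 6 / 5 * (1 + d) * t ^ 2 + (1 - d) * r ^ 2 / 2 ≤ 528 / 1000 * (t + r) ^ 2 := by
      have h2 : 6 / 5 * (1 + d) * t ^ 2 ≤ 6 / 5 * (1056 / 1000) * t ^ 2 := by
        nlinarith [sq_nonneg t]
      have h3 : (1 - d) * r ^ 2 / 2 ≤ 528 / 1000 * r ^ 2 := by
        nlinarith [sq_nonneg r]
      have h4 : t * t ≤ t * (112 / 100 * r) := mul_le_mul_of_nonneg_left htr ht.le
      nlinarith
    have h2 : 0 ≤ 6 / 5 * (1 + d) * t ^ 2 + (1 - d) * r ^ 2 / 2 := by
      have : 0 ≤ 6 / 5 * (1 + d) * t ^ 2 := by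
        have h0 : 0 ≤ 1 + d := by linarith
        positivity
      have : 0 ≤ (1 - d) * r ^ 2 / 2 := by
        have h0 : 0 ≤ 1 - d := by linarith
        positivity
      linarith
    calc κ * (6 / 5 * (1 + d) * t ^ 2 + (1 - d) * r ^ 2 / 2)
        ≤ e / 16 * (528 / 1000 * (t + r) ^ 2) := mul_le_mul hκ h1 h2 (by positivity)
      _ = 33 / 1000 * e * (t + r) ^ 2 := by ring
  -- the quadratic form
  have hquad : 0 < 82 / 1000 * e - 88 / 1000 * |d| * (t + r) + 688 / 100000 * (t + r) ^ 2 := by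
    have h1 : |d| ^ 2 ≤ e / 16 := by rwa [sq_abs]
    nlinarith [sq_nonneg (t + r - 6395 / 1000 * |d|)]
  have hfin : 0 < (82 / 1000 * e - 88 / 1000 * |d| * (t + r) + 688 / 100000 * (t + r) ^ 2) *
      (t + r) ^ 2 := mul_pos hquad hσ2
  have hκδ : 0 ≤ κ * δ := mul_nonneg hκ0 hδ0.le
  nlinarith

theorem HK_le {K x : ℝ} (hx : 0 ≤ x) : HK K x ≤ Real.exp K - (K + 1) := by
  unfold HK
  rcases hx.eq_or_lt with h | h
  · rw [← h]
    have := Real.exp_pos K
    simp
    linarith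
  · have h1 := Real.one_sub_inv_le_log_of_pos (show 0 < x / Real.exp K by positivity)
    rw [Real.log_div h.ne' (Real.exp_pos K).ne', Real.log_exp, inv_div] at h1
    have h2 := mul_le_mul_of_nonneg_left h1 h.le
    have h3 : x * (1 - Real.exp K / x) = x - Real.exp K := by
      field_simp
    rw [h3] at h2
    nlinarith

theorem HK_small {K y : ℝ} (hK : 1 ≤ K) (hy : 0 ≤ y) (hy1 : y ≤ Real.exp (-1)) :
    HK K y ≤ 3 * Real.exp (-1) - 2 := by
  have h0 : -(y * Real.log y) ≤ Real.exp (-1) := by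
    have := HK_le (K := -1) hy
    unfold HK at this
    norm_num at this
    linarith
  have h1 : Real.exp (-1) < 1 := by
    rw [Real.exp_lt_one_iff]
    norm_num
  unfold HK
  nlinarith

/-- One family is small. -/
theorem small {e K d y x : ℝ} (he : e ≤ 1 / 20) (hK : 1 ≤ K) (hK2 : K ≤ 1 + e / 16)
    (hd : d ^ 2 ≤ e / 16) (hy : 0 ≤ y) (hx : 0 ≤ x) (hy1 : y ≤ Real.exp (-1)) :
    (1 + d) * HK K y + (1 - d) * HK K x < 0 := by
  have hd1 : |d| ≤ 56 / 1000 := by
    refine abs_le_of_sq_le_sq ?_ (by norm_num)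
    nlinarith
  obtain ⟨hd2, hd3⟩ := abs_le.1 hd1
  have h1 := HK_small hK hy hy1
  have h2 := HK_le (K := K) hx
  have e1 : Real.exp (-1) ≤ 368 / 1000 := by
    have h3 := Real.exp_one_gt_d9
    rw [Real.exp_neg, inv_le_comm₀ (Real.exp_pos 1) (by norm_num)]
    linarith
  have e2 : Real.exp K ≤ 274 / 100 := by
    have h3 := Real.exp_one_lt_d9
    have h4 : Real.exp K = Real.exp 1 * Real.exp (K - 1) := by rw [← Real.exp_add]; ring_nf
    have h5 : K - 1 ≤ 1 / 320 := by linarith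
    have h6 : Real.exp (K - 1) ≤ 1007 / 1000 := by
      have h7 : Real.exp (K - 1) ≤ Real.exp (1 / 320) := Real.exp_le_exp.2 h5
      have h8 : Real.exp (1 / 320) ≤ 1 / (1 - 1 / 320) := by
        have := Real.add_one_le_exp (-(1 / 320 : ℝ))
        rw [Real.exp_neg] at this
        rw [le_div_iff₀ (by norm_num)]
        have h9 := Real.exp_pos (1 / 320 : ℝ)
        have h10 : (1 - 1 / 320 : ℝ) ≤ (Real.exp (1 / 320))⁻¹ := by linarith
        calc Real.exp (1 / 320) * (1 - 1 / 320) ≤ Real.exp (1 / 320) * (Real.exp (1 / 320))⁻¹ :=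
              mul_le_mul_of_nonneg_left h10 h9.le
          _ = 1 := mul_inv_cancel₀ h9.ne'
      norm_num at h8 ⊢
      linarith
    rw [h4]
    have h9 := Real.exp_pos (K - 1)
    nlinarith
  have h3 : (1 + d) * HK K y ≤ (1 + d) * (-(896 / 1000)) :=
    mul_le_mul_of_nonneg_left (by linarith) (by linarith)
  have h4 : (1 - d) * HK K x ≤ (1 - d) * (74 / 100) :=
    mul_le_mul_of_nonneg_left (by linarith) (by linarith)
  nlinarith

/-- The main case, `t` positive, `w = -r` negative. -/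
theorem mid {e K d t r : ℝ} (he0 : 0 < e) (he : e ≤ 1 / 20) (hK : 1 ≤ K) (hK2 : K ≤ 1 + e / 16)
    (hd : d ^ 2 ≤ e / 16) (htr : -r ≤ t) (hr1 : r < 1)
    (hc : (1 + d) * t - (1 - d) * r + e / 4 * (t + r) ^ 2 < 0) :
    (1 + d) * HK K (Real.exp t) + (1 - d) * HK K (Real.exp (-r)) < 0 := by
  have hd1 : |d| ≤ 56 / 1000 := by
    refine abs_le_of_sq_le_sq ?_ (by norm_num)
    nlinarith
  obtain ⟨hd2, hd3⟩ := abs_le.1 hd1
  have hr : 0 < r := by
    by_contra hcon
    push Not at hcon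
    have h1 : 0 ≤ t := by linarith
    have h2 : 0 ≤ (1 + d) * t := mul_nonneg (by linarith) h1
    have h3 : (1 - d) * r ≤ 0 := mul_nonpos_of_nonneg_of_nonpos (by linarith) hcon
    have h4 : 0 ≤ e / 4 * (t + r) ^ 2 := by positivity
    linarith
  have hR := down r hr.le
  have hR2 := aux2 r hr.le
  norm_num at hR2
  have hHR : HK K (Real.exp (-r)) = (2 * (Real.exp (-r) - 1) + r * Real.exp (-r)) +
      (K - 1) * (Real.exp (-r) - 1) := by
    unfold HK
    rw [Real.log_exp]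
    ring
  have hHT : HK K (Real.exp t) = (2 * (Real.exp t - 1) - t * Real.exp t) +
      (K - 1) * (Real.exp t - 1) := by
    unfold HK
    rw [Real.log_exp]
    ring
  set κ := K - 1 with hκ
  have hκ0 : 0 ≤ κ := by linarith
  have hRlt : HK K (Real.exp (-r)) ≤ -r + r ^ 3 / 6 - r ^ 4 / 12 + r ^ 5 / 40 +
      κ * (-r + r ^ 2 / 2) := by
    rw [hHR]
    have := mul_le_mul_of_nonneg_left (show Real.exp (-r) - 1 ≤ -r + r ^ 2 / 2 by linarith) hκ0
    linarith
  rcases le_or_gt t 0 with ht | ht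
  · -- both at most zero
    have h1 : HK K (Real.exp t) ≤ 0 := by
      have h2 := down (-t) (by linarith)
      rw [neg_neg] at h2
      have h3 : Real.exp t ≤ 1 := Real.exp_le_one_iff.2 ht
      have h4 : (K - 1) * (Real.exp t - 1) ≤ 0 :=
        mul_nonpos_of_nonneg_of_nonpos (by linarith) (by linarith)
      have h5 : (0 : ℝ) ≤ -t := by linarith
      have h6 : -t < 1 := by linarith
      have h7 : -(-t) + (-t) ^ 3 / 6 - (-t) ^ 4 / 12 + (-t) ^ 5 / 40 ≤ 0 := by
        set m := -t with hm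
        have h8 : m ^ 3 ≤ m := by nlinarith [mul_nonneg h5 h5, mul_nonneg h5 (by linarith : 0 ≤ 1 - m)]
        have h9 : m ^ 5 ≤ m := by
          have : m ^ 5 = m ^ 3 * m ^ 2 := by ring
          have h10 : m ^ 2 ≤ 1 := by nlinarith
          nlinarith [pow_nonneg h5 3]
        have h10 : 0 ≤ m ^ 4 := by positivity
        linarith
      rw [hHT]
      nlinarith
    have h2 : HK K (Real.exp (-r)) < 0 := by
      have h8 : r ^ 3 ≤ r := by nlinarith [mul_pos hr hr]
      have h9 : r ^ 5 ≤ r := by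
        have : r ^ 5 = r ^ 3 * r ^ 2 := by ring
        have h10 : r ^ 2 ≤ 1 := by nlinarith
        nlinarith [pow_pos hr 3]
      have h10 : 0 ≤ r ^ 4 := by positivity
      have h11 : κ * (-r + r ^ 2 / 2) ≤ 0 :=
        mul_nonpos_of_nonneg_of_nonpos hκ0 (by nlinarith)
      linarith
    have h3 : (1 + d) * HK K (Real.exp t) ≤ 0 :=
      mul_nonpos_of_nonneg_of_nonpos (by linarith) h1
    have h4 : (1 - d) * HK K (Real.exp (-r)) < 0 :=
      mul_neg_of_pos_of_neg (by linarith) h2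
    linarith
  · have hT := up t ht.le
    -- `t < 1.12`
    have ht1 : t ≤ 112 / 100 * r := by nlinarith [sq_nonneg (t + r)]
    have hE : Real.exp t - 1 ≤ t + 6 / 5 * t ^ 2 := by
      -- from `exp t (2 - t) ≤ 2 + t`
      have h1 : Real.exp t * (2 - t) ≤ 2 + t := by
        have h2 : 0 ≤ t ^ 3 := by positivity
        have h3 : 0 ≤ t ^ 4 := by positivity
        nlinarith
      have h2 : 0 < 2 - t := by linarith
      have h3 : (1 + t + 6 / 5 * t ^ 2) * (2 - t) ≥ 2 + t := by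
        have h4 : t ≤ 112 / 100 := by linarith
        nlinarith [mul_pos ht ht]
      have h4 : Real.exp t * (2 - t) ≤ (1 + t + 6 / 5 * t ^ 2) * (2 - t) := by linarith
      have h5 := le_of_mul_le_mul_right h4 h2
      linarith
    have hTlt : HK K (Real.exp t) ≤ t - t ^ 3 / 6 - t ^ 4 / 12 + κ * (t + 6 / 5 * t ^ 2) := by
      rw [hHT]
      have := mul_le_mul_of_nonneg_left hE hκ0
      linarith
    have h1 := core he0 he hκ0 (by linarith) hd ht hr hr1 hc
    have h2 := mul_le_mul_of_nonneg_left hTlt (show (0 : ℝ) ≤ 1 + d by linarith)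
    have h3 := mul_le_mul_of_nonneg_left hRlt (show (0 : ℝ) ≤ 1 - d by linarith)
    nlinarith

end T2h2

open T2h2 in
theorem t2St_h2 : T2St := by
  intro e K d y x he0 he hK hK2 hd hy hx hor
  have hd' : (-d) ^ 2 ≤ e / 16 := by rwa [neg_sq]
  rcases le_or_gt y (Real.exp (-1)) with h1 | h1
  · exact small he hK hK2 hd hy hx h1
  rcases le_or_gt x (Real.exp (-1)) with h2 | h2
  · have := small he hK hK2 hd' hx hy h2
    have e1 : (1 + -d) * HK K x + (1 - -d) * HK K y = (1 + d) * HK K y + (1 - d) * HK K x := by ring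
    rwa [e1] at this
  have h3 : (1 + d) * Real.log y + (1 - d) * Real.log x + e / 4 * (Real.log y - Real.log x) ^ 2 < 0 := by
    rcases hor with h | h | h
    · linarith
    · linarith
    · exact h
  have hy0 : 0 < y := lt_trans (Real.exp_pos _) h1
  have hx0 : 0 < x := lt_trans (Real.exp_pos _) h2
  have ly : -1 < Real.log y := (Real.lt_log_iff_exp_lt hy0).2 h1
  have lx : -1 < Real.log x := (Real.lt_log_iff_exp_lt hx0).2 h2
  rcases le_total (Real.log x) (Real.log y) with h4 | h4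
  · have := mid (t := Real.log y) (r := -Real.log x) he0 he hK hK2 hd (by linarith) (by linarith)
      (by nlinarith)
    rwa [neg_neg, Real.exp_log hy0, Real.exp_log hx0] at this
  · have := mid (t := Real.log x) (r := -Real.log y) he0 he hK hK2 hd' (by linarith) (by linarith)
      (by nlinarith)
    rw [neg_neg, Real.exp_log hy0, Real.exp_log hx0] at this
    have e1 : (1 + -d) * HK K x + (1 - -d) * HK K y = (1 + d) * HK K y + (1 - d) * HK K x := by ring
    rwa [e1] at this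

end Pool.Agent.LineQ
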