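import Pool.Agent.LineQ.Defs
import Pool.Agent.Hyb.VEcore

/-!
# Route (C), part (P1): the entropy inequality for one antichain, asymptotic form
-/

set_option autoImplicit false

namespace Pool.Agent.LineQ

open Finset Real

/-- the facts on `n` that are used -/
private def Big (n : ℕ) : Prop :=
  1 ≤ log (n : ℝ) ∧ (10 : ℝ) ^ 7 * log (n : ℝ) ≤ (n : ℝ) ^ ((1 : ℝ) / 2) ∧
    100 ≤ (n : ℝ) ^ ((1 : ℝ) / 20)

private theorem eventually_big : ∃ n0 : ℕ, ∀ n : ℕ, n0 ≤ n → Big n := by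
  have h1 : ∀ᶠ n : ℕ in Filter.atTop, 1 ≤ log (n : ℝ) :=
    (Real.tendsto_log_atTop.comp tendsto_natCast_atTop_atTop).eventually_ge_atTop 1
  have h2 : ∀ᶠ n : ℕ in Filter.atTop, 100 ≤ (n : ℝ) ^ ((1 : ℝ) / 20) :=
    ((tendsto_rpow_atTop (by norm_num)).comp tendsto_natCast_atTop_atTop).eventually_ge_atTop 100
  have h3 : ∀ᶠ n : ℕ in Filter.atTop,
      (10 : ℝ) ^ 7 * log (n : ℝ) ≤ (n : ℝ) ^ ((1 : ℝ) / 2) := by
    have h4 := (isLittleO_log_rpow_atTop (show (0 : ℝ) < 1 / 2 by norm_num)).bound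
      (show (0 : ℝ) < 1 / 10 ^ 7 by norm_num)
    have h5 := tendsto_natCast_atTop_atTop (R := ℝ) |>.eventually h4
    filter_upwards [h5] with n hn
    rw [Real.norm_eq_abs, Real.norm_eq_abs] at hn
    have h6 : (0 : ℝ) ≤ (n : ℝ) ^ ((1 : ℝ) / 2) := by positivity
    rw [abs_of_nonneg h6] at hn
    have h7 := (le_abs_self (log (n : ℝ))).trans hn
    linarith
  obtain ⟨n0, h⟩ := Filter.eventually_atTop.1 (h1.and (h3.and h2))
  exact ⟨n0, h⟩

/-- the numbers: `y = n^(-1/5)`, `z = n^(-1/4)` -/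
private theorem numbers {n : ℕ} (h : Big n) : ∃ y z : ℝ, y = (n : ℝ) ^ (-(1 / 5) : ℝ) ∧ 0 < z ∧
    100 * z ≤ y ∧ y ≤ 1 / 100 ∧ (10 : ℝ) ^ 7 * log (n : ℝ) ≤ z ^ 2 * n ∧
    (10 : ℝ) ^ 7 * log (n : ℝ) ≤ y * n ∧ 1 ≤ log (n : ℝ) ∧ (10 : ℝ) ^ 7 ≤ n ∧ z ^ 4 * n = 1 := by
  obtain ⟨h1, h2, h3⟩ := h
  have hn0 : (0 : ℝ) < n := by
    rcases Nat.eq_zero_or_pos n with h0 | h0
    · subst h0
      simp at h1
      linarith
    · exact_mod_cast h0
  have hn1 : (1 : ℝ) ≤ n := by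
    by_contra hc
    push Not at hc
    have := Real.log_neg hn0 hc
    linarith
  set x : ℝ := (n : ℝ) ^ ((1 : ℝ) / 20) with hx
  have hx0 : 0 < x := Real.rpow_pos_of_pos hn0 _
  have hpow : ∀ j : ℕ, x ^ j = (n : ℝ) ^ ((j : ℝ) / 20) := by
    intro j
    rw [hx, ← Real.rpow_natCast, ← Real.rpow_mul hn0.le]
    congr 1
    ring
  have hx20 : x ^ 20 = n := by
    rw [hpow]
    norm_num
  have hx10 : x ^ 10 = (n : ℝ) ^ ((1 : ℝ) / 2) := by
    rw [hpow]
    norm_num
  refine ⟨(x ^ 4)⁻¹, (x ^ 5)⁻¹, ?_, by positivity, ?_, ?_, ?_, ?_, h1, ?_, ?_⟩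
  · rw [hpow, ← Real.rpow_neg hn0.le]
    norm_num
  · have h4 : (x ^ 4)⁻¹ = x * (x ^ 5)⁻¹ := by
      field_simp
    rw [h4]
    exact mul_le_mul_of_nonneg_right h3 (by positivity)
  · rw [inv_le_comm₀ (by positivity) (by norm_num)]
    norm_num
    calc (100 : ℝ) ≤ x := h3
      _ = x ^ 1 := (pow_one x).symm
      _ ≤ x ^ 4 := pow_le_pow_right₀ (by linarith) (by norm_num)
  · refine h2.trans (le_of_eq ?_)
    have h4 : (x ^ 5)⁻¹ ^ 2 * x ^ 20 = x ^ 10 := by field_simp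
    rw [← hx10, ← h4, hx20]
  · refine h2.trans ?_
    have h4 : (x ^ 4)⁻¹ * x ^ 20 = x ^ 16 := by field_simp
    rw [← hx10]
    calc x ^ 10 ≤ x ^ 16 := pow_le_pow_right₀ (by linarith) (by norm_num)
      _ = (x ^ 4)⁻¹ * n := by rw [← h4, hx20]
  · have h5 : (100 : ℝ) ^ 20 ≤ x ^ 20 := pow_le_pow_left₀ (by norm_num) h3 20
    rw [hx20] at h5
    refine le_trans ?_ h5
    norm_num
  · have h4 : (x ^ 5)⁻¹ ^ 4 * x ^ 20 = 1 := by field_simp
    rw [← h4, hx20]

/-- (P1) -/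
theorem ven : ∃ n0 : ℕ, ∀ n s k : ℕ, n0 ≤ n → n = 2 * s + k → 1 ≤ k →
    (k : ℝ) ^ 2 ≤ 101 * n * log n → ∀ F : Finset (Finset (Fin n)), F.Nonempty →
    IsAntichain (· ⊆ ·) (F : Set (Finset (Fin n))) → |lv n s F.card| ≤ 200 * log n →
    ∃ F' ⊆ F, 0 ≤ ∑ p ∈ (univ : Finset (Fin n)).offDiag, HK (Kn n) ((cnt F' p.1 p.2 : ℝ) /
      (((n - 2).choose (s - 1) : ℝ) * exp (Uf (Lam n s) (lv n s F.card)))) := by
  obtain ⟨n0, hn0⟩ := eventually_big
  refine ⟨n0, ?_⟩
  intro n s k hn hnsk hk hk2 F hne hF hf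
  obtain ⟨y, z, hy, hz, hzy, hy1, hz2, hyn, hl1, hn7, hz4⟩ := numbers (hn0 n hn)
  set L := log (n : ℝ) with hL
  have hnn : (n : ℝ) = 2 * s + k := by rw [hnsk]; push_cast; ring
  have hnpos : (0 : ℝ) < n := by linarith
  have hz1 : z ≤ 1 / 10000 := by linarith
  have hy0 : 0 < y := by linarith
  -- `k ≤ z n`
  have hkz : (k : ℝ) ≤ z * n := by
    have h1 : (k : ℝ) ^ 2 ≤ (z * n) ^ 2 := by
      calc (k : ℝ) ^ 2 ≤ 101 * n * L := hk2
        _ ≤ n * (z ^ 2 * n) := by nlinarith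
        _ = (z * n) ^ 2 := by ring
    exact (le_abs_self _).trans (abs_le_of_sq_le_sq h1 (by positivity))
  -- `t`
  obtain ⟨t, ht⟩ : ∃ t : ℕ, t = ⌈z * n⌉₊ := ⟨_, rfl⟩
  have ht1 : z * n ≤ t := by rw [ht]; exact Nat.le_ceil _
  have ht2 : (t : ℝ) < z * n + 1 := by rw [ht]; exact Nat.ceil_lt_add_one (by positivity)
  have hzn : (10 : ℝ) ^ 7 ≤ z * n := by
    have h1 : z ^ 2 * n ≤ z * n := by
      have : z ^ 2 ≤ z := by nlinarith
      exact mul_le_mul_of_nonneg_right this hnpos.le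
    have h2 : (10 : ℝ) ^ 7 ≤ (10 : ℝ) ^ 7 * L := by
      have : (0 : ℝ) < (10 : ℝ) ^ 7 := by norm_num
      nlinarith
    linarith
  have hzn2 : z * n ≤ n / 10000 := by
    have := mul_le_mul_of_nonneg_right hz1 hnpos.le
    linarith
  have hts : t + 1 ≤ s := by
    have h1 : (t : ℝ) + 1 ≤ s := by
      have h2 : (n : ℝ) / 10000 ≤ n / 10 := by linarith
      norm_num at hzn
      linarith
    exact_mod_cast h1
  set r := s - t with hr
  have hst : s = r + t := by omega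
  have hstR : (s : ℝ) = r + t := by rw [hst]; push_cast; ring
  have hnm : n = 2 * r + (k + 2 * t) := by omega
  -- the constants of `ve_core`
  set S : Finset (Fin n) := univ with hS
  have hSc : S.card = n := by rw [hS, card_univ, Fintype.card_fin]
  set f := lv n s F.card with hfd
  have hf' : f = log ((F.card : ℝ) / (n.choose s : ℝ)) := rfl
  have hf1 := (abs_le.1 hf).1
  have hf2 := (abs_le.1 hf).2
  have hLa : Hyb.La n k * (k : ℝ) ^ 2 / 4 ≤ 60 * L := by
    have h1 := Hyb.La_le hk (show k ≤ n by omega)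
    have hk0 : (0 : ℝ) ≤ (k : ℝ) ^ 2 := by positivity
    have h2 : (0 : ℝ) < ((n : ℝ) + 1) ^ 2 - (k : ℝ) ^ 2 := by nlinarith
    have h3 : 2 * ((n : ℝ) + 1) / (((n : ℝ) + 1) ^ 2 - (k : ℝ) ^ 2) ≤ 2.2 / n := by
      rw [div_le_div_iff₀ h2 hnpos]
      have h4 : (k : ℝ) ^ 2 ≤ (n / 10000) ^ 2 := by
        have : (k : ℝ) ≤ n / 10000 := by linarith
        exact pow_le_pow_left₀ (Nat.cast_nonneg k) this 2
      nlinarith
    have h4 : Hyb.La n k * (k : ℝ) ^ 2 ≤ 2.2 / n * (101 * n * L) := by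
      calc Hyb.La n k * (k : ℝ) ^ 2 ≤ 2.2 / n * (k : ℝ) ^ 2 :=
            mul_le_mul_of_nonneg_right (h1.trans h3) hk0
        _ ≤ _ := mul_le_mul_of_nonneg_left hk2 (by positivity)
    have h5 : 2.2 / n * (101 * n * L) = 222.2 * L := by
      field_simp
      ring
    rw [h5] at h4
    linarith
  set T := 260 * L with hTd
  have hT0 : 0 ≤ T := by rw [hTd]; linarith
  have hT : Hyb.La S.card k * (k : ℝ) ^ 2 / 4 - f ≤ T := by
    rw [hSc, hTd]
    linarith
  have hLam1 := Hyb.Lam_le hnsk hk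
  have hLam2 := Hyb.le_Lam hnsk hk
  set B := Hyb.Lam n s k + f with hBd
  have hLn : L ≤ n / 10 ^ 7 := by
    have : z ^ 2 * n ≤ n := by
      have : z ^ 2 ≤ 1 := by nlinarith
      nlinarith
    linarith
  have hB1 : B ≤ n / 2 + 201 * L := by
    rw [hBd]
    linarith
  have hB2 : (n : ℝ) / 4 ≤ B := by
    have h1 : 0.4 * (n : ℝ) ≤ ((n : ℝ) ^ 2 - (k : ℝ) ^ 2) / (2 * ((n : ℝ) + 1)) := by
      rw [le_div_iff₀ (by positivity)]
      have h4 : (k : ℝ) ^ 2 ≤ (n / 10000) ^ 2 := by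
        have : (k : ℝ) ≤ n / 10000 := by linarith
        exact pow_le_pow_left₀ (Nat.cast_nonneg k) this 2
      nlinarith
    rw [hBd]
    linarith
  have hB0 : 0 < B := by linarith
  set τ : ℝ := 1 / (n : ℝ) ^ 2 with hτd
  have hτ0 : 0 < τ := by rw [hτd]; positivity
  have hτn : τ * n ≤ 1 / 10 ^ 7 := by
    rw [hτd]
    have : 1 / (n : ℝ) ^ 2 * n = 1 / n := by field_simp
    rw [this]
    exact one_div_le_one_div_of_le (by norm_num) hn7
  have hτ1 : τ ≤ 1 / 2 := by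
    have h1 : τ * 1 ≤ τ * n := mul_le_mul_of_nonneg_left (by linarith) hτ0.le
    norm_num at hτn
    linarith
  have hFc : (0 : ℝ) < F.card := by exact_mod_cast hne.card_pos
  have hC : (0 : ℝ) < (n.choose s : ℝ) := by exact_mod_cast Nat.choose_pos (by omega)
  have hLa0 := Hyb.La_pos hk (show k ≤ n by omega)
  have hLa2 := Hyb.La_ge hk (show k ≤ n by omega)
  -- the removed sizes
  have hW : ∀ a ≤ S.card, (a < r ∨ S.card < a + r) → (S.card.choose a : ℝ) ≤ τ * F.card := by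
    rw [hSc]
    intro a ha har
    have h1 := Hyb.binconv' hnsk hk ha
    have haR : (a : ℝ) * ((n : ℝ) - a) ≤ (r : ℝ) * ((n : ℝ) - r) := by
      have hrn : 2 * (r : ℝ) ≤ n := by
        rw [hnn, hstR]
        have h2 : (0 : ℝ) ≤ t := Nat.cast_nonneg t
        have h3 : (0 : ℝ) ≤ k := Nat.cast_nonneg k
        linarith
      rcases har with h | h
      · have h2 : (a : ℝ) ≤ r := by exact_mod_cast h.le
        nlinarith [mul_nonneg (show (0 : ℝ) ≤ (r : ℝ) - a by linarith)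
          (show (0 : ℝ) ≤ (n : ℝ) - r - a by linarith)]
      · have h2 : (n : ℝ) ≤ a + r := by exact_mod_cast h.le
        nlinarith [mul_nonneg (show (0 : ℝ) ≤ (a : ℝ) - r by linarith)
          (show (0 : ℝ) ≤ (a : ℝ) + r - n by linarith)]
    have h2 : (a : ℝ) * ((n : ℝ) - a) - (s : ℝ) * ((n : ℝ) - s) ≤ -((z * n) ^ 2) := by
      have h3 : (r : ℝ) * ((n : ℝ) - r) - (s : ℝ) * ((n : ℝ) - s) = -((t : ℝ) ^ 2 + t * k) := by
        rw [hnn, hstR]; ring
      have h4 : (z * n) ^ 2 ≤ (t : ℝ) ^ 2 := pow_le_pow_left₀ (by positivity) ht1 2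
      have h5 : (0 : ℝ) ≤ (t : ℝ) * k := by positivity
      linarith
    have h3 : Hyb.La n k * ((a : ℝ) * ((n : ℝ) - a) - (s : ℝ) * ((n : ℝ) - s)) ≤
        -(z ^ 2 * n) := by
      have h4 := mul_le_mul_of_nonneg_left h2 hLa0.le
      have h5 : 2 / ((n : ℝ) + 1) * (z * n) ^ 2 ≤ Hyb.La n k * (z * n) ^ 2 :=
        mul_le_mul_of_nonneg_right hLa2 (by positivity)
      have h6 : z ^ 2 * n ≤ 2 / ((n : ℝ) + 1) * (z * n) ^ 2 := by
        rw [div_mul_eq_mul_div, le_div_iff₀ (by positivity)]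
        have h7 : 0 ≤ z ^ 2 * n * (n - 1) := by
          apply mul_nonneg (by positivity)
          linarith
        nlinarith
      linarith
    have h4 : (F.card : ℝ) = (n.choose s : ℝ) * exp f := by
      rw [hf', Real.exp_log (div_pos hFc hC), mul_comm, div_mul_cancel₀ _ hC.ne']
    have h5 : τ = exp (-(2 * L)) := by
      rw [hτd, Real.exp_neg, hL, show 2 * log (n : ℝ) = log ((n : ℝ) ^ 2) by
        rw [Real.log_pow]; push_cast; ring, Real.exp_log (by positivity), one_div]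
    rw [h4, h5]
    have h6 : exp (Hyb.La n k * ((a : ℝ) * ((n : ℝ) - a) - (s : ℝ) * ((n : ℝ) - s))) ≤
        exp (-(2 * L)) * exp f := by
      rw [← Real.exp_add]
      apply Real.exp_le_exp.2
      have : (202 : ℝ) * L ≤ 10 ^ 7 * L := by
        apply mul_le_mul_of_nonneg_right _ (by linarith)
        norm_num
      linarith
    calc (n.choose a : ℝ) ≤ _ := h1
      _ ≤ (n.choose s : ℝ) * (exp (-(2 * L)) * exp f) := mul_le_mul_of_nonneg_left h6 hC.le
      _ = _ := by ring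
  -- the constant `th`
  have hth := (VE.th_bounds (k + 2 * t) r).1
  have hthn : VE.th (2 * r + (k + 2 * t)) r = VE.th n r := by rw [← hnm]
  rw [hthn] at hth
  have hth2 : (n : ℝ) / 2 * (1 - 5 * z) ≤ VE.th n r := by
    refine le_trans ?_ hth
    have h1 : (n : ℝ) / 2 * (1 - 4 * z) ≤ r := by
      have h2 : (n : ℝ) = 2 * r + k + 2 * t := by rw [hnn, hstR]; ring
      have h3 : (k : ℝ) + 2 * t ≤ 4 * (z * n) := by
        norm_num at hzn
        linarith
      linarith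
    have h2 : 20 / (((k + 2 * t : ℕ) : ℝ) + 1) ≤ z / 2 := by
      rw [div_le_iff₀ (by positivity)]
      push_cast
      have h3 : z * n ≤ (k : ℝ) + 2 * t + 1 := by
        have : (0 : ℝ) ≤ k := Nat.cast_nonneg k
        norm_num at hzn
        linarith
      have h4 : z / 2 * (z * n) ≤ z / 2 * ((k : ℝ) + 2 * t + 1) :=
        mul_le_mul_of_nonneg_left h3 (by positivity)
      have h5 : (40 : ℝ) ≤ z ^ 2 * n := by
        norm_num at hz2
        linarith
      nlinarith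
    have h3 : 0 ≤ 1 - 20 / (((k + 2 * t : ℕ) : ℝ) + 1) := by linarith
    calc (n : ℝ) / 2 * (1 - 5 * z) ≤ (n : ℝ) / 2 * (1 - 4 * z) * (1 - z / 2) := by
          have : 0 ≤ (n : ℝ) / 2 * (z / 2 + 2 * z ^ 2) := by positivity
          nlinarith
      _ ≤ (r : ℝ) * (1 - z / 2) := mul_le_mul_of_nonneg_right h1 (by linarith)
      _ ≤ _ := mul_le_mul_of_nonneg_left (by linarith) (Nat.cast_nonneg r)
  have hth0 : 0 < VE.th n r := by
    refine lt_of_lt_of_le ?_ hth2
    apply mul_pos (by positivity)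
    linarith
  have hTB : T / B ≤ y / 100 := by
    rw [div_le_iff₀ hB0, hTd]
    have h1 : y / 100 * (n / 4) ≤ y / 100 * B := mul_le_mul_of_nonneg_left hB2 (by positivity)
    norm_num at hyn
    linarith
  have hτB : 2 * τ * B ≤ 2 / 10 ^ 7 := by
    have h1 : B ≤ n := by
      norm_num at hLn
      linarith
    have h2 : τ * B ≤ τ * n := mul_le_mul_of_nonneg_left h1 hτ0.le
    linarith
  have hτB' : 2 * τ * B ≤ z / 100 := by
    have h1 : B ≤ n := by
      norm_num at hLn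
      linarith
    have h2 : τ * B ≤ τ * n := mul_le_mul_of_nonneg_left h1 hτ0.le
    have h3 : τ * n = 1 / n := by rw [hτd]; field_simp
    have h4 : 200 * (1 / (n : ℝ)) ≤ z := by
      rw [mul_one_div, div_le_iff₀ hnpos]
      norm_num at hzn
      linarith
    rw [h3] at h2
    linarith
  have hK : Kn n = 1 + y := by rw [Kn, hy]
  have hmain := Hyb.ve_core (S := S) (F := F) (s := s) (k := k) (r := r) (T := T) (τ := τ)
    (K := Kn n) (fun A _ => subset_univ A) hF hne (by rw [hSc]; exact hnsk) hk (by omega)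
    (by omega) (f := f) (B := B) (by rw [hSc]; exact hf') hT0 hT hτ0 hτ1 hW (by rw [hSc]) hB0
    (by norm_num at hτB; linarith) (by rw [hK]; linarith) (by rw [hSc]; exact hth0)
    (by
      rw [hSc, hK]
      -- left side
      have hz0 := hz.le
      have e1 : B + (T + 2) * (1 + 1 / B) + 2 * τ * (B + T) ≤ n / 2 + 1000 * L := by
        have h1 : 1 / B ≤ 1 / 100 := by
          apply one_div_le_one_div_of_le (by norm_num)
          norm_num at hn7
          linarith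
        have h2 : (T + 2) * (1 + 1 / B) ≤ (T + 2) * 1.01 :=
          mul_le_mul_of_nonneg_left (by linarith) (by linarith)
        have h3 : 2 * τ * (B + T) ≤ 1 := by
          have h4 : T ≤ B := by
            have h5 : T / B ≤ 1 := by linarith
            rwa [div_le_one hB0] at h5
          have h6 : 2 * τ * (B + T) ≤ 2 * τ * (B + B) :=
            mul_le_mul_of_nonneg_left (by linarith) (by positivity)
          norm_num at hτB
          linarith
        rw [hTd] at h2 ⊢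
        linarith
      have e2 : (1 : ℝ) + y / 2 ≤ (1 - 5 * z) * ((1 + y - T / B) * (1 - 2 * τ * B)) := by
        have h1 : (1 + 0.99 * y) * (1 - z / 100) ≤ (1 + y - T / B) * (1 - 2 * τ * B) := by
          apply mul_le_mul (by linarith) (by linarith) (by linarith) (by linarith)
        have h2 : (1 - 5 * z) * ((1 + 0.99 * y) * (1 - z / 100)) ≤
            (1 - 5 * z) * ((1 + y - T / B) * (1 - 2 * τ * B)) :=
          mul_le_mul_of_nonneg_left h1 (by linarith)
        refine le_trans ?_ h2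
        nlinarith [mul_nonneg hz0 hy0.le, mul_nonneg hz0 hz0]
      have e3 : (n : ℝ) / 2 * ((1 - 5 * z) * ((1 + y - T / B) * (1 - 2 * τ * B))) ≤
          VE.th n r * ((1 + y - T / B) * (1 - 2 * τ * B)) := by
        rw [← mul_assoc]
        apply mul_le_mul_of_nonneg_right hth2
        apply mul_nonneg
        · linarith
        · norm_num at hτB
          linarith
      have e4 : (n : ℝ) / 2 * (1 + y / 2) ≤
          (n : ℝ) / 2 * ((1 - 5 * z) * ((1 + y - T / B) * (1 - 2 * τ * B))) :=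
        mul_le_mul_of_nonneg_left e2 (by positivity)
      have e5 : 1000 * L ≤ (n : ℝ) / 2 * (y / 2) := by
        norm_num at hyn
        linarith
      linarith)
  refine ⟨Hyb.mid S r F, Hyb.mid_sub, ?_⟩
  rw [hSc] at hmain
  have hLamEq : Lam n s = Hyb.Lam n s k := by
    have : n - 2 * s = k := by omega
    rw [Lam, this]
    rfl
  rw [hLamEq]
  exact hmain

end Pool.Agent.LineQ
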