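import Pool.Agent.LineQ.Params
import Pool.Agent.LineQ.T2h2
import Pool.Agent.LineQ.VEn
import Pool.Agent.LineQ.Main

/-!
# Route (C): the step statement and the final theorems without hypotheses
-/

set_option autoImplicit false

namespace Pool.Agent.LineQ

open Finset

theorem vEnSt : VEnSt := by
  obtain ⟨n0, h⟩ := ven
  refine ⟨n0, ?_⟩
  intro n s k h0 hn _ hk hk2 F hF0 hF hl
  exact h n s k h0 hn hk (by rw [mul_assoc]; exact hk2) F hF0 hF hl

theorem stepSt_all : StepSt := stepSt vEnSt t2St_h2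

/-- **The even half of Q1 for all `n ≥ N` and all `k`.** -/
theorem even_half_all : ∃ N : ℕ, ∀ n k : ℕ, N ≤ n → 1 ≤ k → k ≤ n →
    Even (n + k) → ∀ F : Finset (Finset (Fin n)), IsAntichain (· ⊆ ·) (F : Set (Finset (Fin n))) →
      (∀ A ∈ F, ∀ B ∈ F, (symmDiff A B).card ≤ n - k) → F.card ≤ n.choose ((n + k) / 2) :=
  even_all_large stepSt_all

/-- **The cross product bound for large `k` with `k² < 100 n ln n`.** -/
theorem prod_all : ∃ k0 : ℕ, ∀ n s k : ℕ, k0 ≤ k → n = 2 * s + k →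
    (k : ℝ) ^ 2 < 100 * ((n : ℝ) * Real.log n) → ∀ F G : Finset (Finset (Fin n)),
      IsAntichain (· ⊆ ·) (F : Set (Finset (Fin n))) →
      IsAntichain (· ⊆ ·) (G : Set (Finset (Fin n))) →
      (∀ A ∈ F, ∀ B ∈ G, (symmDiff A B).card ≤ 2 * s) → F.card * G.card ≤ (n.choose s) ^ 2 :=
  prod_large stepSt_all

end Pool.Agent.LineQ
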