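import Pool.Agent.LineQ.Num83
import Pool.Agent.LineQ.Fin
import Pool.Agent.LineQ.CrossLaw

/-! The base of route (C): the window `100 n ln n ≤ k ^ 2 ≤ 101 n ln n`. -/

namespace LineQ

open Finset DiamEven DiamSqrt

variable {n : ℕ}

/-- the tail term -/
noncomputable def TT (n : ℕ) (κ : ℝ) : ℝ := (n / κ + 10) * Real.exp (-(κ ^ 2 / (2 * n)))

/-- the mean bound with a real level (VLOG) -/
def Vlog (n : ℕ) : Prop :=
  ∀ K : Finset (Finset (Fin n)), IsAntichain (· ⊆ ·) (K : Set (Finset (Fin n))) →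
    ∀ (a : ℕ) (t : ℝ), 0 ≤ t → t ≤ 1 → 2 * a + 1 ≤ n →
      0 < (n : ℝ) - 2 * (a + t) → (n : ℝ) - 2 * (a + t) ≤ n / 4 →
      (n.choose a : ℝ) ^ (1 - t) * (n.choose (a + 1) : ℝ) ^ t ≤ K.card →
      ∀ f : Finset (Fin n) → ℕ, IsDist K f →
        ∑ X ∈ (univ : Finset (Fin n)).powerset, (f X : ℝ) ≤
          2 ^ n * (((n : ℝ) - 2 * (a + t)) / 2 + TT n ((n : ℝ) - 2 * (a + t)))

/-- the potential bound for pairs -/
def PP (e : ℝ) (n s : ℕ) : Prop :=
  ∀ F G : Finset (Finset (Fin n)), F.Nonempty → G.Nonempty →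
    IsAntichain (· ⊆ ·) (F : Set (Finset (Fin n))) →
    IsAntichain (· ⊆ ·) (G : Set (Finset (Fin n))) →
    (∀ A ∈ F, ∀ B ∈ G, (symmDiff A B).card ≤ 2 * s) →
    ∀ f g : ℝ, f = Real.log (F.card / n.choose s) → g = Real.log (G.card / n.choose s) →
      e * |f - g| ≤ 1 → f + g + e / 4 * (f - g) ^ 2 ≤ 0

theorem vlog_level (hV : Vlog n) (K : Finset (Finset (Fin n)))
    (hK : IsAntichain (· ⊆ ·) (K : Set (Finset (Fin n)))) (hne : K.Nonempty)
    (f : Finset (Fin n) → ℕ) (hf : IsDist K f) (y κ : ℝ) (hy : 0 ≤ y)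
    (hκ : κ = n - 2 * y) (h0 : 0 < κ) (h4 : κ ≤ n / 4) (hL : Lg n y ≤ Real.log K.card) :
    ∑ X ∈ (univ : Finset (Fin n)).powerset, (f X : ℝ) ≤ 2 ^ n * (κ / 2 + TT n κ) := by
  have ha : (⌊y⌋₊ : ℝ) ≤ y := Nat.floor_le hy
  have ha' : y < ⌊y⌋₊ + 1 := Nat.lt_floor_add_one y
  obtain ⟨a, haa⟩ : ∃ a, a = ⌊y⌋₊ := ⟨_, rfl⟩
  rw [← haa] at ha ha'
  have e1 : (a : ℝ) + (y - a) = y := by ring
  have han : 2 * a + 1 ≤ n := by
    have : (2 : ℝ) * a < n := by linarith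
    have : 2 * a < n := by exact_mod_cast this
    omega
  have hc0 : (0 : ℝ) < n.choose a := by exact_mod_cast Nat.choose_pos (by omega)
  have hc1 : (0 : ℝ) < n.choose (a + 1) := by exact_mod_cast Nat.choose_pos (by omega)
  have hKc : (0 : ℝ) < K.card := by exact_mod_cast card_pos.2 hne
  have h := hV K hK a (y - a) (by linarith) (by linarith) han (by rw [e1, ← hκ]; exact h0)
    (by rw [e1, ← hκ]; exact h4) (by
      rw [Real.rpow_def_of_pos hc0, Real.rpow_def_of_pos hc1, ← Real.exp_add]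
      rw [← Real.le_log_iff_exp_le hKc]
      refine le_trans (le_of_eq ?_) hL
      unfold Lg
      rw [← haa]
      ring) f hf
  rw [e1, ← hκ] at h
  exact h

/-- the pair condition for the mean distances -/
theorem pair_mean {s k : ℕ} (hn : n = 2 * s + k) (F G : Finset (Finset (Fin n)))
    (hd : ∀ A ∈ F, ∀ B ∈ G, (symmDiff A B).card ≤ 2 * s)
    (f g : Finset (Fin n) → ℕ) (hf : IsDist F f) (hg : IsDist G g) :
    (2 : ℝ) ^ n * k ≤ ∑ X ∈ (univ : Finset (Fin n)).powerset, (f X : ℝ) +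
      ∑ X ∈ (univ : Finset (Fin n)).powerset, (g X : ℝ) := by
  have disj : ∀ X, k ≤ f X + g Xᶜ := by
    intro X
    obtain ⟨A, hA, hA2⟩ := hf.ex X
    obtain ⟨B, hB, hB2⟩ := hg.ex Xᶜ
    have h1 := hd A hA B hB
    have h2 := card_symmDiff_compl X B
    have h3 := tri X A B
    omega
  have e1 : ∑ X ∈ (univ : Finset (Fin n)).powerset, (g X : ℝ) =
      ∑ X ∈ (univ : Finset (Fin n)).powerset, (g Xᶜ : ℝ) := by
    apply Finset.sum_nbij' (fun X => Xᶜ) (fun X => Xᶜ)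
    · intro X _; simp
    · intro X _; simp
    · intro X _; simp
    · intro X _; simp
    · intro X _; simp
  rw [e1, ← Finset.sum_add_distrib]
  have e2 : (2 : ℝ) ^ n * k = ∑ _X ∈ (univ : Finset (Fin n)).powerset, (k : ℝ) := by
    simp
  rw [e2]
  refine Finset.sum_le_sum fun X _ => ?_
  exact_mod_cast disj X

/-- the levels of a pair -/
theorem pair_level {s k : ℕ} (hn : n = 2 * s + k) (hV : Vlog n) (F G : Finset (Finset (Fin n)))
    (hF : IsAntichain (· ⊆ ·) (F : Set (Finset (Fin n)))) (hFn : F.Nonempty)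
    (hG : IsAntichain (· ⊆ ·) (G : Set (Finset (Fin n)))) (hGn : G.Nonempty)
    (hd : ∀ A ∈ F, ∀ B ∈ G, (symmDiff A B).card ≤ 2 * s)
    (x y : ℝ) (hx : 0 ≤ x) (hx2 : 2 * x < k) (hk4 : (k : ℝ) + 2 * y ≤ n / 4) (hy : 0 ≤ y)
    (hLF : Lg n (s + x) ≤ Real.log F.card)
    (hT : TT n (k - 2 * x) + TT n (k + 2 * y) < x - y) :
    Real.log G.card < Lg n (s - y) := by
  by_contra hcon
  push Not at hcon
  obtain ⟨f, hf⟩ := exists_isDist hFn
  obtain ⟨g, hg⟩ := exists_isDist hGn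
  have hnR : (n : ℝ) = 2 * s + k := by exact_mod_cast hn
  have hs0 : (0 : ℝ) ≤ s := Nat.cast_nonneg s
  have h1 := vlog_level hV F hF hFn f hf (s + x) (k - 2 * x) (by linarith)
    (by rw [hnR]; ring) (by linarith) (by linarith) hLF
  have h2 := vlog_level hV G hG hGn g hg (s - y) (k + 2 * y) (by linarith)
    (by rw [hnR]; ring) (by linarith) hk4 hcon
  have h3 := pair_mean hn F G hd f g hf hg
  have h4 : (2 : ℝ) ^ n * k ≤ 2 ^ n * (((k : ℝ) - 2 * x) / 2 + TT n (k - 2 * x)) +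
      2 ^ n * (((k : ℝ) + 2 * y) / 2 + TT n (k + 2 * y)) := by linarith
  rw [← mul_add] at h4
  have h5 := le_of_mul_le_mul_left h4 (by positivity)
  linarith

/-- numerical facts of the window -/
theorem win_fac (k s n : ℕ) (hk : 10 ^ 10 ≤ k) (hW : Win k s n) :
    k ≤ n ∧ 16 * k ≤ n ∧ (10 : ℝ) ^ 10 ≤ n := by
  obtain ⟨hn, h1, h2⟩ := hW
  have hkn : k ≤ n := by omega
  have hnR : (10 : ℝ) ^ 10 ≤ n := by exact_mod_cast (hk.trans hkn)
  have hn0 : (0 : ℝ) < n := by linarith [show (0 : ℝ) < 10 ^ 10 by norm_num]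
  refine ⟨hkn, ?_, hnR⟩
  -- `ln n ≤ 2 √ n`
  have hs := Real.sq_sqrt hn0.le
  have hs0 : 0 < Real.sqrt n := Real.sqrt_pos.2 hn0
  have hs5 : (10 : ℝ) ^ 5 ≤ Real.sqrt n := by
    apply Real.le_sqrt_of_sq_le
    norm_num at hnR ⊢
    exact hnR
  have hlog : Real.log n ≤ 2 * Real.sqrt n := by
    have h3 : Real.log n = 2 * Real.log (Real.sqrt n) := by
      rw [Real.log_sqrt hn0.le]; ring
    have h4 := Real.log_le_sub_one_of_pos hs0
    linarith
  have h5 : (16 * (k : ℝ)) ^ 2 ≤ (n : ℝ) ^ 2 := by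
    have h6 : 101 * (n : ℝ) * Real.log n ≤ 101 * n * (2 * Real.sqrt n) := by
      apply mul_le_mul_of_nonneg_left hlog (by positivity)
    have h7 : 256 * (101 * (n : ℝ) * (2 * Real.sqrt n)) ≤ n ^ 2 := by
      have h8 : 256 * 101 * 2 * Real.sqrt n ≤ n := by
        norm_num at hs5
        nlinarith
      nlinarith
    nlinarith
  have h9 : 16 * (k : ℝ) ≤ n := by
    apply le_of_sq_le_sq h5 hn0.le
  exact_mod_cast h9

theorem TT_anti {n : ℕ} (hn : 0 < n) {κ κ' : ℝ} (h0 : 0 < κ) (h : κ ≤ κ') : TT n κ' ≤ TT n κ := by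
  unfold TT
  have hnR : (0 : ℝ) < n := by exact_mod_cast hn
  apply mul_le_mul
  · gcongr
  · gcongr
  · positivity
  · positivity

theorem log_pow_exp {n : ℕ} (hn : 0 < n) (m : ℕ) :
    Real.exp (-(m * Real.log n)) = 1 / (n : ℝ) ^ m := by
  have hnR : (0 : ℝ) < n := by exact_mod_cast hn
  rw [Real.exp_neg, one_div, ← Real.log_pow, Real.exp_log (by positivity)]

theorem TT_quarter (k s n : ℕ) (hk : 10 ^ 10 ≤ k) (hW : Win k s n) (κ : ℝ)
    (h : (k : ℝ) / 4 ≤ κ) : TT n κ ≤ 2 / (n : ℝ) ^ 2 := by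
  obtain ⟨h1, h2, h3⟩ := win_fac k s n hk hW
  obtain ⟨hn, h4, h5⟩ := hW
  have hkR : (10 : ℝ) ^ 10 ≤ k := by exact_mod_cast hk
  have hn0 : (0 : ℝ) < n := by linarith [show (0 : ℝ) < 10 ^ 10 by norm_num]
  have hk0 : (0 : ℝ) < k := by linarith [show (0 : ℝ) < 10 ^ 10 by norm_num]
  refine (TT_anti (by exact_mod_cast hn0) (by positivity) h).trans ?_
  unfold TT
  have hl0 : 0 ≤ Real.log n := Real.log_nonneg (by linarith [show (1 : ℝ) < 10 ^ 10 by norm_num])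
  have e1 : Real.exp (-(((k : ℝ) / 4) ^ 2 / (2 * n))) ≤ 1 / (n : ℝ) ^ 3 := by
    rw [← log_pow_exp (by exact_mod_cast hn0) 3]
    apply Real.exp_le_exp.2
    apply neg_le_neg
    rw [le_div_iff₀ (by positivity)]
    push_cast
    nlinarith
  have e2 : (n : ℝ) / (k / 4) + 10 ≤ 2 * n := by
    have : (n : ℝ) / (k / 4) ≤ n := by
      rw [div_le_iff₀ (by positivity)]
      have hk4 : (4 : ℝ) ≤ k := by linarith [show (4 : ℝ) ≤ 10 ^ 10 by norm_num]
      nlinarith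
    linarith [show (10 : ℝ) ≤ 10 ^ 10 by norm_num]
  calc ((n : ℝ) / (k / 4) + 10) * Real.exp (-(((k : ℝ) / 4) ^ 2 / (2 * n)))
      ≤ (2 * n) * (1 / (n : ℝ) ^ 3) := by
        apply mul_le_mul e2 e1 (Real.exp_pos _).le (by positivity)
    _ = 2 / (n : ℝ) ^ 2 := by
        field_simp

theorem TT_full (k s n : ℕ) (hk : 10 ^ 10 ≤ k) (hW : Win k s n) (κ : ℝ)
    (h : (k : ℝ) - 2 ≤ κ) : TT n κ ≤ 1 / (n : ℝ) ^ 48 := by
  obtain ⟨h1, h2, h3⟩ := win_fac k s n hk hW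
  obtain ⟨hn, h4, h5⟩ := hW
  have hkR : (10 : ℝ) ^ 10 ≤ k := by exact_mod_cast hk
  have hn0 : (0 : ℝ) < n := by linarith [show (0 : ℝ) < 10 ^ 10 by norm_num]
  have hk0 : (2 : ℝ) < k := by linarith [show (2 : ℝ) < 10 ^ 10 by norm_num]
  have hknR : (k : ℝ) ≤ n := by exact_mod_cast h1
  refine (TT_anti (by exact_mod_cast hn0) (by linarith) h).trans ?_
  unfold TT
  have hl0 : 0 ≤ Real.log n := Real.log_nonneg (by linarith [show (1 : ℝ) < 10 ^ 10 by norm_num])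
  have e1 : Real.exp (-(((k : ℝ) - 2) ^ 2 / (2 * n))) ≤ 8 / (n : ℝ) ^ 50 := by
    have e0 : Real.exp 2 ≤ 8 := by
      have h13 : Real.exp 2 = Real.exp 1 * Real.exp 1 := by
        rw [← Real.exp_add]; norm_num
      have h14 := Real.exp_one_lt_d9
      have h15 := Real.exp_pos 1
      rw [h13]
      nlinarith
    calc Real.exp (-(((k : ℝ) - 2) ^ 2 / (2 * n))) ≤ Real.exp (2 + -((50 : ℕ) * Real.log n)) := by
          apply Real.exp_le_exp.2
          have : (50 : ℕ) * Real.log n - 2 ≤ ((k : ℝ) - 2) ^ 2 / (2 * n) := by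
            rw [le_div_iff₀ (by positivity)]
            push_cast
            nlinarith
          linarith
      _ = Real.exp 2 * (1 / (n : ℝ) ^ 50) := by
          rw [Real.exp_add, log_pow_exp (by exact_mod_cast hn0)]
      _ ≤ 8 * (1 / (n : ℝ) ^ 50) := by
          apply mul_le_mul_of_nonneg_right e0 (by positivity)
      _ = 8 / (n : ℝ) ^ 50 := by ring
  have e2 : (n : ℝ) / (k - 2) + 10 ≤ 2 * n := by
    have : (n : ℝ) / (k - 2) ≤ n := by
      rw [div_le_iff₀ (by linarith)]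
      have hk4 : (3 : ℝ) ≤ k := by linarith [show (3 : ℝ) ≤ 10 ^ 10 by norm_num]
      nlinarith
    linarith [show (10 : ℝ) ≤ 10 ^ 10 by norm_num]
  have hn1 : 0 < n := by exact_mod_cast hn0
  calc ((n : ℝ) / (k - 2) + 10) * Real.exp (-(((k : ℝ) - 2) ^ 2 / (2 * n)))
      ≤ (2 * n) * (8 / (n : ℝ) ^ 50) := by
        apply mul_le_mul e2 e1 (Real.exp_pos _).le (by positivity)
    _ = 16 / (n : ℝ) ^ 49 := by
        field_simp
        norm_num
    _ ≤ 1 / (n : ℝ) ^ 48 := by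
        rw [div_le_div_iff₀ (by positivity) (by positivity)]
        have e3 : (n : ℝ) ^ 49 = n ^ 48 * n := by ring
        rw [e3]
        have e4 : (0 : ℝ) < (n : ℝ) ^ 48 := by positivity
        have e5 : (16 : ℝ) ≤ n := by linarith [show (16 : ℝ) ≤ 10 ^ 10 by norm_num]
        nlinarith

end LineQ
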