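import Pool.Agent.LineQ.VlogA

/-! Mean distance to an antichain, logarithmic interpolation of the levels. -/

namespace LineQ

open Finset DiamEven

variable {α : Type*} [DecidableEq α]

/-- the statement for ground sets of size `m` -/
def LogStat (α : Type*) [DecidableEq α] (L : ℝ) (m : ℕ) : Prop :=
  ∀ (S : Finset α), S.card = m → ∀ K : Finset (Finset α),
    IsAntichain (· ⊆ ·) (K : Set (Finset α)) → (∀ B ∈ K, B ⊆ S) →
    ∀ (a : ℕ) (t : ℝ), 0 ≤ t → t ≤ 1 → 2 * a + 1 ≤ m →
    (m.choose a : ℝ) ^ (1 - t) * (m.choose (a + 1) : ℝ) ^ t ≤ K.card →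
    Sel S K (gg m ((a : ℝ) + t) + ee L m ((a : ℝ) + t))

lemma rpow_mul_rpow (C Q t : ℝ) (hC : 0 < C) (hQ : 0 < Q) :
    C ^ (1 - t) * (C * Q) ^ t = C * Q ^ t := by
  rw [Real.mul_rpow hC.le hQ.le, ← mul_assoc, ← Real.rpow_add hC]
  rw [show 1 - t + t = 1 by ring, Real.rpow_one]

/-- bound for one half -/
lemma half_log {L : ℝ} {m : ℕ} (ih : LogStat α L m) (S : Finset α) (hm : S.card = m)
    (K : Finset (Finset α)) (hK : IsAntichain (· ⊆ ·) (K : Set (Finset α)))
    (hS : ∀ B ∈ K, B ⊆ S) (a : ℕ) (t : ℝ) (h0 : 0 ≤ t) (h1 : t ≤ 1) (h2 : 2 * a + 1 ≤ m)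
    (hKne : K.Nonempty) (Q r : ℝ) (hQ : (m.choose (a + 1) : ℝ) = m.choose a * Q) (hQ1 : 1 < Q)
    (hr : ∀ b, a = b + 1 → (m.choose b : ℝ) = m.choose a * r) (hr0 : 0 < r) (hr1 : r < 1)
    (hP : 1 ≤ a → (m.choose a : ℝ) * r ^ (1 - t) ≤ K.card) :
    ∃ y : ℝ, t - 1 ≤ y ∧ y ≤ t ∧ (a = 0 → 0 ≤ y) ∧
      Sel S K (gg m ((a : ℝ) + y) + ee L m ((a : ℝ) + y)) ∧
      (y = t ∨ (K.card : ℝ) = m.choose a * NN r Q y) := by
  have hC : (0 : ℝ) < m.choose a := by exact_mod_cast Nat.choose_pos (by omega)
  set C : ℝ := (m.choose a : ℝ) with hCdef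
  have hQ0 : 0 < Q := by linarith
  have hKpos : (0 : ℝ) < K.card := by exact_mod_cast hKne.card_pos
  rcases le_or_gt (C * Q ^ t) K.card with hT | hT
  · refine ⟨t, by linarith, le_rfl, fun _ => h0, ?_, Or.inl rfl⟩
    apply ih S hm K hK hS a t h0 h1 h2
    rw [hQ, rpow_mul_rpow C Q t hC hQ0]
    exact hT
  · rcases le_or_gt C K.card with hU | hU
    · -- upper part
      have hq1 : 1 ≤ K.card / C := by rw [le_div_iff₀ hC]; linarith
      have hlQ : 0 < Real.log Q := Real.log_pos hQ1
      obtain ⟨y, hy⟩ : ∃ y : ℝ, y = Real.log (K.card / C) / Real.log Q := ⟨_, rfl⟩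
      have hy0 : 0 ≤ y := by rw [hy]; exact div_nonneg (Real.log_nonneg hq1) hlQ.le
      have hQy : Q ^ y = K.card / C := by
        rw [Real.rpow_def_of_pos hQ0, hy, mul_div_cancel₀ _ hlQ.ne',
          Real.exp_log (by positivity)]
      have hcard : (K.card : ℝ) = C * Q ^ y := by rw [hQy]; field_simp
      have hyt : y < t := by
        rw [hcard] at hT
        have := lt_of_mul_lt_mul_left hT hC.le
        exact (Real.rpow_lt_rpow_left_iff hQ1).1 this
      refine ⟨y, by linarith, hyt.le, fun _ => hy0, ?_, Or.inr ?_⟩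
      · apply ih S hm K hK hS a y hy0 (by linarith) h2
        rw [hQ, rpow_mul_rpow C Q y hC hQ0]
        exact hcard.ge
      · unfold NN
        rw [if_pos hy0]
        exact hcard
    · -- lower part
      rcases Nat.eq_zero_or_pos a with ha | ha
      · exfalso
        subst ha
        rw [hCdef, Nat.choose_zero_right] at hU
        have : 1 ≤ K.card := hKne.card_pos
        have : (1 : ℝ) ≤ K.card := by exact_mod_cast this
        push_cast at hU
        linarith
      · obtain ⟨b, hb⟩ : ∃ b, a = b + 1 := ⟨a - 1, by omega⟩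
        have hrb := hr b hb
        have hPa := hP ha
        have hq1 : K.card / C < 1 := by rw [div_lt_one hC]; exact hU
        have hq0 : 0 < K.card / C := by positivity
        have hlr : Real.log r < 0 := Real.log_neg hr0 hr1
        obtain ⟨z, hz⟩ : ∃ z : ℝ, z = Real.log (K.card / C) / Real.log r := ⟨_, rfl⟩
        have hz0 : 0 < z := by
          rw [hz]; exact div_pos_of_neg_of_neg (Real.log_neg hq0 hq1) hlr
        have hrz : r ^ z = K.card / C := by
          rw [Real.rpow_def_of_pos hr0, hz, mul_div_cancel₀ _ hlr.ne,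
            Real.exp_log hq0]
        have hcard : (K.card : ℝ) = C * r ^ z := by rw [hrz]; field_simp
        have hzt : z ≤ 1 - t := by
          rw [hcard] at hPa
          have := le_of_mul_le_mul_left hPa hC
          exact (Real.rpow_le_rpow_left_iff_of_base_lt_one hr0 hr1).1 this
        refine ⟨-z, by linarith, by linarith, fun h => by omega, ?_, Or.inr ?_⟩
        · have hs := ih S hm K hK hS b (1 - z) (by linarith) (by linarith) (by omega) (by
            rw [← hb, ← hCdef, hrb, Real.mul_rpow hC.le hr0.le, show 1 - (1 - z) = z by ring,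
              mul_right_comm, ← Real.rpow_add hC, show z + (1 - z) = 1 by ring, Real.rpow_one]
            exact hcard.ge)
          have e : ((b : ℝ) + (1 - z)) = (a : ℝ) + -z := by
            rw [hb]; push_cast; ring
          rw [e] at hs
          exact hs
        · unfold NN
          rw [if_neg (by linarith), neg_neg]
          exact hcard

/-- slopes of a power function decrease -/
lemma slope_anti (q q1 t : ℝ) (hq : 1 < q) (hqq : q ≤ q1) (h0 : 0 ≤ t) (h1 : t ≤ 1) :
    q1 ^ t ≤ 1 + (q ^ t - 1) / (q - 1) * (q1 - 1) := by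
  have hq1 : 1 < q1 := by linarith
  obtain ⟨θ, hθ⟩ : ∃ θ : ℝ, θ = (q - 1) / (q1 - 1) := ⟨_, rfl⟩
  have h10 : 0 < q1 - 1 := by linarith
  have hq0 : 0 < q - 1 := by linarith
  have hθ0 : 0 < θ := by rw [hθ]; positivity
  have hθ1 : θ ≤ 1 := by rw [hθ, div_le_one h10]; linarith
  have hθe : θ * (q1 - 1) = q - 1 := by rw [hθ]; field_simp
  have hc := (Real.concaveOn_rpow h0 h1).2 (Set.mem_Ici.2 (by norm_num : (0 : ℝ) ≤ 1))
    (Set.mem_Ici.2 (by linarith : (0 : ℝ) ≤ q1)) (by linarith : 0 ≤ 1 - θ) hθ0.le (by ring)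
  simp only [smul_eq_mul, Real.one_rpow] at hc
  rw [show (1 - θ) * 1 + θ * q1 = q by linarith] at hc
  have h3 : θ * (q1 ^ t - 1) ≤ q ^ t - 1 := by linarith
  have h4 : (q ^ t - 1) / (q - 1) * (q1 - 1) = (q ^ t - 1) / θ := by
    rw [← hθe]; field_simp
  rw [h4]
  have h5 : q1 ^ t - 1 ≤ (q ^ t - 1) / θ := by
    rw [le_div_iff₀ hθ0]; linarith
  linarith

lemma choose_ratio_up (m a : ℕ) (h : a ≤ m) :
    ((m + 1).choose a : ℝ) * ((m : ℝ) + 1 - a) = ((m : ℝ) + 1) * m.choose a := by
  have h1 : (m + 1) * m.choose a = (m + 1).choose a * (m + 1 - a) := by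
    rw [mul_comm]; exact Nat.choose_mul_succ_eq m a
  have : (((m + 1) * m.choose a : ℕ) : ℝ) = (((m + 1).choose a * (m + 1 - a) : ℕ) : ℝ) := by
    rw [h1]
  rw [Nat.cast_mul, Nat.cast_mul, Nat.cast_sub (by omega)] at this
  push_cast at this
  exact this.symm

lemma choose_ratio_up' (m a : ℕ) :
    ((m + 1).choose (a + 1) : ℝ) * ((a : ℝ) + 1) = ((m : ℝ) + 1) * m.choose a := by
  have := Nat.add_one_mul_choose_eq m a
  have h : (((m + 1) * m.choose a : ℕ) : ℝ) = (((m + 1).choose (a + 1) * (a + 1) : ℕ) : ℝ) := by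
    rw [this]
  push_cast at h
  exact h.symm

lemma pascal_real (m a : ℕ) :
    ((m + 1).choose (a + 1) : ℝ) = m.choose a + m.choose (a + 1) := by
  exact_mod_cast Nat.choose_succ_succ m a

/-- the step in the good region -/
lemma log_step_good {L : ℝ} (hL0 : 0 ≤ L) (hL : L ≤ 1 / 4) {m : ℕ} (ih : LogStat α L m)
    (S : Finset α) (hm : S.card = m + 1)
    (K : Finset (Finset α)) (hK : IsAntichain (· ⊆ ·) (K : Set (Finset α)))
    (hS : ∀ B ∈ K, B ⊆ S) (hKne : K.Nonempty) (a : ℕ) (t : ℝ)
    (h0 : 0 ≤ t) (h1 : t ≤ 1) (h2 : 2 * a + 2 ≤ m)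
    (hgood : (2 : ℝ) * m + 3 ≤ ((m : ℝ) - 2 * a) ^ 2)
    (hee : ee L (m + 1) ((a : ℝ) + t) ≤ 2 ^ (m + 1))
    (hcard : ((m + 1).choose a : ℝ) ^ (1 - t) * ((m + 1).choose (a + 1) : ℝ) ^ t ≤ K.card) :
    Sel S K (gg (m + 1) ((a : ℝ) + t) + ee L (m + 1) ((a : ℝ) + t)) := by
  by_cases h00 : a = 0 ∧ t = 0
  · obtain ⟨rfl, rfl⟩ := h00
    have := Sel.const hS hKne
    rw [hm] at this
    apply this.mono
    have := ee_pos L (m + 1) (((0 : ℕ) : ℝ) + 0)
    simp only [Nat.cast_zero, add_zero] at this ⊢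
    linarith
  have hne : 1 ≤ a ∨ 0 < t := by
    by_contra hcon
    push Not at hcon
    exact h00 ⟨by omega, le_antisymm hcon.2 h0⟩
  -- constants
  have hC : (0 : ℝ) < m.choose a := by exact_mod_cast Nat.choose_pos (by omega)
  have hCu : (0 : ℝ) < m.choose (a + 1) := by exact_mod_cast Nat.choose_pos (by omega)
  have hD : (0 : ℝ) < (m + 1).choose a := by exact_mod_cast Nat.choose_pos (by omega)
  have hDu : (0 : ℝ) < (m + 1).choose (a + 1) := by exact_mod_cast Nat.choose_pos (by omega)
  have haR : (2 : ℝ) * a + 2 ≤ m := by exact_mod_cast h2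
  have ha0 : (0 : ℝ) ≤ a := Nat.cast_nonneg a
  obtain ⟨Q, hQdef⟩ : ∃ Q : ℝ, Q = m.choose (a + 1) / m.choose a := ⟨_, rfl⟩
  have hQ : (m.choose (a + 1) : ℝ) = m.choose a * Q := by rw [hQdef]; field_simp
  have hQr : Q * ((a : ℝ) + 1) = (m : ℝ) - a := by
    have e1 := choose_ratio_up' m a
    have e2 := pascal_real m a
    rw [hQ] at e2
    rw [e2] at e1
    have e3 : (m.choose a : ℝ) * ((1 + Q) * ((a : ℝ) + 1)) = m.choose a * ((m : ℝ) + 1) := by
      linarith
    have e4 := mul_left_cancel₀ hC.ne' e3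
    linarith
  have hQ1 : 1 < Q := by
    by_contra hcon
    push Not at hcon
    nlinarith
  have hup : ((m + 1).choose (a + 1) : ℝ) = m.choose a * (1 + Q) := by
    rw [pascal_real, hQ]; ring
  -- q in dimension m + 1
  obtain ⟨q, hqdef⟩ : ∃ q : ℝ, q = (m + 1).choose (a + 1) / (m + 1).choose a := ⟨_, rfl⟩
  have hq : ((m + 1).choose (a + 1) : ℝ) = (m + 1).choose a * q := by rw [hqdef]; field_simp
  have hqr : q * ((a : ℝ) + 1) = (m : ℝ) + 1 - a := by
    have e1 := choose_ratio_up' m a
    have e2 := choose_ratio_up m a (by omega)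
    rw [hq] at e1
    have e3 : ((m + 1).choose a : ℝ) * (q * ((a : ℝ) + 1)) =
        (m + 1).choose a * ((m : ℝ) + 1 - a) := by linarith
    exact mul_left_cancel₀ hD.ne' e3
  have hq1 : 1 < q := by
    by_contra hcon
    push Not at hcon
    nlinarith
  have hq0 : 0 < q := by linarith
  obtain ⟨t', ht'⟩ : ∃ t' : ℝ, t' = (q ^ t - 1) / (q - 1) := ⟨_, rfl⟩
  have hN0 : ((m + 1).choose a : ℝ) ^ (1 - t) * ((m + 1).choose (a + 1) : ℝ) ^ t =
      (m + 1).choose a * q ^ t := by
    rw [hq]; exact rpow_mul_rpow _ _ _ hD hq0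
  have hN1 : ((m + 1).choose a : ℝ) + t' * dd (m + 1) (a + 1) = (m + 1).choose a * q ^ t := by
    rw [dd_succ, hq, ht']
    have : q - 1 ≠ 0 := by linarith
    field_simp
    ring
  have hcard' : ((m + 1).choose a : ℝ) + t' * dd (m + 1) (a + 1) ≤ K.card := by
    rw [hN1, ← hN0]; exact hcard
  obtain ⟨x, hx, hx1, hx0⟩ := coordFull m S hm K hK hS a (by omega) t' hcard'
  have hcx : (S.erase x).card = m := by rw [card_erase_of_mem hx, hm]; rfl
  have sub1 : ∀ B ∈ K.memberSubfamily x, B ⊆ S.erase x := by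
    intro A hA
    rw [mem_memberSubfamily] at hA
    intro y hy
    rw [mem_erase]
    exact ⟨fun hyx => hA.2 (hyx ▸ hy), hS _ hA.1 (mem_insert_of_mem hy)⟩
  have sub0 : ∀ B ∈ K.nonMemberSubfamily x, B ⊆ S.erase x := by
    intro A hA
    rw [mem_nonMemberSubfamily] at hA
    intro y hy
    rw [mem_erase]
    exact ⟨fun hyx => hA.2 (hyx ▸ hy), hS _ hA.1 hy⟩
  -- the constant r
  obtain ⟨r, hr, hr0, hr1, hrP, hrQ, hrU⟩ : ∃ r : ℝ,
      (∀ b, a = b + 1 → (m.choose b : ℝ) = m.choose a * r) ∧ 0 < r ∧ r < 1 ∧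
      (1 ≤ a → (m.choose a : ℝ) * r ^ (1 - t) ≤ (m.choose a : ℝ) - (1 - t') * dd m a) ∧
      (1 ≤ a → 4 ≤ (1 + r) * (1 + Q)) ∧
      (1 ≤ a → ((m + 1).choose a : ℝ) = m.choose a * (1 + r)) := by
    rcases Nat.eq_zero_or_pos a with ha | ha
    · exact ⟨1 / 2, fun b hb => by omega, by norm_num, by norm_num, fun h => by omega,
        fun h => by omega, fun h => by omega⟩
    · obtain ⟨b, hb⟩ : ∃ b, a = b + 1 := ⟨a - 1, by omega⟩
      have hCb : (0 : ℝ) < m.choose b := by exact_mod_cast Nat.choose_pos (by omega)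
      have haR1 : (1 : ℝ) ≤ a := by exact_mod_cast ha
      obtain ⟨r, hrdef⟩ : ∃ r : ℝ, r = m.choose b / m.choose a := ⟨_, rfl⟩
      have hrb : (m.choose b : ℝ) = m.choose a * r := by rw [hrdef]; field_simp
      have hr0 : 0 < r := by rw [hrdef]; positivity
      have hU : ((m + 1).choose a : ℝ) = m.choose a * (1 + r) := by
        rw [hb, pascal_real, ← hb, hrb]; ring
      have hrr : r * ((m : ℝ) + 1 - a) = a := by
        have e1 := choose_ratio_up m a (by omega)
        rw [hU] at e1
        have e3 : (m.choose a : ℝ) * ((1 + r) * ((m : ℝ) + 1 - a)) =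
            m.choose a * ((m : ℝ) + 1) := by linarith
        have e4 := mul_left_cancel₀ hC.ne' e3
        linarith
      have hr1 : r < 1 := by
        by_contra hcon
        push Not at hcon
        nlinarith
      refine ⟨r, ?_, hr0, hr1, fun _ => ?_, fun _ => ?_, fun _ => hU⟩
      · intro b' hb'
        have : b' = b := by omega
        rw [this]; exact hrb
      · -- the logarithmic coordinate bound
        have hdd : dd m a = m.choose a - m.choose b := by rw [hb]; exact dd_succ m b
        rw [hdd, hrb]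
        have hq1r : q ≤ 1 / r := by
          rw [le_div_iff₀ hr0]
          have e5 : (q * r) * (((a : ℝ) + 1) * ((m : ℝ) + 1 - a)) =
              ((m : ℝ) + 1 - a) * a := by
            calc (q * r) * (((a : ℝ) + 1) * ((m : ℝ) + 1 - a))
                = (q * ((a : ℝ) + 1)) * (r * ((m : ℝ) + 1 - a)) := by ring
              _ = _ := by rw [hqr, hrr]
          have hpos : 0 < ((a : ℝ) + 1) * ((m : ℝ) + 1 - a) := by
            apply mul_pos <;> linarith
          by_contra hcon
          push Not at hcon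
          have e6 := mul_lt_mul_of_pos_right hcon hpos
          rw [e5] at e6
          nlinarith
        have hs := slope_anti q (1 / r) t hq1 hq1r h0 h1
        rw [← ht'] at hs
        have e7 : r * (1 / r) ^ t = r ^ (1 - t) := by
          rw [one_div, Real.inv_rpow hr0.le, Real.rpow_sub hr0, Real.rpow_one]
          rfl
        have e8 : r ^ (1 - t) ≤ r + t' * (1 - r) := by
          rw [← e7]
          have := mul_le_mul_of_nonneg_left hs hr0.le
          refine this.trans (le_of_eq ?_)
          field_simp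
        have := mul_le_mul_of_nonneg_left e8 hC.le
        linarith
      · have e1 : ((1 + r) * (1 + Q)) * (((m : ℝ) + 1 - a) * ((a : ℝ) + 1)) = ((m : ℝ) + 1) ^ 2 := by
          have e2 : (1 + r) * ((m : ℝ) + 1 - a) = m + 1 := by linarith
          have e3 : (1 + Q) * ((a : ℝ) + 1) = m + 1 := by linarith
          calc ((1 + r) * (1 + Q)) * (((m : ℝ) + 1 - a) * ((a : ℝ) + 1))
              = ((1 + r) * ((m : ℝ) + 1 - a)) * ((1 + Q) * ((a : ℝ) + 1)) := by ring
            _ = _ := by rw [e2, e3]; ring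
        have hpos : 0 < ((m : ℝ) + 1 - a) * ((a : ℝ) + 1) := by
          apply mul_pos <;> linarith
        by_contra hcon
        push Not at hcon
        have e4 := mul_lt_mul_of_pos_right hcon hpos
        rw [e1] at e4
        nlinarith
  -- nonempty halves
  have ne1 : (K.memberSubfamily x).Nonempty := by
    rw [← card_pos]
    rcases Nat.eq_zero_or_pos a with ha | ha
    · subst ha
      have ht0 : 0 < t := by rcases hne with h | h; · omega
                             · exact h
      have : 0 < t' := by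
        rw [ht']
        apply div_pos _ (by linarith)
        have := Real.one_lt_rpow hq1 ht0
        linarith
      rw [dd_zero, Nat.choose_zero_right] at hx1
      have h3 : (0 : ℝ) < (K.memberSubfamily x).card := by push_cast at hx1; linarith
      exact_mod_cast h3
    · have h3 : (0 : ℝ) < (K.memberSubfamily x).card :=
        lt_of_lt_of_le (by positivity) ((hrP ha).trans hx1)
      exact_mod_cast h3
  have ne0 : (K.nonMemberSubfamily x).Nonempty := by
    rw [← card_pos]
    rcases Nat.eq_zero_or_pos a with ha | ha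
    · subst ha
      have ht0 : 0 < t := by rcases hne with h | h; · omega
                             · exact h
      have : 0 < t' := by
        rw [ht']
        apply div_pos _ (by linarith)
        have := Real.one_lt_rpow hq1 ht0
        linarith
      rw [dd_zero, Nat.choose_zero_right] at hx0
      have h3 : (0 : ℝ) < (K.nonMemberSubfamily x).card := by push_cast at hx0; linarith
      exact_mod_cast h3
    · have h3 : (0 : ℝ) < (K.nonMemberSubfamily x).card :=
        lt_of_lt_of_le (by positivity) ((hrP ha).trans hx0)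
      exact_mod_cast h3
  obtain ⟨y1, l1, u1, z1, s1, c1⟩ := half_log ih (S.erase x) hcx _ (VPair.anti_member x hK) sub1 a t
    h0 h1 (by omega) ne1 Q r hQ hQ1 hr hr0 hr1 (fun ha => (hrP ha).trans hx1)
  obtain ⟨y0, l0, u0, z0, s0, c0⟩ := half_log ih (S.erase x) hcx _ (VPair.anti_nonMember x hK) sub0
    a t h0 h1 (by omega) ne0 Q r hQ hQ1 hr hr0 hr1 (fun ha => (hrP ha).trans hx0)
  have hs := Sel.step hx s1 s0
  -- the sum of the levels
  have hsum : 2 * t - 1 ≤ y1 + y0 := by
    rcases c1 with c1 | c1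
    · linarith
    rcases c0 with c0 | c0
    · linarith
    by_contra hcon
    push Not at hcon
    have hcs := card_memberSubfamily_add_card_nonMemberSubfamily x K
    have hcsR : ((K.memberSubfamily x).card : ℝ) + ((K.nonMemberSubfamily x).card : ℝ) =
        K.card := by exact_mod_cast hcs
    rw [c1, c0, ← mul_add] at hcsR
    have hlt : NN r Q y0 < NN r Q (2 * t - 1 - y1) := NN_lt r Q _ _ hr0 hr1 hQ1 (by linarith)
    rcases Nat.eq_zero_or_pos a with ha | ha
    · have hy1 := z1 ha
      have hy0 := z0 ha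
      have hy' : 0 ≤ 2 * t - 1 - y1 := by linarith
      have ht : 1 / 2 ≤ t := by linarith
      have hQ3 : 4 ≤ (1 + 0) * (1 + Q) := by
        subst ha
        simp only [Nat.cast_zero, zero_add, mul_one, sub_zero, mul_zero] at hQr hgood
        rw [hQr]
        have hm3 : (3 : ℝ) ≤ m := by
          by_contra hc
          push Not at hc
          have : (0 : ℝ) ≤ m := Nat.cast_nonneg m
          nlinarith
        linarith
      have hk := ktop 0 Q t le_rfl (by linarith) hQ3 ht h1
      rw [add_zero, Real.one_rpow, one_mul] at hk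
      have e1 : (1 : ℝ) ≤ Q ^ y1 := Real.one_le_rpow hQ1.le hy1
      have e2 : (1 : ℝ) ≤ Q ^ (2 * t - 1 - y1) := Real.one_le_rpow hQ1.le hy'
      have e3 := prod_ge_one e1 e2
      rw [← Real.rpow_add (by linarith), show y1 + (2 * t - 1 - y1) = 2 * t - 1 by ring] at e3
      have e4 : NN r Q y1 = Q ^ y1 := by unfold NN; rw [if_pos hy1]
      have e5 : NN r Q (2 * t - 1 - y1) = Q ^ (2 * t - 1 - y1) := by unfold NN; rw [if_pos hy']
      rw [e5] at hlt
      rw [hN0, ← hcsR] at hcard
      have e6 : ((m + 1).choose a : ℝ) * q ^ t = m.choose a * (1 + Q) ^ t := by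
        subst ha
        rw [Nat.choose_zero_right, Nat.choose_zero_right] at *
        have : q = 1 + Q := by
          simp only [Nat.cast_zero, zero_add, mul_one, sub_zero] at hQr hqr
          rw [hQr, hqr]; ring
        rw [this]
      rw [e6] at hcard
      have e7 := le_of_mul_le_mul_left hcard hC
      rw [e4] at e7
      linarith
    · have hPN := PN r Q t hr0 hr1.le hQ1.le (hrQ ha) h0 h1 y1 (2 * t - 1 - y1) l1 u1 (by ring)
      have e6 : ((m + 1).choose a : ℝ) ^ (1 - t) * ((m + 1).choose (a + 1) : ℝ) ^ t =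
          m.choose a * ((1 + r) ^ (1 - t) * (1 + Q) ^ t) := by
        rw [hrU ha, hup, Real.mul_rpow hC.le (by linarith), Real.mul_rpow hC.le (by linarith)]
        have : (m.choose a : ℝ) ^ (1 - t) * (m.choose a : ℝ) ^ t = m.choose a := by
          rw [← Real.rpow_add hC, show 1 - t + t = 1 by ring, Real.rpow_one]
        calc (m.choose a : ℝ) ^ (1 - t) * (1 + r) ^ (1 - t) *
            ((m.choose a : ℝ) ^ t * (1 + Q) ^ t)
            = ((m.choose a : ℝ) ^ (1 - t) * (m.choose a : ℝ) ^ t) *
              ((1 + r) ^ (1 - t) * (1 + Q) ^ t) := by ring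
          _ = _ := by rw [this]
      rw [e6, ← hcsR] at hcard
      have e7 := le_of_mul_le_mul_left hcard hC
      linarith
  -- conclusion
  apply hs.mono
  rw [gg_pascal, ee_pascal]
  have hmono := psi_mono L hL0 hL m a t h0 h1 hee
  have conv : ∀ y : ℝ, t - 1 ≤ y → y ≤ t →
      gg m ((a : ℝ) + y) + ee L m ((a : ℝ) + y) ≤
        (1 - (y - (t - 1))) * (gg m ((a : ℝ) + t - 1) + ee L m ((a : ℝ) + t - 1)) +
        (y - (t - 1)) * (gg m ((a : ℝ) + t) + ee L m ((a : ℝ) + t)) := by
    intro y hy1 hy2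
    have e1 := gg_conv m ((a : ℝ) + t - 1) ((a : ℝ) + t) (y - (t - 1)) (by linarith) (by linarith)
    have e2 := ee_conv L m ((a : ℝ) + t - 1) ((a : ℝ) + t) (y - (t - 1)) (by linarith)
      (by linarith)
    have e3 : (1 - (y - (t - 1))) * ((a : ℝ) + t - 1) + (y - (t - 1)) * ((a : ℝ) + t) =
        (a : ℝ) + y := by ring
    rw [e3] at e1 e2
    linarith
  have k1 := conv y1 l1 u1
  have k0 := conv y0 l0 u0
  nlinarith

theorem logStat {L : ℝ} (hL0 : 0 ≤ L) (hL : L ≤ 1 / 4) : ∀ m : ℕ, LogStat α L m := by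
  intro m
  induction m with
  | zero => intro S hm K hK hS a t h0 h1 h2; omega
  | succ m ih =>
    intro S hm K hK hS a t h0 h1 h2 hcard
    have hD : (0 : ℝ) < (m + 1).choose a := by exact_mod_cast Nat.choose_pos (by omega)
    have hDu : (0 : ℝ) < (m + 1).choose (a + 1) := by exact_mod_cast Nat.choose_pos (by omega)
    have hle : ((m + 1).choose a : ℝ) ≤ (m + 1).choose (a + 1) := by
      have := dd_nonneg (m + 1) (a + 1) (by omega)
      rw [dd_succ] at this
      linarith
    have hge : ((m + 1).choose a : ℝ) ≤ K.card := by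
      refine le_trans ?_ hcard
      have e1 : ((m + 1).choose a : ℝ) =
          ((m + 1).choose a : ℝ) ^ (1 - t) * ((m + 1).choose a : ℝ) ^ t := by
        rw [← Real.rpow_add hD, show 1 - t + t = 1 by ring, Real.rpow_one]
      conv_lhs => rw [e1]
      apply mul_le_mul_of_nonneg_left _ (by positivity)
      exact Real.rpow_le_rpow hD.le hle h0
    have hKne : K.Nonempty := by
      rw [← card_pos]
      have : (0 : ℝ) < K.card := lt_of_lt_of_le hD hge
      exact_mod_cast this
    rcases le_or_gt ((2 : ℝ) ^ (m + 1)) (ee L (m + 1) ((a : ℝ) + t)) with hb | hb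
    · have hs := selStat (m + 1) S hm K hK hS a 0 le_rfl zero_le_one h2 (by
        rw [zero_mul, add_zero]; exact hge)
      apply hs.mono
      rw [add_zero]
      have := gg_shift (m + 1) a t h0 h1
      linarith
    · have hgood : (2 : ℝ) * m + 3 ≤ ((m : ℝ) - 2 * a) ^ 2 := by
        by_contra hcon
        push Not at hcon
        have := bad_region L hL0 hL m a t h0 hcon
        linarith
      have h3 : 2 * a + 2 ≤ m := by
        by_contra hcon
        have h4 : m ≤ 2 * a + 1 := by omega
        have h5 : (m : ℝ) ≤ 2 * a + 1 := by exact_mod_cast h4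
        have h6 : (2 : ℝ) * a ≤ m := by exact_mod_cast (by omega : 2 * a ≤ m)
        have h7 : (0 : ℝ) ≤ m := Nat.cast_nonneg m
        nlinarith
      exact log_step_good hL0 hL ih S hm K hK hS hKne a t h0 h1 h3 hgood hb.le hcard

end LineQ
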