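import Pool.Agent.DiamEven.Iid
import Pool.Agent.DiamEven.Tail

/-! Analytic lemmas for the logarithmic version of the mean distance bound. -/

namespace LineQ

open Finset DiamEven

/-- two-term Hoelder inequality -/
lemma holder2 (x1 x2 y1 y2 w : ℝ) (hx1 : 0 < x1) (hx2 : 0 < x2) (hy1 : 0 < y1) (hy2 : 0 < y2)
    (h0 : 0 ≤ w) (h1 : w ≤ 1) :
    x1 ^ (1 - w) * y1 ^ w + x2 ^ (1 - w) * y2 ^ w ≤ (x1 + x2) ^ (1 - w) * (y1 + y2) ^ w := by
  have hX : 0 < x1 + x2 := by positivity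
  have hY : 0 < y1 + y2 := by positivity
  have a1 := Real.geom_mean_le_arith_mean2_weighted (w₁ := 1 - w) (w₂ := w)
    (p₁ := x1 / (x1 + x2)) (p₂ := y1 / (y1 + y2)) (by linarith) h0 (by positivity)
    (by positivity) (by ring)
  have a2 := Real.geom_mean_le_arith_mean2_weighted (w₁ := 1 - w) (w₂ := w)
    (p₁ := x2 / (x1 + x2)) (p₂ := y2 / (y1 + y2)) (by linarith) h0 (by positivity)
    (by positivity) (by ring)
  rw [Real.div_rpow hx1.le hX.le, Real.div_rpow hy1.le hY.le] at a1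
  rw [Real.div_rpow hx2.le hX.le, Real.div_rpow hy2.le hY.le] at a2
  have hA : 0 < (x1 + x2) ^ (1 - w) := Real.rpow_pos_of_pos hX _
  have hB : 0 < (y1 + y2) ^ w := Real.rpow_pos_of_pos hY _
  have hs : (1 - w) * (x1 / (x1 + x2)) + w * (y1 / (y1 + y2)) +
      ((1 - w) * (x2 / (x1 + x2)) + w * (y2 / (y1 + y2))) = 1 := by
    field_simp
    ring
  have e1 : x1 ^ (1 - w) / (x1 + x2) ^ (1 - w) * (y1 ^ w / (y1 + y2) ^ w) +
      x2 ^ (1 - w) / (x1 + x2) ^ (1 - w) * (y2 ^ w / (y1 + y2) ^ w) ≤ 1 := by linarith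
  have e2 : x1 ^ (1 - w) / (x1 + x2) ^ (1 - w) * (y1 ^ w / (y1 + y2) ^ w) +
      x2 ^ (1 - w) / (x1 + x2) ^ (1 - w) * (y2 ^ w / (y1 + y2) ^ w) =
      (x1 ^ (1 - w) * y1 ^ w + x2 ^ (1 - w) * y2 ^ w) /
        ((x1 + x2) ^ (1 - w) * (y1 + y2) ^ w) := by
    field_simp
  rw [e2, div_le_one (by positivity)] at e1
  exact e1

/-- `Q ^ y` for `y ≥ 0`, `r ^ (-y)` for `y < 0` -/
noncomputable def NN (r Q y : ℝ) : ℝ := if 0 ≤ y then Q ^ y else r ^ (-y)

lemma kk (Q w : ℝ) (hQ : 0 < Q) (h0 : 0 ≤ w) (h1 : w ≤ 1) :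
    1 + Q ^ w ≤ 2 ^ (1 - w) * (1 + Q) ^ w := by
  have h := holder2 1 1 1 Q w one_pos one_pos one_pos hQ h0 h1
  rw [Real.one_rpow, Real.one_rpow, one_mul, one_mul] at h
  norm_num at h
  exact h

/-- convex interpolation for powers -/
lemma rpow_interp (b x y θ : ℝ) (hb : 0 < b) (h0 : 0 ≤ θ) (h1 : θ ≤ 1) :
    b ^ ((1 - θ) * x + θ * y) ≤ (1 - θ) * b ^ x + θ * b ^ y := by
  rw [Real.rpow_add hb]
  have h := Real.geom_mean_le_arith_mean2_weighted (w₁ := 1 - θ) (w₂ := θ)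
    (p₁ := b ^ x) (p₂ := b ^ y) (by linarith) h0 (by positivity)
    (by positivity) (by ring)
  rw [← Real.rpow_mul hb.le, ← Real.rpow_mul hb.le, mul_comm x, mul_comm y] at h
  exact h

lemma prod_ge_one {a b : ℝ} (ha : 1 ≤ a) (hb : 1 ≤ b) : a + b ≤ 1 + a * b := by
  nlinarith

lemma prod_le_one {a b : ℝ} (ha : a ≤ 1) (hb : b ≤ 1) : a + b ≤ 1 + a * b := by
  nlinarith

/-- upper bound for `1 + Q ^ (2 t - 1)`, `t ≥ 1/2` -/
lemma ktop (r Q t : ℝ) (hr : 0 ≤ r) (hQ : 0 < Q) (hrQ : 4 ≤ (1 + r) * (1 + Q))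
    (ht : 1 / 2 ≤ t) (h1 : t ≤ 1) : 1 + Q ^ (2 * t - 1) ≤ (1 + r) ^ (1 - t) * (1 + Q) ^ t := by
  have hr' : 0 < 1 + r := by positivity
  have hQ' : 0 < 1 + Q := by positivity
  refine (kk Q (2 * t - 1) hQ (by linarith) (by linarith)).trans ?_
  have e1 : (1 + r) ^ (1 - t) * (1 + Q) ^ t = ((1 + r) * (1 + Q)) ^ (1 - t) * (1 + Q) ^ (2 * t - 1) := by
    rw [Real.mul_rpow hr'.le hQ'.le, mul_assoc, ← Real.rpow_add hQ']
    congr 2
    ring
  have e2 : (2 : ℝ) ^ (1 - (2 * t - 1)) = 4 ^ (1 - t) := by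
    rw [show (4 : ℝ) = 2 ^ (2 : ℝ) by norm_num, ← Real.rpow_mul (by norm_num)]
    congr 1
    ring
  rw [e1, e2]
  apply mul_le_mul_of_nonneg_right _ (by positivity)
  exact Real.rpow_le_rpow (by norm_num) hrQ (by linarith)

/-- upper bound for `1 + r ^ (1 - 2 t)`, `t ≤ 1/2` -/
lemma kbot (r Q t : ℝ) (hr : 0 < r) (hQ : 0 < Q) (hrQ : 4 ≤ (1 + r) * (1 + Q))
    (ht : t ≤ 1 / 2) (h0 : 0 ≤ t) : 1 + r ^ (1 - 2 * t) ≤ (1 + r) ^ (1 - t) * (1 + Q) ^ t := by
  have hr' : 0 < 1 + r := by positivity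
  have hQ' : 0 < 1 + Q := by positivity
  refine (kk r (1 - 2 * t) hr (by linarith) (by linarith)).trans ?_
  have e1 : (1 + r) ^ (1 - t) * (1 + Q) ^ t = ((1 + r) * (1 + Q)) ^ t * (1 + r) ^ (1 - 2 * t) := by
    rw [Real.mul_rpow hr'.le hQ'.le, mul_assoc, mul_comm ((1 + Q) ^ t), ← mul_assoc,
      ← Real.rpow_add hr']
    congr 2
    ring
  have e2 : (2 : ℝ) ^ (1 - (1 - 2 * t)) = 4 ^ t := by
    rw [show (4 : ℝ) = 2 ^ (2 : ℝ) by norm_num, ← Real.rpow_mul (by norm_num)]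
    congr 1
    ring
  rw [e1, e2]
  apply mul_le_mul_of_nonneg_right _ (by positivity)
  exact Real.rpow_le_rpow (by norm_num) hrQ h0

/-- the endpoint -/
lemma kend (r Q t : ℝ) (hr : 0 < r) (hQ : 0 < Q) (h0 : 0 ≤ t) (h1 : t ≤ 1) :
    r ^ (1 - t) + Q ^ t ≤ (1 + r) ^ (1 - t) * (1 + Q) ^ t := by
  have h := holder2 r 1 1 Q t hr one_pos one_pos hQ h0 h1
  rw [Real.one_rpow, Real.one_rpow, one_mul, mul_one, add_comm r 1] at h
  exact h

/-- the two-point inequality, sorted version -/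
lemma PN_sorted (r Q t : ℝ) (hr : 0 < r) (hr1 : r ≤ 1) (hQ : 1 ≤ Q)
    (hrQ : 4 ≤ (1 + r) * (1 + Q)) (h0 : 0 ≤ t) (h1 : t ≤ 1) (y y' : ℝ) (hy : t - 1 ≤ y)
    (hy' : y' ≤ t) (hs : y + y' = 2 * t - 1) (hle : y ≤ y') :
    NN r Q y + NN r Q y' ≤ (1 + r) ^ (1 - t) * (1 + Q) ^ t := by
  have hQ0 : 0 < Q := by linarith
  have hend := kend r Q t hr hQ0 h0 h1
  unfold NN
  rcases le_or_gt 0 y with hy0 | hy0
  · -- both nonnegative
    have hy0' : 0 ≤ y' := by linarith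
    rw [if_pos hy0, if_pos hy0']
    have e1 : (1 : ℝ) ≤ Q ^ y := Real.one_le_rpow hQ hy0
    have e2 : (1 : ℝ) ≤ Q ^ y' := Real.one_le_rpow hQ hy0'
    have e3 := prod_ge_one e1 e2
    rw [← Real.rpow_add hQ0, hs] at e3
    exact e3.trans (ktop r Q t hr.le hQ0 hrQ (by linarith) h1)
  · rcases le_or_gt 0 y' with hy0' | hy0'
    · rw [if_neg (not_le.2 hy0), if_pos hy0']
      rcases le_or_gt (1 / 2) t with ht | ht
      · -- interpolate between `y = t - 1` and `y = 0`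
        have htop := ktop r Q t hr.le hQ0 hrQ ht h1
        have ht1 : t < 1 := by linarith
        obtain ⟨θ, hθ⟩ : ∃ θ : ℝ, θ = (y - (t - 1)) / (1 - t) := ⟨_, rfl⟩
        have h1t : 0 < 1 - t := by linarith
        have hθ0 : 0 ≤ θ := by rw [hθ]; exact div_nonneg (by linarith) h1t.le
        have hθ1 : θ ≤ 1 := by rw [hθ, div_le_one h1t]; linarith
        have ey : θ * (1 - t) = y - (t - 1) := by rw [hθ]; field_simp
        have c1 := rpow_interp r (1 - t) 0 θ hr hθ0 hθ1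
        have c2 := rpow_interp Q t (2 * t - 1) θ hQ0 hθ0 hθ1
        rw [show (1 - θ) * (1 - t) + θ * 0 = -y by linarith] at c1
        rw [show (1 - θ) * t + θ * (2 * t - 1) = y' by linarith] at c2
        rw [Real.rpow_zero] at c1
        nlinarith
      · have hbot := kbot r Q t hr hQ0 hrQ ht.le h0
        obtain ht0 | ht0 := h0.lt_or_eq
        · obtain ⟨θ, hθ⟩ : ∃ θ : ℝ, θ = (y - (t - 1)) / t := ⟨_, rfl⟩
          have hθ0 : 0 ≤ θ := by rw [hθ]; exact div_nonneg (by linarith) ht0.le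
          have hθ1 : θ ≤ 1 := by rw [hθ, div_le_one ht0]; linarith
          have ey : θ * t = y - (t - 1) := by rw [hθ]; field_simp
          have c1 := rpow_interp r (1 - t) (1 - 2 * t) θ hr hθ0 hθ1
          have c2 := rpow_interp Q t 0 θ hQ0 hθ0 hθ1
          rw [show (1 - θ) * (1 - t) + θ * (1 - 2 * t) = -y by linarith] at c1
          rw [show (1 - θ) * t + θ * 0 = y' by linarith] at c2
          rw [Real.rpow_zero] at c2
          nlinarith
        · have e1 : y' = 0 := by linarith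
          have e2 : -y = 1 - 2 * t := by linarith
          rw [e1, e2, Real.rpow_zero]
          linarith
    · rw [if_neg (not_le.2 hy0), if_neg (not_le.2 hy0')]
      have e1 : r ^ (-y) ≤ 1 := Real.rpow_le_one hr.le hr1 (by linarith)
      have e2 : r ^ (-y') ≤ 1 := Real.rpow_le_one hr.le hr1 (by linarith)
      have e3 := prod_le_one e1 e2
      rw [← Real.rpow_add hr, show -y + -y' = 1 - 2 * t by linarith] at e3
      exact e3.trans (kbot r Q t hr hQ0 hrQ (by linarith) h0)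

lemma PN (r Q t : ℝ) (hr : 0 < r) (hr1 : r ≤ 1) (hQ : 1 ≤ Q)
    (hrQ : 4 ≤ (1 + r) * (1 + Q)) (h0 : 0 ≤ t) (h1 : t ≤ 1) (y y' : ℝ) (hy : t - 1 ≤ y)
    (hy1 : y ≤ t) (hs : y + y' = 2 * t - 1) :
    NN r Q y + NN r Q y' ≤ (1 + r) ^ (1 - t) * (1 + Q) ^ t := by
  rcases le_total y y' with h | h
  · exact PN_sorted r Q t hr hr1 hQ hrQ h0 h1 y y' hy (by linarith) hs h
  · rw [add_comm]
    exact PN_sorted r Q t hr hr1 hQ hrQ h0 h1 y' y (by linarith) hy1 (by linarith) h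

lemma NN_lt (r Q y y' : ℝ) (hr : 0 < r) (hr1 : r < 1) (hQ : 1 < Q) (h : y < y') :
    NN r Q y < NN r Q y' := by
  unfold NN
  rcases le_or_gt 0 y with hy0 | hy0
  · rw [if_pos hy0, if_pos (by linarith)]
    exact Real.rpow_lt_rpow_of_exponent_lt hQ h
  · rw [if_neg (not_le.2 hy0)]
    rcases le_or_gt 0 y' with hy0' | hy0'
    · rw [if_pos hy0']
      have e1 : r ^ (-y) < 1 := Real.rpow_lt_one hr.le hr1 (by linarith)
      have e2 : (1 : ℝ) ≤ Q ^ y' := Real.one_le_rpow hQ.le hy0'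
      linarith
    · rw [if_neg (not_le.2 hy0')]
      exact Real.rpow_lt_rpow_of_exponent_gt hr hr1 (by linarith)

/-! the error term -/

noncomputable def ee (L : ℝ) (m : ℕ) (h : ℝ) : ℝ :=
  10 * (1 + Real.exp (-(2 * L))) ^ m * Real.exp (2 * L * h)

lemma ee_pos (L : ℝ) (m : ℕ) (h : ℝ) : 0 < ee L m h := by
  unfold ee; positivity

lemma ee_pascal (L : ℝ) (m : ℕ) (h : ℝ) : ee L (m + 1) h = ee L m h + ee L m (h - 1) := by
  unfold ee
  have e : Real.exp (2 * L * (h - 1)) = Real.exp (2 * L * h) * Real.exp (-(2 * L)) := by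
    rw [← Real.exp_add]; congr 1; ring
  rw [e, pow_succ]
  ring

lemma ee_conv (L : ℝ) (m : ℕ) (x y θ : ℝ) (h0 : 0 ≤ θ) (h1 : θ ≤ 1) :
    ee L m ((1 - θ) * x + θ * y) ≤ (1 - θ) * ee L m x + θ * ee L m y := by
  unfold ee
  have h := convexOn_exp.2 (Set.mem_univ (2 * L * x)) (Set.mem_univ (2 * L * y))
    (by linarith : 0 ≤ 1 - θ) h0 (by ring)
  simp only [smul_eq_mul] at h
  rw [show (1 - θ) * (2 * L * x) + θ * (2 * L * y) = 2 * L * ((1 - θ) * x + θ * y) by ring] at h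
  have hp : 0 ≤ 10 * (1 + Real.exp (-(2 * L))) ^ m := by positivity
  have := mul_le_mul_of_nonneg_left h hp
  linarith

lemma gg_conv (m : ℕ) (x y θ : ℝ) (h0 : 0 ≤ θ) (h1 : θ ≤ 1) :
    gg m ((1 - θ) * x + θ * y) ≤ (1 - θ) * gg m x + θ * gg m y := by
  unfold gg
  rw [Finset.mul_sum, Finset.mul_sum, ← Finset.sum_add_distrib]
  apply Finset.sum_le_sum
  intro j _
  have hc : (0 : ℝ) ≤ m.choose j := by positivity
  have e : |(j : ℝ) - ((1 - θ) * x + θ * y)| ≤ (1 - θ) * |(j : ℝ) - x| + θ * |(j : ℝ) - y| := by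
    have e1 : (j : ℝ) - ((1 - θ) * x + θ * y) = (1 - θ) * ((j : ℝ) - x) + θ * ((j : ℝ) - y) := by
      ring
    rw [e1]
    refine (abs_add_le _ _).trans ?_
    rw [abs_mul, abs_mul, abs_of_nonneg (by linarith : (0 : ℝ) ≤ 1 - θ), abs_of_nonneg h0]
  have := mul_le_mul_of_nonneg_left e hc
  linarith

lemma gg_shift (m a : ℕ) (t : ℝ) (h0 : 0 ≤ t) (h1 : t ≤ 1) :
    gg m (a : ℝ) ≤ gg m ((a : ℝ) + t) + 2 ^ m := by
  rw [← sum_choose_real m]
  unfold gg
  rw [← Finset.sum_add_distrib]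
  apply Finset.sum_le_sum
  intro j _
  have hc : (0 : ℝ) ≤ m.choose j := by positivity
  have e : |(j : ℝ) - a| ≤ |(j : ℝ) - (a + t)| + 1 := by
    have e1 : (j : ℝ) - a = ((j : ℝ) - (a + t)) + t := by ring
    rw [e1]
    refine (abs_add_le _ _).trans ?_
    rw [abs_of_nonneg h0]
    linarith
  have := mul_le_mul_of_nonneg_left e hc
  linarith

/-- the mean term decreases more than the error term increases -/
lemma psi_mono (L : ℝ) (hL0 : 0 ≤ L) (hL : L ≤ 1 / 4) (m a : ℕ) (t : ℝ) (h0 : 0 ≤ t) (h1 : t ≤ 1)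
    (hee : ee L (m + 1) ((a : ℝ) + t) ≤ 2 ^ (m + 1)) :
    gg m ((a : ℝ) + t) + ee L m ((a : ℝ) + t) ≤
      gg m ((a : ℝ) + t - 1) + ee L m ((a : ℝ) + t - 1) := by
  set q := Real.exp (-(2 * L)) with hq
  have hq0 : 0 < q := Real.exp_pos _
  have hq1 : q ≤ 1 := by
    rw [hq, Real.exp_le_one_iff]; linarith
  have hqh : 3 / 5 ≤ q := by
    have h3 : Real.exp (-(1 / 2 : ℝ)) ≤ q := by
      rw [hq]; apply Real.exp_le_exp.2; linarith
    have h4 : (3 / 5 : ℝ) ≤ Real.exp (-(1 / 2 : ℝ)) := by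
      have h5 : Real.exp (1 / 2 : ℝ) ≤ 5 / 3 := by
        have h6 : Real.exp (1 / 2 : ℝ) * Real.exp (1 / 2 : ℝ) = Real.exp 1 := by
          rw [← Real.exp_add]; norm_num
        have h7 := Real.exp_one_lt_d9
        have h8 : 0 < Real.exp (1 / 2 : ℝ) := Real.exp_pos _
        by_contra hcon
        push Not at hcon
        nlinarith
      rw [Real.exp_neg]
      rw [le_inv_comm₀ (by norm_num) (Real.exp_pos _)]
      refine h5.trans (by norm_num)
    linarith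
  set E := ee L m ((a : ℝ) + t) with hE
  have hE0 : 0 < E := ee_pos _ _ _
  have e1 : ee L m ((a : ℝ) + t - 1) = E * q := by
    rw [hE, hq]
    unfold ee
    have e : Real.exp (2 * L * ((a : ℝ) + t - 1)) =
        Real.exp (2 * L * ((a : ℝ) + t)) * Real.exp (-(2 * L)) := by
      rw [← Real.exp_add]; congr 1; ring
    rw [e]
    ring
  have e2 : E * (1 + q) ≤ 2 ^ (m + 1) := by
    rw [ee_pascal, e1] at hee
    linarith
  have e3 : (2 : ℝ) ^ (m + 1) = 2 * 2 ^ m := by rw [pow_succ]; ring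
  have hgg : (2 : ℝ) ^ m - 2 * (E / 10) ≤ gg m ((a : ℝ) + t - 1) - gg m ((a : ℝ) + t) := by
    have k1 : ∑ j ∈ range (m + 1), (m.choose j : ℝ) * Real.exp (-(2 * L * ((j : ℝ) - a))) ≤
        E / 10 := by
      have k2 : ∀ j ∈ range (m + 1), (m.choose j : ℝ) * Real.exp (-(2 * L * ((j : ℝ) - a))) =
          Real.exp (2 * L * a) * ((m.choose j : ℝ) * q ^ j) := by
        intro j _
        have : Real.exp (-(2 * L * ((j : ℝ) - a))) = Real.exp (2 * L * a) * q ^ j := by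
          rw [hq, ← Real.exp_nat_mul, ← Real.exp_add]; congr 1; ring
        rw [this]; ring
      rw [Finset.sum_congr rfl k2, ← Finset.mul_sum]
      have k3 : ∑ j ∈ range (m + 1), (m.choose j : ℝ) * q ^ j = (1 + q) ^ m := by
        rw [add_comm (1 : ℝ), add_pow]
        apply Finset.sum_congr rfl
        intro j _
        rw [one_pow]; ring
      rw [k3, hE]
      unfold ee
      have k4 : Real.exp (2 * L * a) ≤ Real.exp (2 * L * ((a : ℝ) + t)) := by
        apply Real.exp_le_exp.2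
        nlinarith
      have k5 : 0 ≤ (1 + q) ^ m := by positivity
      have := mul_le_mul_of_nonneg_right k4 k5
      rw [← hq]
      linarith
    have k6 : ∑ j ∈ range (m + 1), (m.choose j : ℝ) *
        (1 - 2 * Real.exp (-(2 * L * ((j : ℝ) - a)))) ≤
        gg m ((a : ℝ) + t - 1) - gg m ((a : ℝ) + t) := by
      unfold gg
      rw [← Finset.sum_sub_distrib]
      apply Finset.sum_le_sum
      intro j _
      rw [← mul_sub]
      apply mul_le_mul_of_nonneg_left _ (by positivity)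
      rcases Nat.lt_or_ge a j with hj | hj
      · have hj' : (a : ℝ) + 1 ≤ j := by exact_mod_cast hj
        rw [abs_of_nonneg (by linarith), abs_of_nonneg (by linarith)]
        have := Real.exp_pos (-(2 * L * ((j : ℝ) - a)))
        linarith
      · have hj' : (j : ℝ) ≤ a := by exact_mod_cast hj
        have h3 : 1 ≤ Real.exp (-(2 * L * ((j : ℝ) - a))) := by
          apply Real.one_le_exp
          nlinarith
        have h4 : |(j : ℝ) - ((a : ℝ) + t)| ≤ |(j : ℝ) - ((a : ℝ) + t - 1)| + 1 := by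
          have e : (j : ℝ) - ((a : ℝ) + t) = ((j : ℝ) - ((a : ℝ) + t - 1)) + (-1) := by ring
          rw [e]
          refine (abs_add_le _ _).trans ?_
          norm_num
        linarith
    have k7 : ∑ j ∈ range (m + 1), (m.choose j : ℝ) *
        (1 - 2 * Real.exp (-(2 * L * ((j : ℝ) - a)))) =
        2 ^ m - 2 * ∑ j ∈ range (m + 1), (m.choose j : ℝ) * Real.exp (-(2 * L * ((j : ℝ) - a))) := by
      rw [← sum_choose_real m, Finset.mul_sum, ← Finset.sum_sub_distrib]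
      apply Finset.sum_congr rfl
      intro j _
      ring
    linarith
  have hpow : (0 : ℝ) < 2 ^ m := by positivity
  rw [e1]
  -- E (1 - q) ≤ 2^m - E / 5
  have : E * (1 - q) + 2 * (E / 10) ≤ 2 ^ m := by
    rw [e3] at e2
    nlinarith
  linarith

/-- in the bad region the error term is at least one -/
lemma bad_region (L : ℝ) (hL0 : 0 ≤ L) (hL : L ≤ 1 / 4) (m a : ℕ) (t : ℝ) (h0 : 0 ≤ t)
    (hbad : ((m : ℝ) - 2 * a) ^ 2 < 2 * m + 3) :
    (2 : ℝ) ^ (m + 1) ≤ ee L (m + 1) ((a : ℝ) + t) := by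
  unfold ee
  set d : ℝ := (m : ℝ) - 2 * a with hd
  have hcosh : Real.exp (2 / 5 * L ^ 2) ≤ Real.cosh L := by
    have h1 : 1 + L ^ 2 / 2 ≤ Real.cosh L := by
      have e1 : Real.cosh L = 1 + 2 * Real.sinh (L / 2) ^ 2 := by
        have e2 := Real.cosh_two_mul (L / 2)
        have e3 := Real.cosh_sq (L / 2)
        rw [show 2 * (L / 2) = L by ring] at e2
        rw [e2, e3]
        ring
      have e4 : L / 2 ≤ Real.sinh (L / 2) := Real.self_le_sinh_iff.2 (by linarith)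
      have e5 : (L / 2) ^ 2 ≤ Real.sinh (L / 2) ^ 2 := by
        apply pow_le_pow_left₀ (by linarith) e4
      rw [e1]
      nlinarith
    have h2 : Real.exp (2 / 5 * L ^ 2) ≤ 1 + L ^ 2 / 2 := by
      have hx0 : 0 ≤ 2 / 5 * L ^ 2 := by positivity
      have hx1 : 2 / 5 * L ^ 2 ≤ 1 / 40 := by nlinarith
      have h3 := Real.exp_bound_div_one_sub_of_interval hx0 (by linarith)
      have h4 : 1 / (1 - 2 / 5 * L ^ 2) ≤ 1 + L ^ 2 / 2 := by
        rw [div_le_iff₀ (by linarith)]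
        nlinarith [sq_nonneg L, sq_nonneg (L ^ 2)]
      linarith
    linarith
  have hq : 1 + Real.exp (-(2 * L)) = 2 * Real.exp (-L) * Real.cosh L := by
    rw [Real.cosh_eq]
    have : Real.exp (-L) * Real.exp L = 1 := by rw [← Real.exp_add]; simp
    have h2 : Real.exp (-L) * Real.exp (-L) = Real.exp (-(2 * L)) := by
      rw [← Real.exp_add]; congr 1; ring
    calc 1 + Real.exp (-(2 * L)) = Real.exp (-L) * Real.exp L + Real.exp (-L) * Real.exp (-L) := by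
          rw [this, h2]
      _ = _ := by ring
  have h1 : 2 * Real.exp (-L) * Real.exp (2 / 5 * L ^ 2) ≤ 1 + Real.exp (-(2 * L)) := by
    rw [hq]
    apply mul_le_mul_of_nonneg_left hcosh (by positivity)
  have h2 : (2 * Real.exp (-L) * Real.exp (2 / 5 * L ^ 2)) ^ (m + 1) ≤
      (1 + Real.exp (-(2 * L))) ^ (m + 1) := pow_le_pow_left₀ (by positivity) h1 _
  have h3 : (2 * Real.exp (-L) * Real.exp (2 / 5 * L ^ 2)) ^ (m + 1) =
      2 ^ (m + 1) * Real.exp ((m + 1) * (2 / 5 * L ^ 2 - L)) := by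
    rw [mul_assoc, mul_pow, ← Real.exp_add, ← Real.exp_nat_mul]
    congr 2
    push_cast
    ring
  rw [h3] at h2
  have h4 : Real.exp (2 * L * a) ≤ Real.exp (2 * L * ((a : ℝ) + t)) := by
    apply Real.exp_le_exp.2
    nlinarith
  have h5 : 2 ^ (m + 1) * Real.exp ((m + 1) * (2 / 5 * L ^ 2 - L)) * Real.exp (2 * L * a) ≤
      (1 + Real.exp (-(2 * L))) ^ (m + 1) * Real.exp (2 * L * ((a : ℝ) + t)) := by
    apply mul_le_mul h2 h4 (by positivity) (by positivity)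
  have h6 : Real.exp ((m + 1) * (2 / 5 * L ^ 2 - L)) * Real.exp (2 * L * a) =
      Real.exp (2 / 5 * (m + 1) * L ^ 2 - L * d - L) := by
    rw [← Real.exp_add]
    congr 1
    rw [hd]
    ring
  have h7 : (-2 : ℝ) ≤ 2 / 5 * (m + 1) * L ^ 2 - L * d - L := by
    have e1 : (d ^ 2 - 1) / 2 ≤ (m : ℝ) + 1 := by linarith
    have e2 : 2 / 5 * ((d ^ 2 - 1) / 2) * L ^ 2 ≤ 2 / 5 * ((m : ℝ) + 1) * L ^ 2 := by
      apply mul_le_mul_of_nonneg_right _ (sq_nonneg L)
      linarith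
    nlinarith [sq_nonneg (L * d - 5 / 2)]
  have h8 : (1 / 10 : ℝ) ≤ Real.exp (-2) := by
    rw [Real.exp_neg, le_inv_comm₀ (by norm_num) (Real.exp_pos _)]
    have : Real.exp 2 = Real.exp 1 * Real.exp 1 := by rw [← Real.exp_add]; norm_num
    rw [this]
    have h9 := Real.exp_one_lt_d9
    have h10 := Real.exp_pos 1
    nlinarith
  have h11 : (1 / 10 : ℝ) ≤ Real.exp (2 / 5 * (m + 1) * L ^ 2 - L * d - L) :=
    h8.trans (Real.exp_le_exp.2 h7)
  rw [mul_assoc, h6] at h5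
  have h12 : (2 : ℝ) ^ (m + 1) * (1 / 10) ≤
      2 ^ (m + 1) * Real.exp (2 / 5 * (m + 1) * L ^ 2 - L * d - L) := by
    apply mul_le_mul_of_nonneg_left h11 (by positivity)
  linarith

end LineQ
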